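import Mathlib

set_option autoImplicit false
set_option linter.unusedSectionVars false

/-!
# Paths from the root of a tree
-/

namespace Pool.Agent.helper9.TreeOrd

open SimpleGraph

variable {V : Type*} {G : SimpleGraph V}

/-- `a` lies on a path from `r` to `v`. -/
def OnPath (G : SimpleGraph V) (r v a : V) : Prop := ∃ w : G.Walk r v, w.IsPath ∧ a ∈ w.support

theorem onPath_iff (hG : G.IsTree) {r v : V} {w : G.Walk r v} (hw : w.IsPath) (a : V) :
    OnPath G r v a ↔ a ∈ w.support := by
  constructor
  · rintro ⟨w', hw', ha⟩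
    rwa [(hG.existsUnique_path r v).unique hw hw']
  · intro h
    exact ⟨w, hw, h⟩

theorem onPath_self (G : SimpleGraph V) (r a : V) : OnPath G r r a ↔ a = r := by
  constructor
  · rintro ⟨w, hw, ha⟩
    have h1 := Walk.eq_nil_iff_nil.2 (Walk.isPath_iff_nil.1 hw)
    rw [h1] at ha
    simpa using ha
  · rintro rfl
    exact ⟨Walk.nil, Walk.IsPath.nil, by simp⟩

theorem onPath_concat (hG : G.IsTree) {r u v : V} (h : G.Adj u v) (hv : ¬ OnPath G r u v) (a : V) :
    OnPath G r v a ↔ a = v ∨ OnPath G r u a := by
  obtain ⟨w, hw, _⟩ := hG.existsUnique_path r u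
  rw [onPath_iff hG hw] at hv ⊢
  rw [onPath_iff hG (hw.concat hv h), Walk.support_concat]
  simp only [List.mem_append, List.mem_singleton]
  tauto

theorem tree_induction (hG : G.IsTree) (r : V) (motive : V → Prop) (h0 : motive r)
    (hs : ∀ u v, G.Adj u v → ¬ OnPath G r u v → motive u → motive v) (v : V) : motive v := by
  have key : ∀ (n : ℕ) (v : V) (p : G.Walk r v), p.IsPath → p.length = n → motive v := by
    intro n
    induction n with
    | zero =>
      intro v p _ hp
      have := Walk.eq_of_length_eq_zero hp
      subst this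
      exact h0
    | succ n ih =>
      intro v p hp hlen
      have hnil : ¬ p.Nil := by
        rw [← Walk.length_eq_zero_iff]
        omega
      have hadj := p.adj_penultimate hnil
      have hconc := p.concat_dropLast hadj
      rw [← hconc] at hp hlen
      rw [Walk.concat_isPath_iff] at hp
      rw [Walk.length_concat] at hlen
      refine hs _ _ hadj ?_ (ih _ p.dropLast hp.1 (by omega))
      rw [onPath_iff hG hp.1]
      exact hp.2
  obtain ⟨w, hw, _⟩ := hG.existsUnique_path r v
  exact key _ v w hw rfl

theorem exists_parent (hG : G.IsTree) (r v : V) (hv : v ≠ r) :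
    ∃ u, G.Adj u v ∧ ¬ OnPath G r u v := by
  refine tree_induction hG r (fun v => v ≠ r → ∃ u, G.Adj u v ∧ ¬ OnPath G r u v)
    (fun h => absurd rfl h) (fun u v h1 h2 _ _ => ⟨u, h1, h2⟩) v hv

theorem onPath_end (hG : G.IsTree) (r v : V) : OnPath G r v v := by
  obtain ⟨w, hw, _⟩ := hG.existsUnique_path r v
  exact ⟨w, hw, w.end_mem_support⟩

theorem onPath_start (hG : G.IsTree) (r v : V) : OnPath G r v r := by
  obtain ⟨w, hw, _⟩ := hG.existsUnique_path r v
  exact ⟨w, hw, w.start_mem_support⟩

theorem onPath_trans (hG : G.IsTree) (r : V) {a b c : V} (h1 : OnPath G r b a)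
    (h2 : OnPath G r c b) : OnPath G r c a := by
  revert h2
  refine tree_induction hG r (fun c => OnPath G r c b → OnPath G r c a) ?_ ?_ c
  · intro h
    rw [onPath_self] at h
    subst h
    exact h1
  · intro u v hadj hv ih h
    rw [onPath_concat hG hadj hv] at h
    rcases h with rfl | h
    · exact h1
    · rw [onPath_concat hG hadj hv]
      exact Or.inr (ih h)

theorem onPath_antisymm (hG : G.IsTree) (r : V) {a b : V} (h1 : OnPath G r b a)
    (h2 : OnPath G r a b) : a = b := by
  have key : ∀ a, OnPath G r b a → OnPath G r a b → a = b := by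
    refine tree_induction hG r (fun b => ∀ a, OnPath G r b a → OnPath G r a b → a = b) ?_ ?_ b
    · intro a h _
      rwa [onPath_self] at h
    · intro u v hadj hv ih a h1 h2
      rw [onPath_concat hG hadj hv] at h1
      rcases h1 with rfl | h1
      · rfl
      · exact absurd (onPath_trans hG r h2 h1) hv
  exact key a h1 h2

theorem onPath_total (hG : G.IsTree) (r : V) {a b c : V} (h1 : OnPath G r c a)
    (h2 : OnPath G r c b) : OnPath G r b a ∨ OnPath G r a b := by
  revert h1 h2
  refine tree_induction hG r (fun c => OnPath G r c a → OnPath G r c b →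
    OnPath G r b a ∨ OnPath G r a b) ?_ ?_ c
  · intro h1 h2
    rw [onPath_self] at h1 h2
    subst h1
    subst h2
    exact Or.inl (onPath_end hG _ _)
  · intro u v hadj hv ih h1 h2
    have h1' := h1
    have h2' := h2
    rw [onPath_concat hG hadj hv] at h1 h2
    rcases h1 with rfl | h1
    · exact Or.inr h2'
    · rcases h2 with rfl | h2
      · exact Or.inl h1'
      · exact ih h1 h2

/-- adjacency in terms of the ancestor relation -/
theorem adj_iff (hG : G.IsTree) (r x y : V) :
    (G.Adj x y ∧ OnPath G r y x) ↔
      (y ≠ x ∧ OnPath G r y x ∧ ∀ z, OnPath G r z x → OnPath G r y z → z = x ∨ z = y) := by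
  constructor
  · rintro ⟨hadj, hon⟩
    refine ⟨hadj.ne', hon, fun z hz1 hz2 => ?_⟩
    have hnot : ¬ OnPath G r x y := fun h => hadj.ne (onPath_antisymm hG r hon h)
    rw [onPath_concat hG hadj hnot] at hz2
    rcases hz2 with h | h
    · exact Or.inr h
    · exact Or.inl (onPath_antisymm hG r h hz1)
  · rintro ⟨hne, hon, hz⟩
    refine ⟨?_, hon⟩
    have hyr : y ≠ r := by
      rintro rfl
      rw [onPath_self] at hon
      exact hne hon.symm
    obtain ⟨u, hadj, hv⟩ := exists_parent hG r y hyr
    have hon' := hon
    rw [onPath_concat hG hadj hv] at hon'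
    have hux : OnPath G r u x := by
      rcases hon' with h | h
      · exact absurd h.symm hne
      · exact h
    have huy : OnPath G r y u := by
      rw [onPath_concat hG hadj hv]
      exact Or.inr (onPath_end hG r u)
    rcases hz u hux huy with h | h
    · rw [← h]
      exact hadj
    · exact absurd h hadj.ne

theorem adj_or (hG : G.IsTree) (r x y : V) (h : G.Adj x y) :
    OnPath G r y x ∨ OnPath G r x y := by
  by_cases h1 : OnPath G r x y
  · exact Or.inr h1
  · left
    rw [onPath_concat hG h h1]
    exact Or.inr (onPath_end hG r x)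

theorem adj_iff' (hG : G.IsTree) (r x y : V) :
    G.Adj x y ↔
      (y ≠ x ∧ OnPath G r y x ∧ ∀ z, OnPath G r z x → OnPath G r y z → z = x ∨ z = y) ∨
      (x ≠ y ∧ OnPath G r x y ∧ ∀ z, OnPath G r z y → OnPath G r x z → z = y ∨ z = x) := by
  rw [← adj_iff hG, ← adj_iff hG]
  constructor
  · intro h
    rcases adj_or hG r x y h with h1 | h1
    · exact Or.inl ⟨h, h1⟩
    · exact Or.inr ⟨h.symm, h1⟩
  · rintro (h | h)
    · exact h.1
    · exact h.1.symm

/-- A tree is determined by the ancestor relation. -/
theorem eq_of_onPath_iff {G' : SimpleGraph V} (hG : G.IsTree) (hG' : G'.IsTree) (r : V)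
    (h : ∀ x y, OnPath G r x y ↔ OnPath G' r x y) : G = G' := by
  ext x y
  rw [adj_iff' hG r, adj_iff' hG' r]
  simp only [h]

/-- Construction of a tree from a parent function. -/
theorem exists_tree [Fintype V] (r : V) (A : V → V → Prop) (hirr : ∀ x, ¬ A x x)
    (htrans : ∀ x y z, A x y → A y z → A x z)
    (hchain : ∀ x y z, A x z → A y z → x = y ∨ A x y ∨ A y x)
    (hr : ∀ x, x ≠ r → A r x) :
    ∃ G : SimpleGraph V, G.IsTree ∧ ∀ v a, OnPath G r v a ↔ a = v ∨ A a v := by
  classical
  have hrmin : ∀ x, ¬ A x r := by
    intro x h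
    by_cases hx : x = r
    · subst hx
      exact hirr _ h
    · exact hirr _ (htrans _ _ _ h (hr x hx))
  -- parent
  have hpar : ∀ v : V, ∃ p : V, v ≠ r → A p v ∧ ∀ z, A z v → z = p ∨ A z p := by
    intro v
    by_cases hv : v = r
    · exact ⟨r, fun h => absurd hv h⟩
    · have hne : (Finset.univ.filter (fun z => A z v)).Nonempty :=
        ⟨r, Finset.mem_filter.2 ⟨Finset.mem_univ _, hr v hv⟩⟩
      obtain ⟨p, hp, hmax⟩ := Finset.exists_max_image _
        (fun z => (Finset.univ.filter (fun y => A y z)).card) hne
      rw [Finset.mem_filter] at hp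
      refine ⟨p, fun _ => ⟨hp.2, fun z hz => ?_⟩⟩
      rcases hchain z p v hz hp.2 with h | h | h
      · exact Or.inl h
      · exact Or.inr h
      · exfalso
        have h1 := hmax z (Finset.mem_filter.2 ⟨Finset.mem_univ _, hz⟩)
        have h2 : (Finset.univ.filter (fun y => A y p)).card
            < (Finset.univ.filter (fun y => A y z)).card := by
          apply Finset.card_lt_card
          refine ⟨?_, fun hsub => ?_⟩
          · intro w hw
            rw [Finset.mem_filter] at hw ⊢
            exact ⟨Finset.mem_univ _, htrans _ _ _ hw.2 h⟩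
          · have := hsub (Finset.mem_filter.2 ⟨Finset.mem_univ _, h⟩)
            rw [Finset.mem_filter] at this
            exact hirr _ this.2
        omega
  choose par hpar using hpar
  let G : SimpleGraph V :=
    { Adj := fun x y => (y ≠ r ∧ x = par y) ∨ (x ≠ r ∧ y = par x)
      symm := ⟨fun x y h => h.symm⟩
      loopless := ⟨fun x h => by
        rcases h with h | h <;>
        · have h1 := (hpar x h.1).1
          rw [← h.2] at h1
          exact hirr _ h1⟩ }
  have hadj : ∀ v, v ≠ r → G.Adj (par v) v := fun v hv => Or.inl ⟨hv, rfl⟩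
  -- induction along parents
  have hind : ∀ (motive : V → Prop), motive r → (∀ v, v ≠ r → motive (par v) → motive v) →
      ∀ v, motive v := by
    intro motive h0 hs v
    induction hn : (Finset.univ.filter (fun y => A y v)).card using Nat.strong_induction_on
      generalizing v with
    | _ n ih =>
    by_cases hv : v = r
    · rw [hv]
      exact h0
    · refine hs v hv (ih _ ?_ (par v) rfl)
      rw [← hn]
      apply Finset.card_lt_card
      refine ⟨?_, fun hsub => ?_⟩
      · intro w hw
        rw [Finset.mem_filter] at hw ⊢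
        exact ⟨Finset.mem_univ _, htrans _ _ _ hw.2 (hpar v hv).1⟩
      · have := hsub (Finset.mem_filter.2 ⟨Finset.mem_univ _, (hpar v hv).1⟩)
        rw [Finset.mem_filter] at this
        exact hirr _ this.2
  have hconn : G.Connected := by
    have : Nonempty V := ⟨r⟩
    rw [connected_iff_exists_forall_reachable]
    refine ⟨r, ?_⟩
    refine hind (fun v => G.Reachable r v) (Reachable.refl r) ?_
    intro v hv h
    exact h.trans (hadj v hv).reachable
  have hcard : Nat.card G.edgeSet + 1 = Nat.card V := by
    have h1 : G.edgeSet = (fun v => s(par v, v)) '' {v | v ≠ r} := by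
      ext e
      induction e using Sym2.ind with
      | _ x y =>
      rw [mem_edgeSet]
      simp only [Set.mem_image, Set.mem_ofPred_eq]
      constructor
      · rintro (⟨h1, h2⟩ | ⟨h1, h2⟩)
        · exact ⟨y, h1, by rw [h2]⟩
        · exact ⟨x, h1, by rw [h2, Sym2.eq_swap]⟩
      · rintro ⟨v, hv, h⟩
        rw [Sym2.eq_iff] at h
        rcases h with ⟨h1, h2⟩ | ⟨h1, h2⟩
        · left
          rw [← h1, ← h2]
          exact ⟨hv, rfl⟩
        · right
          rw [← h1, ← h2]
          exact ⟨hv, rfl⟩
    have h2 : Set.InjOn (fun v => s(par v, v)) {v | v ≠ r} := by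
      intro v hv w hw h
      simp only [Set.mem_ofPred_eq] at hv hw
      simp only [Sym2.eq_iff] at h
      rcases h with ⟨_, h⟩ | ⟨h1, h2⟩
      · exact h
      · exfalso
        have a1 := (hpar v hv).1
        have a2 := (hpar w hw).1
        rw [h1] at a1
        rw [← h2] at a2
        exact hirr _ (htrans _ _ _ a1 a2)
    have h3 : Nat.card G.edgeSet = G.edgeSet.ncard := rfl
    rw [h3, h1, h2.ncard_image]
    have h4 : {v : V | v ≠ r} = ((Finset.univ.erase r : Finset V) : Set V) := by
      ext v
      simp
    rw [h4, Set.ncard_coe_finset, Finset.card_erase_of_mem (Finset.mem_univ _),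
      Finset.card_univ, Nat.card_eq_fintype_card]
    have : 0 < Fintype.card V := Fintype.card_pos_iff.2 ⟨r⟩
    omega
  have htree : G.IsTree := isTree_iff_connected_and_card.2 ⟨hconn, hcard⟩
  refine ⟨G, htree, ?_⟩
  refine hind (fun v => ∀ a, OnPath G r v a ↔ a = v ∨ A a v) ?_ ?_
  · intro a
    rw [onPath_self]
    constructor
    · exact Or.inl
    · rintro (h | h)
      · exact h
      · exact absurd h (hrmin a)
  · intro v hv ih a
    have hnot : ¬ OnPath G r (par v) v := by
      rw [ih]
      rintro (h | h)
      · have := (hpar v hv).1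
        rw [← h] at this
        exact hirr _ this
      · exact hirr _ (htrans _ _ _ h (hpar v hv).1)
    rw [onPath_concat htree (hadj v hv) hnot, ih]
    constructor
    · rintro (h | h | h)
      · exact Or.inl h
      · rw [h]
        exact Or.inr (hpar v hv).1
      · exact Or.inr (htrans _ _ _ h (hpar v hv).1)
    · rintro (h | h)
      · exact Or.inl h
      · exact Or.inr ((hpar v hv).2 a h)

end Pool.Agent.helper9.TreeOrd
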