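import Mathlib
import Pool.Agent.helper24.S2S
import Pool.Agent.helper9.S2.Norms

/-!
# Module N with the Sobolev embedding of module S
-/

set_option autoImplicit false

namespace Pool.Agent.helper68.S2

theorem supB : SupB 1 := by
  intro f p m hm
  rw [one_mul]
  exact sup_bound f p m hm

theorem sup_le (f : SS) (p : Sph) : |f p| ^ 2 ≤ 2 * NN 2 f := by
  have := supB.sup_le f p
  simpa using this

theorem agmon (f : SS) (p : Sph) : |f p| ^ 2 ≤ 16 * √(M 0 f) * (√(M 0 f) + √(M 2 f)) := by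
  have := supB.agmon f p
  simpa using this

theorem prod_le (s : ℕ) (hs : 2 ≤ s) : ∃ C, ∀ f g : SS, NN s (f * g) ≤ C * NN s f * NN s g :=
  supB.prod_le s hs

theorem comp_le (s : ℕ) {φ : ℝ → ℝ} (hφ : Nice φ) (K : ℝ) :
    ∃ B, ∀ f : SS, NN s f ≤ K → NN s (cmp φ f) ≤ B := supB.comp_le s hφ K

/-- the static energy inequality -/
theorem energy (s : ℕ) (hs : 1 ≤ s) (c₀ K : ℝ) (hc : 0 < c₀) : ∃ C, ∀ F G B : SS,
    (∀ p, c₀ ≤ G p) → NN s F ≤ K → NN s G ≤ K → NN s B ≤ K → ∀ Q : ℝ,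
    (∀ p, ∑ i, (X i G p) ^ 2 ≤ Q) →
    - Mb s (Lap F) (G * Lap F + B) ≤ -(c₀ / 2) * M (s + 2) F + C * (1 + Q) * (1 + M (s + 1) F) :=
  supB.energy s hs c₀ K hc

end Pool.Agent.helper68.S2
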