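import Pool.Agent.helper9.Isonormal
import Pool.Agent.helper95.GMC.Defs

/-!
Existence of the layered Gaussian field (module C).
-/

open MeasureTheory ProbabilityTheory Filter Topology Set
open scoped ENNReal NNReal

namespace Pool.Agent.helper9.GMC

section Process

variable {H : Type*} [NormedAddCommGroup H] [InnerProductSpace ℝ H] {w : Type*}
  (W : H →ₗᵢ[ℝ] Lp ℝ 2 (PP w)) (hW : ∀ h, CG (PP w) (W h))

include hW

theorem integral_W (h : H) : ∫ ω, W h ω ∂(PP w) = 0 := by
  have hm : AEMeasurable (fun ω => W h ω) (PP w) := (Lp.aestronglyMeasurable (W h)).aemeasurable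
  have h1 : ∫ x, x ∂((PP w).map (W h : (w → ℝ) → ℝ)) = ∫ ω, W h ω ∂(PP w) :=
    integral_map hm (by fun_prop)
  rw [← h1, (hW h).map_eq, integral_id_gaussianReal]

theorem cov_W (h g : H) : cov[W h, W g; PP w] = inner ℝ h g := by
  rw [covariance_eq_sub (Lp.memLp _) (Lp.memLp _), integral_W W hW, integral_W W hW,
    ← W.inner_map_map, L2.inner_def]
  simp [mul_comm]

theorem process_W {T : Type*} (h : T → H) :
    IsGaussianProcess (fun (t : T) (ω : w → ℝ) => W (h t) ω) (PP w) := by
  classical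
  constructor
  intro I
  constructor
  have hm : ∀ g : H, AEMeasurable (fun ω => W g ω) (PP w) := fun g =>
    (Lp.aestronglyMeasurable (W g)).aemeasurable
  have hm2 : AEMeasurable (fun ω : w → ℝ => I.restrict fun t => W (h t) ω) (PP w) := by
    rw [aemeasurable_pi_iff]
    intro i
    exact hm _
  refine isGaussian_of_map_eq_gaussianReal fun L => ?_
  refine ⟨0, (‖∑ i : I, L (Pi.single i 1) • h i‖ ^ 2).toNNReal, ?_⟩
  rw [AEMeasurable.map_map_of_aemeasurable (by fun_prop) hm2]
  rw [← W.norm_map, ← (hW _).map_eq]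
  refine Measure.map_congr ?_
  have e1 : W (∑ i : I, L (Pi.single i 1) • h i) = ∑ i : I, L (Pi.single i 1) • W (h i) := by
    rw [map_sum]
    simp
  rw [e1]
  have e2 : ∀ᵐ ω ∂(PP w), (∑ i : I, L (Pi.single i 1) • W (h i) : Lp ℝ 2 (PP w)) ω =
      ∑ i : I, L (Pi.single i 1) * W (h i) ω := by
    have key : ∀ (s : Finset I), ∀ᵐ ω ∂(PP w), (∑ i ∈ s, L (Pi.single i 1) • W (h i) : Lp ℝ 2 (PP w)) ω =
      ∑ i ∈ s, L (Pi.single i 1) * W (h i) ω := by
      intro s
      induction s using Finset.induction_on with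
      | empty =>
        simp only [Finset.sum_empty]
        exact Lp.coeFn_zero ℝ 2 (PP w)
      | insert a s ha ih =>
        rw [Finset.sum_insert ha]
        filter_upwards [ih, Lp.coeFn_add (L (Pi.single a 1) • W (h a))
          (∑ i ∈ s, L (Pi.single i 1) • W (h i)), Lp.coeFn_smul (L (Pi.single a 1)) (W (h a))]
          with ω h1 h2 h3
        rw [h2, Pi.add_apply, h1, h3, Finset.sum_insert ha]
        simp
    exact key Finset.univ
  filter_upwards [e2] with ω hω
  rw [hω]
  simp only [Function.comp_apply]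
  have h5 : (I.restrict fun t => W (h t) ω) = ∑ i : I, (W (h i) ω) • (Pi.single i (1 : ℝ) : I → ℝ) := by
    ext j
    simp [Finset.sum_apply, Pi.single_apply]
  rw [h5, map_sum]
  refine Finset.sum_congr rfl fun i _ => ?_
  rw [map_smul, smul_eq_mul, mul_comm]

end Process

section Cone

/-- length of the section -/
noncomputable def ell (i : ℕ) (u : ℝ) : ℝ := if i = 0 then 1 else u⁻¹

/-- lower end -/
noncomputable def lo (i : ℕ) : ℝ := if i = 0 then 0 else 2 ^ (i - 1)

/-- upper end -/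
noncomputable def hi (i : ℕ) : ℝ := 2 ^ i

/-- cone sets -/
def cone (i : ℕ) (x : ℝ) : Set (ℝ × ℝ) :=
  {p | p.1 ∈ Ioc (lo i) (hi i) ∧ x ≤ p.2 ∧ p.2 ≤ x + ell i p.1}

theorem measurable_ell (i : ℕ) : Measurable (ell i) := by
  unfold ell
  split_ifs
  · exact measurable_const
  · exact measurable_inv

theorem measurableSet_cone (i : ℕ) (x : ℝ) : MeasurableSet (cone i x) := by
  unfold cone
  have h := measurable_ell i
  refine MeasurableSet.inter (measurable_fst measurableSet_Ioc) (MeasurableSet.inter ?_ ?_)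
  · exact measurableSet_le measurable_const measurable_snd
  · exact measurableSet_le measurable_snd (measurable_const.add (h.comp measurable_fst))

theorem lo_hi_disjoint {i j : ℕ} (h : i < j) : hi i ≤ lo j := by
  unfold lo hi
  rw [if_neg (by omega)]
  exact pow_le_pow_right₀ (by norm_num) (by omega)

theorem volume_cone_inter (i : ℕ) (x y : ℝ) :
    volume (cone i x ∩ cone i y) =
      ∫⁻ u in Ioc (lo i) (hi i), ENNReal.ofReal (ell i u - |x - y|) := by
  rw [Measure.volume_eq_prod, Measure.prod_apply ((measurableSet_cone i x).inter (measurableSet_cone i y))]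
  rw [← lintegral_indicator measurableSet_Ioc]
  refine lintegral_congr fun u => ?_
  by_cases hu : u ∈ Ioc (lo i) (hi i)
  · rw [indicator_of_mem hu]
    have : Prod.mk u ⁻¹' (cone i x ∩ cone i y) = Icc (max x y) (min x y + ell i u) := by
      ext v
      simp only [cone, mem_preimage, mem_inter_iff, mem_ofPred_eq, mem_Icc]
      constructor
      · rintro ⟨⟨_, h1, h2⟩, ⟨_, h3, h4⟩⟩
        refine ⟨max_le h1 h3, ?_⟩
        rcases min_choice x y with h | h <;> rw [h] <;> assumption
      · rintro ⟨h1, h2⟩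
        have h3 := le_max_left x y
        have h4 := le_max_right x y
        have h5 := min_le_left x y
        have h6 := min_le_right x y
        exact ⟨⟨hu, by linarith, by linarith⟩, ⟨hu, by linarith, by linarith⟩⟩
    rw [this, Real.volume_Icc]
    congr 1
    rcases le_total x y with h | h
    · rw [max_eq_right h, min_eq_left h, abs_of_nonpos (by linarith)]; ring
    · rw [max_eq_left h, min_eq_right h, abs_of_nonneg (by linarith)]; ring
  · rw [indicator_of_notMem hu]
    have : Prod.mk u ⁻¹' (cone i x ∩ cone i y) = ∅ := by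
      ext v
      simp only [cone, mem_preimage, mem_inter_iff, mem_ofPred_eq, mem_empty_iff_false, iff_false]
      rintro ⟨⟨h, _⟩, _⟩
      exact hu h
    rw [this, measure_empty]

theorem cone_disjoint {i j : ℕ} (h : i ≠ j) (x y : ℝ) : cone i x ∩ cone j y = ∅ := by
  ext p
  simp only [cone, mem_inter_iff, mem_ofPred_eq, mem_empty_iff_false, iff_false, mem_Ioc]
  rintro ⟨⟨h1, _⟩, ⟨h2, _⟩⟩
  rcases lt_or_gt_of_ne h with h | h
  · have := lo_hi_disjoint h
    linarith [h1.2, h2.1]
  · have := lo_hi_disjoint h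
    linarith [h1.1, h2.2]

theorem int_piece {a b z : ℝ} (ha : 0 < a) (hab : a ≤ b) (hz : 0 ≤ z) (hzb : z * b ≤ 1) :
    ∫⁻ u in Ioc a b, ENNReal.ofReal (u⁻¹ - z) = ENNReal.ofReal (Real.log (b / a) - z * (b - a)) ∧
    0 ≤ Real.log (b / a) - z * (b - a) := by
  have hb : 0 < b := ha.trans_le hab
  have hcont : ContinuousOn (fun u : ℝ => u⁻¹ - z) (uIcc a b) := by
    rw [uIcc_of_le hab]
    refine ContinuousOn.sub (continuousOn_inv₀.mono fun u hu => ?_) continuousOn_const
    exact (ha.trans_le hu.1).ne'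
  have hint : IntervalIntegrable (fun u : ℝ => u⁻¹ - z) volume a b := hcont.intervalIntegrable
  have hinv : IntervalIntegrable (fun u : ℝ => u⁻¹) volume a b := by
    refine ContinuousOn.intervalIntegrable ?_
    rw [uIcc_of_le hab]
    exact continuousOn_inv₀.mono fun u hu => (ha.trans_le hu.1).ne'
  have hval : ∫ u in a..b, (u⁻¹ - z) = Real.log (b / a) - z * (b - a) := by
    rw [intervalIntegral.integral_sub hinv (by simp), integral_inv_of_pos ha hb]
    simp
    ring
  have hnn : ∀ u ∈ Ioc a b, 0 ≤ u⁻¹ - z := by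
    intro u hu
    have hu0 : 0 < u := ha.trans hu.1
    rw [sub_nonneg, ← one_div, le_div_iff₀ hu0]
    calc z * u ≤ z * b := mul_le_mul_of_nonneg_left hu.2 hz
      _ ≤ 1 := hzb
  have hI : Integrable (fun u : ℝ => u⁻¹ - z) (volume.restrict (Ioc a b)) :=
    (intervalIntegrable_iff_integrableOn_Ioc_of_le hab).1 hint
  have hae : 0 ≤ᵐ[volume.restrict (Ioc a b)] fun u : ℝ => u⁻¹ - z :=
    (ae_restrict_iff' measurableSet_Ioc).2 (ae_of_all _ hnn)
  have h1 := ofReal_integral_eq_lintegral_ofReal hI hae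
  rw [intervalIntegral.integral_of_le hab] at hval
  rw [hval] at h1
  refine ⟨h1.symm, ?_⟩
  rw [← hval]
  exact integral_nonneg_of_ae hae

open Pool.Agent.helper95.GMC in
theorem layer_zero (z : ℝ) (hz : 0 ≤ z) :
    ∫⁻ u in Ioc (lo 0) (hi 0), ENNReal.ofReal (ell 0 u - z) = ENNReal.ofReal (kap 0 z) ∧
    0 ≤ kap 0 z := by
  have h1 : kap 0 z = if z ≤ 1 then 1 - z else 0 := by
    simp only [kap, K, abs_of_nonneg hz]
    norm_num
    split_ifs <;> rfl
  have h2 : ∫⁻ u in Ioc (lo 0) (hi 0), ENNReal.ofReal (ell 0 u - z) = ENNReal.ofReal (1 - z) := by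
    simp [ell, lo, hi]
  rw [h2, h1]
  split_ifs with h
  · exact ⟨rfl, by linarith⟩
  · refine ⟨?_, le_rfl⟩
    rw [ENNReal.ofReal_zero, ENNReal.ofReal_eq_zero]
    linarith

open Pool.Agent.helper95.GMC in
theorem layer_succ (k : ℕ) (z : ℝ) (hz : 0 ≤ z) :
    ∫⁻ u in Ioc (lo (k + 1)) (hi (k + 1)), ENNReal.ofReal (ell (k + 1) u - z) =
      ENNReal.ofReal (kap (k + 1) z) ∧ 0 ≤ kap (k + 1) z := by
  have hell : ∀ u, ell (k + 1) u = u⁻¹ := fun u => by simp [ell]
  have hlo : lo (k + 1) = 2 ^ k := by simp [lo]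
  have hhi : hi (k + 1) = 2 ^ (k + 1) := rfl
  simp only [hell, hlo, hhi]
  have hp : (0 : ℝ) < 2 ^ k := by positivity
  have hp1 : (1 : ℝ) ≤ 2 ^ k := one_le_pow₀ (by norm_num)
  have hp2 : (2 : ℝ) ^ (k + 1) = 2 * 2 ^ k := by rw [pow_succ]; ring
  have hle : (2 : ℝ) ^ k ≤ 2 ^ (k + 1) := by rw [hp2]; linarith
  have habs : |z| = z := abs_of_nonneg hz
  rcases le_or_gt z ((2 ^ (k + 1) : ℝ)⁻¹) with h1 | h1
  · -- small z
    have h2 : z ≤ ((2 ^ k : ℝ)⁻¹) := h1.trans (inv_anti₀ hp hle)
    have h3 : z * 2 ^ (k + 1) ≤ 1 := by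
      calc z * 2 ^ (k + 1) ≤ (2 ^ (k + 1) : ℝ)⁻¹ * 2 ^ (k + 1) := by gcongr
        _ = 1 := inv_mul_cancel₀ (by positivity)
    have h4 : kap (k + 1) z = Real.log (2 ^ (k + 1) / 2 ^ k) - z * (2 ^ (k + 1) - 2 ^ k) := by
      simp only [kap, K, habs, if_pos h1, if_pos h2]
      rw [hp2, mul_div_assoc, div_self hp.ne', mul_one]
      push_cast
      ring
    rw [h4]
    exact int_piece hp hle hz h3
  · rcases le_or_gt z ((2 ^ k : ℝ)⁻¹) with h2 | h2
    · have hz0 : 0 < z := lt_trans (by positivity) h1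
      have hb1 : (2 : ℝ) ^ k ≤ z⁻¹ := by
        rw [le_inv_comm₀ hp hz0]; exact h2
      have hb2 : z⁻¹ ≤ 2 ^ (k + 1) := by
        rw [inv_le_comm₀ hz0 (by positivity)]; exact h1.le
      have hz1 : z ≤ 1 := h2.trans (inv_le_one_of_one_le₀ hp1)
      have h4 : kap (k + 1) z = Real.log (z⁻¹ / 2 ^ k) - z * (z⁻¹ - 2 ^ k) := by
        simp only [kap, K, habs, if_neg (not_le.2 h1), if_pos h2, if_pos hz1]
        rw [Real.log_div (inv_ne_zero hz0.ne') hp.ne', Real.log_inv, Real.log_pow, mul_sub,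
          mul_inv_cancel₀ hz0.ne']
        ring
      rw [h4]
      have h5 := int_piece hp hb1 hz (le_of_eq (mul_inv_cancel₀ hz0.ne'))
      refine ⟨?_, h5.2⟩
      rw [← h5.1, ← Ioc_union_Ioc_eq_Ioc hb1 hb2, lintegral_union measurableSet_Ioc
        (Ioc_disjoint_Ioc_of_le le_rfl)]
      have h6 : ∫⁻ u in Ioc z⁻¹ (2 ^ (k + 1)), ENNReal.ofReal (u⁻¹ - z) = 0 := by
        rw [setLIntegral_congr_fun measurableSet_Ioc (g := fun _ => 0) fun u hu => ?_]
        · simp
        · beta_reduce
          rw [ENNReal.ofReal_eq_zero, sub_nonpos]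
          have hu0 : 0 < u := lt_of_lt_of_le (inv_pos.2 hz0) hu.1.le
          rw [inv_le_comm₀ hu0 hz0]
          exact hu.1.le
      rw [h6, add_zero]
    · have h4 : kap (k + 1) z = 0 := by
        simp only [kap, K, habs, if_neg (not_le.2 h1), if_neg (not_le.2 h2)]
        split_ifs <;> ring
      rw [h4]
      refine ⟨?_, le_rfl⟩
      have hz0 : 0 < z := lt_trans (by positivity) h1
      rw [setLIntegral_congr_fun measurableSet_Ioc (g := fun _ => 0) fun u hu => ?_]
      · simp
      · beta_reduce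
        rw [ENNReal.ofReal_eq_zero, sub_nonpos]
        have hu0 : 0 < u := hp.trans hu.1
        rw [inv_le_comm₀ hu0 hz0]
        exact ((inv_lt_comm₀ hp hz0).1 h2).le.trans hu.1.le

open Pool.Agent.helper95.GMC in
theorem layer (i : ℕ) (z : ℝ) (hz : 0 ≤ z) :
    ∫⁻ u in Ioc (lo i) (hi i), ENNReal.ofReal (ell i u - z) = ENNReal.ofReal (kap i z) ∧
    0 ≤ kap i z := by
  cases i with
  | zero => exact layer_zero z hz
  | succ k => exact layer_succ k z hz

open Pool.Agent.helper95.GMC in
theorem kap_abs (i : ℕ) (z : ℝ) : kap i |z| = kap i z := by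
  cases i with
  | zero => simp [kap, K]
  | succ k => simp [kap, K]

open Pool.Agent.helper95.GMC in
theorem volume_real_cone_inter (i : ℕ) (x y : ℝ) :
    volume.real (cone i x ∩ cone i y) = kap i (x - y) := by
  have h := layer i |x - y| (abs_nonneg _)
  rw [measureReal_def, volume_cone_inter, h.1, ENNReal.toReal_ofReal h.2, kap_abs]

theorem volume_cone_ne_top (i : ℕ) (x : ℝ) : volume (cone i x) ≠ ∞ := by
  have h := layer i |x - x| (abs_nonneg _)
  have h2 := volume_cone_inter i x x
  rw [inter_self, h.1] at h2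
  rw [h2]
  exact ENNReal.ofReal_ne_top

end Cone

end Pool.Agent.helper9.GMC

namespace Pool.Agent.helper95.GMC

open Pool.Agent.helper9.GMC

/-- existence of the layered field -/
theorem exists_coneField : ∃ (Ω : Type) (_ : MeasurableSpace Ω) (P : Measure Ω)
    (Z : ℕ → ℝ → Ω → ℝ), IsProbabilityMeasure P ∧ ConeField P Z := by
  obtain ⟨w, W, hW⟩ := exists_isonormal (Lp ℝ 2 (volume : Measure (ℝ × ℝ)))
  set h : ℕ × ℝ → Lp ℝ 2 (volume : Measure (ℝ × ℝ)) := fun p =>
    indicatorConstLp 2 (measurableSet_cone p.1 p.2) (volume_cone_ne_top p.1 p.2) (1 : ℝ) with hh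
  refine ⟨w → ℝ, inferInstance, PP w, fun i x ω => W (h (i, x)) ω, inferInstance, ?_, ?_, ?_, ?_⟩
  · intro i x
    exact (Lp.stronglyMeasurable _).measurable
  · exact process_W W hW h
  · intro i x
    exact integral_W W hW _
  · intro i j x y
    have h1 := cov_W W hW (h (i, x)) (h (j, y))
    rw [h1, hh]
    rw [L2.real_inner_indicatorConstLp_one_indicatorConstLp_one (measurableSet_cone i x)
      (measurableSet_cone j y) (volume_cone_ne_top i x) (volume_cone_ne_top j y)]
    split_ifs with hij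
    · subst hij
      exact volume_real_cone_inter i x y
    · rw [cone_disjoint hij]
      simp

end Pool.Agent.helper95.GMC
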