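import Pool.Agent.helper9.ConeField

/-!
A jointly measurable version of the layered field.
-/

open MeasureTheory ProbabilityTheory Filter Topology Set
open scoped ENNReal NNReal

namespace Pool.Agent.helper95.GMC

open Pool.Agent.helper9.GMC

theorem kap_zero_sub_le (i : ℕ) : ∃ L : ℝ, 0 ≤ L ∧ ∀ z, kap i 0 - kap i z ≤ L * |z| := by
  -- near `0` the kernel is affine, away from `0` use nonnegativity
  have hnn : ∀ z, 0 ≤ kap i z := fun z => by
    rw [← kap_abs]; exact (layer i |z| (abs_nonneg z)).2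
  have hnear : ∃ L0 : ℝ, 0 ≤ L0 ∧ ∀ z, |z| ≤ (2 ^ i : ℝ)⁻¹ → kap i 0 - kap i z ≤ L0 * |z| := by
    cases i with
    | zero =>
      refine ⟨1, zero_le_one, fun z hz => ?_⟩
      simp only [kap, K, abs_zero]
      rw [if_pos hz, if_pos (by positivity)]
      simp
    | succ k =>
      refine ⟨2 ^ k, by positivity, fun z hz => ?_⟩
      have hp : (0 : ℝ) < 2 ^ k := by positivity
      have hp2 : (2 : ℝ) ^ (k + 1) = 2 * 2 ^ k := by rw [pow_succ]; ring
      have h2 : |z| ≤ ((2 ^ k : ℝ)⁻¹) := hz.trans (inv_anti₀ hp (by rw [hp2]; linarith))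
      simp only [kap, K, abs_zero]
      rw [if_pos hz, if_pos h2, if_pos (by positivity), if_pos (by positivity)]
      rw [hp2]
      push_cast
      nlinarith [abs_nonneg z]
  obtain ⟨L0, hL0, h⟩ := hnear
  refine ⟨max L0 (kap i 0 * 2 ^ i), le_max_of_le_left hL0, fun z => ?_⟩
  rcases le_or_gt |z| ((2 ^ i : ℝ)⁻¹) with hz | hz
  · exact (h z hz).trans (mul_le_mul_of_nonneg_right (le_max_left _ _) (abs_nonneg z))
  · have h1 : kap i 0 ≤ (kap i 0 * 2 ^ i) * |z| := by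
      have h2 : 1 ≤ 2 ^ i * |z| := by
        rw [inv_lt_iff_one_lt_mul₀ (by positivity)] at hz
        linarith
      have := mul_le_mul_of_nonneg_left h2 (hnn 0)
      linarith
    have h3 : (kap i 0 * 2 ^ i) * |z| ≤ max L0 (kap i 0 * 2 ^ i) * |z| :=
      mul_le_mul_of_nonneg_right (le_max_right _ _) (abs_nonneg z)
    linarith [hnn z]

/-- dyadic approximation -/
noncomputable def dy (m : ℕ) (x : ℝ) : ℝ := (⌊2 ^ m * x⌋ : ℝ) / 2 ^ m

theorem abs_dy_sub_le (m : ℕ) (x : ℝ) : |dy m x - x| ≤ (2 ^ m : ℝ)⁻¹ := by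
  unfold dy
  have hp : (0 : ℝ) < 2 ^ m := by positivity
  have h1 := Int.floor_le (2 ^ m * x)
  have h2 := Int.lt_floor_add_one (2 ^ m * x)
  have e : (⌊2 ^ m * x⌋ : ℝ) / 2 ^ m - x = ((⌊2 ^ m * x⌋ : ℝ) - 2 ^ m * x) / 2 ^ m := by
    field_simp
  rw [e, abs_div, abs_of_pos hp, div_eq_mul_inv]
  have h3 : |(⌊2 ^ m * x⌋ : ℝ) - 2 ^ m * x| ≤ 1 := by
    rw [abs_le]; constructor <;> linarith
  calc |(⌊2 ^ m * x⌋ : ℝ) - 2 ^ m * x| * (2 ^ m : ℝ)⁻¹ ≤ 1 * (2 ^ m : ℝ)⁻¹ := by gcongr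
    _ = _ := one_mul _

theorem measurable_dy {Ω : Type*} [MeasurableSpace Ω] (Z : ℝ → Ω → ℝ) (hZ : ∀ x, Measurable (Z x))
    (m : ℕ) : Measurable (fun q : ℝ × Ω => Z (dy m q.1) q.2) := by
  have h1 : Measurable (fun p : ℤ × Ω => Z ((p.1 : ℝ) / 2 ^ m) p.2) := by
    refine measurable_from_prod_countable_right fun k => ?_
    exact hZ ((k : ℝ) / 2 ^ m)
  have h2 : Measurable (fun q : ℝ × Ω => ((⌊2 ^ m * q.1⌋ : ℤ), q.2)) :=
    (Int.measurable_floor.comp (measurable_const.mul measurable_fst)).prodMk measurable_snd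
  exact h1.comp h2

theorem ae_tendsto_dy {Ω : Type*} [MeasurableSpace Ω] {P : Measure Ω} {Z : ℕ → ℝ → Ω → ℝ}
    [IsProbabilityMeasure P] (h : ConeField P Z) (i : ℕ) (x : ℝ) :
    ∀ᵐ ω ∂P, Tendsto (fun m => Z i (dy m x) ω) atTop (𝓝 (Z i x ω)) := by
  obtain ⟨L, hL, hLz⟩ := kap_zero_sub_le i
  have hmem : ∀ x, MemLp (Z i x) 2 P := fun x =>
    (h.gauss.hasGaussianLaw_eval (i, x)).memLp_two
  have hsub : ∀ m, MemLp (fun ω => Z i (dy m x) ω - Z i x ω) 2 P := fun m =>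
    (hmem (dy m x)).sub (hmem x)
  have hsq : ∀ m, ∫ ω, (Z i (dy m x) ω - Z i x ω) ^ 2 ∂P ≤ 2 * L * (2 ^ m : ℝ)⁻¹ := by
    intro m
    have h1 : ∫ ω, (Z i (dy m x) ω - Z i x ω) ^ 2 ∂P = Var[fun ω => Z i (dy m x) ω - Z i x ω; P] := by
      rw [variance_eq_integral (hsub m).aemeasurable]
      have h2 : ∫ ω, (Z i (dy m x) ω - Z i x ω) ∂P = 0 := by
        rw [integral_sub ((hmem _).integrable (by norm_num)) ((hmem _).integrable (by norm_num)),
          h.mean, h.mean, sub_zero]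
      rw [h2]
      simp
    have h2 : Var[fun ω => Z i (dy m x) ω - Z i x ω; P] = 2 * (kap i 0 - kap i (dy m x - x)) := by
      rw [variance_fun_sub (hmem _) (hmem _), ← covariance_self (hmem _).aemeasurable,
        ← covariance_self (hmem _).aemeasurable, h.cov, h.cov, h.cov]
      simp
      ring
    rw [h1, h2]
    have h3 := hLz (dy m x - x)
    have h4 := mul_le_mul_of_nonneg_left (abs_dy_sub_le m x) hL
    linarith
  -- summability
  have hint : ∀ m, ∫⁻ ω, ENNReal.ofReal ((Z i (dy m x) ω - Z i x ω) ^ 2) ∂P ≤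
      ENNReal.ofReal (2 * L * (2 ^ m : ℝ)⁻¹) := by
    intro m
    rw [← ofReal_integral_eq_lintegral_ofReal (hsub m).integrable_sq
      (ae_of_all _ fun _ => sq_nonneg _)]
    exact ENNReal.ofReal_le_ofReal (hsq m)
  have hmeas : ∀ m, AEMeasurable (fun ω => ENNReal.ofReal ((Z i (dy m x) ω - Z i x ω) ^ 2)) P := by
    intro m
    have h1 := h.meas i (dy m x)
    have h2 := h.meas i x
    fun_prop
  have hsum : ∫⁻ ω, ∑' m, ENNReal.ofReal ((Z i (dy m x) ω - Z i x ω) ^ 2) ∂P < ∞ := by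
    rw [lintegral_tsum hmeas]
    have hs : Summable (fun m : ℕ => 2 * L * (2 ^ m : ℝ)⁻¹) := by
      refine Summable.mul_left _ ?_
      have := summable_geometric_two
      refine this.congr fun m => ?_
      rw [one_div, inv_pow]
    calc ∑' m, ∫⁻ ω, ENNReal.ofReal ((Z i (dy m x) ω - Z i x ω) ^ 2) ∂P ≤
        ∑' m : ℕ, ENNReal.ofReal (2 * L * (2 ^ m : ℝ)⁻¹) := ENNReal.tsum_le_tsum hint
      _ = ENNReal.ofReal (∑' m : ℕ, 2 * L * (2 ^ m : ℝ)⁻¹) :=
        (ENNReal.ofReal_tsum_of_nonneg (fun m => by positivity) hs).symm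
      _ < ∞ := ENNReal.ofReal_lt_top
  have hae := ae_lt_top' (AEMeasurable.tsum hmeas) hsum.ne
  filter_upwards [hae] with ω hω
  have h1 := ENNReal.tendsto_atTop_zero_of_tsum_ne_top hω.ne
  have h2 : Tendsto (fun m => (Z i (dy m x) ω - Z i x ω) ^ 2) atTop (𝓝 0) := by
    have h3 := (ENNReal.tendsto_toReal ENNReal.zero_ne_top).comp h1
    simp only [Function.comp_def, ENNReal.toReal_zero] at h3
    refine h3.congr fun m => ?_
    rw [ENNReal.toReal_ofReal (sq_nonneg _)]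
  have h3 : Tendsto (fun m => |Z i (dy m x) ω - Z i x ω|) atTop (𝓝 0) := by
    have h4 := (Real.continuous_sqrt.tendsto 0).comp h2
    simp only [Function.comp_def, Real.sqrt_zero, Real.sqrt_sq_eq_abs] at h4
    exact h4
  have h4 := (tendsto_zero_iff_abs_tendsto_zero _).2 h3
  have h5 := h4.add_const (Z i x ω)
  simpa using h5

/-- the measurable version -/
noncomputable def Zver {Ω : Type*} (Z : ℕ → ℝ → Ω → ℝ) (i : ℕ) (x : ℝ) (ω : Ω) : ℝ :=
  limsup (fun m => Z i (dy m x) ω) atTop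

theorem measurable_Zver {Ω : Type*} [MeasurableSpace Ω] (Z : ℕ → ℝ → Ω → ℝ)
    (hZ : ∀ i x, Measurable (Z i x)) (i : ℕ) :
    Measurable (fun q : ℝ × Ω => Zver Z i q.1 q.2) := by
  unfold Zver
  exact Measurable.limsup (f := fun m (q : ℝ × Ω) => Z i (dy m q.1) q.2)
    fun m => measurable_dy (Z i) (hZ i) m

/-- jointly measurable version of the field -/
theorem exists_coneField_measurable : ∃ (Ω : Type) (_ : MeasurableSpace Ω) (P : Measure Ω)
    (Z : ℕ → ℝ → Ω → ℝ), IsProbabilityMeasure P ∧ ConeField P Z ∧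
      ∀ i, Measurable (fun q : ℝ × Ω => Z i q.1 q.2) := by
  obtain ⟨Ω, mΩ, P, Z, hP, h⟩ := exists_coneField
  have hjoint := measurable_Zver Z h.meas
  have hae : ∀ i x, Z i x =ᵐ[P] Zver Z i x := by
    intro i x
    filter_upwards [ae_tendsto_dy h i x] with ω hω
    exact hω.limsup_eq.symm
  refine ⟨Ω, mΩ, P, Zver Z, hP, ⟨?_, ?_, ?_, ?_⟩, hjoint⟩
  · intro i x
    have h2 : Measurable (fun ω : Ω => ((x, ω) : ℝ × Ω)) := measurable_prodMk_left
    have h3 := (hjoint i).comp h2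
    simp only [Function.comp_def] at h3
    exact h3
  · refine IsGaussianProcess.congr (X := fun p : ℕ × ℝ => Z p.1 p.2)
      (Y := fun p : ℕ × ℝ => Zver Z p.1 p.2) h.gauss ?_
    intro p
    exact hae p.1 p.2
  · intro i x
    rw [← h.mean i x]
    exact integral_congr_ae (hae i x).symm
  · intro i j x y
    rw [← h.cov i j x y]
    unfold covariance
    rw [integral_congr_ae (hae i x), integral_congr_ae (hae j y)]
    refine integral_congr_ae ?_
    filter_upwards [hae i x, hae j y] with ω h1 h2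
    rw [h1, h2]

end Pool.Agent.helper95.GMC
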