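import Pool.Agent.helper9.SetRec

set_option autoImplicit false
set_option linter.unusedSectionVars false

/-!
# Rooted forests as orders, and their inversions

A rooted forest on a finite set is represented by its (strict) ancestor relation.
-/

namespace Pool.Agent.helper9.ForestOrd

open Finset Polynomial SetRec

variable {α : Type*} [LinearOrder α]

/-- `R` is the strict ancestor relation of a rooted forest with vertex set `V`:
`(x, y) ∈ R` means that `x` is a proper ancestor of `y`. -/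
structure IsFO (V : Finset α) (R : Finset (α × α)) : Prop where
  sub : ∀ x y, (x, y) ∈ R → x ∈ V ∧ y ∈ V
  irrefl : ∀ x, (x, x) ∉ R
  trans : ∀ x y z, (x, y) ∈ R → (y, z) ∈ R → (x, z) ∈ R
  chain : ∀ x y z, (x, z) ∈ R → (y, z) ∈ R → x = y ∨ (x, y) ∈ R ∨ (y, x) ∈ R

open Classical in
/-- all forest orders on `V` -/
noncomputable def FO (V : Finset α) : Finset (Finset (α × α)) :=
  (V ×ˢ V).powerset.filter (IsFO V)

theorem mem_FO {V : Finset α} {R : Finset (α × α)} : R ∈ FO V ↔ IsFO V R := by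
  classical
  unfold FO
  rw [Finset.mem_filter, Finset.mem_powerset]
  refine ⟨fun h => h.2, fun h => ⟨?_, h⟩⟩
  rintro ⟨x, y⟩ hp
  rw [Finset.mem_product]
  exact h.sub x y hp

/-- number of inversions -/
def inv (R : Finset (α × α)) : ℕ := (R.filter (fun p => p.2 < p.1)).card

/-- `s` is a root of the forest order `R` on `V` -/
def IsRoot (V : Finset α) (R : Finset (α × α)) (s : α) : Prop := s ∈ V ∧ ∀ y, (y, s) ∉ R

/-- put `s` below the forest order `R₁` on `C.erase s`, next to `R₂` -/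
def glue (s : α) (C : Finset α) (R₁ R₂ : Finset (α × α)) : Finset (α × α) :=
  (C.erase s).image (fun y => (s, y)) ∪ (R₁ ∪ R₂)

theorem mem_glue {s : α} {C : Finset α} {R₁ R₂ : Finset (α × α)} {x y : α} :
    (x, y) ∈ glue s C R₁ R₂ ↔ (x = s ∧ y ∈ C.erase s) ∨ (x, y) ∈ R₁ ∨ (x, y) ∈ R₂ := by
  unfold glue
  rw [Finset.mem_union, Finset.mem_union, Finset.mem_image]
  constructor
  · rintro (⟨z, hz, h⟩ | h)
    · simp only [Prod.mk.injEq] at h
      obtain ⟨rfl, rfl⟩ := h
      exact Or.inl ⟨rfl, hz⟩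
    · exact Or.inr h
  · rintro (⟨rfl, h⟩ | h)
    · exact Or.inl ⟨y, h, rfl⟩
    · exact Or.inr h

theorem isFO_glue {V : Finset α} {s : α} {C : Finset α} {R₁ R₂ : Finset (α × α)}
    (hC : C ⊆ V) (hs : s ∈ C) (h₁ : IsFO (C.erase s) R₁) (h₂ : IsFO (V \ C) R₂) :
    IsFO V (glue s C R₁ R₂) := by
  have e1 : ∀ x y, (x, y) ∈ R₁ → (x ∈ C ∧ x ≠ s) ∧ (y ∈ C ∧ y ≠ s) := by
    intro x y h
    have := h₁.sub x y h
    rw [Finset.mem_erase, Finset.mem_erase] at this
    tauto
  have e2 : ∀ x y, (x, y) ∈ R₂ → (x ∈ V ∧ x ∉ C) ∧ (y ∈ V ∧ y ∉ C) := by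
    intro x y h
    have := h₂.sub x y h
    rw [Finset.mem_sdiff, Finset.mem_sdiff] at this
    exact this
  constructor
  · intro x y h
    rcases mem_glue.1 h with ⟨rfl, h⟩ | h | h
    · exact ⟨hC hs, hC (Finset.mem_of_mem_erase h)⟩
    · exact ⟨hC (e1 x y h).1.1, hC (e1 x y h).2.1⟩
    · exact ⟨(e2 x y h).1.1, (e2 x y h).2.1⟩
  · intro x h
    rcases mem_glue.1 h with ⟨rfl, h⟩ | h | h
    · exact Finset.notMem_erase _ _ h
    · exact h₁.irrefl x h
    · exact h₂.irrefl x h
  · intro x y z hxy hyz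
    rcases mem_glue.1 hxy with ⟨rfl, hy⟩ | h | h
    · rcases mem_glue.1 hyz with ⟨rfl, hz⟩ | h' | h'
      · exact absurd hy (Finset.notMem_erase _ _)
      · rw [mem_glue]
        left
        exact ⟨rfl, (h₁.sub _ _ h').2⟩
      · exact absurd (Finset.mem_of_mem_erase hy) (e2 _ _ h').1.2
    · rcases mem_glue.1 hyz with ⟨rfl, hz⟩ | h' | h'
      · exact absurd rfl (e1 _ _ h).2.2
      · rw [mem_glue]
        exact Or.inr (Or.inl (h₁.trans _ _ _ h h'))
      · exact absurd (e1 _ _ h).2.1 (e2 _ _ h').1.2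
    · rcases mem_glue.1 hyz with ⟨rfl, hz⟩ | h' | h'
      · exact absurd hs (e2 _ _ h).2.2
      · exact absurd (e1 _ _ h').1.1 (e2 _ _ h).2.2
      · rw [mem_glue]
        exact Or.inr (Or.inr (h₂.trans _ _ _ h h'))
  · intro x y z hxz hyz
    rcases mem_glue.1 hxz with ⟨rfl, hz⟩ | h | h
    · rcases mem_glue.1 hyz with ⟨rfl, hz'⟩ | h' | h'
      · exact Or.inl rfl
      · right; left
        rw [mem_glue]
        exact Or.inl ⟨rfl, (h₁.sub _ _ h').1⟩
      · exact absurd (Finset.mem_of_mem_erase hz) (e2 _ _ h').2.2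
    · rcases mem_glue.1 hyz with ⟨rfl, hz'⟩ | h' | h'
      · right; right
        rw [mem_glue]
        exact Or.inl ⟨rfl, (h₁.sub _ _ h).1⟩
      · rcases h₁.chain _ _ _ h h' with h3 | h3 | h3
        · exact Or.inl h3
        · right; left; rw [mem_glue]; exact Or.inr (Or.inl h3)
        · right; right; rw [mem_glue]; exact Or.inr (Or.inl h3)
      · exact absurd (e1 _ _ h).2.1 (e2 _ _ h').2.2
    · rcases mem_glue.1 hyz with ⟨rfl, hz'⟩ | h' | h'
      · exact absurd (Finset.mem_of_mem_erase hz') (e2 _ _ h).2.2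
      · exact absurd (e1 _ _ h').2.1 (e2 _ _ h).2.2
      · rcases h₂.chain _ _ _ h h' with h3 | h3 | h3
        · exact Or.inl h3
        · right; left; rw [mem_glue]; exact Or.inr (Or.inr h3)
        · right; right; rw [mem_glue]; exact Or.inr (Or.inr h3)

theorem isRoot_glue_iff {V : Finset α} {s : α} {C : Finset α} {R₁ R₂ : Finset (α × α)}
    (hC : C ⊆ V) (hs : s ∈ C) (h₁ : IsFO (C.erase s) R₁) (h₂ : IsFO (V \ C) R₂) (t : α) :
    IsRoot V (glue s C R₁ R₂) t ↔ t = s ∨ IsRoot (V \ C) R₂ t := by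
  constructor
  · rintro ⟨ht, h⟩
    by_cases hts : t = s
    · exact Or.inl hts
    · right
      have htC : t ∉ C := fun htC =>
        h s (mem_glue.2 (Or.inl ⟨rfl, Finset.mem_erase.2 ⟨hts, htC⟩⟩))
      refine ⟨Finset.mem_sdiff.2 ⟨ht, htC⟩, fun y hy => h y (mem_glue.2 (Or.inr (Or.inr hy)))⟩
  · rintro (rfl | ⟨ht, h⟩)
    · refine ⟨hC hs, fun y hy => ?_⟩
      rcases mem_glue.1 hy with ⟨rfl, h⟩ | h | h
      · exact Finset.notMem_erase _ _ h
      · exact Finset.notMem_erase _ _ (h₁.sub _ _ h).2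
      · exact (Finset.mem_sdiff.1 (h₂.sub _ _ h).2).2 hs
    · rw [Finset.mem_sdiff] at ht
      refine ⟨ht.1, fun y hy => ?_⟩
      rcases mem_glue.1 hy with ⟨rfl, h'⟩ | h' | h'
      · exact ht.2 (Finset.mem_of_mem_erase h')
      · exact ht.2 (Finset.mem_of_mem_erase (h₁.sub _ _ h').2)
      · exact h y h'

theorem inv_glue {V : Finset α} {s : α} {C : Finset α} {R₁ R₂ : Finset (α × α)}
    (hs : s ∈ C) (h₁ : IsFO (C.erase s) R₁) (h₂ : IsFO (V \ C) R₂) :
    inv (glue s C R₁ R₂) = (C.filter (fun y => y < s)).card + inv R₁ + inv R₂ := by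
  unfold inv glue
  rw [Finset.filter_union, Finset.filter_union, Finset.card_union_of_disjoint,
    Finset.card_union_of_disjoint, Finset.filter_image, Finset.card_image_of_injective, add_assoc]
  · congr 2
    ext y
    simp only [Finset.mem_filter, Finset.mem_erase]
    constructor
    · rintro ⟨⟨_, h2⟩, h3⟩
      exact ⟨h2, h3⟩
    · rintro ⟨h2, h3⟩
      exact ⟨⟨h3.ne, h2⟩, h3⟩
  · intro y y' h
    simpa using h
  · rw [Finset.disjoint_left]
    rintro ⟨x, y⟩ h h'
    rw [Finset.mem_filter] at h h'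
    have a := h₁.sub _ _ h.1
    have b := h₂.sub _ _ h'.1
    exact (Finset.mem_sdiff.1 b.1).2 (Finset.mem_of_mem_erase a.1)
  · rw [Finset.disjoint_left]
    rintro ⟨x, y⟩ h h'
    rw [Finset.mem_filter, Finset.mem_image] at h
    obtain ⟨⟨z, hz, h⟩, _⟩ := h
    simp only [Prod.mk.injEq] at h
    obtain ⟨rfl, rfl⟩ := h
    rw [Finset.mem_union, Finset.mem_filter, Finset.mem_filter] at h'
    rcases h' with h' | h'
    · exact Finset.notMem_erase _ _ (h₁.sub _ _ h'.1).1
    · exact (Finset.mem_sdiff.1 (h₂.sub _ _ h'.1).1).2 hs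

open Classical in
/-- Sums over forest orders with a given root. -/
theorem sum_root {V : Finset α} {s : α} (f : Finset (α × α) → ℤ[X]) (hsV : s ∈ V) :
    ∑ R ∈ (FO V).filter (fun R => IsRoot V R s), f R
      = ∑ C ∈ V.powerset.filter (fun C => s ∈ C), ∑ R₁ ∈ FO (C.erase s), ∑ R₂ ∈ FO (V \ C),
          f (glue s C R₁ R₂) := by
  have hrhs : ∑ C ∈ V.powerset.filter (fun C => s ∈ C), ∑ R₁ ∈ FO (C.erase s),
        ∑ R₂ ∈ FO (V \ C), f (glue s C R₁ R₂)
      = ∑ p ∈ (V.powerset.filter (fun C => s ∈ C)).sigma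
          (fun C => FO (C.erase s) ×ˢ FO (V \ C)), f (glue s p.1 p.2.1 p.2.2) := by
    rw [Finset.sum_sigma]
    refine Finset.sum_congr rfl fun C _ => ?_
    rw [Finset.sum_product]
  rw [hrhs]
  refine Finset.sum_bij'
    (fun R _ => ⟨insert s (V.filter (fun y => (s, y) ∈ R)),
      (R.filter (fun p => (s, p.1) ∈ R), R.filter (fun p => p.1 ≠ s ∧ (s, p.1) ∉ R))⟩)
    (fun p _ => glue s p.1 p.2.1 p.2.2) ?_ ?_ ?_ ?_ ?_
  · intro R hR
    rw [Finset.mem_filter, mem_FO] at hR
    obtain ⟨hR, hs⟩ := hR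
    simp only [Finset.mem_sigma, Finset.mem_filter, Finset.mem_powerset, Finset.mem_product,
      mem_FO]
    have hmem : ∀ y, y ∈ insert s (V.filter (fun y => (s, y) ∈ R)) ↔ y = s ∨ (s, y) ∈ R := by
      intro y
      rw [Finset.mem_insert, Finset.mem_filter]
      constructor
      · rintro (h | h)
        · exact Or.inl h
        · exact Or.inr h.2
      · rintro (h | h)
        · exact Or.inl h
        · exact Or.inr ⟨(hR.sub _ _ h).2, h⟩
    refine ⟨⟨?_, Finset.mem_insert_self _ _⟩, ?_, ?_⟩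
    · intro y hy
      rcases (hmem y).1 hy with rfl | h
      · exact hsV
      · exact (hR.sub _ _ h).2
    · constructor
      · intro x y h
        rw [Finset.mem_filter] at h
        rw [Finset.mem_erase, Finset.mem_erase, hmem, hmem]
        refine ⟨⟨?_, Or.inr h.2⟩, ?_, Or.inr (hR.trans _ _ _ h.2 h.1)⟩
        · rintro rfl
          exact hs.2 _ h.2
        · rintro rfl
          exact hs.2 _ h.1
      · intro x h
        exact hR.irrefl x (Finset.mem_filter.1 h).1
      · intro x y z h h'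
        rw [Finset.mem_filter] at h h' ⊢
        exact ⟨hR.trans _ _ _ h.1 h'.1, h.2⟩
      · intro x y z h h'
        rw [Finset.mem_filter] at h h'
        rcases hR.chain _ _ _ h.1 h'.1 with h3 | h3 | h3
        · exact Or.inl h3
        · right; left; exact Finset.mem_filter.2 ⟨h3, h.2⟩
        · right; right; exact Finset.mem_filter.2 ⟨h3, h'.2⟩
    · constructor
      · intro x y h
        rw [Finset.mem_filter] at h
        rw [Finset.mem_sdiff, Finset.mem_sdiff, hmem, hmem, not_or, not_or]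
        refine ⟨⟨(hR.sub _ _ h.1).1, h.2.1, h.2.2⟩, (hR.sub _ _ h.1).2, ?_, ?_⟩
        · rintro rfl
          exact hs.2 _ h.1
        · intro hsy
          rcases hR.chain _ _ _ h.1 hsy with h3 | h3 | h3
          · exact h.2.1 h3
          · exact hs.2 _ h3
          · exact h.2.2 h3
      · intro x h
        exact hR.irrefl x (Finset.mem_filter.1 h).1
      · intro x y z h h'
        rw [Finset.mem_filter] at h h' ⊢
        exact ⟨hR.trans _ _ _ h.1 h'.1, h.2⟩
      · intro x y z h h'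
        rw [Finset.mem_filter] at h h'
        rcases hR.chain _ _ _ h.1 h'.1 with h3 | h3 | h3
        · exact Or.inl h3
        · right; left; exact Finset.mem_filter.2 ⟨h3, h.2⟩
        · right; right; exact Finset.mem_filter.2 ⟨h3, h'.2⟩
  · rintro ⟨C, R₁, R₂⟩ h
    simp only [Finset.mem_sigma, Finset.mem_filter, Finset.mem_powerset, Finset.mem_product,
      mem_FO] at h
    obtain ⟨⟨hC, hs⟩, h₁, h₂⟩ := h
    rw [Finset.mem_filter, mem_FO]
    exact ⟨isFO_glue hC hs h₁ h₂, (isRoot_glue_iff hC hs h₁ h₂ s).2 (Or.inl rfl)⟩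
  · intro R hR
    rw [Finset.mem_filter, mem_FO] at hR
    obtain ⟨hR, hs⟩ := hR
    ext ⟨x, y⟩
    rw [mem_glue, Finset.mem_filter, Finset.mem_filter, Finset.mem_erase, Finset.mem_insert,
      Finset.mem_filter]
    constructor
    · rintro (⟨rfl, h1, h2 | h2⟩ | h | h)
      · exact absurd h2 h1
      · exact h2.2
      · exact h.1
      · exact h.1
    · intro h
      by_cases hx : x = s
      · left
        subst hx
        refine ⟨rfl, ?_, Or.inr ⟨(hR.sub _ _ h).2, h⟩⟩
        rintro rfl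
        exact hs.2 _ h
      · right
        by_cases h2 : (s, x) ∈ R
        · exact Or.inl ⟨h, h2⟩
        · exact Or.inr ⟨h, hx, h2⟩
  · rintro ⟨C, R₁, R₂⟩ h
    simp only [Finset.mem_sigma, Finset.mem_filter, Finset.mem_powerset, Finset.mem_product,
      mem_FO] at h
    obtain ⟨⟨hC, hs⟩, h₁, h₂⟩ := h
    have hsR₁ : ∀ y, (s, y) ∉ R₁ := fun y hy =>
      Finset.notMem_erase _ _ (h₁.sub _ _ hy).1
    have hsR₂ : ∀ y, (s, y) ∉ R₂ := fun y hy =>
      (Finset.mem_sdiff.1 (h₂.sub _ _ hy).1).2 hs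
    have key : ∀ y, (s, y) ∈ glue s C R₁ R₂ ↔ y ∈ C.erase s := by
      intro y
      rw [mem_glue]
      constructor
      · rintro (h | h | h)
        · exact h.2
        · exact absurd h (hsR₁ y)
        · exact absurd h (hsR₂ y)
      · intro h
        exact Or.inl ⟨rfl, h⟩
    have c1 : insert s (V.filter (fun y => (s, y) ∈ glue s C R₁ R₂)) = C := by
      ext y
      rw [Finset.mem_insert, Finset.mem_filter, key, Finset.mem_erase]
      constructor
      · rintro (rfl | h)
        · exact hs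
        · exact h.2.2
      · intro h
        by_cases hy : y = s
        · exact Or.inl hy
        · exact Or.inr ⟨hC h, hy, h⟩
    have c2 : (glue s C R₁ R₂).filter (fun p => (s, p.1) ∈ glue s C R₁ R₂) = R₁ := by
      ext ⟨x, y⟩
      rw [Finset.mem_filter, key, mem_glue]
      constructor
      · rintro ⟨⟨rfl, h⟩ | h | h, h'⟩
        · exact absurd h' (Finset.notMem_erase _ _)
        · exact h
        · exact absurd (Finset.mem_of_mem_erase h') (Finset.mem_sdiff.1 (h₂.sub _ _ h).1).2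
      · intro h
        exact ⟨Or.inr (Or.inl h), (h₁.sub _ _ h).1⟩
    have c3 : (glue s C R₁ R₂).filter (fun p => p.1 ≠ s ∧ (s, p.1) ∉ glue s C R₁ R₂) = R₂ := by
      ext ⟨x, y⟩
      rw [Finset.mem_filter, key, mem_glue]
      constructor
      · rintro ⟨⟨rfl, h⟩ | h | h, h', h''⟩
        · exact absurd rfl h'
        · exact absurd (h₁.sub _ _ h).1 h''
        · exact h
      · intro h
        have := (Finset.mem_sdiff.1 (h₂.sub _ _ h).1).2
        refine ⟨Or.inr (Or.inr h), ?_, fun h' => this (Finset.mem_of_mem_erase h')⟩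
        rintro rfl
        exact this hs
    simp only
    rw [c1, c2, c3]
  · intro R hR
    rw [Finset.mem_filter, mem_FO] at hR
    obtain ⟨hR, hs⟩ := hR
    congr 1
    ext ⟨x, y⟩
    rw [mem_glue, Finset.mem_filter, Finset.mem_filter, Finset.mem_erase, Finset.mem_insert,
      Finset.mem_filter]
    constructor
    · intro h
      by_cases hx : x = s
      · left
        subst hx
        refine ⟨rfl, ?_, Or.inr ⟨(hR.sub _ _ h).2, h⟩⟩
        rintro rfl
        exact hs.2 _ h
      · right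
        by_cases h2 : (s, x) ∈ R
        · exact Or.inl ⟨h, h2⟩
        · exact Or.inr ⟨h, hx, h2⟩
    · rintro (⟨rfl, h1, h2 | h2⟩ | h | h)
      · exact absurd h2 h1
      · exact h2.2
      · exact h.1
      · exact h.1

end Pool.Agent.helper9.ForestOrd
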