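import Pool.Agent.helper9.ForestOrd

set_option autoImplicit false
set_option linter.unusedSectionVars false

/-!
# Inversion enumerators of rooted forests
-/

namespace Pool.Agent.helper9.ForestOrd

open Finset Polynomial SetRec

variable {α : Type*} [LinearOrder α]

open Classical in
/-- inversion enumerator of the forests on `V` all of whose roots satisfy `P` -/
noncomputable def W (P : α → Prop) (V : Finset α) : ℤ[X] :=
  ∑ R ∈ (FO V).filter (fun R => ∀ s, IsRoot V R s → P s), X ^ inv R

/-- inversion enumerator of all forests on `V` -/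
noncomputable def F (V : Finset α) : ℤ[X] := ∑ R ∈ FO V, X ^ inv R

theorem W_true (V : Finset α) : W (fun _ => True) V = F V := by
  classical
  unfold W F
  rw [Finset.filter_true_of_mem]
  intro R _ s _
  trivial

open Classical in
/-- If every forest has a unique root with property `good`, then the sum over all forests can be
computed by splitting off the tree of that root. -/
theorem sum_unique_root {V : Finset α} (good : Finset (α × α) → α → Prop)
    (f : Finset (α × α) → ℤ[X])
    (h : ∀ R, IsFO V R → ∃! s, IsRoot V R s ∧ good R s) :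
    ∑ R ∈ FO V, f R = ∑ s ∈ V, ∑ C ∈ V.powerset.filter (fun C => s ∈ C),
      ∑ R₁ ∈ FO (C.erase s), ∑ R₂ ∈ FO (V \ C),
        if good (glue s C R₁ R₂) s then f (glue s C R₁ R₂) else 0 := by
  have h1 : ∀ R ∈ FO V, f R = ∑ s ∈ V, if IsRoot V R s then (if good R s then f R else 0) else 0 := by
    intro R hR
    rw [mem_FO] at hR
    obtain ⟨s, hs, hu⟩ := h R hR
    rw [Finset.sum_eq_single_of_mem s hs.1.1]
    · rw [if_pos hs.1, if_pos hs.2]
    · intro t _ hts
      by_cases h1 : IsRoot V R t
      · rw [if_pos h1, if_neg]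
        intro h2
        exact hts (hu t ⟨h1, h2⟩)
      · rw [if_neg h1]
  rw [Finset.sum_congr rfl h1, Finset.sum_comm]
  refine Finset.sum_congr rfl fun s hs => ?_
  rw [← Finset.sum_filter, sum_root _ hs]

/-- Every vertex has a unique root above it. -/
theorem existsUnique_root_above {V : Finset α} {R : Finset (α × α)} (hR : IsFO V R) {y : α}
    (hy : y ∈ V) : ∃! s, IsRoot V R s ∧ (s = y ∨ (s, y) ∈ R) := by
  classical
  have hne : (V.filter (fun s => s = y ∨ (s, y) ∈ R)).Nonempty :=
    ⟨y, Finset.mem_filter.2 ⟨hy, Or.inl rfl⟩⟩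
  obtain ⟨s, hs, hmin⟩ := Finset.exists_min_image _ (fun s => (V.filter (fun z => (z, s) ∈ R)).card)
    hne
  rw [Finset.mem_filter] at hs
  have hroot : IsRoot V R s := by
    refine ⟨hs.1, fun z hz => ?_⟩
    have hz' : z ∈ V.filter (fun s => s = y ∨ (s, y) ∈ R) := by
      refine Finset.mem_filter.2 ⟨(hR.sub _ _ hz).1, Or.inr ?_⟩
      rcases hs.2 with rfl | h
      · exact hz
      · exact hR.trans _ _ _ hz h
    have h1 := hmin z hz'
    have h2 : (V.filter (fun w => (w, z) ∈ R)).card < (V.filter (fun w => (w, s) ∈ R)).card := by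
      apply Finset.card_lt_card
      refine ⟨?_, fun hsub => ?_⟩
      · intro w hw
        rw [Finset.mem_filter] at hw ⊢
        exact ⟨hw.1, hR.trans _ _ _ hw.2 hz⟩
      · have := hsub (Finset.mem_filter.2 ⟨(hR.sub _ _ hz).1, hz⟩)
        rw [Finset.mem_filter] at this
        exact hR.irrefl _ this.2
    omega
  refine ⟨s, ⟨hroot, hs.2⟩, ?_⟩
  rintro t ⟨ht, hty⟩
  rcases hty with rfl | hty
  · rcases hs.2 with rfl | h
    · rfl
    · exact absurd h (ht.2 _)
  · rcases hs.2 with rfl | h
    · exact absurd hty (hroot.2 _)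
    · rcases hR.chain _ _ _ hty h with h3 | h3 | h3
      · exact h3
      · exact absurd h3 (hroot.2 _)
      · exact absurd h3 (ht.2 _)

/-- weight of a block: trees with root satisfying `P` -/
noncomputable def wt (P : α → Prop) [DecidablePred P] (C : Finset α) : ℤ[X] :=
  ∑ s ∈ C.filter P, X ^ (C.filter (fun y => y < s)).card * F (C.erase s)

theorem FO_empty : FO (∅ : Finset α) = {∅} := by
  ext R
  rw [mem_FO, Finset.mem_singleton]
  constructor
  · intro h
    rw [Finset.eq_empty_iff_forall_notMem]
    rintro ⟨x, y⟩ hxy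
    exact absurd (h.sub _ _ hxy).1 (Finset.notMem_empty _)
  · rintro rfl
    constructor <;> simp

theorem hasRec_W (P : α → Prop) [DecidablePred P] : HasRec (wt P) (W P) := by
  classical
  constructor
  · unfold W
    rw [FO_empty, Finset.filter_true_of_mem]
    · simp [inv]
    · intro R _ s hs
      exact absurd hs.1 (Finset.notMem_empty _)
  · intro V y hy
    have h1 : W P V = ∑ R ∈ FO V, if (∀ s, IsRoot V R s → P s) then X ^ inv R else 0 := by
      unfold W
      rw [Finset.sum_filter]
    rw [h1, sum_unique_root (fun R s => s = y ∨ (s, y) ∈ R) _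
      (fun R hR => existsUnique_root_above hR hy)]
    have h2 : ∀ C ∈ V.powerset.filter (fun C => y ∈ C), wt P C * W P (V \ C)
        = ∑ s ∈ C, if P s then X ^ (C.filter (fun y => y < s)).card * F (C.erase s)
            * W P (V \ C) else 0 := by
      intro C _
      unfold wt
      rw [Finset.sum_filter, Finset.sum_mul]
      refine Finset.sum_congr rfl fun s _ => ?_
      rw [ite_mul, zero_mul]
    rw [Finset.sum_congr rfl h2]
    have h3 : ∑ C ∈ V.powerset.filter (fun C => y ∈ C), ∑ s ∈ C,
        (if P s then X ^ (C.filter (fun y => y < s)).card * F (C.erase s)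
            * W P (V \ C) else 0)
        = ∑ s ∈ V, ∑ C ∈ (V.powerset.filter (fun C => s ∈ C)).filter (fun C => y ∈ C),
        (if P s then X ^ (C.filter (fun y => y < s)).card * F (C.erase s)
            * W P (V \ C) else 0) := by
      apply Finset.sum_comm'
      intro C s
      simp only [Finset.mem_filter, Finset.mem_powerset]
      constructor
      · rintro ⟨⟨h1, h2⟩, h3⟩
        exact ⟨⟨⟨h1, h3⟩, h2⟩, h1 h3⟩
      · rintro ⟨⟨⟨h1, h3⟩, h2⟩, h4⟩
        exact ⟨⟨h1, h2⟩, h3⟩
    rw [h3]
    refine Finset.sum_congr rfl fun s hs => ?_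
    rw [Finset.sum_filter (p := fun C => y ∈ C)]
    refine Finset.sum_congr rfl fun C hC => ?_
    rw [Finset.mem_filter, Finset.mem_powerset] at hC
    obtain ⟨hCV, hsC⟩ := hC
    have h4 : ∀ R₁ ∈ FO (C.erase s), ∀ R₂ ∈ FO (V \ C),
        (if s = y ∨ (s, y) ∈ glue s C R₁ R₂ then
          (if ∀ t, IsRoot V (glue s C R₁ R₂) t → P t then (X : ℤ[X]) ^ inv (glue s C R₁ R₂) else 0)
          else 0)
        = if y ∈ C then (if P s then X ^ (C.filter (fun y => y < s)).card * X ^ inv R₁
            * (if (∀ t, IsRoot (V \ C) R₂ t → P t) then X ^ inv R₂ else 0) else 0) else 0 := by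
      intro R₁ hR₁ R₂ hR₂
      rw [mem_FO] at hR₁ hR₂
      have e1 : (s = y ∨ (s, y) ∈ glue s C R₁ R₂) ↔ y ∈ C := by
        rw [mem_glue, Finset.mem_erase]
        constructor
        · rintro (rfl | h | h | h)
          · exact hsC
          · exact h.2.2
          · exact absurd (hR₁.sub _ _ h).1 (Finset.notMem_erase _ _)
          · exact absurd hsC (Finset.mem_sdiff.1 (hR₂.sub _ _ h).1).2
        · intro h
          by_cases hys : s = y
          · exact Or.inl hys
          · exact Or.inr (Or.inl ⟨rfl, fun h => hys h.symm, h⟩)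
      have e2 : (∀ t, IsRoot V (glue s C R₁ R₂) t → P t) ↔
          P s ∧ ∀ t, IsRoot (V \ C) R₂ t → P t := by
        constructor
        · intro h
          exact ⟨h s ((isRoot_glue_iff hCV hsC hR₁ hR₂ s).2 (Or.inl rfl)),
            fun t ht => h t ((isRoot_glue_iff hCV hsC hR₁ hR₂ t).2 (Or.inr ht))⟩
        · rintro ⟨h1, h2⟩ t ht
          rcases (isRoot_glue_iff hCV hsC hR₁ hR₂ t).1 ht with rfl | ht
          · exact h1
          · exact h2 t ht
      simp only [e1, e2, inv_glue hsC hR₁ hR₂]
      by_cases hyC : y ∈ C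
      · rw [if_pos hyC, if_pos hyC]
        by_cases hPs : P s
        · rw [if_pos hPs]
          by_cases hr : ∀ t, IsRoot (V \ C) R₂ t → P t
          · rw [if_pos ⟨hPs, hr⟩, if_pos hr, pow_add, pow_add]
          · rw [if_neg (fun h => hr h.2), if_neg hr, mul_zero]
        · rw [if_neg hPs, if_neg (fun h => hPs h.1)]
      · rw [if_neg hyC, if_neg hyC]
    refine (Finset.sum_congr rfl fun R₁ hR₁ => Finset.sum_congr rfl fun R₂ hR₂ =>
      (by convert h4 R₁ hR₁ R₂ hR₂)).trans ?_
    by_cases hyC : y ∈ C
    · simp only [if_pos hyC]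
      by_cases hPs : P s
      · simp only [if_pos hPs]
        unfold F W
        rw [Finset.sum_filter, mul_assoc, Finset.sum_mul_sum, Finset.mul_sum]
        refine Finset.sum_congr rfl fun R₁ _ => ?_
        rw [Finset.mul_sum]
        refine Finset.sum_congr rfl fun R₂ _ => ?_
        ring
      · simp only [if_neg hPs, Finset.sum_const_zero]
    · simp only [if_neg hyC, Finset.sum_const_zero]

theorem wt_true (C : Finset α) : wt (fun _ => True) C
    = ∑ s ∈ C, X ^ (C.filter (fun y => y < s)).card * F (C.erase s) := by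
  unfold wt
  rw [Finset.filter_true_of_mem (fun _ _ => trivial)]

theorem hasRec_F : HasRec (wt (fun _ : α => True)) F := by
  have h := hasRec_W (fun _ : α => True)
  rwa [show W (fun _ : α => True) = F from funext W_true] at h

/-- every nonempty forest has a largest root -/
theorem existsUnique_max_root {V : Finset α} (hV : V.Nonempty) {R : Finset (α × α)}
    (hR : IsFO V R) : ∃! s, IsRoot V R s ∧ (∀ t, IsRoot V R t → t ≠ s → t < s) := by
  classical
  obtain ⟨y, hy⟩ := hV
  obtain ⟨s, hs, _⟩ := existsUnique_root_above hR hy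
  have hne : (V.filter (fun s => IsRoot V R s)).Nonempty :=
    ⟨s, Finset.mem_filter.2 ⟨hs.1.1, hs.1⟩⟩
  refine ⟨(V.filter (fun s => IsRoot V R s)).max' hne, ⟨?_, ?_⟩, ?_⟩
  · exact (Finset.mem_filter.1 (Finset.max'_mem _ hne)).2
  · intro t ht hne'
    exact lt_of_le_of_ne (Finset.le_max' _ _ (Finset.mem_filter.2 ⟨ht.1, ht⟩)) hne'
  · rintro t ⟨ht, hmax⟩
    by_contra hne'
    have h1 := hmax _ (Finset.mem_filter.1 (Finset.max'_mem _ hne)).2 (Ne.symm hne')
    have h2 := Finset.le_max' _ _ (Finset.mem_filter.2 ⟨ht.1, ht⟩)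
    exact absurd h1 (not_lt.2 h2)

/-- Splitting off the tree with the largest root. -/
theorem F_eq_sum_max_root {V : Finset α} (hV : V.Nonempty) :
    F V = ∑ r ∈ V, ∑ C ∈ V.powerset.filter (fun C => r ∈ C),
      X ^ (C.filter (fun y => y < r)).card * F (C.erase r) * W (fun t => t < r) (V \ C) := by
  classical
  unfold F
  rw [sum_unique_root (fun R s => ∀ t, IsRoot V R t → t ≠ s → t < s) _
    (fun R hR => existsUnique_max_root hV hR)]
  refine Finset.sum_congr rfl fun r hr => Finset.sum_congr rfl fun C hC => ?_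
  rw [Finset.mem_filter, Finset.mem_powerset] at hC
  obtain ⟨hCV, hrC⟩ := hC
  unfold W
  rw [Finset.sum_filter, mul_assoc, Finset.sum_mul_sum, Finset.mul_sum]
  refine Finset.sum_congr rfl fun R₁ hR₁ => ?_
  rw [Finset.mul_sum]
  refine Finset.sum_congr rfl fun R₂ hR₂ => ?_
  rw [mem_FO] at hR₁ hR₂
  have e : (∀ t, IsRoot V (glue r C R₁ R₂) t → t ≠ r → t < r) ↔
      ∀ t, IsRoot (V \ C) R₂ t → t < r := by
    constructor
    · intro h t ht
      refine h t ((isRoot_glue_iff hCV hrC hR₁ hR₂ t).2 (Or.inr ht)) ?_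
      rintro rfl
      exact (Finset.mem_sdiff.1 ht.1).2 hrC
    · intro h t ht hne
      rcases (isRoot_glue_iff hCV hrC hR₁ hR₂ t).1 ht with rfl | ht
      · exact absurd rfl hne
      · exact h t ht
  simp only [e, inv_glue hrC hR₁ hR₂]
  split_ifs
  · ring
  · simp

/-- the numbers (polynomials) `F V` as a function of `V.card` -/
noncomputable def φ : ℕ → ℤ[X]
  | 0 => 1
  | (n + 1) => ∑ k : Fin (n + 1), (n.choose k : ℤ[X]) * (qi (k + 1) * φ k * φ (n - k))

theorem φ_zero : φ 0 = 1 := by
  unfold φ
  rfl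

theorem φ_succ (n : ℕ) : φ (n + 1)
    = ∑ k ∈ Finset.range (n + 1), (n.choose k : ℤ[X]) * (qi (k + 1) * φ k * φ (n - k)) := by
  rw [φ]
  exact (Finset.sum_range fun k => (n.choose k : ℤ[X]) * (qi (k + 1) * φ k * φ (n - k))).symm

/-- reindexing subsets containing `y` -/
theorem sum_powerset_mem {V : Finset α} {y : α} (hy : y ∈ V) (g : Finset α → ℤ[X]) :
    ∑ C ∈ V.powerset.filter (fun C => y ∈ C), g C
      = ∑ A ∈ (V.erase y).powerset, g (insert y A) := by
  refine Finset.sum_bij' (fun C _ => C.erase y) (fun A _ => insert y A) ?_ ?_ ?_ ?_ ?_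
  · intro C hC
    rw [Finset.mem_filter, Finset.mem_powerset] at hC
    rw [Finset.mem_powerset]
    exact Finset.erase_subset_erase _ hC.1
  · intro A hA
    rw [Finset.mem_powerset] at hA
    rw [Finset.mem_filter, Finset.mem_powerset]
    refine ⟨?_, Finset.mem_insert_self _ _⟩
    exact Finset.insert_subset hy (hA.trans (Finset.erase_subset _ _))
  · intro C hC
    rw [Finset.mem_filter] at hC
    exact Finset.insert_erase hC.2
  · intro A hA
    rw [Finset.mem_powerset] at hA
    exact Finset.erase_insert (fun h => Finset.notMem_erase _ _ (hA h))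
  · intro C hC
    rw [Finset.mem_filter] at hC
    rw [Finset.insert_erase hC.2]

/-- A set function obeying the recursion of `φ` is `φ` of the cardinality. -/
theorem eq_φ_of_rec (f : Finset α → ℤ[X]) (h0 : f ∅ = 1)
    (h : ∀ V : Finset α, V.Nonempty → (∀ V' : Finset α, V'.card < V.card → f V' = φ V'.card) →
      ∃ y ∈ V, f V = ∑ C ∈ V.powerset.filter (fun C => y ∈ C),
        qi C.card * φ (C.card - 1) * f (V \ C)) (V : Finset α) : f V = φ V.card := by
  induction hn : V.card using Nat.strong_induction_on generalizing V with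
  | _ n ih =>
  rcases V.eq_empty_or_nonempty with rfl | hV
  · rw [Finset.card_empty] at hn
    rw [← hn, h0, φ_zero]
  · have ih' : ∀ V' : Finset α, V'.card < V.card → f V' = φ V'.card := by
      intro V' hV'
      exact ih V'.card (hn ▸ hV') V' rfl
    obtain ⟨y, hy, hf⟩ := h V hV ih'
    rw [hf, sum_powerset_mem hy]
    obtain ⟨m, rfl⟩ : ∃ m, n = m + 1 :=
      Nat.exists_eq_succ_of_ne_zero (hn ▸ Finset.card_ne_zero_of_mem hy)
    have hcard : (V.erase y).card = m := by
      rw [Finset.card_erase_of_mem hy, hn]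
      rfl
    have h1 : ∀ A ∈ (V.erase y).powerset,
        qi (insert y A).card * φ ((insert y A).card - 1) * f (V \ insert y A)
        = (fun k => qi (k + 1) * φ k * φ (m - k)) A.card := by
      intro A hA
      rw [Finset.mem_powerset] at hA
      have hyA : y ∉ A := fun h => Finset.notMem_erase _ _ (hA h)
      have hc : (V \ insert y A).card = m - A.card := by
        rw [Finset.card_sdiff_of_subset (Finset.insert_subset hy (hA.trans (Finset.erase_subset _ _))),
          Finset.card_insert_of_notMem hyA, hn]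
        omega
      rw [ih' _ (by rw [hc, hn]; omega), hc, Finset.card_insert_of_notMem hyA, Nat.add_sub_cancel]
    rw [Finset.sum_congr rfl h1,
      Finset.sum_powerset_apply_card (fun k => qi (k + 1) * φ k * φ (m - k)), hcard, φ_succ]
    refine Finset.sum_congr rfl fun k _ => ?_
    rw [nsmul_eq_mul]

theorem F_eq_φ (V : Finset α) : F V = φ V.card := by
  refine eq_φ_of_rec F hasRec_F.1 (fun V hV ih => ?_) V
  obtain ⟨y, hy⟩ := hV
  refine ⟨y, hy, ?_⟩
  rw [hasRec_F.2 V y hy]
  refine Finset.sum_congr rfl fun C hC => ?_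
  rw [Finset.mem_filter, Finset.mem_powerset] at hC
  have h0 : wt (fun _ => True) C = qi C.card * φ (C.card - 1) := by
    rw [wt_true, ← sum_rank, Finset.sum_mul]
    refine Finset.sum_congr rfl fun s hs => ?_
    have h1 : (C.erase s).card = C.card - 1 := Finset.card_erase_of_mem hs
    rw [ih _ ?_, h1]
    have h2 := Finset.card_le_card hC.1
    have h3 := Finset.card_pos.2 ⟨s, hs⟩
    omega
  rw [h0]

theorem wt_lt_eq (r : α) (C : Finset α) : wt (fun s => s < r) C
    = qi (C.filter (fun s => s < r)).card * φ (C.card - 1) := by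
  unfold wt
  rw [← sum_rank_lt, Finset.sum_mul]
  refine Finset.sum_congr rfl fun s hs => ?_
  rw [Finset.mem_filter] at hs
  rw [F_eq_φ, Finset.card_erase_of_mem hs.1]

theorem wt_true_eq (C : Finset α) : wt (fun _ => True) C = qi C.card * φ (C.card - 1) := by
  rw [wt_true, ← sum_rank, Finset.sum_mul]
  refine Finset.sum_congr rfl fun s hs => ?_
  rw [F_eq_φ, Finset.card_erase_of_mem hs]

/-- The key identity. -/
theorem conv_eq_conv (r : α) (V : Finset α) :
    conv (fun A => (∏ _x ∈ A, (X : ℤ[X])) * W (fun s => s < r) A) F V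
      = conv (W (fun s => s < r)) (fun A => (∏ x ∈ A, if x < r then (X : ℤ[X]) else 1) * F A) V := by
  refine HasRec.unique (((hasRec_W (fun s => s < r)).twist (fun _ => X)).conv hasRec_F)
    ((hasRec_W (fun s => s < r)).conv (hasRec_F.twist (fun x => if x < r then (X : ℤ[X]) else 1)))
    (fun C _ => ?_) V
  rw [wt_lt_eq, wt_true_eq, Finset.prod_const, Finset.prod_ite, Finset.prod_const,
    Finset.prod_const_one, mul_one]
  set a := (C.filter (fun s => s < r)).card with ha
  have h1 : qi (C.card + a) = qi C.card + X ^ C.card * qi a := qi_add _ _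
  have h2 : qi (a + C.card) = qi a + X ^ a * qi C.card := qi_add _ _
  rw [Nat.add_comm] at h2
  calc X ^ C.card * (qi a * φ (C.card - 1)) + qi C.card * φ (C.card - 1)
      = (qi C.card + X ^ C.card * qi a) * φ (C.card - 1) := by ring
    _ = (qi a + X ^ a * qi C.card) * φ (C.card - 1) := by rw [← h1, h2]
    _ = _ := by ring

/-- surface inversion enumerator of uprooted trees on `B` -/
noncomputable def U (B : Finset α) : ℤ[X] := ∑ r ∈ B, W (fun t => t < r) (B.erase r)

theorem U_rec {V : Finset α} (hV : V.Nonempty) :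
    F V = ∑ B ∈ V.powerset, X ^ (B.card - 1) * U B * F (V \ B) := by
  classical
  have h1 : ∀ B ∈ V.powerset, X ^ (B.card - 1) * U B * F (V \ B)
      = ∑ r ∈ B, X ^ (B.erase r).card * W (fun t => t < r) (B.erase r) * F (V \ B) := by
    intro B _
    unfold U
    rw [Finset.mul_sum, Finset.sum_mul]
    refine Finset.sum_congr rfl fun r hr => ?_
    rw [Finset.card_erase_of_mem hr]
  have h2 : ∑ B ∈ V.powerset, ∑ r ∈ B,
        X ^ (B.erase r).card * W (fun t => t < r) (B.erase r) * F (V \ B)
      = ∑ r ∈ V, ∑ B ∈ V.powerset.filter (fun B => r ∈ B),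
        X ^ (B.erase r).card * W (fun t => t < r) (B.erase r) * F (V \ B) := by
    apply Finset.sum_comm'
    intro B r
    simp only [Finset.mem_filter, Finset.mem_powerset]
    constructor
    · rintro ⟨h1, h2⟩
      exact ⟨⟨h1, h2⟩, h1 h2⟩
    · rintro ⟨⟨h1, h2⟩, _⟩
      exact ⟨h1, h2⟩
  rw [Finset.sum_congr rfl h1, h2, F_eq_sum_max_root hV]
  refine Finset.sum_congr rfl fun r hr => ?_
  rw [sum_powerset_mem hr (fun B => X ^ (B.erase r).card * W (fun t => t < r) (B.erase r)
    * F (V \ B))]
  have h3 : ∑ A ∈ (V.erase r).powerset, X ^ ((insert r A).erase r).card *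
        W (fun t => t < r) ((insert r A).erase r) * F (V \ insert r A)
      = conv (fun A => (∏ _x ∈ A, (X : ℤ[X])) * W (fun s => s < r) A) F (V.erase r) := by
    unfold conv
    refine Finset.sum_congr rfl fun A hA => ?_
    rw [Finset.mem_powerset] at hA
    have hrA : r ∉ A := fun h => Finset.notMem_erase _ _ (hA h)
    beta_reduce
    rw [Finset.erase_insert hrA, Finset.prod_const]
    congr 2
    ext x
    simp only [Finset.mem_sdiff, Finset.mem_insert, Finset.mem_erase]
    tauto
  rw [h3, conv_eq_conv]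
  unfold conv
  refine Finset.sum_bij' (fun C _ => V \ C) (fun A _ => V \ A) ?_ ?_ ?_ ?_ ?_
  · intro C hC
    rw [Finset.mem_filter, Finset.mem_powerset] at hC
    rw [Finset.mem_powerset]
    intro x hx
    rw [Finset.mem_sdiff] at hx
    rw [Finset.mem_erase]
    refine ⟨?_, hx.1⟩
    rintro rfl
    exact hx.2 hC.2
  · intro A hA
    rw [Finset.mem_powerset] at hA
    rw [Finset.mem_filter, Finset.mem_powerset]
    exact ⟨Finset.sdiff_subset, Finset.mem_sdiff.2 ⟨hr, fun h => Finset.notMem_erase _ _ (hA h)⟩⟩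
  · intro C hC
    rw [Finset.mem_filter, Finset.mem_powerset] at hC
    exact Finset.sdiff_sdiff_eq_self hC.1
  · intro A hA
    rw [Finset.mem_powerset] at hA
    exact Finset.sdiff_sdiff_eq_self (hA.trans (Finset.erase_subset _ _))
  · intro C hC
    rw [Finset.mem_filter, Finset.mem_powerset] at hC
    have e1 : V.erase r \ (V \ C) = C.erase r := by
      ext x
      have := @hC.1 x
      simp only [Finset.mem_sdiff, Finset.mem_erase]
      tauto
    beta_reduce
    rw [e1, Finset.prod_ite, Finset.prod_const, Finset.prod_const_one, mul_one]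
    have e2 : (C.erase r).filter (fun x => x < r) = C.filter (fun x => x < r) := by
      ext x
      simp only [Finset.mem_filter, Finset.mem_erase]
      constructor
      · rintro ⟨⟨_, h1⟩, h2⟩
        exact ⟨h1, h2⟩
      · rintro ⟨h1, h2⟩
        exact ⟨⟨h2.ne, h1⟩, h2⟩
    rw [e2]
    ring

end Pool.Agent.helper9.ForestOrd
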