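import Pool.Agent.helper9.GMCBlocks1

/-!
Blocks and Lindeberg (module B of MP_d68443_pr).
-/

open MeasureTheory ProbabilityTheory Filter Topology Set
open scoped ENNReal NNReal

namespace Pool.Agent.helper95.GMC

/-- cubic Hölder inequality -/
lemma lintegral_cube_le {α : Type*} [MeasurableSpace α] (ν : Measure α) {f : α → ℝ≥0∞}
    (hf : AEMeasurable f ν) : (∫⁻ x, f x ∂ν) ^ 3 ≤ (ν univ) ^ 2 * ∫⁻ x, f x ^ 3 ∂ν := by
  have hpq : (3 : ℝ).HolderConjugate (3 / 2) := by
    rw [Real.holderConjugate_iff]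
    norm_num
  have h1 := ENNReal.lintegral_mul_le_Lp_mul_Lq ν hpq hf (g := fun _ => 1) aemeasurable_const
  simp only [Pi.mul_apply, mul_one, ENNReal.one_rpow, lintegral_const, one_mul] at h1
  have h2 := ENNReal.pow_le_pow_left h1 (n := 3)
  refine h2.trans (le_of_eq ?_)
  rw [mul_pow, ← ENNReal.rpow_natCast, ← ENNReal.rpow_natCast, ← ENNReal.rpow_mul,
    ← ENNReal.rpow_mul, mul_comm]
  congr 1
  · rw [← ENNReal.rpow_natCast]
    norm_num
  · norm_num

lemma zz_cube_le (s : ℕ) {k1 k2 : ℕ} (x : ℝ) (z : Path) :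
    |zz s k1 k2 x z| ^ 3 ≤ 4 * (rr s k2 x z ^ 3 + rr s k1 x z ^ 3) := by
  unfold zz
  have h1 := rr_pos s k2 x z
  have h2 := rr_pos s k1 x z
  set a := rr s k2 x z
  set b := rr s k1 x z
  have h3 : |a - b| ≤ a + b := by
    rw [abs_le]
    constructor <;> linarith
  have h4 : |a - b| ^ 3 ≤ (a + b) ^ 3 := pow_le_pow_left₀ (abs_nonneg _) h3 3
  have h5 : (a + b) ^ 3 ≤ 4 * (a ^ 3 + b ^ 3) := by
    have : 0 ≤ 3 * (a + b) * (a - b) ^ 2 := by positivity
    nlinarith
  linarith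

/-- the constant for the cubic moments of the increments -/
noncomputable def Cz (k : ℕ) : ℝ := 8 * Real.exp (3 / 2 * (k * Real.log 2))

lemma Cz_nonneg (k : ℕ) : 0 ≤ Cz k := by unfold Cz; positivity

namespace Cone

variable {μ : Measure Path}

lemma lintegral_zz_cube (h : Cone μ) (s : ℕ) {k1 k2 : ℕ} (hk : k1 ≤ k2) (x : ℝ) :
    ∫⁻ z, ENNReal.ofReal (|zz s k1 k2 x z| ^ 3) ∂μ ≤ ENNReal.ofReal (Cz k2) := by
  have h1 : ∀ z, ENNReal.ofReal (|zz s k1 k2 x z| ^ 3) ≤
      ENNReal.ofReal 4 * (ENNReal.ofReal (rr s k2 x z ^ 3) + ENNReal.ofReal (rr s k1 x z ^ 3)) := by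
    intro z
    have e1 := rr_pos s k2 x z
    have e2 := rr_pos s k1 x z
    rw [← ENNReal.ofReal_add (by positivity) (by positivity), ← ENNReal.ofReal_mul (by norm_num)]
    exact ENNReal.ofReal_le_ofReal (zz_cube_le s x z)
  refine (lintegral_mono h1).trans ?_
  rw [lintegral_const_mul' _ _ ENNReal.ofReal_ne_top,
    lintegral_add_left ((measurable_rr_path s k2 x).pow_const 3).ennreal_ofReal,
    h.lintegral_rr_cube, h.lintegral_rr_cube, ← ENNReal.ofReal_add (Real.exp_pos _).le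
    (Real.exp_pos _).le, ← ENNReal.ofReal_mul (by norm_num)]
  refine ENNReal.ofReal_le_ofReal ?_
  unfold Cz
  have h2 : Real.exp (3 / 2 * (k1 * Real.log 2)) ≤ Real.exp (3 / 2 * (k2 * Real.log 2)) := by
    refine Real.exp_le_exp.2 ?_
    have h3 : (k1 : ℝ) ≤ k2 := by exact_mod_cast hk
    have h4 : 0 < Real.log 2 := Real.log_pos one_lt_two
    have h5 : (k1 : ℝ) * Real.log 2 ≤ k2 * Real.log 2 := mul_le_mul_of_nonneg_right h3 h4.le
    linarith
  linarith

/-- a linear functional of the increments, with its cubic moment -/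
lemma block_moments (h : Cone μ) (s : ℕ) {k1 k2 : ℕ} (hk : k1 ≤ k2) (ν : Measure ℝ)
    [IsFiniteMeasure ν] {g : ℝ → ℝ} (hg : Measurable g) (hg3 : Integrable (fun x => |g x| ^ 3) ν) :
    Measurable (fun b => ∫ x, g x * zz s k1 k2 x b ∂ν) ∧
    (∀ᵐ b ∂μ, Integrable (fun x => g x * zz s k1 k2 x b) ν) ∧
    Integrable (fun b => |∫ x, g x * zz s k1 k2 x b ∂ν| ^ 3) μ ∧
    ∫ b, ∫ x, g x * zz s k1 k2 x b ∂ν ∂μ = 0 ∧
    ∫ b, |∫ x, g x * zz s k1 k2 x b ∂ν| ^ 3 ∂μ ≤
      (ν univ).toReal ^ 2 * (Cz k2 * ∫ x, |g x| ^ 3 ∂ν) := by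
  have := h.isProb
  have hm : Measurable (fun q : ℝ × Path => g q.1 * zz s k1 k2 q.1 q.2) :=
    (hg.comp measurable_fst).mul (measurable_zz s k1 k2)
  have hms : Measurable (fun q : Path × ℝ => g q.2 * zz s k1 k2 q.2 q.1) := by
    have h1 := hm.comp measurable_swap
    exact h1
  have hmR : Measurable (fun b => ∫ x, g x * zz s k1 k2 x b ∂ν) :=
    (hms.stronglyMeasurable.integral_prod_right (ν := ν)).measurable
  -- the cubic bound over the product
  have hg3' : ∫⁻ x, ENNReal.ofReal (|g x| ^ 3) ∂ν = ENNReal.ofReal (∫ x, |g x| ^ 3 ∂ν) :=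
    (ofReal_integral_eq_lintegral_ofReal hg3 (ae_of_all _ fun x => by positivity)).symm
  have hcube : ∫⁻ x, ∫⁻ b, ENNReal.ofReal (|g x * zz s k1 k2 x b| ^ 3) ∂μ ∂ν ≤
      ENNReal.ofReal (Cz k2) * ENNReal.ofReal (∫ x, |g x| ^ 3 ∂ν) := by
    rw [← hg3', ← lintegral_const_mul' _ _ ENNReal.ofReal_ne_top]
    refine lintegral_mono fun x => ?_
    have e : ∀ b, ENNReal.ofReal (|g x * zz s k1 k2 x b| ^ 3) =
        ENNReal.ofReal (|g x| ^ 3) * ENNReal.ofReal (|zz s k1 k2 x b| ^ 3) := by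
      intro b
      rw [abs_mul, mul_pow, ENNReal.ofReal_mul (by positivity)]
    simp only
    rw [lintegral_congr e, lintegral_const_mul' _ _ ENNReal.ofReal_ne_top, mul_comm]
    gcongr
    exact h.lintegral_zz_cube s hk x
  have hcubem : Measurable (fun q : ℝ × Path => ENNReal.ofReal (|g q.1 * zz s k1 k2 q.1 q.2| ^ 3)) :=
    (hm.abs.pow_const 3).ennreal_ofReal
  have hcube' : ∫⁻ q, ENNReal.ofReal (|g q.1 * zz s k1 k2 q.1 q.2| ^ 3) ∂(ν.prod μ) ≤
      ENNReal.ofReal (Cz k2) * ENNReal.ofReal (∫ x, |g x| ^ 3 ∂ν) := by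
    rw [lintegral_prod _ hcubem.aemeasurable]
    exact hcube
  have hI3 : Integrable (fun q : ℝ × Path => |g q.1 * zz s k1 k2 q.1 q.2| ^ 3) (ν.prod μ) := by
    refine ⟨(hm.abs.pow_const 3).aestronglyMeasurable, ?_⟩
    rw [hasFiniteIntegral_iff_ofReal (ae_of_all _ fun x => by positivity)]
    exact hcube'.trans_lt (ENNReal.mul_lt_top ENNReal.ofReal_lt_top ENNReal.ofReal_lt_top)
  have hI : Integrable (fun q : ℝ × Path => g q.1 * zz s k1 k2 q.1 q.2) (ν.prod μ) := by
    have h1 : Integrable (fun q : ℝ × Path => 1 + |g q.1 * zz s k1 k2 q.1 q.2| ^ 3) (ν.prod μ) :=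
      (integrable_const _).add hI3
    refine h1.mono' hm.aestronglyMeasurable (ae_of_all _ fun q => ?_)
    rw [Real.norm_eq_abs]
    have ht0 := abs_nonneg (g q.1 * zz s k1 k2 q.1 q.2)
    generalize |g q.1 * zz s k1 k2 q.1 q.2| = t at ht0
    by_cases ht : t ≤ 1
    · have := pow_nonneg ht0 3
      linarith
    · rw [not_le] at ht
      have h2 : 1 ≤ t ^ 2 := one_le_pow₀ ht.le
      have h3 : t * 1 ≤ t * t ^ 2 := mul_le_mul_of_nonneg_left h2 ht0
      have h4 : t ^ 3 = t * t ^ 2 := by ring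
      linarith
  have hswap : Integrable (fun q : Path × ℝ => g q.2 * zz s k1 k2 q.2 q.1) (μ.prod ν) := by
    have h1 := hI.swap
    exact h1
  have hae : ∀ᵐ b ∂μ, Integrable (fun x => g x * zz s k1 k2 x b) ν := hswap.prod_right_ae
  have hbd : ∫⁻ b, ENNReal.ofReal (|∫ x, g x * zz s k1 k2 x b ∂ν| ^ 3) ∂μ ≤
      (ν univ) ^ 2 * (ENNReal.ofReal (Cz k2) * ENNReal.ofReal (∫ x, |g x| ^ 3 ∂ν)) := by
    calc ∫⁻ b, ENNReal.ofReal (|∫ x, g x * zz s k1 k2 x b ∂ν| ^ 3) ∂μ
        ≤ ∫⁻ b, (ν univ) ^ 2 * ∫⁻ x, ENNReal.ofReal (|g x * zz s k1 k2 x b| ^ 3) ∂ν ∂μ := by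
          refine lintegral_mono fun b => ?_
          have h1 : ENNReal.ofReal |∫ x, g x * zz s k1 k2 x b ∂ν| ≤
              ∫⁻ x, ENNReal.ofReal |g x * zz s k1 k2 x b| ∂ν := by
            have h2 := enorm_integral_le_lintegral_enorm (μ := ν) (fun x => g x * zz s k1 k2 x b)
            rw [Real.enorm_eq_ofReal_abs] at h2
            refine h2.trans (le_of_eq (lintegral_congr fun x => ?_))
            rw [Real.enorm_eq_ofReal_abs]
          have h2 : Measurable (fun x => ENNReal.ofReal |g x * zz s k1 k2 x b|) := by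
            have h3 : Measurable (fun x : ℝ => ((x, b) : ℝ × Path)) :=
              measurable_id.prodMk measurable_const
            have h4 := (hm.comp h3).abs.ennreal_ofReal
            exact h4
          simp only
          rw [ENNReal.ofReal_pow (abs_nonneg _)]
          refine (ENNReal.pow_le_pow_left h1).trans ?_
          refine (lintegral_cube_le ν h2.aemeasurable).trans (le_of_eq ?_)
          congr 1
          refine lintegral_congr fun x => ?_
          rw [ENNReal.ofReal_pow (abs_nonneg _)]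
      _ = (ν univ) ^ 2 * ∫⁻ b, ∫⁻ x, ENNReal.ofReal (|g x * zz s k1 k2 x b| ^ 3) ∂ν ∂μ :=
          lintegral_const_mul' _ _ (ENNReal.pow_ne_top (measure_ne_top _ _))
      _ = (ν univ) ^ 2 * ∫⁻ x, ∫⁻ b, ENNReal.ofReal (|g x * zz s k1 k2 x b| ^ 3) ∂μ ∂ν := by
          congr 1
          exact lintegral_lintegral_swap (f := fun (b : Path) (x : ℝ) =>
            ENNReal.ofReal (|g x * zz s k1 k2 x b| ^ 3))
            ((hms.abs.pow_const 3).ennreal_ofReal).aemeasurable
      _ ≤ _ := by gcongr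
  have hfin : (ν univ) ^ 2 * (ENNReal.ofReal (Cz k2) * ENNReal.ofReal (∫ x, |g x| ^ 3 ∂ν)) < ∞ :=
    ENNReal.mul_lt_top (ENNReal.pow_lt_top (measure_lt_top _ _))
      (ENNReal.mul_lt_top ENNReal.ofReal_lt_top ENNReal.ofReal_lt_top)
  have hIR : Integrable (fun b => |∫ x, g x * zz s k1 k2 x b ∂ν| ^ 3) μ := by
    refine ⟨(hmR.abs.pow_const 3).aestronglyMeasurable, ?_⟩
    rw [hasFiniteIntegral_iff_ofReal (ae_of_all _ fun x => by positivity)]
    exact hbd.trans_lt hfin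
  refine ⟨hmR, hae, hIR, ?_, ?_⟩
  · have h1 := integral_integral_swap (f := fun (b : Path) (x : ℝ) => g x * zz s k1 k2 x b)
      (μ := μ) (ν := ν) hswap
    rw [h1]
    have h2 : ∀ x, ∫ b, g x * zz s k1 k2 x b ∂μ = 0 := by
      intro x
      rw [integral_const_mul, h.integral_zz, mul_zero]
    simp only [h2, integral_zero]
  · have h0 : 0 ≤ ∫ x, |g x| ^ 3 ∂ν := integral_nonneg fun x => by positivity
    rw [integral_eq_lintegral_of_nonneg_ae (ae_of_all _ fun x => by positivity)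
      hIR.aestronglyMeasurable]
    refine ENNReal.toReal_le_of_le_ofReal (by have := Cz_nonneg k2; positivity) ?_
    refine hbd.trans (le_of_eq ?_)
    rw [ENNReal.ofReal_mul (by positivity), ENNReal.ofReal_mul (Cz_nonneg k2),
      ENNReal.ofReal_pow ENNReal.toReal_nonneg, ENNReal.ofReal_toReal (measure_ne_top _ _)]

end Cone

/-! ### dependence on the coordinates -/

lemma dependsOn_zz {s k1 k2 : ℕ} {S : Set (ℕ × ℝ)} {x : ℝ}
    (h : ∀ i, s < i → ∀ l, s ≤ l → (i, dy l x) ∈ S) : DependsOn (zz s k1 k2 x) S := by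
  intro b b' hb
  have hY : ∀ j, Y (s + j + 1) x b = Y (s + j + 1) x b' := fun j =>
    dependsOn_Y s (fun l hl => h (s + j + 1) (by omega) l hl) hb
  unfold zz rr SY
  simp only [hY]

/-- the block integral -/
noncomputable def rblk (s r k1 k2 : ℕ) (g : ℝ → ℝ) (j : ℕ) (b : Path) : ℝ :=
  ∫ x in blk s r j, g x * zz s k1 k2 x b

lemma dependsOn_rblk {s r k1 k2 : ℕ} {g : ℝ → ℝ} {j : ℕ} {S : Set (ℕ × ℝ)}
    (h : ∀ p : ℕ × ℝ, s < p.1 → p.2 ∈ blk s r j → p ∈ S) : DependsOn (rblk s r k1 k2 g j) S := by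
  intro b b' hb
  unfold rblk
  refine setIntegral_congr_fun (measurableSet_blk s r j) fun x hx => ?_
  rw [dependsOn_zz (fun i hi l hl => h (i, dy l x) hi (dy_mem_blk hl hx)) hb]

namespace Cone

variable {μ : Measure Path}

lemma indep_rblk (h : Cone μ) {s r k1 k2 : ℕ} {g : ℝ → ℝ} (hm : ∀ j, Measurable (rblk s r k1 k2 g j))
    (j : ℕ) : IndepFun (fun b => ∑ i ∈ Finset.range j, rblk s r k1 k2 g i b)
      (rblk s r k1 k2 g j) μ := by
  refine h.indepFun (S := {p | s < p.1 ∧ ∃ i < j, p.2 ∈ blk s r i})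
    (T := {p | s < p.1 ∧ p.2 ∈ blk s r j}) ?_ (Finset.measurable_sum _ fun i _ => hm i) (hm j) ?_ ?_
  · rintro ⟨i, x⟩ ⟨hi, i', hi', hx⟩ ⟨i2, y⟩ ⟨hi2, hy⟩ _
    simp only at hi hx hy ⊢
    obtain ⟨l, rfl⟩ : ∃ l, i = l + 1 := ⟨i - 1, by omega⟩
    refine kap_succ_of_ge ?_
    refine le_trans ?_ (blk_far hi' hx hy)
    exact inv_anti₀ (by positivity) (pow_le_pow_right₀ (by norm_num) (by omega))
  · intro b b' hb
    simp only
    refine Finset.sum_congr rfl fun i hi => ?_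
    refine dependsOn_rblk (S := {p | s < p.1 ∧ ∃ i < j, p.2 ∈ blk s r i})
      (fun p hp hp2 => ⟨hp, i, Finset.mem_range.1 hi, hp2⟩) hb
  · exact dependsOn_rblk fun p hp hp2 => ⟨hp, hp2⟩

end Cone

lemma memLp_two_of_cube {Ω : Type*} [MeasurableSpace Ω] {P : Measure Ω} [IsFiniteMeasure P]
    {r : Ω → ℝ} (hm : Measurable r) (h3 : Integrable (fun ω => |r ω| ^ 3) P) : MemLp r 2 P := by
  rw [memLp_two_iff_integrable_sq hm.aestronglyMeasurable]
  have h1 : Integrable (fun ω => 1 + |r ω| ^ 3) P := (integrable_const _).add h3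
  refine h1.mono' (hm.pow_const 2).aestronglyMeasurable (ae_of_all _ fun q => ?_)
  rw [Real.norm_eq_abs, abs_pow]
  have ht0 := abs_nonneg (r q)
  generalize |r q| = t at ht0
  by_cases ht : t ≤ 1
  · have h2 := pow_nonneg ht0 3
    have h4 : t ^ 2 ≤ 1 := pow_le_one₀ ht0 ht
    linarith
  · rw [not_le] at ht
    have h2 := sq_nonneg t
    have h3 : t ^ 2 * 1 ≤ t ^ 2 * t := mul_le_mul_of_nonneg_left ht.le h2
    have h4 : t ^ 3 = t ^ 2 * t := by ring
    linarith

lemma sum_sq_indep {Ω : Type*} [MeasurableSpace Ω] {P : Measure Ω} [IsProbabilityMeasure P]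
    (N : ℕ) (r : ℕ → Ω → ℝ)
    (hind : ∀ j < N, IndepFun (fun ω => ∑ i ∈ Finset.range j, r i ω) (r j) P)
    (h2 : ∀ j < N, MemLp (r j) 2 P) (h0 : ∀ j < N, ∫ ω, r j ω ∂P = 0) :
    ∫ ω, (∑ j ∈ Finset.range N, r j ω) ^ 2 ∂P = ∑ j ∈ Finset.range N, ∫ ω, r j ω ^ 2 ∂P := by
  induction N with
  | zero => simp
  | succ N ih =>
    have ih' := ih (fun j hj => hind j (by omega)) (fun j hj => h2 j (by omega))
      (fun j hj => h0 j (by omega))
    have hN := Nat.lt_succ_self N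
    have hS : MemLp (fun ω => ∑ i ∈ Finset.range N, r i ω) 2 P :=
      memLp_finsetSum _ fun i hi => h2 i (by have := Finset.mem_range.1 hi; omega)
    have hr := h2 N hN
    have hcross : ∫ ω, (∑ i ∈ Finset.range N, r i ω) * r N ω ∂P = 0 := by
      have h3 := (hind N hN).integral_mul_eq_mul_integral hS.aestronglyMeasurable
        hr.aestronglyMeasurable
      rw [h0 N hN, mul_zero] at h3
      exact h3
    have i1 : Integrable (fun ω => (∑ i ∈ Finset.range N, r i ω) ^ 2) P := hS.integrable_sq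
    have i2 : Integrable (fun ω => 2 * ((∑ i ∈ Finset.range N, r i ω) * r N ω)) P :=
      (hS.integrable_mul hr).const_mul 2
    have i3 : Integrable (fun ω => r N ω ^ 2) P := hr.integrable_sq
    have i12 : Integrable (fun ω => (∑ i ∈ Finset.range N, r i ω) ^ 2 +
      2 * ((∑ i ∈ Finset.range N, r i ω) * r N ω)) P := i1.add i2
    calc ∫ ω, (∑ j ∈ Finset.range (N + 1), r j ω) ^ 2 ∂P
        = ∫ ω, ((∑ i ∈ Finset.range N, r i ω) ^ 2 +
            2 * ((∑ i ∈ Finset.range N, r i ω) * r N ω) + r N ω ^ 2) ∂P := by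
          refine integral_congr_ae (ae_of_all _ fun ω => ?_)
          simp only
          rw [Finset.sum_range_succ]
          ring
      _ = (∫ ω, (∑ i ∈ Finset.range N, r i ω) ^ 2 ∂P +
            ∫ ω, 2 * ((∑ i ∈ Finset.range N, r i ω) * r N ω) ∂P) + ∫ ω, r N ω ^ 2 ∂P := by
          rw [integral_add i12 i3, integral_add i1 i2]
      _ = _ := by
          rw [integral_const_mul, hcross, ih', Finset.sum_range_succ]
          ring

/-- **Blocks and Lindeberg.** -/
theorem lindeberg_blocks : ∃ C : ℕ → ℝ, (∀ k, 0 ≤ C k) ∧ ∀ {μ : Measure Path}, Cone μ →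
    ∀ (c : ℝ → ℝ), Measurable c → (∀ x, |c x| ≤ 1) → ∀ (s r k1 k2 : ℕ) (τ : ℝ), r ≤ s → k1 ≤ k2 →
    ∀ᵐ a ∂μ, IntegrableOn (fun x => mm s x a ^ 3) UI ∧
    ‖(∫ b, Complex.exp (Complex.I *
        ((τ * RS (Sblk s r) c (s + k1) (s + k2) (glue s a b) : ℝ) : ℂ)) ∂μ) -
      ((Real.exp (-(τ ^ 2 / 2 * QS (Sblk s r) c s (s + k1) (s + k2) a)) : ℝ) : ℂ)‖ ≤
      |τ| ^ 3 * (C k2 * (2 ^ r / 2 ^ s) ^ 2 * ∫ x in UI, mm s x a ^ 3) := by
  refine ⟨Cz, Cz_nonneg, fun {μ} h c hc hc1 s r k1 k2 τ hrs hk => ?_⟩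
  have := h.isProb
  filter_upwards [h.ae_cube_int s, h.inner_eq (Sblk_subset hrs) hc hc1 s hk] with a ha hin
  refine ⟨ha, ?_⟩
  set g : ℝ → ℝ := fun x => c x * mm s x a with hgdef
  have hg : Measurable g := hc.mul (measurable_mm_x s a)
  have hgle : ∀ x, |g x| ^ 3 ≤ mm s x a ^ 3 := by
    intro x
    have h1 := mm_pos s x a
    refine pow_le_pow_left₀ (abs_nonneg _) ?_ 3
    rw [hgdef]
    simp only
    rw [abs_mul, abs_of_pos h1]
    exact mul_le_of_le_one_left h1.le (hc1 x)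
  have hg3 : IntegrableOn (fun x => |g x| ^ 3) UI := by
    refine ha.mono' (hg.abs.pow_const 3).aestronglyMeasurable (ae_of_all _ fun x => ?_)
    rw [Real.norm_of_nonneg (by positivity)]
    exact hgle x
  have : ∀ j, IsFiniteMeasure (volume.restrict (blk s r j)) := fun j => ⟨by
    rw [Measure.restrict_apply_univ]
    exact (volume_blk s r j).trans_lt ENNReal.ofReal_lt_top⟩
  set N := 2 ^ (s - r) with hN
  have hg3b : ∀ j < N, Integrable (fun x => |g x| ^ 3) (volume.restrict (blk s r j)) :=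
    fun j hj => hg3.mono_set (blk_subset hrs hj)
  have hmj : ∀ j, Measurable (rblk s r k1 k2 g j) := by
    intro j
    have hm : Measurable (fun q : ℝ × Path => g q.1 * zz s k1 k2 q.1 q.2) :=
      (hg.comp measurable_fst).mul (measurable_zz s k1 k2)
    have hms : Measurable (fun q : Path × ℝ => g q.2 * zz s k1 k2 q.2 q.1) := by
      have h1 := hm.comp measurable_swap
      exact h1
    exact (hms.stronglyMeasurable.integral_prod_right
      (ν := volume.restrict (blk s r j))).measurable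
  have hmom := fun (j : ℕ) (hj : j < N) =>
    h.block_moments s hk (volume.restrict (blk s r j)) hg (hg3b j hj)
  have hind : ∀ j < N, IndepFun (fun b => ∑ i ∈ Finset.range j, rblk s r k1 k2 g i b)
      (rblk s r k1 k2 g j) μ := fun j _ => h.indep_rblk hmj j
  have h3 : ∀ j < N, Integrable (fun b => |rblk s r k1 k2 g j b| ^ 3) μ :=
    fun j hj => (hmom j hj).2.2.1
  have h0 : ∀ j < N, ∫ b, rblk s r k1 k2 g j b ∂μ = 0 := fun j hj => (hmom j hj).2.2.2.1
  have h3b : ∀ j < N, ∫ b, |rblk s r k1 k2 g j b| ^ 3 ∂μ ≤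
      (2 ^ r / 2 ^ s) ^ 2 * (Cz k2 * ∫ x in blk s r j, |g x| ^ 3) := by
    intro j hj
    refine (hmom j hj).2.2.2.2.trans ?_
    have e1 := volume_real_blk s r j
    rw [Measure.restrict_apply_univ]
    have e2 : 0 ≤ ∫ x in blk s r j, |g x| ^ 3 := integral_nonneg fun x => by positivity
    have e3 := Cz_nonneg k2
    gcongr
  -- the decomposition
  have hsum : ∀ᵐ b ∂μ, RS (Sblk s r) c (s + k1) (s + k2) (glue s a b) =
      ∑ j ∈ Finset.range N, rblk s r k1 k2 g j b := by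
    have hall : ∀ᵐ b ∂μ, ∀ j : ℕ, j < N →
        Integrable (fun x => g x * zz s k1 k2 x b) (volume.restrict (blk s r j)) := by
      rw [ae_all_iff]
      intro j
      by_cases hj : j < N
      · filter_upwards [(hmom j hj).2.1] with b hb _
        exact hb
      · exact ae_of_all _ fun b hj' => absurd hj' hj
    filter_upwards [hall] with b hb
    rw [RS_glue]
    unfold Sblk rblk
    exact integral_biUnion_finset (Finset.range N) (fun j _ => measurableSet_blk s r j)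
      (fun i _ j _ hij => blk_disjoint hij) (fun j hj => hb j (Finset.mem_range.1 hj))
  have hchar := charfun_sum_indep (P := μ) N (rblk s r k1 k2 g) (fun j _ => hmj j) hind h3 h0 τ
  have hsq := sum_sq_indep (P := μ) N (rblk s r k1 k2 g) hind
    (fun j hj => memLp_two_of_cube (hmj j) (h3 j hj)) h0
  have hQ : QS (Sblk s r) c s (s + k1) (s + k2) a =
      ∑ j ∈ Finset.range N, ∫ b, rblk s r k1 k2 g j b ^ 2 ∂μ := by
    rw [← hsq, ← hin.2]
    refine integral_congr_ae ?_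
    filter_upwards [hsum] with b hb
    rw [hb]
  have hE : ∫ b, Complex.exp (Complex.I *
        ((τ * RS (Sblk s r) c (s + k1) (s + k2) (glue s a b) : ℝ) : ℂ)) ∂μ =
      ∫ b, Complex.exp (Complex.I *
        ((τ * ∑ j ∈ Finset.range N, rblk s r k1 k2 g j b : ℝ) : ℂ)) ∂μ := by
    refine integral_congr_ae ?_
    filter_upwards [hsum] with b hb
    rw [hb]
  rw [hQ, hE]
  refine hchar.trans ?_
  refine mul_le_mul_of_nonneg_left ?_ (by positivity)
  calc ∑ j ∈ Finset.range N, ∫ b, |rblk s r k1 k2 g j b| ^ 3 ∂μ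
      ≤ ∑ j ∈ Finset.range N, (2 ^ r / 2 ^ s) ^ 2 * (Cz k2 * ∫ x in blk s r j, |g x| ^ 3) :=
        Finset.sum_le_sum fun j hj => h3b j (Finset.mem_range.1 hj)
    _ = Cz k2 * (2 ^ r / 2 ^ s) ^ 2 * ∑ j ∈ Finset.range N, ∫ x in blk s r j, |g x| ^ 3 := by
        rw [Finset.mul_sum]
        exact Finset.sum_congr rfl fun j _ => by ring
    _ = Cz k2 * (2 ^ r / 2 ^ s) ^ 2 * ∫ x in Sblk s r, |g x| ^ 3 := by
        congr 1
        unfold Sblk
        exact (integral_biUnion_finset (Finset.range N) (fun j _ => measurableSet_blk s r j)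
          (fun i _ j _ hij => blk_disjoint hij)
          (fun j hj => hg3b j (Finset.mem_range.1 hj))).symm
    _ ≤ Cz k2 * (2 ^ r / 2 ^ s) ^ 2 * ∫ x in UI, mm s x a ^ 3 := by
        refine mul_le_mul_of_nonneg_left ?_ (mul_nonneg (Cz_nonneg _) (by positivity))
        calc ∫ x in Sblk s r, |g x| ^ 3 ≤ ∫ x in UI, |g x| ^ 3 :=
              setIntegral_mono_set hg3 (ae_of_all _ fun x => by positivity)
                (Sblk_subset hrs).eventuallyLE
          _ ≤ _ := integral_mono hg3 ha fun x => hgle x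

end Pool.Agent.helper95.GMC
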