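import Pool.Agent.helper95.GMC.Mid

/-!
Blocks of the unit interval, cubic moments (first part of module B of MP_d68443_pr).
-/

open MeasureTheory ProbabilityTheory Filter Topology Set
open scoped ENNReal NNReal

namespace Pool.Agent.helper95.GMC

/-- a block without its last cell -/
def blk (s r j : ℕ) : Set ℝ := Set.Ico ((j * 2 ^ r : ℝ) / 2 ^ s) (((j + 1) * 2 ^ r - 1 : ℝ) / 2 ^ s)

/-- union of the blocks -/
def Sblk (s r : ℕ) : Set ℝ := ⋃ j ∈ Finset.range (2 ^ (s - r)), blk s r j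

theorem measurableSet_blk (s r j : ℕ) : MeasurableSet (blk s r j) := measurableSet_Ico

theorem blk_subset {s r j : ℕ} (h : r ≤ s) (hj : j < 2 ^ (s - r)) : blk s r j ⊆ UI := by
  intro x hx
  obtain ⟨h1, h2⟩ := hx
  have h3 : (0 : ℝ) < 2 ^ s := by positivity
  constructor
  · refine le_trans ?_ h1
    positivity
  · refine h2.le.trans ?_
    rw [div_le_one h3]
    have h4 : ((j : ℝ) + 1) ≤ 2 ^ (s - r) := by exact_mod_cast hj
    have h5 : ((j : ℝ) + 1) * 2 ^ r ≤ 2 ^ (s - r) * 2 ^ r := by gcongr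
    rw [← pow_add, Nat.sub_add_cancel h] at h5
    linarith

theorem Sblk_subset {s r : ℕ} (h : r ≤ s) : Sblk s r ⊆ UI := by
  intro x hx
  simp only [Sblk, Set.mem_iUnion] at hx
  obtain ⟨j, hj, hx⟩ := hx
  exact blk_subset h (Finset.mem_range.1 hj) hx

theorem measurableSet_Sblk (s r : ℕ) : MeasurableSet (Sblk s r) :=
  Finset.measurableSet_biUnion _ fun j _ => measurableSet_blk s r j

theorem volume_diff_Sblk {s r : ℕ} (h : r ≤ s) :
    volume (UI \ Sblk s r) ≤ ENNReal.ofReal ((2 ^ r)⁻¹) := by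
  have hs : (0 : ℝ) < 2 ^ s := by positivity
  have hr : (0 : ℝ) < 2 ^ r := by positivity
  have hN : (2 : ℝ) ^ (s - r) * 2 ^ r = 2 ^ s := by rw [← pow_add, Nat.sub_add_cancel h]
  have hsub : UI \ Sblk s r ⊆ ⋃ j ∈ Finset.range (2 ^ (s - r)),
      Set.Icc (((j + 1) * 2 ^ r - 1 : ℝ) / 2 ^ s) (((j + 1) * 2 ^ r : ℝ) / 2 ^ s) := by
    rintro x ⟨hx, hxs⟩
    simp only [Set.mem_iUnion]
    rcases eq_or_lt_of_le hx.2 with h1 | h1
    · refine ⟨2 ^ (s - r) - 1, Finset.mem_range.2 (Nat.sub_lt (by positivity) one_pos), ?_⟩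
      have e : (((2 ^ (s - r) - 1 : ℕ) : ℝ) + 1) = 2 ^ (s - r) := by
        rw [Nat.cast_sub (Nat.one_le_two_pow)]
        push_cast
        ring
      rw [e, hN]
      constructor
      · rw [div_le_iff₀ hs, h1]
        linarith
      · rw [le_div_iff₀ hs, h1]
        linarith
    · have hx0 : 0 ≤ x := hx.1
      set j := ⌊x * 2 ^ s / 2 ^ r⌋₊ with hj
      have hj1 : (j : ℝ) ≤ x * 2 ^ s / 2 ^ r := Nat.floor_le (by positivity)
      have hj2 : x * 2 ^ s / 2 ^ r < j + 1 := Nat.lt_floor_add_one _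
      rw [le_div_iff₀ hr] at hj1
      rw [div_lt_iff₀ hr] at hj2
      have hjN : j < 2 ^ (s - r) := by
        have h2 : (j : ℝ) * 2 ^ r < 2 ^ (s - r) * 2 ^ r := by
          rw [hN]
          refine hj1.trans_lt ?_
          nlinarith
        have h3 : (j : ℝ) < 2 ^ (s - r) := lt_of_mul_lt_mul_right h2 hr.le
        exact_mod_cast h3
      refine ⟨j, Finset.mem_range.2 hjN, ?_, ?_⟩
      · by_contra hcon
        rw [not_le] at hcon
        refine hxs ?_
        simp only [Sblk, Set.mem_iUnion]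
        refine ⟨j, Finset.mem_range.2 hjN, ?_, hcon⟩
        rw [div_le_iff₀ hs]
        exact hj1
      · rw [le_div_iff₀ hs]
        exact hj2.le
  refine (measure_mono hsub).trans ((measure_biUnion_finset_le _ _).trans ?_)
  have h1 : ∀ j ∈ Finset.range (2 ^ (s - r)),
      volume (Set.Icc (((j + 1) * 2 ^ r - 1 : ℝ) / 2 ^ s) (((j + 1) * 2 ^ r : ℝ) / 2 ^ s)) =
      ENNReal.ofReal ((2 ^ s)⁻¹) := by
    intro j _
    rw [Real.volume_Icc]
    congr 1
    field_simp
    ring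
  rw [Finset.sum_congr rfl h1, Finset.sum_const, Finset.card_range, nsmul_eq_mul,
    ← ENNReal.ofReal_natCast, ← ENNReal.ofReal_mul (by positivity)]
  refine ENNReal.ofReal_le_ofReal (le_of_eq ?_)
  push_cast
  rw [← hN]
  field_simp

theorem volume_blk (s r j : ℕ) : volume (blk s r j) ≤ ENNReal.ofReal (2 ^ r / 2 ^ s) := by
  unfold blk
  rw [Real.volume_Ico]
  refine ENNReal.ofReal_le_ofReal ?_
  rw [← sub_div]
  gcongr
  linarith

theorem volume_real_blk (s r j : ℕ) : (volume (blk s r j)).toReal ≤ 2 ^ r / 2 ^ s :=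
  ENNReal.toReal_le_of_le_ofReal (by positivity) (volume_blk s r j)

/-- dyadic approximations from below stay in the block -/
theorem dy_mem_blk {s r j l : ℕ} (hl : s ≤ l) {x : ℝ} (hx : x ∈ blk s r j) : dy l x ∈ blk s r j := by
  obtain ⟨h1, h2⟩ := hx
  refine ⟨?_, (dy_le l x).trans_lt h2⟩
  have h3 := le_dy hl (a := (j * 2 ^ r : ℤ)) (x := x) (by push_cast; exact h1)
  push_cast at h3
  exact h3

/-- points of different blocks are far apart -/
theorem blk_far {s r i j : ℕ} (hij : i < j) {x y : ℝ} (hx : x ∈ blk s r i) (hy : y ∈ blk s r j) :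
    (2 ^ s)⁻¹ ≤ |x - y| := by
  obtain ⟨_, h2⟩ := hx
  obtain ⟨h3, _⟩ := hy
  have hs : (0 : ℝ) < 2 ^ s := by positivity
  rw [lt_div_iff₀ hs] at h2
  rw [div_le_iff₀ hs] at h3
  have h4 : ((i : ℝ) + 1) ≤ j := by exact_mod_cast hij
  have h5 : ((i : ℝ) + 1) * 2 ^ r ≤ j * 2 ^ r := by gcongr
  rw [abs_sub_comm]
  refine le_trans ?_ (le_abs_self _)
  rw [inv_le_iff_one_le_mul₀ hs]
  linarith

theorem blk_disjoint {s r i j : ℕ} (hij : i ≠ j) : Disjoint (blk s r i) (blk s r j) := by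
  rw [Set.disjoint_left]
  intro x hx hy
  have hs : (0 : ℝ) < (2 ^ s)⁻¹ := by positivity
  rcases lt_or_gt_of_ne hij with h | h
  · have := blk_far h hx hy
    rw [sub_self, abs_zero] at this
    linarith
  · have := blk_far h hy hx
    rw [sub_self, abs_zero] at this
    linarith

/-! ### cubic moments -/

namespace Cone

variable {μ : Measure Path}

lemma lintegral_rr_cube (h : Cone μ) (s k : ℕ) (x : ℝ) :
    ∫⁻ z, ENNReal.ofReal (rr s k x z ^ 3) ∂μ = ENNReal.ofReal (Real.exp (3 / 2 * (k * Real.log 2))) := by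
  have := h.isProb
  have h1 : (fun z => ENNReal.ofReal (rr s k x z ^ 3)) =ᵐ[μ] fun z =>
      ENNReal.ofReal (Real.exp (-(3 * (k * Real.log 2) / 4))) *
      ENNReal.ofReal (Real.exp (3 * gam / 2 * So s k x z + 3 * gam / 2 * So s k x z)) := by
    filter_upwards [h.SY_ae s k x] with z h1
    unfold rr
    rw [h1, ← ENNReal.ofReal_mul (Real.exp_pos _).le, ← Real.exp_add, ← Real.exp_nat_mul]
    congr 2
    push_cast
    ring
  have hα : 0 < 3 * gam / 2 := by have := gam_pos; positivity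
  rw [lintegral_congr_ae h1, lintegral_const_mul' _ _ ENNReal.ofReal_ne_top,
    h.lintegral_exp_So s k hα, ← ENNReal.ofReal_mul (Real.exp_pos _).le,
    ← Real.exp_add, sub_self, dK_zero_right]
  congr 2
  have h2 := gam_sq
  have h3 : (3 * gam / 2) ^ 2 = 9 / 8 := by
    have : (3 * gam / 2) ^ 2 = 9 / 4 * gam ^ 2 := by ring
    rw [this, h2]
    norm_num
  rw [h3]
  ring

lemma lintegral_mm_cube (h : Cone μ) (s : ℕ) (x : ℝ) :
    ∫⁻ z, ENNReal.ofReal (mm s x z ^ 3) ∂μ =
      ENNReal.ofReal (Real.exp (3 / 2 + 3 / 2 * (s * Real.log 2))) := by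
  have := h.isProb
  have e : ∀ z, ENNReal.ofReal (mm s x z ^ 3) =
      ENNReal.ofReal (mm 0 x z ^ 3) * ENNReal.ofReal (rr 0 s x z ^ 3) := by
    intro z
    rw [← ENNReal.ofReal_mul (by have := mm_pos 0 x z; positivity), ← mul_pow, ← mm_add, zero_add]
  rw [lintegral_congr e]
  rw [h.lintegral_mul_glue 0 (F := fun z => ENNReal.ofReal (mm 0 x z ^ 3))
    (G := fun z => ENNReal.ofReal (rr 0 s x z ^ 3))
    ((measurable_mm_path 0 x).pow_const 3).ennreal_ofReal
    ((measurable_rr_path 0 s x).pow_const 3).ennreal_ofReal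
    (fun a b => by rw [mm_glue le_rfl]) (fun a b => by rw [rr_glue_ge le_rfl])]
  rw [h.lintegral_rr_cube]
  have h0 : ∫⁻ z, ENNReal.ofReal (mm 0 x z ^ 3) ∂μ = ENNReal.ofReal (Real.exp (3 / 2)) := by
    have h1 : (fun z => ENNReal.ofReal (mm 0 x z ^ 3)) =ᵐ[μ] fun z =>
        ENNReal.ofReal (Real.exp (-(3 / 4))) *
        ENNReal.ofReal (Real.exp (3 * gam * z (0, x))) := by
      filter_upwards [h.Y_ae_eq 0 x] with z h1
      unfold mm SY
      rw [h1, Finset.sum_range_zero, ← ENNReal.ofReal_mul (Real.exp_pos _).le, ← Real.exp_add,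
        ← Real.exp_nat_mul]
      congr 2
      push_cast
      ring
    rw [lintegral_congr_ae h1, lintegral_const_mul' _ _ ENNReal.ofReal_ne_top,
      h.lintegral_exp_zero, ← ENNReal.ofReal_mul (Real.exp_pos _).le, ← Real.exp_add]
    congr 2
    have h2 := gam_sq
    have h3 : (3 * gam) ^ 2 = 9 / 2 := by
      have : (3 * gam) ^ 2 = 9 * gam ^ 2 := by ring
      rw [this, h2]
      norm_num
    rw [h3]
    norm_num
  rw [h0, ← ENNReal.ofReal_mul (Real.exp_pos _).le, ← Real.exp_add]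

/-- almost surely the cube of the density is integrable in `x` -/
lemma ae_cube_int (h : Cone μ) (s : ℕ) :
    ∀ᵐ a ∂μ, IntegrableOn (fun x => mm s x a ^ 3) UI := by
  have := h.isProb
  have hm : Measurable (fun q : Path × ℝ => ENNReal.ofReal (mm s q.2 q.1 ^ 3)) :=
    ((measurable_mm_swap s).pow_const 3).ennreal_ofReal
  have h1 : ∫⁻ a, (∫⁻ x in UI, ENNReal.ofReal (mm s x a ^ 3)) ∂μ ≠ ∞ := by
    rw [lintegral_lintegral_swap (f := fun (a : Path) (x : ℝ) => ENNReal.ofReal (mm s x a ^ 3))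
      hm.aemeasurable]
    simp_rw [h.lintegral_mm_cube]
    rw [lintegral_const]
    refine ENNReal.mul_ne_top ENNReal.ofReal_ne_top ?_
    simp
  have h2 := ae_lt_top (Measurable.lintegral_prod_right' (f := fun q : Path × ℝ =>
    ENNReal.ofReal (mm s q.2 q.1 ^ 3)) hm) h1
  filter_upwards [h2] with a ha
  refine ⟨((measurable_mm_x s a).pow_const 3).aestronglyMeasurable, ?_⟩
  rw [hasFiniteIntegral_iff_ofReal (ae_of_all _ fun x => pow_nonneg (mm_pos s x a).le 3)]
  exact ha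

end Cone

/-- third moment on the good event -/
theorem good_cube_le : ∃ C : ℝ, 0 ≤ C ∧ ∀ {μ : Measure Path}, Cone μ → ∀ (M : ℝ) (s : ℕ),
    0 ≤ M → 1 ≤ s →
    ∫⁻ a, (Good M s).indicator (fun a => ∫⁻ x in UI, ENNReal.ofReal (mm s x a ^ 3)) a ∂μ ≤
      ENNReal.ofReal (C * ((1 + M) * Real.exp M) * Real.exp (5 / 4 * (s * Real.log 2)) /
        (s * √s)) := by
  obtain ⟨C, hC0, hC⟩ := Cone.bar_cube_le
  refine ⟨C, hC0, fun {μ} h M s hM hs => ?_⟩
  have hF : Measurable (fun q : ℝ × Path => ENNReal.ofReal (mm s q.1 q.2 ^ 3)) :=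
    ((measurable_mm s).pow_const 3).ennreal_ofReal
  rw [h.good_tonelli M s (volume.restrict UI) (F := fun x a => ENNReal.ofReal (mm s x a ^ 3)) hF]
  refine (setLIntegral_mono' (g := fun _ => ENNReal.ofReal (C * ((1 + M) * Real.exp M) *
    Real.exp (5 / 4 * (s * Real.log 2)) / (s * √s))) measurableSet_Icc fun x hx => ?_).trans
    (le_of_eq ?_)
  · exact (h.good_indicator_le M s hx _).trans (hC h M s x hM hs)
  · rw [setLIntegral_const]
    simp

end Pool.Agent.helper95.GMC
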