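import Pool.Agent.helper9.GaussCore

/-!
Comparison of characteristic functions of multiplicative chaos integrals (module U).
-/

open MeasureTheory ProbabilityTheory Filter Topology Set
open scoped ENNReal NNReal

namespace Pool.Agent.helper95.GMC

open Pool.Agent.helper9.GMC

/-- real coefficients -/
theorem charfun_compare_real {ι : Type*} [Fintype ι]
    {Ω Ω' : Type*} [MeasurableSpace Ω] [MeasurableSpace Ω'] (P : Measure Ω) (P' : Measure Ω')
    [IsProbabilityMeasure P] [IsProbabilityMeasure P']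
    (X : ι → Ω → ℝ) (X' : ι → Ω' → ℝ)
    (hX : HasGaussianLaw (fun ω i => X i ω) P) (hX' : HasGaussianLaw (fun ω i => X' i ω) P')
    (h0 : ∀ i, ∫ ω, X i ω ∂P = 0) (h0' : ∀ i, ∫ ω, X' i ω ∂P' = 0)
    (C C' : ι → ι → ℝ) (hC : ∀ i j, cov[X i, X j; P] = C i j)
    (hC' : ∀ i j, cov[X' i, X' j; P'] = C' i j)
    (a : ι → ℝ) (γ : ℝ) :
    ‖(∫ ω, Complex.exp (Complex.I * ((∑ i, a i * Real.exp (γ * X i ω - γ ^ 2 / 2 * C i i) : ℝ) : ℂ))
        ∂P) -
      ∫ ω, Complex.exp (Complex.I * ((∑ i, a i * Real.exp (γ * X' i ω - γ ^ 2 / 2 * C' i i) : ℝ) : ℂ))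
        ∂P'‖ ≤
      γ ^ 2 * ∑ i, ∑ j, |a i| * |a j| * |C i j - C' i j| *
      Real.exp (γ ^ 2 * max (C i j) (C' i j)) := by
  have hXi : ∀ i, HasGaussianLaw (X i) P := fun i => hX.eval i
  have hX'i : ∀ i, HasGaussianLaw (X' i) P' := fun i => hX'.eval i
  set Q := P.prod P' with hQ
  have mp1 : MeasurePreserving (Prod.fst : Ω × Ω' → Ω) Q P := measurePreserving_fst
  have mp2 : MeasurePreserving (Prod.snd : Ω × Ω' → Ω') Q P' := measurePreserving_snd
  have hA : HasGaussianLaw (fun q : Ω × Ω' => (fun i => X i q.1)) Q := by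
    constructor
    have h1 := hX.isGaussian_map
    have h2 : Q.map (fun q : Ω × Ω' => (fun i => X i q.1)) = P.map (fun ω i => X i ω) := by
      rw [← mp1.map_eq, AEMeasurable.map_map_of_aemeasurable (by rw [mp1.map_eq]; exact hX.aemeasurable)
        measurable_fst.aemeasurable]
      rfl
    rw [h2]; exact h1
  have hB : HasGaussianLaw (fun q : Ω × Ω' => (fun i => X' i q.2)) Q := by
    constructor
    have h1 := hX'.isGaussian_map
    have h2 : Q.map (fun q : Ω × Ω' => (fun i => X' i q.2)) = P'.map (fun ω i => X' i ω) := by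
      rw [← mp2.map_eq, AEMeasurable.map_map_of_aemeasurable (by rw [mp2.map_eq]; exact hX'.aemeasurable)
        measurable_snd.aemeasurable]
      rfl
    rw [h2]; exact h1
  have hind : IndepFun (fun q : Ω × Ω' => (fun i => X i q.1)) (fun q : Ω × Ω' => (fun i => X' i q.2))
      Q := indepFun_prod₀ hX.aemeasurable hX'.aemeasurable
  have hZ := hind.hasGaussianLaw hA hB
  have i1 : ∀ f : Ω → ℂ, AEStronglyMeasurable f P → ∫ q, f q.1 ∂Q = ∫ ω, f ω ∂P := by
    intro f hf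
    rw [hQ, integral_fun_fst]
    simp
  have i2 : ∀ f : Ω' → ℂ, AEStronglyMeasurable f P' → ∫ q, f q.2 ∂Q = ∫ ω, f ω ∂P' := by
    intro f hf
    rw [hQ, integral_fun_snd]
    simp
  have key := compare_core (Q := Q) (A := fun i q => X i q.1) (B := fun i q => X' i q.2)
    (C := C) (C' := C') hZ ?_ ?_ ?_ ?_ ?_ a γ
  · have e1 := i1 (fun ω => Complex.exp (Complex.I *
      ((∑ i, a i * Real.exp (γ * X i ω - γ ^ 2 / 2 * C i i) : ℝ) : ℂ))) ?_
    · have e2 := i2 (fun ω => Complex.exp (Complex.I *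
        ((∑ i, a i * Real.exp (γ * X' i ω - γ ^ 2 / 2 * C' i i) : ℝ) : ℂ))) ?_
      · rw [← e1, ← e2]
        exact key
      · have : ∀ i, AEMeasurable (X' i) P' := fun i => (hX'i i).aemeasurable
        exact (by fun_prop : AEMeasurable _ P').aestronglyMeasurable
    · have : ∀ i, AEMeasurable (X i) P := fun i => (hXi i).aemeasurable
      exact (by fun_prop : AEMeasurable _ P).aestronglyMeasurable
  · intro i
    rw [hQ, integral_fun_fst (f := fun ω => X i ω)]
    simp [h0]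
  · intro i
    rw [hQ, integral_fun_snd (f := fun ω => X' i ω)]
    simp [h0']
  · intro i j
    have := covariance_map_fun (X := X i) (Y := X j) (Z := (Prod.fst : Ω × Ω' → Ω)) (μ := Q)
      (by rw [mp1.map_eq]; exact (hXi i).aemeasurable.aestronglyMeasurable)
      (by rw [mp1.map_eq]; exact (hXi j).aemeasurable.aestronglyMeasurable)
      measurable_fst.aemeasurable
    rw [mp1.map_eq, hC] at this
    exact this.symm
  · intro i j
    have := covariance_map_fun (X := X' i) (Y := X' j) (Z := (Prod.snd : Ω × Ω' → Ω')) (μ := Q)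
      (by rw [mp2.map_eq]; exact (hX'i i).aemeasurable.aestronglyMeasurable)
      (by rw [mp2.map_eq]; exact (hX'i j).aemeasurable.aestronglyMeasurable)
      measurable_snd.aemeasurable
    rw [mp2.map_eq, hC'] at this
    exact this.symm
  · intro i j
    have h1 : IndepFun (fun q : Ω × Ω' => X i q.1) (fun q : Ω × Ω' => X' j q.2) Q :=
      indepFun_prod₀ (hXi i).aemeasurable (hX'i j).aemeasurable
    exact h1.covariance_eq_zero (hA.eval i).memLp_two (hB.eval j).memLp_two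

/-- finite-dimensional version (first step, Gaussian interpolation) -/
theorem charfun_compare_fin {ι : Type*} [Fintype ι]
    {Ω Ω' : Type*} [MeasurableSpace Ω] [MeasurableSpace Ω'] (P : Measure Ω) (P' : Measure Ω')
    [IsProbabilityMeasure P] [IsProbabilityMeasure P']
    (X : ι → Ω → ℝ) (X' : ι → Ω' → ℝ)
    (hX : HasGaussianLaw (fun ω i => X i ω) P) (hX' : HasGaussianLaw (fun ω i => X' i ω) P')
    (h0 : ∀ i, ∫ ω, X i ω ∂P = 0) (h0' : ∀ i, ∫ ω, X' i ω ∂P' = 0)
    (C C' : ι → ι → ℝ) (hC : ∀ i j, cov[X i, X j; P] = C i j)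
    (hC' : ∀ i j, cov[X' i, X' j; P'] = C' i j)
    (p : ι → ℂ) (γ : ℝ) (z : ℂ) :
    ‖(∫ ω, Complex.exp (Complex.I * ((starRingEnd ℂ z *
        ∑ i, p i * Complex.exp (γ * X i ω - γ ^ 2 / 2 * C i i)).re : ℝ)) ∂P) -
      ∫ ω, Complex.exp (Complex.I * ((starRingEnd ℂ z *
        ∑ i, p i * Complex.exp (γ * X' i ω - γ ^ 2 / 2 * C' i i)).re : ℝ)) ∂P'‖ ≤
    ‖z‖ ^ 2 * γ ^ 2 * ∑ i, ∑ j, ‖p i‖ * ‖p j‖ * |C i j - C' i j| *
      Real.exp (γ ^ 2 * max (C i j) (C' i j)) := by
  have e1 : ∀ ω, (starRingEnd ℂ z * ∑ i, p i * Complex.exp (γ * X i ω - γ ^ 2 / 2 * C i i)).re =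
      ∑ i, (starRingEnd ℂ z * p i).re * Real.exp (γ * X i ω - γ ^ 2 / 2 * C i i) := by
    intro ω
    rw [Finset.mul_sum, Complex.re_sum]
    refine Finset.sum_congr rfl fun i _ => ?_
    have : Complex.exp (γ * X i ω - γ ^ 2 / 2 * C i i) =
      ((Real.exp (γ * X i ω - γ ^ 2 / 2 * C i i) : ℝ) : ℂ) := by push_cast; rfl
    rw [this, ← mul_assoc, Complex.re_mul_ofReal]
  have e2 : ∀ ω, (starRingEnd ℂ z * ∑ i, p i * Complex.exp (γ * X' i ω - γ ^ 2 / 2 * C' i i)).re =
      ∑ i, (starRingEnd ℂ z * p i).re * Real.exp (γ * X' i ω - γ ^ 2 / 2 * C' i i) := by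
    intro ω
    rw [Finset.mul_sum, Complex.re_sum]
    refine Finset.sum_congr rfl fun i _ => ?_
    have : Complex.exp (γ * X' i ω - γ ^ 2 / 2 * C' i i) =
      ((Real.exp (γ * X' i ω - γ ^ 2 / 2 * C' i i) : ℝ) : ℂ) := by push_cast; rfl
    rw [this, ← mul_assoc, Complex.re_mul_ofReal]
  simp only [e1, e2]
  refine (charfun_compare_real P P' X X' hX hX' h0 h0' C C' hC hC'
    (fun i => (starRingEnd ℂ z * p i).re) γ).trans ?_
  have ha : ∀ i, |(starRingEnd ℂ z * p i).re| ≤ ‖z‖ * ‖p i‖ := by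
    intro i
    refine (Complex.abs_re_le_norm _).trans ?_
    rw [norm_mul, RCLike.norm_conj]
  rw [mul_comm (‖z‖ ^ 2), mul_assoc, Finset.mul_sum (a := ‖z‖ ^ 2)]
  refine mul_le_mul_of_nonneg_left (Finset.sum_le_sum fun i _ => ?_) (sq_nonneg γ)
  rw [Finset.mul_sum]
  refine Finset.sum_le_sum fun j _ => ?_
  calc |(starRingEnd ℂ z * p i).re| * |(starRingEnd ℂ z * p j).re| * |C i j - C' i j| *
        Real.exp (γ ^ 2 * max (C i j) (C' i j)) ≤
      (‖z‖ * ‖p i‖) * (‖z‖ * ‖p j‖) * |C i j - C' i j| *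
        Real.exp (γ ^ 2 * max (C i j) (C' i j)) := by
        gcongr
        · exact ha i
        · exact ha j
    _ = _ := by ring

end Pool.Agent.helper95.GMC
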