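import Mathlib

/-!
Monte Carlo approximation of integrals of random functions.
-/

open MeasureTheory ProbabilityTheory Filter Topology Set
open scoped ENNReal NNReal

namespace Pool.Agent.helper9.GMC

theorem mc_var {n : ℕ} (hn : 0 < n) (lam : Measure ℝ) [IsProbabilityMeasure lam] {f : ℝ → ℝ}
    (hf : MemLp f 2 lam) :
    ∫⁻ u : Fin n → ℝ, ENNReal.ofReal (((∑ k, f (u k)) / n - ∫ x, f x ∂lam) ^ 2)
      ∂(Measure.pi fun _ => lam) ≤ ENNReal.ofReal ((∫ x, f x ^ 2 ∂lam) / n) := by
  have hn' : (n : ℝ) ≠ 0 := by exact_mod_cast hn.ne'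
  set π := Measure.pi fun _ : Fin n => lam with hπ
  have hmp : ∀ k, MeasurePreserving (fun u : Fin n → ℝ => u k) π lam := fun k =>
    measurePreserving_eval _ k
  have hfk : ∀ k, MemLp (fun u : Fin n → ℝ => f (u k)) 2 π := fun k =>
    hf.comp_measurePreserving (hmp k)
  have hS : MemLp (fun u : Fin n → ℝ => (∑ k, f (u k)) / n) 2 π := by
    have h1 : MemLp (fun u : Fin n → ℝ => ∑ k, f (u k)) 2 π := memLp_finsetSum _ fun k _ => hfk k
    have h2 := h1.mul_const ((n : ℝ)⁻¹)
    exact h2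
  have hE : ∫ u : Fin n → ℝ, (∑ k, f (u k)) / n ∂π = ∫ x, f x ∂lam := by
    rw [integral_div, integral_finsetSum _ fun k _ => (hfk k).integrable (by norm_num)]
    have : ∀ k, ∫ u : Fin n → ℝ, f (u k) ∂π = ∫ x, f x ∂lam := by
      intro k
      rw [← (hmp k).map_eq, integral_map (hmp k).measurable.aemeasurable]
      rw [(hmp k).map_eq]; exact hf.aestronglyMeasurable
    simp only [this, Finset.sum_const, Finset.card_univ, Fintype.card_fin, nsmul_eq_mul]
    field_simp
  have hint : Integrable (fun u : Fin n → ℝ => ((∑ k, f (u k)) / n - ∫ x, f x ∂lam) ^ 2) π :=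
    (hS.sub (memLp_const _)).integrable_sq
  rw [← ofReal_integral_eq_lintegral_ofReal hint (ae_of_all _ fun u => sq_nonneg _)]
  apply ENNReal.ofReal_le_ofReal
  have h1 : ∫ u : Fin n → ℝ, ((∑ k, f (u k)) / n - ∫ x, f x ∂lam) ^ 2 ∂π =
      Var[fun u : Fin n → ℝ => (∑ k, f (u k)) / n; π] := by
    rw [variance_eq_integral hS.aemeasurable, hE]
  have h2 : Var[fun u : Fin n → ℝ => (∑ k, f (u k)) / n; π] = (1 / n) * Var[f; lam] := by
    have e : (fun u : Fin n → ℝ => (∑ k, f (u k)) / n) =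
        fun u => (n : ℝ)⁻¹ * (∑ k, fun u : Fin n → ℝ => f (u k)) u := by
      ext u
      rw [Finset.sum_apply]
      field_simp
    rw [e, variance_const_mul, hπ, variance_sum_pi (X := fun _ => f) (fun _ => hf)]
    simp only [Finset.sum_const, Finset.card_univ, Fintype.card_fin, nsmul_eq_mul]
    field_simp
  rw [h1, h2]
  have h3 := variance_le_expectation_sq hf.aestronglyMeasurable
  have h4 : (1 / (n : ℝ)) * Var[f; lam] ≤ (1 / n) * ∫ x, f x ^ 2 ∂lam := by
    refine mul_le_mul_of_nonneg_left ?_ (by positivity)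
    simpa using h3
  refine h4.trans (le_of_eq ?_)
  ring

theorem norm_cexp_sub_le (a b : ℝ) :
    ‖Complex.exp (Complex.I * (a : ℂ)) - Complex.exp (Complex.I * (b : ℂ))‖ ≤ |a - b| := by
  have h1 : Complex.exp (Complex.I * (a : ℂ)) - Complex.exp (Complex.I * (b : ℂ)) =
      Complex.exp (Complex.I * (b : ℂ)) * (Complex.exp (Complex.I * ((a - b : ℝ) : ℂ)) - 1) := by
    rw [mul_sub, mul_one, ← Complex.exp_add]
    congr 2
    push_cast; ring
  rw [h1, norm_mul, mul_comm Complex.I (b : ℂ), Complex.norm_exp_ofReal_mul_I, one_mul]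
  have := Real.norm_exp_I_mul_ofReal_sub_one_le (x := a - b)
  simpa using this

theorem monte_carlo {Ω : Type*} [MeasurableSpace Ω] (P : Measure Ω) [IsProbabilityMeasure P]
    (lam : Measure ℝ) [IsProbabilityMeasure lam] (h : ℝ → Ω → ℝ)
    (hm : Measurable (fun q : ℝ × Ω => h q.1 q.2)) (K : ℝ) (hK0 : 0 ≤ K)
    (hK : ∫⁻ ω, ∫⁻ x, ENNReal.ofReal (h x ω ^ 2) ∂lam ∂P ≤ ENNReal.ofReal K)
    {n : ℕ} (hn : 0 < n) :
    ‖(∫ u : Fin n → ℝ, ∫ ω, Complex.exp (Complex.I * (((∑ k, h (u k) ω) / n : ℝ) : ℂ)) ∂P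
        ∂(Measure.pi fun _ => lam)) -
      ∫ ω, Complex.exp (Complex.I * ((∫ x, h x ω ∂lam : ℝ) : ℂ)) ∂P‖ ≤ (K + 1) / (2 * √n) := by
  have hn' : (0 : ℝ) < n := by exact_mod_cast hn
  have hsn : 0 < √(n : ℝ) := Real.sqrt_pos.2 hn'
  set π := Measure.pi fun _ : Fin n => lam with hπ
  have hAm : Measurable (fun ω => ∫ x, h x ω ∂lam) := by
    have h1 : StronglyMeasurable (fun q : Ω × ℝ => h q.2 q.1) :=
      (hm.comp measurable_swap).stronglyMeasurable
    exact h1.integral_prod_right.measurable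
  have hAnm : Measurable (fun q : Ω × (Fin n → ℝ) => (∑ k, h (q.2 k) q.1) / (n : ℝ)) := by
    refine Measurable.div_const (Finset.measurable_sum _ fun k _ => ?_) _
    have : Measurable (fun q : Ω × (Fin n → ℝ) => (q.2 k, q.1)) := by fun_prop
    exact hm.comp this
  have hAm' : Measurable (fun q : Ω × (Fin n → ℝ) => ∫ x, h x q.1 ∂lam) := hAm.comp measurable_fst
  -- the two functions on the product space
  set f1 : Ω × (Fin n → ℝ) → ℂ := fun q =>
    Complex.exp (Complex.I * (((∑ k, h (q.2 k) q.1) / n : ℝ) : ℂ)) with hf1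
  set f2 : Ω × (Fin n → ℝ) → ℂ := fun q =>
    Complex.exp (Complex.I * ((∫ x, h x q.1 ∂lam : ℝ) : ℂ)) with hf2
  have hf1m : Measurable f1 := by
    rw [hf1]
    exact Complex.measurable_exp.comp ((Complex.measurable_ofReal.comp hAnm).const_mul _)
  have hf2m : Measurable f2 := by
    rw [hf2]
    exact Complex.measurable_exp.comp ((Complex.measurable_ofReal.comp hAm').const_mul _)
  have hf1i : Integrable f1 (P.prod π) := by
    refine (integrable_const (1 : ℝ)).mono' hf1m.aestronglyMeasurable (ae_of_all _ fun q => ?_)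
    rw [hf1]; beta_reduce
    rw [mul_comm, Complex.norm_exp_ofReal_mul_I]
  have hf2i : Integrable f2 (P.prod π) := by
    refine (integrable_const (1 : ℝ)).mono' hf2m.aestronglyMeasurable (ae_of_all _ fun q => ?_)
    rw [hf2]; beta_reduce
    rw [mul_comm, Complex.norm_exp_ofReal_mul_I]
  have e1 : ∫ u : Fin n → ℝ, ∫ ω, Complex.exp (Complex.I * (((∑ k, h (u k) ω) / n : ℝ) : ℂ)) ∂P
        ∂π = ∫ q, f1 q ∂(P.prod π) := by
    rw [integral_prod_symm f1 hf1i]
  have e2 : ∫ ω, Complex.exp (Complex.I * ((∫ x, h x ω ∂lam : ℝ) : ℂ)) ∂P =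
      ∫ q, f2 q ∂(P.prod π) := by
    rw [integral_prod f2 hf2i]
    simp [hf2]
  rw [e1, e2, ← integral_sub hf1i hf2i]
  have hbound : ‖∫ q, (f1 q - f2 q) ∂(P.prod π)‖ₑ ≤ ENNReal.ofReal ((K + 1) / (2 * √n)) := by
    refine (enorm_integral_le_lintegral_enorm _).trans ?_
    set D : Ω × (Fin n → ℝ) → ℝ := fun q => (∑ k, h (q.2 k) q.1) / n - ∫ x, h x q.1 ∂lam with hD
    have hDm : Measurable D := hAnm.sub hAm'
    have h1 : ∀ q, ‖f1 q - f2 q‖ₑ ≤ ENNReal.ofReal (√n / 2) * ENNReal.ofReal (D q ^ 2) +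
        ENNReal.ofReal (1 / (2 * √n)) := by
      intro q
      rw [← ofReal_norm, ← ENNReal.ofReal_mul (by positivity), ← ENNReal.ofReal_add (by positivity)
        (by positivity)]
      apply ENNReal.ofReal_le_ofReal
      refine (norm_cexp_sub_le _ _).trans ?_
      change |D q| ≤ _
      have h2 : 0 ≤ (√n * |D q| - 1) ^ 2 / (2 * √n) := by positivity
      have h3 : (√n * |D q| - 1) ^ 2 / (2 * √n) = √n / 2 * |D q| ^ 2 + 1 / (2 * √n) - |D q| := by
        field_simp
        ring
      rw [h3, sq_abs] at h2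
      linarith
    refine (lintegral_mono h1).trans ?_
    have hDm2 : Measurable (fun q => ENNReal.ofReal (D q ^ 2)) :=
      ENNReal.measurable_ofReal.comp (hDm.pow_const 2)
    rw [lintegral_add_right _ measurable_const, lintegral_const_mul _ hDm2,
      lintegral_const, measure_univ, mul_one]
    have h2 : ∫⁻ q, ENNReal.ofReal (D q ^ 2) ∂(P.prod π) ≤ ENNReal.ofReal (K / n) := by
      rw [lintegral_prod _ hDm2.aemeasurable]
      have h3 : ∀ᵐ ω ∂P, ∫⁻ u, ENNReal.ofReal (D (ω, u) ^ 2) ∂π ≤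
          (∫⁻ x, ENNReal.ofReal (h x ω ^ 2) ∂lam) * ENNReal.ofReal (1 / n) := by
        have hmeas : Measurable (fun ω => ∫⁻ x, ENNReal.ofReal (h x ω ^ 2) ∂lam) := by
          have : Measurable (fun q : Ω × ℝ => ENNReal.ofReal (h q.2 q.1 ^ 2)) :=
            ENNReal.measurable_ofReal.comp ((hm.comp measurable_swap).pow_const 2)
          exact this.lintegral_prod_right'
        have h4 := ae_lt_top hmeas (hK.trans_lt ENNReal.ofReal_lt_top).ne
        filter_upwards [h4] with ω hω
        have hmω : Measurable (fun x => h x ω) := hm.comp (by fun_prop : Measurable fun x => (x, ω))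
        have hint : Integrable (fun x => h x ω ^ 2) lam := by
          refine ⟨(hmω.pow_const 2).aestronglyMeasurable, ?_⟩
          rw [hasFiniteIntegral_iff_ofReal (ae_of_all _ fun x => sq_nonneg _)]
          exact hω
        have hL : MemLp (fun x => h x ω) 2 lam :=
          (memLp_two_iff_integrable_sq hmω.aestronglyMeasurable).2 hint
        refine (mc_var hn lam hL).trans ?_
        rw [div_eq_mul_one_div, ENNReal.ofReal_mul (integral_nonneg fun x => sq_nonneg _),
          ofReal_integral_eq_lintegral_ofReal hint (ae_of_all _ fun x => sq_nonneg _)]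
      refine (lintegral_mono_ae h3).trans ?_
      rw [lintegral_mul_const' _ _ ENNReal.ofReal_ne_top, div_eq_mul_one_div K,
        ENNReal.ofReal_mul hK0]
      gcongr
    calc ENNReal.ofReal (√n / 2) * ∫⁻ q, ENNReal.ofReal (D q ^ 2) ∂(P.prod π) +
          ENNReal.ofReal (1 / (2 * √n)) ≤
        ENNReal.ofReal (√n / 2) * ENNReal.ofReal (K / n) + ENNReal.ofReal (1 / (2 * √n)) := by
          gcongr
      _ = ENNReal.ofReal ((K + 1) / (2 * √n)) := by
        rw [← ENNReal.ofReal_mul (by positivity), ← ENNReal.ofReal_add (by positivity)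
          (by positivity)]
        congr 1
        have h5 : √(n : ℝ) * √n = n := Real.mul_self_sqrt hn'.le
        rw [div_mul_div_comm]
        have h6 : √(n : ℝ) * K / (2 * n) = K / (2 * √n) := by
          rw [div_eq_div_iff (by positivity) (by positivity)]
          linear_combination (2 * K) * h5
        rw [h6]
        field_simp
  rw [← ofReal_norm, ENNReal.ofReal_le_ofReal_iff (by positivity)] at hbound
  exact hbound

end Pool.Agent.helper9.GMC
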