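import Pool.Agent.helper9.GMCCompare
import Pool.Agent.helper9.MonteCarlo

/-!
Integral version of the comparison of characteristic functions.
-/

open MeasureTheory ProbabilityTheory Filter Topology Set
open scoped ENNReal NNReal
set_option linter.unusedSectionVars false

namespace Pool.Agent.helper9.GMC

instance isProb_lam : IsProbabilityMeasure (volume.restrict (Icc (0 : ℝ) 1)) := by
  constructor
  simp

theorem law_points {Ω : Type*} [MeasurableSpace Ω] {P : Measure Ω} {X : ℝ → Ω → ℝ}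
    (hX : IsGaussianProcess (fun x : Set.Icc (0 : ℝ) 1 => X x) P) {n : ℕ} (u : Fin n → ℝ)
    (hu : ∀ k, u k ∈ Icc (0 : ℝ) 1) : HasGaussianLaw (fun ω k => X (u k) ω) P := by
  have h1 := hX.comp_right (fun k : Fin n => (⟨u k, hu k⟩ : Set.Icc (0 : ℝ) 1))
  have h2 := h1.hasGaussianLaw Finset.univ
  let L : (↥(Finset.univ : Finset (Fin n)) → ℝ) →L[ℝ] (Fin n → ℝ) :=
    ContinuousLinearMap.pi fun k => ContinuousLinearMap.proj (R := ℝ)
      (φ := fun _ : ↥(Finset.univ : Finset (Fin n)) => ℝ) ⟨k, Finset.mem_univ k⟩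
  have h3 := h2.map_fun L
  exact h3

section One

variable {Ω : Type*} [MeasurableSpace Ω] {P : Measure Ω} [IsProbabilityMeasure P]
  {X : ℝ → Ω → ℝ} (hXm : Measurable (fun q : ℝ × Ω => X q.1 q.2))
  (hX : IsGaussianProcess (fun x : Set.Icc (0 : ℝ) 1 => X x) P)
  (h0 : ∀ x ∈ Set.Icc (0 : ℝ) 1, ∫ ω, X x ω ∂P = 0)
  {C : ℝ → ℝ → ℝ}
  (hC : ∀ x ∈ Set.Icc (0 : ℝ) 1, ∀ y ∈ Set.Icc (0 : ℝ) 1, cov[X x, X y; P] = C x y)

/-- measurable version of the covariance -/
noncomputable def c1 {Ω : Type*} [MeasurableSpace Ω] (P : Measure Ω) (X : ℝ → Ω → ℝ) (x y : ℝ) : ℝ :=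
  ∫ ω, X x ω * X y ω ∂P

include hXm in
theorem measurable_c1 : Measurable (fun p : ℝ × ℝ => c1 P X p.1 p.2) := by
  unfold c1
  have h1 : Measurable (fun q : (ℝ × ℝ) × Ω => X q.1.1 q.2 * X q.1.2 q.2) :=
    (hXm.comp (by fun_prop : Measurable fun q : (ℝ × ℝ) × Ω => (q.1.1, q.2))).mul
      (hXm.comp (by fun_prop : Measurable fun q : (ℝ × ℝ) × Ω => (q.1.2, q.2)))
  exact h1.stronglyMeasurable.integral_prod_right.measurable

include hX in
theorem law_at {x : ℝ} (hx : x ∈ Icc (0 : ℝ) 1) : HasGaussianLaw (X x) P :=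
  hX.hasGaussianLaw_eval ⟨x, hx⟩

include hX h0 hC in
theorem c1_eq {x y : ℝ} (hx : x ∈ Icc (0 : ℝ) 1) (hy : y ∈ Icc (0 : ℝ) 1) :
    c1 P X x y = C x y := by
  rw [← hC x hx y hy, covariance_eq_sub (law_at hX hx).memLp_two (law_at hX hy).memLp_two,
    h0 x hx, h0 y hy]
  unfold c1
  simp

/-- the integrand -/
noncomputable def hh {Ω : Type*} [MeasurableSpace Ω] (P : Measure Ω) (X : ℝ → Ω → ℝ) (γ : ℝ)
    (a : ℝ → ℝ) (x : ℝ) (ω : Ω) : ℝ :=
  a x * Real.exp (γ * X x ω - γ ^ 2 / 2 * c1 P X x x)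

include hXm in
theorem measurable_hh (γ : ℝ) {a : ℝ → ℝ} (ha : Measurable a) :
    Measurable (fun q : ℝ × Ω => hh P X γ a q.1 q.2) := by
  unfold hh
  have h1 : Measurable (fun q : ℝ × Ω => c1 P X q.1 q.1) :=
    (measurable_c1 hXm).comp (by fun_prop : Measurable fun q : ℝ × Ω => (q.1, q.1))
  have h2 : Measurable (fun q : ℝ × Ω => a q.1) := ha.comp measurable_fst
  fun_prop

include hX h0 in
theorem int_exp {x : ℝ} (hx : x ∈ Icc (0 : ℝ) 1) (κ : ℝ) :
    Integrable (fun ω => Real.exp (κ * X x ω)) P ∧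
    ∫ ω, Real.exp (κ * X x ω) ∂P = Real.exp (κ ^ 2 / 2 * c1 P X x x) := by
  have hl := law_at hX hx
  constructor
  · have h1 := integrable_exp_norm hl |κ|
    have hm : AEMeasurable (fun ω => Real.exp (κ * X x ω)) P := by
      have := hl.aemeasurable
      fun_prop
    refine h1.mono' hm.aestronglyMeasurable (ae_of_all _ fun ω => ?_)
    rw [Real.norm_of_nonneg (Real.exp_pos _).le]
    apply Real.exp_le_exp.2
    calc κ * X x ω ≤ |κ * X x ω| := le_abs_self _
      _ = |κ| * ‖X x ω‖ := abs_mul _ _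
  · have hmgf := mgf_gaussianReal (hl.map_eq_gaussianReal) κ
    unfold mgf at hmgf
    rw [h0 x hx, Real.coe_toNNReal _ (variance_nonneg _ _)] at hmgf
    have hv : Var[X x; P] = c1 P X x x := by
      rw [← covariance_self hl.aemeasurable,
        c1_eq hX h0 (C := fun x y => cov[X x, X y; P]) (fun x _ y _ => rfl) hx hx]
    rw [hv] at hmgf
    rw [hmgf]
    congr 1
    ring

include hXm hX h0 in
theorem sq_bound (γ : ℝ) {a : ℝ → ℝ} (ha : Measurable a) {R B : ℝ} (hR : ∀ x, |a x| ≤ R)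
    (hB : ∀ x ∈ Set.Icc (0 : ℝ) 1, c1 P X x x ≤ B) :
    ∫⁻ ω, ∫⁻ x, ENNReal.ofReal (hh P X γ a x ω ^ 2) ∂(volume.restrict (Icc (0 : ℝ) 1)) ∂P ≤
      ENNReal.ofReal (R ^ 2 * Real.exp (γ ^ 2 * B)) := by
  have hm : Measurable (fun q : Ω × ℝ => ENNReal.ofReal (hh P X γ a q.2 q.1 ^ 2)) :=
    ENNReal.measurable_ofReal.comp (((measurable_hh hXm γ ha).comp measurable_swap).pow_const 2)
  rw [lintegral_lintegral_swap hm.aemeasurable]
  have h1 : ∀ x ∈ Icc (0 : ℝ) 1, ∫⁻ ω, ENNReal.ofReal (hh P X γ a x ω ^ 2) ∂P ≤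
      ENNReal.ofReal (R ^ 2 * Real.exp (γ ^ 2 * B)) := by
    intro x hx
    have e : ∀ ω, hh P X γ a x ω ^ 2 = (a x ^ 2 * Real.exp (-(γ ^ 2 * c1 P X x x))) *
        Real.exp (2 * γ * X x ω) := by
      intro ω
      unfold hh
      rw [mul_pow, ← Real.exp_nat_mul, mul_assoc, ← Real.exp_add]
      congr 2
      push_cast
      ring
    simp_rw [e]
    have hi := int_exp hX h0 hx (2 * γ)
    rw [← ofReal_integral_eq_lintegral_ofReal (hi.1.const_mul _) (ae_of_all _ fun ω => by positivity),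
      integral_const_mul, hi.2]
    apply ENNReal.ofReal_le_ofReal
    rw [mul_assoc, ← Real.exp_add]
    have h2 : a x ^ 2 ≤ R ^ 2 := by
      rw [← sq_abs]; exact pow_le_pow_left₀ (abs_nonneg _) (hR x) 2
    have h3 : Real.exp (-(γ ^ 2 * c1 P X x x) + (2 * γ) ^ 2 / 2 * c1 P X x x) ≤
        Real.exp (γ ^ 2 * B) := by
      apply Real.exp_le_exp.2
      have := mul_le_mul_of_nonneg_left (hB x hx) (sq_nonneg γ)
      linarith
    exact mul_le_mul h2 h3 (Real.exp_pos _).le (sq_nonneg R)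
  calc ∫⁻ x, ∫⁻ ω, ENNReal.ofReal (hh P X γ a x ω ^ 2) ∂P ∂(volume.restrict (Icc (0 : ℝ) 1)) ≤
      ∫⁻ x, ENNReal.ofReal (R ^ 2 * Real.exp (γ ^ 2 * B)) ∂(volume.restrict (Icc (0 : ℝ) 1)) :=
        setLIntegral_mono measurable_const h1
    _ = _ := by simp

include hXm hX h0 hC in
theorem re_eq (γ : ℝ) {B : ℝ} (hB : ∀ x ∈ Set.Icc (0 : ℝ) 1, c1 P X x x ≤ B)
    (e : ℝ → ℂ) (he : Measurable e) (he1 : ∀ x, ‖e x‖ ≤ 1) (z : ℂ) :
    ∀ᵐ ω ∂P, (starRingEnd ℂ z *
        ∫ x in (0 : ℝ)..1, e x * Complex.exp (γ * X x ω - γ ^ 2 / 2 * C x x)).re =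
      ∫ x, hh P X γ (fun x => (starRingEnd ℂ z * e x).re) x ω ∂(volume.restrict (Icc (0 : ℝ) 1)) := by
  have hb := sq_bound hXm hX h0 γ (a := fun _ => 1) measurable_const (R := 1) (by simp) hB
  have hmeas : Measurable (fun ω => ∫⁻ x, ENNReal.ofReal (hh P X γ (fun _ => 1) x ω ^ 2)
      ∂(volume.restrict (Icc (0 : ℝ) 1))) := by
    have : Measurable (fun q : Ω × ℝ => ENNReal.ofReal (hh P X γ (fun _ => 1) q.2 q.1 ^ 2)) :=
      ENNReal.measurable_ofReal.comp
        (((measurable_hh hXm γ measurable_const).comp measurable_swap).pow_const 2)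
    exact this.lintegral_prod_right'
  have h4 := ae_lt_top hmeas (hb.trans_lt ENNReal.ofReal_lt_top).ne
  filter_upwards [h4] with ω hω
  have hmω : Measurable (fun x => hh P X γ (fun _ => 1) x ω) :=
    (measurable_hh hXm γ measurable_const).comp (by fun_prop : Measurable fun x : ℝ => (x, ω))
  have hint : Integrable (fun x => hh P X γ (fun _ => 1) x ω ^ 2) (volume.restrict (Icc (0 : ℝ) 1)) := by
    refine ⟨(hmω.pow_const 2).aestronglyMeasurable, ?_⟩
    rw [hasFiniteIntegral_iff_ofReal (ae_of_all _ fun x => sq_nonneg _)]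
    exact hω
  have hL : MemLp (fun x => hh P X γ (fun _ => 1) x ω) 2 (volume.restrict (Icc (0 : ℝ) 1)) :=
    (memLp_two_iff_integrable_sq hmω.aestronglyMeasurable).2 hint
  have hI : Integrable (fun x => hh P X γ (fun _ => 1) x ω) (volume.restrict (Icc (0 : ℝ) 1)) :=
    hL.integrable (by norm_num)
  have hF : Integrable (fun x => e x * ((hh P X γ (fun _ => 1) x ω : ℝ) : ℂ))
      (volume.restrict (Icc (0 : ℝ) 1)) := by
    refine hI.norm.mono' ?_ (ae_of_all _ fun x => ?_)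
    · exact (he.mul (Complex.measurable_ofReal.comp hmω)).aestronglyMeasurable
    · rw [norm_mul, Complex.norm_real]
      have := he1 x
      have h5 := norm_nonneg (hh P X γ (fun _ => 1) x ω)
      nlinarith
  have e1 : ∫ x in (0 : ℝ)..1, e x * Complex.exp (γ * X x ω - γ ^ 2 / 2 * C x x) =
      ∫ x, e x * ((hh P X γ (fun _ => 1) x ω : ℝ) : ℂ) ∂(volume.restrict (Icc (0 : ℝ) 1)) := by
    rw [intervalIntegral.integral_of_le zero_le_one, ← integral_Icc_eq_integral_Ioc]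
    refine setIntegral_congr_fun measurableSet_Icc fun x hx => ?_
    simp only [hh]
    rw [c1_eq hX h0 hC hx hx]
    push_cast
    rw [one_mul]
  rw [e1, ← integral_const_mul]
  have h6 := Complex.reCLM.integral_comp_comm (hF.const_mul (starRingEnd ℂ z))
  simp only [Complex.reCLM_apply] at h6
  rw [← h6]
  refine integral_congr_ae (ae_of_all _ fun x => ?_)
  simp only [hh]
  rw [← mul_assoc, Complex.re_mul_ofReal, one_mul]

end One

theorem lintegral_pair {n : ℕ} (lam : Measure ℝ) [IsProbabilityMeasure lam] {G : ℝ × ℝ → ℝ≥0∞}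
    (hG : Measurable G) {k l : Fin n} (hkl : k ≠ l) :
    ∫⁻ u : Fin n → ℝ, G (u k, u l) ∂(Measure.pi fun _ => lam) =
      ∫⁻ x, ∫⁻ y, G (x, y) ∂lam ∂lam := by
  have hi : iIndepFun (fun (k : Fin n) (u : Fin n → ℝ) => u k) (Measure.pi fun _ => lam) :=
    iIndepFun_pi (X := fun (_ : Fin n) (x : ℝ) => x) fun _ => aemeasurable_id
  have h2 := hi.indepFun hkl
  have h3 := (indepFun_iff_map_prod_eq_prod_map_map (measurable_pi_apply k).aemeasurable
    (measurable_pi_apply l).aemeasurable).1 h2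
  rw [(measurePreserving_eval (fun _ : Fin n => lam) k).map_eq,
    (measurePreserving_eval (fun _ : Fin n => lam) l).map_eq] at h3
  rw [← lintegral_prod _ hG.aemeasurable, ← h3, lintegral_map hG (by fun_prop)]

theorem lintegral_diag {n : ℕ} (lam : Measure ℝ) [IsProbabilityMeasure lam] {G : ℝ → ℝ≥0∞}
    (hG : Measurable G) (k : Fin n) :
    ∫⁻ u : Fin n → ℝ, G (u k) ∂(Measure.pi fun _ => lam) = ∫⁻ x, G x ∂lam := by
  rw [← (measurePreserving_eval (fun _ : Fin n => lam) k).map_eq, lintegral_map hG (by fun_prop)]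
  simp [(measurePreserving_eval (fun _ : Fin n => lam) k).map_eq]

end Pool.Agent.helper9.GMC
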