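import Pool.Agent.helper9.GMCCompareInt

/-!
Integral version of the comparison of characteristic functions: the main statement.
-/

open MeasureTheory ProbabilityTheory Filter Topology Set
open scoped ENNReal NNReal

namespace Pool.Agent.helper95.GMC

open Pool.Agent.helper9.GMC

theorem integrable_phin {Ω : Type*} [MeasurableSpace Ω] (P : Measure Ω) [IsProbabilityMeasure P]
    (X : ℝ → Ω → ℝ) (hXm : Measurable (fun q : ℝ × Ω => X q.1 q.2)) (γ : ℝ) (a : ℝ → ℝ)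
    (ha : Measurable a) {n : ℕ} (lam : Measure ℝ) [IsProbabilityMeasure lam] :
    Integrable (fun u : Fin n → ℝ => ∫ ω, Complex.exp (Complex.I *
      (((∑ k, hh P X γ a (u k) ω) / n : ℝ) : ℂ)) ∂P) (Measure.pi fun _ => lam) := by
  have hm := measurable_hh (P := P) hXm γ ha
  have h1 : Measurable (fun q : (Fin n → ℝ) × Ω => Complex.exp (Complex.I *
      (((∑ k, hh P X γ a (q.1 k) q.2) / n : ℝ) : ℂ))) := by
    refine Complex.measurable_exp.comp ((Complex.measurable_ofReal.comp ?_).const_mul _)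
    refine Measurable.div_const (Finset.measurable_sum _ fun k _ => ?_) _
    exact hm.comp (by fun_prop : Measurable fun q : (Fin n → ℝ) × Ω => (q.1 k, q.2))
  refine (integrable_const (1 : ℝ)).mono' h1.stronglyMeasurable.integral_prod_right.aestronglyMeasurable
    (ae_of_all _ fun u => ?_)
  refine (norm_integral_le_integral_norm _).trans ?_
  have : ∀ ω, ‖Complex.exp (Complex.I * (((∑ k, hh P X γ a (u k) ω) / n : ℝ) : ℂ))‖ = 1 := by
    intro ω
    rw [mul_comm, Complex.norm_exp_ofReal_mul_I]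
  simp_rw [this]
  simp

/-- one step at level `n` -/
theorem charfun_compare_aux
    {Ω Ω' : Type*} [MeasurableSpace Ω] [MeasurableSpace Ω'] (P : Measure Ω) (P' : Measure Ω')
    [IsProbabilityMeasure P] [IsProbabilityMeasure P']
    (X : ℝ → Ω → ℝ) (X' : ℝ → Ω' → ℝ)
    (hXm : Measurable (fun q : ℝ × Ω => X q.1 q.2))
    (hX'm : Measurable (fun q : ℝ × Ω' => X' q.1 q.2))
    (hX : IsGaussianProcess (fun x : Set.Icc (0 : ℝ) 1 => X x) P)
    (hX' : IsGaussianProcess (fun x : Set.Icc (0 : ℝ) 1 => X' x) P')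
    (h0 : ∀ x ∈ Set.Icc (0 : ℝ) 1, ∫ ω, X x ω ∂P = 0)
    (h0' : ∀ x ∈ Set.Icc (0 : ℝ) 1, ∫ ω, X' x ω ∂P' = 0)
    (B : ℝ) (hB : ∀ x ∈ Set.Icc (0 : ℝ) 1, c1 P X x x ≤ B)
    (hB' : ∀ x ∈ Set.Icc (0 : ℝ) 1, c1 P' X' x x ≤ B)
    (a : ℝ → ℝ) (ha : Measurable a) (R : ℝ) (haR : ∀ x, |a x| ≤ R) (γ : ℝ)
    {n : ℕ} (hn : 0 < n) :
    ‖(∫ u : Fin n → ℝ, ∫ ω, Complex.exp (Complex.I * (((∑ k, hh P X γ a (u k) ω) / n : ℝ) : ℂ)) ∂P
        ∂(Measure.pi fun _ => (volume.restrict (Icc (0 : ℝ) 1)))) -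
      (∫ u : Fin n → ℝ, ∫ ω, Complex.exp (Complex.I * (((∑ k, hh P' X' γ a (u k) ω) / n : ℝ) : ℂ)) ∂P'
        ∂(Measure.pi fun _ => (volume.restrict (Icc (0 : ℝ) 1))))‖ₑ ≤
    ENNReal.ofReal (R ^ 2 * γ ^ 2) * (∫⁻ x in Set.Icc (0 : ℝ) 1, ∫⁻ y in Set.Icc (0 : ℝ) 1,
      ENNReal.ofReal (|c1 P X x y - c1 P' X' x y| * Real.exp (γ ^ 2 * max (c1 P X x y) (c1 P' X' x y))))
      + ENNReal.ofReal (R ^ 2 * γ ^ 2 * (B * Real.exp (γ ^ 2 * B)) / n) := by
  have hR0 : 0 ≤ R := (abs_nonneg _).trans (haR 0)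
  have hn' : (0 : ℝ) < n := by exact_mod_cast hn
  set lam := volume.restrict (Icc (0 : ℝ) 1) with hlam
  set π := Measure.pi fun _ : Fin n => lam with hπ
  set G : ℝ × ℝ → ℝ≥0∞ := fun p => ENNReal.ofReal (|c1 P X p.1 p.2 - c1 P' X' p.1 p.2| *
    Real.exp (γ ^ 2 * max (c1 P X p.1 p.2) (c1 P' X' p.1 p.2))) with hG
  have hcm := measurable_c1 (P := P) hXm
  have hcm' := measurable_c1 (P := P') hX'm
  have hGm : Measurable G := by
    rw [hG]
    fun_prop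
  have hae : ∀ᵐ u ∂π, ∀ k, u k ∈ Icc (0 : ℝ) 1 := by
    rw [ae_all_iff]
    intro k
    have h1 : ∀ᵐ x ∂lam, x ∈ Icc (0 : ℝ) 1 := ae_restrict_mem measurableSet_Icc
    exact (measurePreserving_eval (fun _ : Fin n => lam) k).quasiMeasurePreserving.ae h1
  have hpt : ∀ᵐ u ∂π, ‖(∫ ω, Complex.exp (Complex.I * (((∑ k, hh P X γ a (u k) ω) / n : ℝ) : ℂ)) ∂P) -
      ∫ ω, Complex.exp (Complex.I * (((∑ k, hh P' X' γ a (u k) ω) / n : ℝ) : ℂ)) ∂P'‖ₑ ≤
      ENNReal.ofReal (R ^ 2 * γ ^ 2 / n ^ 2) * ∑ k, ∑ l, G (u k, u l) := by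
    filter_upwards [hae] with u hu
    have key := charfun_compare_real P P' (fun k ω => X (u k) ω) (fun k ω => X' (u k) ω)
      (law_points hX u hu) (law_points hX' u hu) (fun k => h0 _ (hu k)) (fun k => h0' _ (hu k))
      (fun k l => c1 P X (u k) (u l)) (fun k l => c1 P' X' (u k) (u l))
      (fun k l => (c1_eq hX h0 (C := fun x y => cov[X x, X y; P]) (fun x _ y _ => rfl) (hu k)
        (hu l)).symm)
      (fun k l => (c1_eq hX' h0' (C := fun x y => cov[X' x, X' y; P']) (fun x _ y _ => rfl) (hu k)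
        (hu l)).symm)
      (fun k => a (u k) / n) γ
    have e1 : ∀ ω, ∑ k, a (u k) / n * Real.exp (γ * X (u k) ω - γ ^ 2 / 2 * c1 P X (u k) (u k)) =
        (∑ k, hh P X γ a (u k) ω) / n := by
      intro ω
      rw [Finset.sum_div]
      refine Finset.sum_congr rfl fun k _ => ?_
      unfold hh
      ring
    have e2 : ∀ ω, ∑ k, a (u k) / n * Real.exp (γ * X' (u k) ω - γ ^ 2 / 2 * c1 P' X' (u k) (u k)) =
        (∑ k, hh P' X' γ a (u k) ω) / n := by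
      intro ω
      rw [Finset.sum_div]
      refine Finset.sum_congr rfl fun k _ => ?_
      unfold hh
      ring
    simp only [e1, e2] at key
    rw [← ofReal_norm]
    refine (ENNReal.ofReal_le_ofReal key).trans ?_
    have e3 : ∀ k l, G (u k, u l) = ENNReal.ofReal (|c1 P X (u k) (u l) - c1 P' X' (u k) (u l)| *
        Real.exp (γ ^ 2 * max (c1 P X (u k) (u l)) (c1 P' X' (u k) (u l)))) := fun k l => rfl
    simp only [e3]
    have e4 : ∀ k, ∑ l, ENNReal.ofReal (|c1 P X (u k) (u l) - c1 P' X' (u k) (u l)| *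
        Real.exp (γ ^ 2 * max (c1 P X (u k) (u l)) (c1 P' X' (u k) (u l)))) =
        ENNReal.ofReal (∑ l, |c1 P X (u k) (u l) - c1 P' X' (u k) (u l)| *
        Real.exp (γ ^ 2 * max (c1 P X (u k) (u l)) (c1 P' X' (u k) (u l)))) := by
      intro k
      rw [ENNReal.ofReal_sum_of_nonneg]
      intro l _; positivity
    simp only [e4]
    rw [← ENNReal.ofReal_sum_of_nonneg (fun k _ => by positivity), ← ENNReal.ofReal_mul (by positivity)]
    apply ENNReal.ofReal_le_ofReal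
    rw [Finset.mul_sum, Finset.mul_sum]
    refine Finset.sum_le_sum fun k _ => ?_
    rw [Finset.mul_sum, Finset.mul_sum]
    refine Finset.sum_le_sum fun l _ => ?_
    have hk : |a (u k) / n| ≤ R / n := by
      rw [abs_div, abs_of_pos hn']
      gcongr
      exact haR _
    have hl : |a (u l) / n| ≤ R / n := by
      rw [abs_div, abs_of_pos hn']
      gcongr
      exact haR _
    calc γ ^ 2 * (|a (u k) / n| * |a (u l) / n| * |c1 P X (u k) (u l) - c1 P' X' (u k) (u l)| *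
          Real.exp (γ ^ 2 * max (c1 P X (u k) (u l)) (c1 P' X' (u k) (u l)))) ≤
        γ ^ 2 * ((R / n) * (R / n) * |c1 P X (u k) (u l) - c1 P' X' (u k) (u l)| *
          Real.exp (γ ^ 2 * max (c1 P X (u k) (u l)) (c1 P' X' (u k) (u l)))) := by
          gcongr
      _ = _ := by
        field_simp
  -- integrate
  have hi1 : Integrable (fun u : Fin n → ℝ => ∫ ω, Complex.exp (Complex.I *
      (((∑ k, hh P X γ a (u k) ω) / n : ℝ) : ℂ)) ∂P) π :=
    integrable_phin P X hXm γ a ha lam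
  have hi2 : Integrable (fun u : Fin n → ℝ => ∫ ω, Complex.exp (Complex.I *
      (((∑ k, hh P' X' γ a (u k) ω) / n : ℝ) : ℂ)) ∂P') π :=
    integrable_phin P' X' hX'm γ a ha lam
  rw [← integral_sub hi1 hi2]
  refine (enorm_integral_le_lintegral_enorm _).trans ?_
  refine (lintegral_mono_ae hpt).trans ?_
  have hGkl : ∀ k l : Fin n, Measurable (fun u : Fin n → ℝ => G (u k, u l)) := fun k l =>
    hGm.comp (by fun_prop)
  rw [lintegral_const_mul _ (Finset.measurable_sum _ fun k _ => Finset.measurable_sum _ fun l _ =>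
    hGkl k l), lintegral_finsetSum _ fun k _ => Finset.measurable_sum _ fun l _ => hGkl k l]
  set J := ∫⁻ x in Set.Icc (0 : ℝ) 1, ∫⁻ y in Set.Icc (0 : ℝ) 1,
      ENNReal.ofReal (|c1 P X x y - c1 P' X' x y| *
        Real.exp (γ ^ 2 * max (c1 P X x y) (c1 P' X' x y))) with hJ
  set b := ENNReal.ofReal (B * Real.exp (γ ^ 2 * B)) with hb
  have hdiag : ∫⁻ x, G (x, x) ∂lam ≤ b := by
    calc ∫⁻ x, G (x, x) ∂lam ≤ ∫⁻ x, b ∂lam := by
          refine setLIntegral_mono measurable_const fun x hx => ?_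
          rw [hG, hb]
          apply ENNReal.ofReal_le_ofReal
          have hp : 0 ≤ c1 P X x x := by
            unfold c1; exact integral_nonneg fun ω => mul_self_nonneg _
          have hp' : 0 ≤ c1 P' X' x x := by
            unfold c1; exact integral_nonneg fun ω => mul_self_nonneg _
          have h1 := hB x hx
          have h2 := hB' x hx
          have h3 : |c1 P X x x - c1 P' X' x x| ≤ B := by
            rw [abs_le]; constructor <;> linarith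
          have h4 : Real.exp (γ ^ 2 * max (c1 P X x x) (c1 P' X' x x)) ≤ Real.exp (γ ^ 2 * B) := by
            apply Real.exp_le_exp.2
            exact mul_le_mul_of_nonneg_left (max_le h1 h2) (sq_nonneg γ)
          exact mul_le_mul h3 h4 (Real.exp_pos _).le ((abs_nonneg _).trans h3)
      _ = b := by simp
  have hsum : ∀ k : Fin n, ∫⁻ u, ∑ l, G (u k, u l) ∂π ≤ n * J + b := by
    intro k
    rw [lintegral_finsetSum _ fun l _ => hGkl k l]
    rw [← Finset.add_sum_erase _ _ (Finset.mem_univ k), add_comm]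
    refine add_le_add ?_ ?_
    · calc ∑ l ∈ Finset.univ.erase k, ∫⁻ u, G (u k, u l) ∂π =
          ∑ l ∈ Finset.univ.erase k, J := by
            refine Finset.sum_congr rfl fun l hl => ?_
            rw [lintegral_pair lam hGm (Finset.ne_of_mem_erase hl).symm]
        _ ≤ ∑ l : Fin n, J := Finset.sum_le_sum_of_subset (Finset.subset_univ _)
        _ = n * J := by simp
    · rw [lintegral_diag lam (G := fun x => G (x, x)) (hGm.comp (by fun_prop)) k]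
      exact hdiag
  calc ENNReal.ofReal (R ^ 2 * γ ^ 2 / n ^ 2) * ∑ k, ∫⁻ u, ∑ l, G (u k, u l) ∂π ≤
        ENNReal.ofReal (R ^ 2 * γ ^ 2 / n ^ 2) * ∑ k : Fin n, (n * J + b) := by
          gcongr with k _
          exact hsum k
    _ = ENNReal.ofReal (R ^ 2 * γ ^ 2) * J + ENNReal.ofReal (R ^ 2 * γ ^ 2 *
        (B * Real.exp (γ ^ 2 * B)) / n) := by
      simp only [Finset.sum_const, Finset.card_univ, Fintype.card_fin, nsmul_eq_mul]
      have hnn : (n : ℝ≥0∞) = ENNReal.ofReal n := by simp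
      rw [hnn, mul_add, mul_add, ← mul_assoc (ENNReal.ofReal n), ← mul_assoc (ENNReal.ofReal _),
        ← ENNReal.ofReal_mul hn'.le, ← ENNReal.ofReal_mul (by positivity),
        hb, ← mul_assoc (ENNReal.ofReal _), ← ENNReal.ofReal_mul (by positivity),
        ← ENNReal.ofReal_mul (by positivity)]
      congr 2
      · congr 1
        field_simp
      · field_simp

/-- integral version -/
theorem charfun_compare
    {Ω Ω' : Type*} [MeasurableSpace Ω] [MeasurableSpace Ω'] (P : Measure Ω) (P' : Measure Ω')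
    [IsProbabilityMeasure P] [IsProbabilityMeasure P']
    (X : ℝ → Ω → ℝ) (X' : ℝ → Ω' → ℝ)
    (hXm : Measurable (fun q : ℝ × Ω => X q.1 q.2))
    (hX'm : Measurable (fun q : ℝ × Ω' => X' q.1 q.2))
    (hX : IsGaussianProcess (fun x : Set.Icc (0 : ℝ) 1 => X x) P)
    (hX' : IsGaussianProcess (fun x : Set.Icc (0 : ℝ) 1 => X' x) P')
    (h0 : ∀ x ∈ Set.Icc (0 : ℝ) 1, ∫ ω, X x ω ∂P = 0)
    (h0' : ∀ x ∈ Set.Icc (0 : ℝ) 1, ∫ ω, X' x ω ∂P' = 0)
    (C C' : ℝ → ℝ → ℝ)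
    (hC : ∀ x ∈ Set.Icc (0 : ℝ) 1, ∀ y ∈ Set.Icc (0 : ℝ) 1, cov[X x, X y; P] = C x y)
    (hC' : ∀ x ∈ Set.Icc (0 : ℝ) 1, ∀ y ∈ Set.Icc (0 : ℝ) 1, cov[X' x, X' y; P'] = C' x y)
    (B : ℝ) (hB : ∀ x ∈ Set.Icc (0 : ℝ) 1, C x x ≤ B) (hB' : ∀ x ∈ Set.Icc (0 : ℝ) 1, C' x x ≤ B)
    (e : ℝ → ℂ) (he : Measurable e) (he1 : ∀ x, ‖e x‖ ≤ 1) (γ : ℝ) (z : ℂ) :
    ENNReal.ofReal ‖(∫ ω, Complex.exp (Complex.I * ((starRingEnd ℂ z *
        ∫ x in (0 : ℝ)..1, e x * Complex.exp (γ * X x ω - γ ^ 2 / 2 * C x x)).re : ℝ)) ∂P) -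
      ∫ ω, Complex.exp (Complex.I * ((starRingEnd ℂ z *
        ∫ x in (0 : ℝ)..1, e x * Complex.exp (γ * X' x ω - γ ^ 2 / 2 * C' x x)).re : ℝ)) ∂P'‖ ≤
    ENNReal.ofReal (‖z‖ ^ 2 * γ ^ 2) * ∫⁻ x in Set.Icc (0 : ℝ) 1, ∫⁻ y in Set.Icc (0 : ℝ) 1,
      ENNReal.ofReal (|C x y - C' x y| * Real.exp (γ ^ 2 * max (C x y) (C' x y))) := by
  have hcc : ∀ x ∈ Icc (0 : ℝ) 1, ∀ y ∈ Icc (0 : ℝ) 1, c1 P X x y = C x y := fun x hx y hy =>
    c1_eq hX h0 hC hx hy
  have hcc' : ∀ x ∈ Icc (0 : ℝ) 1, ∀ y ∈ Icc (0 : ℝ) 1, c1 P' X' x y = C' x y := fun x hx y hy =>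
    c1_eq hX' h0' hC' hx hy
  have hB1 : ∀ x ∈ Icc (0 : ℝ) 1, c1 P X x x ≤ B := fun x hx => by rw [hcc x hx x hx]; exact hB x hx
  have hB1' : ∀ x ∈ Icc (0 : ℝ) 1, c1 P' X' x x ≤ B := fun x hx => by
    rw [hcc' x hx x hx]; exact hB' x hx
  set lam := volume.restrict (Icc (0 : ℝ) 1) with hlam
  set a : ℝ → ℝ := fun x => (starRingEnd ℂ z * e x).re with ha
  have ham : Measurable a := by
    rw [ha]
    exact Complex.measurable_re.comp (he.const_mul _)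
  have haR : ∀ x, |a x| ≤ ‖z‖ := by
    intro x
    refine (Complex.abs_re_le_norm _).trans ?_
    rw [norm_mul, RCLike.norm_conj]
    have := he1 x
    have h5 := norm_nonneg z
    nlinarith
  have r1 := re_eq hXm hX h0 hC γ hB1 e he he1 z
  have r2 := re_eq hX'm hX' h0' hC' γ hB1' e he he1 z
  have e1 : ∫ ω, Complex.exp (Complex.I * ((starRingEnd ℂ z *
        ∫ x in (0 : ℝ)..1, e x * Complex.exp (γ * X x ω - γ ^ 2 / 2 * C x x)).re : ℝ)) ∂P =
      ∫ ω, Complex.exp (Complex.I * ((∫ x, hh P X γ a x ω ∂lam : ℝ) : ℂ)) ∂P := by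
    refine integral_congr_ae ?_
    filter_upwards [r1] with ω hω
    rw [hω]
  have e2 : ∫ ω, Complex.exp (Complex.I * ((starRingEnd ℂ z *
        ∫ x in (0 : ℝ)..1, e x * Complex.exp (γ * X' x ω - γ ^ 2 / 2 * C' x x)).re : ℝ)) ∂P' =
      ∫ ω, Complex.exp (Complex.I * ((∫ x, hh P' X' γ a x ω ∂lam : ℝ) : ℂ)) ∂P' := by
    refine integral_congr_ae ?_
    filter_upwards [r2] with ω hω
    rw [hω]
  rw [e1, e2]
  have e3 : ∫⁻ x in Set.Icc (0 : ℝ) 1, ∫⁻ y in Set.Icc (0 : ℝ) 1,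
      ENNReal.ofReal (|C x y - C' x y| * Real.exp (γ ^ 2 * max (C x y) (C' x y))) =
      ∫⁻ x in Set.Icc (0 : ℝ) 1, ∫⁻ y in Set.Icc (0 : ℝ) 1,
      ENNReal.ofReal (|c1 P X x y - c1 P' X' x y| *
        Real.exp (γ ^ 2 * max (c1 P X x y) (c1 P' X' x y))) := by
    refine setLIntegral_congr_fun measurableSet_Icc fun x hx => ?_
    refine setLIntegral_congr_fun measurableSet_Icc fun y hy => ?_
    rw [hcc x hx y hy, hcc' x hx y hy]
  rw [e3]
  set J := ∫⁻ x in Set.Icc (0 : ℝ) 1, ∫⁻ y in Set.Icc (0 : ℝ) 1,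
      ENNReal.ofReal (|c1 P X x y - c1 P' X' x y| *
        Real.exp (γ ^ 2 * max (c1 P X x y) (c1 P' X' x y))) with hJ
  set K := ‖z‖ ^ 2 * Real.exp (γ ^ 2 * B) with hK
  have hK0 : 0 ≤ K := by positivity
  have hlim : Tendsto (fun n : ℕ => ENNReal.ofReal (‖z‖ ^ 2 * γ ^ 2) * J +
      ENNReal.ofReal (‖z‖ ^ 2 * γ ^ 2 * (B * Real.exp (γ ^ 2 * B)) * ((n : ℝ))⁻¹ + (K + 1) * (√(n : ℝ))⁻¹))
      atTop (𝓝 (ENNReal.ofReal (‖z‖ ^ 2 * γ ^ 2) * J + ENNReal.ofReal (‖z‖ ^ 2 * γ ^ 2 *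
        (B * Real.exp (γ ^ 2 * B)) * 0 + (K + 1) * 0))) := by
    refine tendsto_const_nhds.add (ENNReal.tendsto_ofReal ?_)
    refine Tendsto.add (Tendsto.const_mul _ ?_) (Tendsto.const_mul _ ?_)
    · exact tendsto_inv_atTop_zero.comp tendsto_natCast_atTop_atTop
    · exact tendsto_inv_atTop_zero.comp
        (Real.tendsto_sqrt_atTop.comp tendsto_natCast_atTop_atTop)
  simp only [mul_zero, add_zero, ENNReal.ofReal_zero] at hlim
  refine ge_of_tendsto hlim ?_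
  filter_upwards [eventually_gt_atTop 0] with n hn
  have hn' : (0 : ℝ) < n := by exact_mod_cast hn
  have hB0 : 0 ≤ B := by
    refine le_trans ?_ (hB1 0 (by simp))
    unfold c1; exact integral_nonneg fun ω => mul_self_nonneg _
  have m1 := monte_carlo P lam (hh P X γ a) (measurable_hh hXm γ ham) K hK0
    (sq_bound hXm hX h0 γ ham haR hB1) hn
  have m2 := monte_carlo P' lam (hh P' X' γ a) (measurable_hh hX'm γ ham) K hK0
    (sq_bound hX'm hX' h0' γ ham haR hB1') hn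
  have m3 := charfun_compare_aux P P' X X' hXm hX'm hX hX' h0 h0' B hB1 hB1' a ham ‖z‖ haR γ hn
  set Φ := ∫ ω, Complex.exp (Complex.I * ((∫ x, hh P X γ a x ω ∂lam : ℝ) : ℂ)) ∂P with hΦ
  set Φ' := ∫ ω, Complex.exp (Complex.I * ((∫ x, hh P' X' γ a x ω ∂lam : ℝ) : ℂ)) ∂P' with hΦ'
  set Φn := ∫ u : Fin n → ℝ, ∫ ω, Complex.exp (Complex.I * (((∑ k, hh P X γ a (u k) ω) / n : ℝ) : ℂ))
    ∂P ∂(Measure.pi fun _ => lam) with hΦn
  set Φn' := ∫ u : Fin n → ℝ, ∫ ω, Complex.exp (Complex.I * (((∑ k, hh P' X' γ a (u k) ω) / n : ℝ) : ℂ))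
    ∂P' ∂(Measure.pi fun _ => lam) with hΦn'
  have t1 : ‖Φ - Φ'‖ ≤ (K + 1) / (2 * √n) + ‖Φn - Φn'‖ + (K + 1) / (2 * √n) := by
    calc ‖Φ - Φ'‖ = ‖-(Φn - Φ) + (Φn - Φn') + (Φn' - Φ')‖ := by congr 1; ring
      _ ≤ ‖-(Φn - Φ)‖ + ‖Φn - Φn'‖ + ‖Φn' - Φ'‖ := norm_add₃_le
      _ ≤ _ := by rw [norm_neg]; gcongr
  have t2 : (K + 1) / (2 * √n) + ‖Φn - Φn'‖ + (K + 1) / (2 * √n) =
      ‖Φn - Φn'‖ + (K + 1) * (√(n : ℝ))⁻¹ := by
    have : (√(n : ℝ)) ≠ 0 := (Real.sqrt_pos.2 hn').ne'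
    field_simp
    ring
  rw [t2] at t1
  refine (ENNReal.ofReal_le_ofReal t1).trans ?_
  rw [ENNReal.ofReal_add (norm_nonneg _) (by positivity), ofReal_norm]
  have hpos : 0 ≤ ‖z‖ ^ 2 * γ ^ 2 * (B * Real.exp (γ ^ 2 * B)) * ((n : ℝ))⁻¹ := by positivity
  rw [ENNReal.ofReal_add hpos (by positivity), ← add_assoc]
  refine add_le_add ?_ le_rfl
  refine m3.trans (le_of_eq ?_)
  rw [div_eq_mul_inv]

end Pool.Agent.helper95.GMC
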