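import Pool.Agent.helper9.GMCMass

/-!
Module P of MP_d68443_pr: the abstract end of the main theorem on the cone.
-/

open MeasureTheory ProbabilityTheory Filter Topology Set
open scoped ENNReal NNReal

namespace Pool.Agent.helper95.GMC

lemma NN_nonneg' (M : ℝ) (l : ℕ) (z : Path) : 0 ≤ NN M l z := by
  rw [NN_eq]
  exact ENNReal.toReal_nonneg

lemma exp_neg_sub_le {x y : ℝ} (hx : 0 ≤ x) (hy : 0 ≤ y) :
    |Real.exp (-x) - Real.exp (-y)| ≤ |x - y| := by
  have key : ∀ a b : ℝ, 0 ≤ a → a ≤ b → |Real.exp (-a) - Real.exp (-b)| ≤ |a - b| := by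
    intro a b ha hab
    have h1 : Real.exp (-b) ≤ Real.exp (-a) := Real.exp_le_exp.2 (by linarith)
    rw [abs_of_nonneg (by linarith), abs_of_nonpos (by linarith)]
    have h2 : Real.exp (-a) - Real.exp (-b) = Real.exp (-a) * (1 - Real.exp (-(b - a))) := by
      rw [mul_sub, ← Real.exp_add, mul_one]
      congr 2
      ring
    have h3 : 1 - Real.exp (-(b - a)) ≤ b - a := by
      have := Real.add_one_le_exp (-(b - a))
      linarith
    have h4 : Real.exp (-a) ≤ 1 := Real.exp_le_one_iff.2 (by linarith)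
    have h5 := Real.exp_pos (-a)
    have h6 : 0 ≤ b - a := by linarith
    rw [h2]
    calc Real.exp (-a) * (1 - Real.exp (-(b - a))) ≤ Real.exp (-a) * (b - a) :=
          mul_le_mul_of_nonneg_left h3 h5.le
      _ ≤ 1 * (b - a) := mul_le_mul_of_nonneg_right h4 h6
      _ = -(a - b) := by ring
  rcases le_total x y with h | h
  · exact key x y hx h
  · rw [abs_sub_comm, abs_sub_comm x y]
    exact key y x hy h

/-- Laplace transform of the normalised truncated mass -/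
noncomputable def aL (μ : Measure Path) (M c : ℝ) (l : ℕ) : ℝ :=
  ∫ z, Real.exp (-(c * (√l * NN M l z))) ∂μ

lemma measurable_NNm (M : ℝ) (l : ℕ) : Measurable (NN M l) := by
  have h1 : NN M l = fun z => (Am M l z).toReal := funext fun z => NN_eq M l z
  rw [h1]
  exact (measurable_Am M l).ennreal_toReal

namespace Cone

variable {μ : Measure Path}

lemma integrable_expN (h : Cone μ) (M : ℝ) {c : ℝ} (hc : 0 ≤ c) (l : ℕ) :
    Integrable (fun z => Real.exp (-(c * (√l * NN M l z)))) μ := by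
  have := h.isProb
  have hm := measurable_NNm M l
  refine (integrable_const (1 : ℝ)).mono' (by fun_prop) (ae_of_all _ fun z => ?_)
  rw [Real.norm_of_nonneg (Real.exp_pos _).le]
  refine Real.exp_le_one_iff.2 ?_
  have := mul_nonneg hc (mul_nonneg (Real.sqrt_nonneg l) (NN_nonneg' M l z))
  linarith

lemma aL_le_one (h : Cone μ) (M : ℝ) {c : ℝ} (hc : 0 ≤ c) (l : ℕ) : aL μ M c l ≤ 1 := by
  have := h.isProb
  unfold aL
  refine (integral_mono (h.integrable_expN M hc l) (integrable_const (1 : ℝ)) fun z => ?_).trans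
    (by simp)
  refine Real.exp_le_one_iff.2 ?_
  have := mul_nonneg hc (mul_nonneg (Real.sqrt_nonneg l) (NN_nonneg' M l z))
  linarith

lemma abs_le_sqrt (h : Cone μ) {f : Path → ℝ} (hm : Measurable f) {ε : ℝ} (hε : 0 ≤ ε)
    (hf : ∫⁻ z, ENNReal.ofReal (f z ^ 2) ∂μ ≤ ENNReal.ofReal (ε ^ 2)) :
    Integrable f μ ∧ ∫ z, |f z| ∂μ ≤ ε := by
  have := h.isProb
  have h1 : Integrable (fun z => f z ^ 2) μ := by
    refine ⟨(hm.pow_const 2).aestronglyMeasurable, ?_⟩
    rw [hasFiniteIntegral_iff_ofReal (ae_of_all _ fun z => sq_nonneg _)]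
    exact hf.trans_lt ENNReal.ofReal_lt_top
  have h2 : MemLp f 2 μ := by
    rw [memLp_two_iff_integrable_sq hm.aestronglyMeasurable]
    exact h1
  have h3 : Integrable f μ := h2.integrable one_le_two
  refine ⟨h3, ?_⟩
  have h4 : MemLp (fun z => |f z|) 2 μ := h2.abs
  have h5 := variance_nonneg (fun z => |f z|) μ
  rw [variance_eq_sub h4] at h5
  have h6 : ∫ z, f z ^ 2 ∂μ ≤ ε ^ 2 := by
    rw [integral_eq_lintegral_of_nonneg_ae (ae_of_all _ fun z => sq_nonneg _)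
      h1.aestronglyMeasurable]
    exact ENNReal.toReal_le_of_le_ofReal (sq_nonneg ε) hf
  have h7 : ∫ z, ((fun z => |f z|) ^ 2) z ∂μ = ∫ z, f z ^ 2 ∂μ := by
    refine integral_congr_ae (ae_of_all _ fun z => ?_)
    simp only [Pi.pow_apply, sq_abs]
  rw [h7] at h5
  have h8 : (∫ z, |f z| ∂μ) ^ 2 ≤ ε ^ 2 := by linarith
  exact (abs_le_of_sq_le_sq' h8 hε).2

lemma aL_sub_le (h : Cone μ) {M : ℝ} (hM : 0 ≤ M) {c : ℝ} (hc : 0 ≤ c) {ε : ℝ} (hε : 0 < ε) :
    ∃ l0 : ℕ, ∀ l ≥ l0, ∀ l' ≥ l0, |aL μ M c l - aL μ M c l'| ≤ ε := by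
  have := h.isProb
  set δ : ℝ := ε / (c + 1) with hδ
  have hδ0 : 0 < δ := by positivity
  obtain ⟨l0, hl0⟩ := h.mass_cauchy hM (ε := δ ^ 2) (by positivity)
  refine ⟨l0, fun l hl l' hl' => ?_⟩
  have hm1 := measurable_NNm M l
  have hm2 := measurable_NNm M l'
  obtain ⟨h1, h2⟩ := h.abs_le_sqrt (f := fun z => √l * NN M l z - √l' * NN M l' z)
    (by fun_prop) hδ0.le (hl0 l hl l' hl')
  unfold aL
  rw [← integral_sub (h.integrable_expN M hc l) (h.integrable_expN M hc l')]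
  refine abs_integral_le_integral_abs.trans ?_
  calc ∫ z, |Real.exp (-(c * (√l * NN M l z))) - Real.exp (-(c * (√l' * NN M l' z)))| ∂μ
      ≤ ∫ z, c * |√l * NN M l z - √l' * NN M l' z| ∂μ := by
        refine integral_mono ((h.integrable_expN M hc l).sub (h.integrable_expN M hc l')).abs
          (h1.abs.const_mul c) fun z => ?_
        refine (exp_neg_sub_le (mul_nonneg hc (mul_nonneg (Real.sqrt_nonneg l) (NN_nonneg' M l z)))
          (mul_nonneg hc (mul_nonneg (Real.sqrt_nonneg l') (NN_nonneg' M l' z)))).trans ?_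
        rw [← mul_sub, abs_mul, abs_of_nonneg hc]
    _ = c * ∫ z, |√l * NN M l z - √l' * NN M l' z| ∂μ := integral_const_mul _ _
    _ ≤ c * δ := mul_le_mul_of_nonneg_left h2 hc
    _ ≤ ε := by
        rw [hδ, mul_div_assoc', div_le_iff₀ (by positivity)]
        nlinarith

lemma exists_psi (h : Cone μ) {M : ℝ} (hM : 0 ≤ M) {c : ℝ} (hc : 0 ≤ c) :
    ∃ ψ : ℝ, Tendsto (aL μ M c) atTop (𝓝 ψ) := by
  have : CauchySeq (aL μ M c) := by
    rw [Metric.cauchySeq_iff]
    intro ε hε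
    obtain ⟨l0, hl0⟩ := h.aL_sub_le hM hc (half_pos hε)
    refine ⟨l0, fun l hl l' hl' => ?_⟩
    rw [Real.dist_eq]
    exact (hl0 l hl l' hl').trans_lt (half_lt_self hε)
  exact cauchySeq_tendsto_of_complete this

/-- lower bound of the Laplace transform -/
lemma aL_ge (h : Cone μ) {M : ℝ} (hM : 0 ≤ M) {c : ℝ} (hc : 0 ≤ c) (l : ℕ) :
    1 - c * (√l * (pk l M).toReal) ≤ aL μ M c l := by
  have := h.isProb
  have h1 := h.mass_integrable hM l
  rw [← h.mass_mean hM l]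
  unfold aL
  have h2 : 1 - c * (√l * ∫ z, NN M l z ∂μ) = ∫ z, (1 - c * (√l * NN M l z)) ∂μ := by
    rw [integral_sub (integrable_const _) ((h1.const_mul _).const_mul _), integral_const_mul,
      integral_const_mul]
    simp
  rw [h2]
  refine integral_mono ((integrable_const _).sub ((h1.const_mul _).const_mul _))
    (h.integrable_expN M hc l) fun z => ?_
  simp only
  have := Real.add_one_le_exp (-(c * (√l * NN M l z)))
  linarith

lemma exp_neg_le_quad {x : ℝ} (hx : 0 ≤ x) : Real.exp (-x) ≤ 1 - x + x ^ 2 / 2 := by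
  have h1 := Real.quadratic_le_exp_of_nonneg hx
  have h2 : 0 < 1 + x + x ^ 2 / 2 := by positivity
  rw [Real.exp_neg, inv_le_comm₀ (Real.exp_pos _) (by nlinarith [sq_nonneg (x - 1)])]
  refine le_trans ?_ h1
  rw [inv_le_iff_one_le_mul₀ (by nlinarith [sq_nonneg (x - 1)])]
  nlinarith [sq_nonneg (x ^ 2), sq_nonneg x]

/-- upper bound of the Laplace transform -/
lemma aL_le (h : Cone μ) {M : ℝ} (hM : 0 ≤ M) : ∃ C2 : ℝ, 0 < C2 ∧ ∀ (c : ℝ), 0 ≤ c → ∀ l : ℕ,
    aL μ M c l ≤ 1 - c * (√l * (pk l M).toReal) + c ^ 2 * C2 := by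
  have := h.isProb
  obtain ⟨C, hC⟩ := h.mass_sq_bdd hM
  refine ⟨|C| + 1, by positivity, fun c hc l => ?_⟩
  have h1 := h.mass_integrable hM l
  have hm := measurable_NNm M l
  have h3 : Integrable (fun z => (√l * NN M l z) ^ 2) μ := by
    refine ⟨(by fun_prop : Measurable fun z => (√l * NN M l z) ^ 2).aestronglyMeasurable, ?_⟩
    rw [hasFiniteIntegral_iff_ofReal (ae_of_all _ fun z => sq_nonneg _)]
    exact (hC l).trans_lt ENNReal.ofReal_lt_top
  have h4 : ∫ z, (√l * NN M l z) ^ 2 ∂μ ≤ |C| := by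
    rw [integral_eq_lintegral_of_nonneg_ae (ae_of_all _ fun z => sq_nonneg _)
      h3.aestronglyMeasurable]
    refine ENNReal.toReal_le_of_le_ofReal (abs_nonneg C) ((hC l).trans ?_)
    exact ENNReal.ofReal_le_ofReal (le_abs_self C)
  rw [← h.mass_mean hM l]
  have i1 : Integrable (fun z => 1 - c * (√l * NN M l z)) μ :=
    (integrable_const _).sub ((h1.const_mul _).const_mul _)
  have i2 : Integrable (fun z => c ^ 2 / 2 * (√l * NN M l z) ^ 2) μ := h3.const_mul _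
  have h2 : ∫ z, (1 - c * (√l * NN M l z) + c ^ 2 / 2 * (√l * NN M l z) ^ 2) ∂μ =
      1 - c * (√l * ∫ z, NN M l z ∂μ) + c ^ 2 / 2 * ∫ z, (√l * NN M l z) ^ 2 ∂μ := by
    rw [integral_add i1 i2, integral_sub (integrable_const _) ((h1.const_mul _).const_mul _),
      integral_const_mul, integral_const_mul, integral_const_mul]
    simp
  have h5 : aL μ M c l ≤ ∫ z, (1 - c * (√l * NN M l z) + c ^ 2 / 2 * (√l * NN M l z) ^ 2) ∂μ := by
    unfold aL
    refine integral_mono (h.integrable_expN M hc l) (i1.add i2) fun z => ?_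
    simp only
    have h6 := exp_neg_le_quad (mul_nonneg hc (mul_nonneg (Real.sqrt_nonneg l)
      (NN_nonneg' M l z)))
    refine h6.trans (le_of_eq ?_)
    ring
  rw [h2] at h5
  have h6 : c ^ 2 / 2 * ∫ z, (√l * NN M l z) ^ 2 ∂μ ≤ c ^ 2 * (|C| + 1) := by
    have h7 := mul_le_mul_of_nonneg_left h4 (show 0 ≤ c ^ 2 / 2 by positivity)
    have h8 : 0 ≤ c ^ 2 * |C| := by positivity
    have h9 : 0 ≤ c ^ 2 := sq_nonneg c
    nlinarith
  linarith

lemma aL_anti (h : Cone μ) {M M' : ℝ} (hMM : M ≤ M') {c : ℝ} (hc : 0 ≤ c) (l : ℕ) :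
    aL μ M' c l ≤ aL μ M c l := by
  unfold aL
  refine integral_mono_ae (h.integrable_expN M' hc l) (h.integrable_expN M hc l) ?_
  filter_upwards [h.mass_mono hMM l] with z hz
  refine Real.exp_le_exp.2 ?_
  have : c * (√l * NN M l z) ≤ c * (√l * NN M' l z) := by gcongr
  linarith

end Cone

/-- the error bound tends to zero -/
lemma tendsto_pb : Tendsto (fun m : ℕ => (1 + (m : ℝ)) * Real.exp (-(√2 * m))) atTop (𝓝 0) := by
  have h1 : Tendsto (fun x : ℝ => (1 + x) * Real.exp (-(√2 * x))) atTop (𝓝 0) := by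
    have hb : (0 : ℝ) < √2 := by positivity
    have e1 := Real.tendsto_pow_mul_exp_neg_atTop_nhds_zero 1
    have e0 := Real.tendsto_pow_mul_exp_neg_atTop_nhds_zero 0
    have e2 : Tendsto (fun x : ℝ => √2 * x) atTop atTop := tendsto_id.const_mul_atTop hb
    have e3 := (e1.comp e2).const_mul (√2)⁻¹
    have e4 := e0.comp e2
    rw [mul_zero] at e3
    have e5 := e4.add e3
    rw [add_zero] at e5
    refine e5.congr fun x => ?_
    simp only [Function.comp_apply, pow_zero, pow_one, one_mul]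
    field_simp
  exact h1.comp tendsto_natCast_atTop_atTop

theorem cone_main_of_chain {μ : Measure Path} (h : Cone μ) (F : ℝ → ℝ → ℕ → ℕ → ℂ) {c1 C : ℝ}
    (hc1 : 0 < c1) (_hC : 0 ≤ C)
    (H : ∀ (M θ t ε : ℝ) (s0 : ℕ), 0 ≤ M → 0 < ε → ∃ n0 : ℕ, ∀ n ≥ n0, ∃ J0 : ℕ, ∀ J ≥ J0,
      ∃ s ≥ s0, ‖F θ t n J - ∫ z, ((Real.exp (-(c1 * t ^ 2 * (√s * NN M s z))) : ℝ) : ℂ) ∂μ‖ ≤
        C * ((1 + M) * Real.exp (-(√2 * M))) + ε) :
    ∃ φ : ℝ → ℂ, ContinuousAt φ 0 ∧ (∃ t, φ t ≠ 1) ∧ ∀ (θ t ε : ℝ), 0 < ε →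
      ∃ n0 : ℕ, ∀ n ≥ n0, ∃ J0 : ℕ, ∀ J ≥ J0, ‖F θ t n J - φ t‖ ≤ ε := by
  have := h.isProb
  set pb : ℝ → ℝ := fun M => C * ((1 + M) * Real.exp (-(√2 * M))) with hpb
  have hct : ∀ t : ℝ, 0 ≤ c1 * t ^ 2 := fun t => by positivity
  -- the limits for fixed `M`
  have hψ : ∀ (M t : ℝ), 0 ≤ M → ∃ ψ : ℝ, Tendsto (aL μ M (c1 * t ^ 2)) atTop (𝓝 ψ) :=
    fun M t hM => h.exists_psi hM (hct t)
  choose! ψ hψ using hψ
  have hint : ∀ (M t : ℝ) (s : ℕ), ∫ z, ((Real.exp (-(c1 * t ^ 2 * (√s * NN M s z))) : ℝ) : ℂ) ∂μ =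
      ((aL μ M (c1 * t ^ 2) s : ℝ) : ℂ) := by
    intro M t s
    unfold aL
    exact integral_complex_ofReal
  -- the comparison with `ψ`
  have hF : ∀ (M θ t ε : ℝ), 0 ≤ M → 0 < ε → ∃ n0 : ℕ, ∀ n ≥ n0, ∃ J0 : ℕ, ∀ J ≥ J0,
      ‖F θ t n J - ((ψ M t : ℝ) : ℂ)‖ ≤ pb M + ε := by
    intro M θ t ε hM hε
    have h1 := (hψ M t hM).eventually (Metric.ball_mem_nhds _ (half_pos hε))
    obtain ⟨s0, hs0⟩ := eventually_atTop.1 h1
    obtain ⟨n0, hn0⟩ := H M θ t (ε / 2) s0 hM (half_pos hε)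
    refine ⟨n0, fun n hn => ?_⟩
    obtain ⟨J0, hJ0⟩ := hn0 n hn
    refine ⟨J0, fun J hJ => ?_⟩
    obtain ⟨s, hs, hb⟩ := hJ0 J hJ
    rw [hint] at hb
    have h2 := hs0 s hs
    rw [Real.dist_eq] at h2
    have h3 : ‖((aL μ M (c1 * t ^ 2) s : ℝ) : ℂ) - ((ψ M t : ℝ) : ℂ)‖ ≤ ε / 2 := by
      rw [← Complex.ofReal_sub, Complex.norm_real, Real.norm_eq_abs]
      exact h2.le
    have h4 := norm_add_le (F θ t n J - ((aL μ M (c1 * t ^ 2) s : ℝ) : ℂ))
      (((aL μ M (c1 * t ^ 2) s : ℝ) : ℂ) - ((ψ M t : ℝ) : ℂ))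
    rw [sub_add_sub_cancel] at h4
    have h5 : C * ((1 + M) * Real.exp (-(√2 * M))) = pb M := rfl
    rw [h5] at hb
    linarith
  have hψψ : ∀ (M M' t : ℝ), 0 ≤ M → 0 ≤ M' → |ψ M t - ψ M' t| ≤ pb M + pb M' := by
    intro M M' t hM hM'
    refine le_of_forall_pos_le_add fun ε hε => ?_
    obtain ⟨n0, hn0⟩ := hF M 0 t (ε / 2) hM (half_pos hε)
    obtain ⟨n1, hn1⟩ := hF M' 0 t (ε / 2) hM' (half_pos hε)
    obtain ⟨J0, hJ0⟩ := hn0 (max n0 n1) (le_max_left _ _)
    obtain ⟨J1, hJ1⟩ := hn1 (max n0 n1) (le_max_right _ _)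
    have h1 := hJ0 (max J0 J1) (le_max_left _ _)
    have h2 := hJ1 (max J0 J1) (le_max_right _ _)
    have h3 := norm_sub_le (F 0 t (max n0 n1) (max J0 J1) - ((ψ M' t : ℝ) : ℂ))
      (F 0 t (max n0 n1) (max J0 J1) - ((ψ M t : ℝ) : ℂ))
    rw [sub_sub_sub_cancel_left, ← Complex.ofReal_sub, Complex.norm_real, Real.norm_eq_abs] at h3
    linarith
  have hpbt : Tendsto (fun m : ℕ => pb m) atTop (𝓝 0) := by
    have := tendsto_pb.const_mul C
    rw [mul_zero] at this
    exact this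
  -- the limit
  have hφ : ∀ t, ∃ f : ℝ, Tendsto (fun m : ℕ => ψ m t) atTop (𝓝 f) := by
    intro t
    have : CauchySeq (fun m : ℕ => ψ m t) := by
      rw [Metric.cauchySeq_iff]
      intro ε hε
      have h1 := hpbt.eventually (Metric.ball_mem_nhds _ (half_pos hε))
      obtain ⟨m0, hm0⟩ := eventually_atTop.1 h1
      refine ⟨m0, fun m hm m' hm' => ?_⟩
      rw [Real.dist_eq]
      have h2 := hm0 m hm
      have h3 := hm0 m' hm'
      rw [Real.dist_eq, sub_zero] at h2 h3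
      have h4 := hψψ m m' t (by positivity) (by positivity)
      have h5 := le_abs_self (pb m)
      have h6 := le_abs_self (pb m')
      linarith
    exact cauchySeq_tendsto_of_complete this
  choose f hf using hφ
  have hfψ : ∀ (m : ℕ) (t : ℝ), |f t - ψ m t| ≤ pb m := by
    intro m t
    have h1 : Tendsto (fun m' : ℕ => |ψ m' t - ψ m t|) atTop (𝓝 |f t - ψ m t|) :=
      ((hf t).sub_const _).abs
    have h2 : Tendsto (fun m' : ℕ => pb m' + pb m) atTop (𝓝 (0 + pb m)) := hpbt.add_const _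
    rw [zero_add] at h2
    exact le_of_tendsto_of_tendsto' h1 h2 fun m' => hψψ m' m t (by positivity) (by positivity)
  refine ⟨fun t => ((f t : ℝ) : ℂ), ?_, ?_, ?_⟩
  · -- continuity at zero
    have hψ0 : ∀ m : ℕ, ψ m 0 = 1 := by
      intro m
      have h1 := hψ (m : ℝ) 0 (by positivity)
      have h2 : aL μ (m : ℝ) (c1 * 0 ^ 2) = fun _ => (1 : ℝ) := by
        funext l
        unfold aL
        simp
      rw [h2] at h1
      exact tendsto_nhds_unique h1 tendsto_const_nhds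
    have hf0 : f 0 = 1 := by
      have h1 := hf 0
      simp only [hψ0] at h1
      exact (tendsto_nhds_unique h1 tendsto_const_nhds)
    have hlow : ∀ (m : ℕ) (t : ℝ), 1 - c1 * t ^ 2 * rho m ≤ ψ m t := by
      intro m t
      have h1 := (pk_tendsto_rho m (by positivity)).const_mul (c1 * t ^ 2)
      have h2 := h1.const_sub 1
      exact le_of_tendsto_of_tendsto' h2 (hψ (m : ℝ) t (by positivity)) fun l =>
        h.aL_ge (by positivity) (hct t) l
    have hup : ∀ (m : ℕ) (t : ℝ), ψ m t ≤ 1 := fun m t =>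
      le_of_tendsto' (hψ (m : ℝ) t (by positivity)) fun l => h.aL_le_one _ (hct t) l
    have hcont : ContinuousAt f 0 := by
      rw [Metric.continuousAt_iff']
      intro ε hε
      have h1 := hpbt.eventually (Metric.ball_mem_nhds _ (half_pos hε))
      obtain ⟨m, hm⟩ := h1.exists
      rw [Real.dist_eq, sub_zero] at hm
      have h2 : Tendsto (fun t : ℝ => c1 * t ^ 2 * rho m) (𝓝 0) (𝓝 (c1 * 0 ^ 2 * rho m)) := by
        apply Continuous.tendsto
        fun_prop
      have h3 : c1 * 0 ^ 2 * rho m = 0 := by ring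
      rw [h3] at h2
      filter_upwards [h2.eventually (gt_mem_nhds (half_pos hε))] with t ht
      rw [Real.dist_eq, hf0]
      have h4 := hfψ m t
      have h5 := hlow m t
      have h6 := hup m t
      have h7 := le_abs_self (pb m)
      have h8 : |ψ m t - 1| ≤ c1 * t ^ 2 * rho m := by
        rw [abs_le]
        have h9 : 0 ≤ c1 * t ^ 2 * rho m := mul_nonneg (hct t) (rho_pos _).le
        constructor <;> linarith
      have h9 := abs_add_le (f t - ψ m t) (ψ m t - 1)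
      rw [sub_add_sub_cancel] at h9
      linarith
    exact Complex.continuous_ofReal.continuousAt.comp hcont
  · -- non-triviality
    obtain ⟨C2, hC2, hup⟩ := h.aL_le (M := 0) le_rfl
    have hr := rho_pos 0
    set c : ℝ := rho 0 / (2 * C2) with hc
    have hc0 : 0 < c := by positivity
    refine ⟨√(c / c1), fun hcon => ?_⟩
    have hct2 : c1 * (√(c / c1)) ^ 2 = c := by
      rw [Real.sq_sqrt (by positivity)]
      field_simp
    have h1 : ψ 0 (√(c / c1)) ≤ 1 - c * rho 0 + c ^ 2 * C2 := by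
      have h2 := hψ 0 (√(c / c1)) le_rfl
      rw [hct2] at h2
      have h3 := (((pk_tendsto_rho 0 le_rfl).const_mul c).const_sub 1).add_const (c ^ 2 * C2)
      exact le_of_tendsto_of_tendsto' h2 h3 fun l => hup c hc0.le l
    have h2 : ∀ m : ℕ, ψ m (√(c / c1)) ≤ ψ 0 (√(c / c1)) := by
      intro m
      have h3 := hψ (m : ℝ) (√(c / c1)) (by positivity)
      have h4 := hψ 0 (√(c / c1)) le_rfl
      exact le_of_tendsto_of_tendsto' h3 h4 fun l => h.aL_anti (by positivity) (hct _) l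
    have h3 : f (√(c / c1)) ≤ ψ 0 (√(c / c1)) := le_of_tendsto' (hf _) h2
    have h4 : f (√(c / c1)) = 1 := by
      have hcon' : ((f (√(c / c1)) : ℝ) : ℂ) = 1 := hcon
      exact_mod_cast hcon'
    have h5 : c ^ 2 * C2 = c * rho 0 / 2 := by
      rw [hc]
      field_simp
    have h6 : 0 < c * rho 0 := by positivity
    linarith
  · -- convergence
    intro θ t ε hε
    have h1 := hpbt.eventually (Metric.ball_mem_nhds _ (show (0 : ℝ) < ε / 4 by positivity))
    obtain ⟨m, hm⟩ := h1.exists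
    rw [Real.dist_eq, sub_zero] at hm
    obtain ⟨n0, hn0⟩ := hF m θ t (ε / 2) (by positivity) (half_pos hε)
    refine ⟨n0, fun n hn => ?_⟩
    obtain ⟨J0, hJ0⟩ := hn0 n hn
    refine ⟨J0, fun J hJ => ?_⟩
    have h2 := hJ0 J hJ
    have h3 : ‖((ψ m t : ℝ) : ℂ) - ((f t : ℝ) : ℂ)‖ ≤ pb m := by
      rw [← Complex.ofReal_sub, Complex.norm_real, Real.norm_eq_abs, abs_sub_comm]
      exact hfψ m t
    have h4 := norm_add_le (F θ t n J - ((ψ m t : ℝ) : ℂ)) (((ψ m t : ℝ) : ℂ) - ((f t : ℝ) : ℂ))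
    rw [sub_add_sub_cancel] at h4
    have h5 := le_abs_self (pb m)
    linarith

end Pool.Agent.helper95.GMC
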