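import Pool.Agent.helper95.GMC.DensDefs
import Pool.Agent.helper9.GMC.Sums

/-! ### merged from `Pool.Agent.helper9.GMC.Mass1` -/

section
/-!
Critical mass, coordinate level: glueing, independence, tilting.
-/

open MeasureTheory ProbabilityTheory Filter Topology Set
open scoped ENNReal NNReal

namespace Pool.Agent.helper95.GMC

/-- weight of the critical density, coordinate version -/
noncomputable def wt (l : ℕ) (x : ℝ) (z : Path) : ℝ≥0∞ :=
  ENNReal.ofReal (Real.exp (√2 * (z (0, x) + So 0 l x z) - (1 + l * Real.log 2)))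

/-- critical density with barrier, coordinate version -/
noncomputable def nc (M : ℝ) (l : ℕ) (x : ℝ) (z : Path) : ℝ≥0∞ :=
  (Bar √2 0 M l x).indicator (wt l x) z

/-- density over the high layers -/
noncomputable def nh (s k : ℕ) (u : ℝ) (x : ℝ) (b : Path) : ℝ≥0∞ :=
  ENNReal.ofReal (Real.exp (√2 * So s k x b - √2 ^ 2 / 2 * (k * Real.log 2))) *
    (Bar √2 s u k x).indicator (fun _ => 1) b

lemma measurable_wt (l : ℕ) (x : ℝ) : Measurable (wt l x) := by
  unfold wt
  have h1 : Measurable fun z : Path => z (0, x) := measurable_pi_apply _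
  have h2 := measurable_So 0 l x
  fun_prop

lemma measurable_nc (M : ℝ) (l : ℕ) (x : ℝ) : Measurable (nc M l x) :=
  (measurable_wt l x).indicator (measurableSet_Bar _ _ _ _ _)

lemma measurable_nh (s k : ℕ) (u : ℝ) (x : ℝ) : Measurable (nh s k u x) := by
  unfold nh
  refine Measurable.mul ?_ (measurable_const.indicator (measurableSet_Bar _ _ _ _ _))
  have h2 := measurable_So s k x
  fun_prop

lemma nc_le_wt (M : ℝ) (l : ℕ) (x : ℝ) (z : Path) : nc M l x z ≤ wt l x z :=
  Set.indicator_le_self _ _ _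

lemma So_split (s k : ℕ) (x : ℝ) (a b : Path) :
    So 0 (s + k) x (glue s a b) = So 0 s x a + So s k x b := by
  induction k with
  | zero => simp [So_zero, So_glue_le (s := 0) (k := s) (l := s) (by omega)]
  | succ k ih =>
    rw [← add_assoc, So_succ, ih, So_succ, zero_add, glue_of_lt (by omega)]
    ring

lemma hgt_split (M : ℝ) (s j : ℕ) (x : ℝ) (a b : Path) :
    hgt √2 0 M (s + j) x (glue s a b) = hgt √2 s (hgt √2 0 M s x a) j x b := by
  unfold hgt
  rw [So_split]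
  push_cast
  ring

lemma mem_Bar_split (M : ℝ) (s k : ℕ) (x : ℝ) (a b : Path) :
    glue s a b ∈ Bar √2 0 M (s + k) x ↔
      a ∈ Bar √2 0 M s x ∧ b ∈ Bar √2 s (hgt √2 0 M s x a) k x := by
  constructor
  · intro h
    constructor
    · intro i h1 h2
      have := h i h1 (by omega)
      rwa [hgt_glue_le (by omega)] at this
    · intro j h1 h2
      have := h (s + j) (by omega) (by omega)
      rwa [hgt_split] at this
  · rintro ⟨h1, h2⟩ i hi1 hi2
    rcases Nat.lt_or_ge s i with h | h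
    · obtain ⟨j, rfl⟩ := Nat.exists_eq_add_of_lt h
      have := h2 (j + 1) (by omega) (by omega)
      rw [← hgt_split, ← add_assoc] at this
      exact this
    · have := h1 i hi1 h
      rwa [← hgt_glue_le (l := s) (by omega) x a b] at this

lemma nc_glue (M : ℝ) (s k : ℕ) (x : ℝ) (a b : Path) :
    nc M (s + k) x (glue s a b) = nc M s x a * nh s k (hgt √2 0 M s x a) x b := by
  unfold nc nh
  have h2 : √2 ^ 2 = (2 : ℝ) := Real.sq_sqrt (by norm_num)
  by_cases ha : a ∈ Bar √2 0 M s x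
  · by_cases hb : b ∈ Bar √2 s (hgt √2 0 M s x a) k x
    · rw [Set.indicator_of_mem ((mem_Bar_split _ _ _ _ _ _).2 ⟨ha, hb⟩),
        Set.indicator_of_mem ha, Set.indicator_of_mem hb, mul_one]
      unfold wt
      rw [← ENNReal.ofReal_mul (Real.exp_pos _).le, ← Real.exp_add, So_split,
        glue_of_le (by omega), h2]
      congr 2
      push_cast
      ring
    · rw [Set.indicator_of_notMem (fun h => hb ((mem_Bar_split _ _ _ _ _ _).1 h).2),
        Set.indicator_of_notMem hb]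
      simp
  · rw [Set.indicator_of_notMem (fun h => ha ((mem_Bar_split _ _ _ _ _ _).1 h).1),
      Set.indicator_of_notMem ha]
    simp

lemma dependsOn_So (s k : ℕ) (x : ℝ) : DependsOn (So s k x) {p | s < p.1 ∧ p.2 = x} := by
  intro z z' hz
  unfold So
  refine Finset.sum_congr rfl fun j _ => ?_
  exact hz _ ⟨by simp only; omega, rfl⟩

lemma dependsOn_nh (s k : ℕ) (u x : ℝ) : DependsOn (nh s k u x) {p | s < p.1 ∧ p.2 = x} := by
  intro z z' hz
  have h1 : ∀ i, So s i x z = So s i x z' := fun i => dependsOn_So s i x hz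
  unfold nh
  have h2 : z ∈ Bar √2 s u k x ↔ z' ∈ Bar √2 s u k x := by
    unfold Bar hgt
    simp only [Set.mem_ofPred_eq, h1]
  rw [h1]
  by_cases h : z ∈ Bar √2 s u k x
  · rw [Set.indicator_of_mem h, Set.indicator_of_mem (h2.1 h)]
  · rw [Set.indicator_of_notMem h, Set.indicator_of_notMem (fun h' => h (h2.2 h'))]

/-- survival weight -/
noncomputable def pu (M : ℝ) (s k : ℕ) (x : ℝ) (a : Path) : ℝ≥0∞ := pk k (hgt √2 0 M s x a)

lemma measurable_pu (M : ℝ) (s k : ℕ) (x : ℝ) : Measurable (pu M s k x) :=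
  (pk_meas k).comp (measurable_hgt _ _ _ _ _)

namespace Cone

variable {μ : Measure Path}

lemma lintegral_nh (h : Cone μ) (s k : ℕ) (u x : ℝ) : ∫⁻ b, nh s k u x b ∂μ = pk k u := by
  have := h.one_point √2 s k x u (f := fun _ => 1) measurable_const
  exact this

lemma lintegral_nh_mul (h : Cone μ) (s k : ℕ) (u u' x y : ℝ) (hxy : (2 ^ s)⁻¹ ≤ |x - y|) :
    ∫⁻ b, nh s k u x b * nh s k u' y b ∂μ = pk k u * pk k u' := by
  have hind : IndepFun (nh s k u x) (nh s k u' y) μ := by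
    refine h.indepFun (S := {p | s < p.1 ∧ p.2 = x}) (T := {p | s < p.1 ∧ p.2 = y}) ?_
      (measurable_nh _ _ _ _) (measurable_nh _ _ _ _) (dependsOn_nh _ _ _ _) (dependsOn_nh _ _ _ _)
    rintro ⟨i, x'⟩ ⟨hi, rfl⟩ ⟨j, y'⟩ ⟨hj, rfl⟩ hij
    simp only at hi hj hij ⊢
    obtain ⟨i', rfl⟩ : ∃ i', i = i' + 1 := ⟨i - 1, by omega⟩
    refine kap_succ_of_ge (le_trans ?_ hxy)
    exact inv_anti₀ (by positivity) (pow_le_pow_right₀ (by norm_num) (by omega))
  rw [lintegral_mul_eq_lintegral_mul_lintegral_of_indepFun'' (measurable_nh _ _ _ _).aemeasurable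
    (measurable_nh _ _ _ _).aemeasurable hind, h.lintegral_nh, h.lintegral_nh]

/-- far points: the two-point function factorises given the low layers -/
lemma far (h : Cone μ) (M : ℝ) (s k : ℕ) (x y : ℝ) (hxy : (2 ^ s)⁻¹ ≤ |x - y|) :
    ∫⁻ z, nc M (s + k) x z * nc M (s + k) y z ∂μ =
      ∫⁻ a, (nc M s x a * pu M s k x a) * (nc M s y a * pu M s k y a) ∂μ := by
  rw [h.lintegral_glue s (F := fun z => nc M (s + k) x z * nc M (s + k) y z)
    ((measurable_nc _ _ _).mul (measurable_nc _ _ _))]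
  refine lintegral_congr fun a => ?_
  have e : ∀ b, nc M (s + k) x (glue s a b) * nc M (s + k) y (glue s a b) =
      (nc M s x a * nc M s y a) * (nh s k (hgt √2 0 M s x a) x b *
        nh s k (hgt √2 0 M s y a) y b) := by
    intro b
    rw [nc_glue, nc_glue]; ring
  simp_rw [e]
  have hm : Measurable fun b => nh s k (hgt √2 0 M s x a) x b * nh s k (hgt √2 0 M s y a) y b :=
    (measurable_nh _ _ _ _).mul (measurable_nh _ _ _ _)
  rw [lintegral_const_mul _ hm,
    h.lintegral_nh_mul _ _ _ _ _ _ hxy]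
  unfold pu
  ring

/-- cross term -/
lemma cross (h : Cone μ) (M : ℝ) (s k : ℕ) (x y : ℝ) :
    ∫⁻ z, nc M (s + k) x z * (nc M s y z * pu M s k y z) ∂μ =
      ∫⁻ a, (nc M s x a * pu M s k x a) * (nc M s y a * pu M s k y a) ∂μ := by
  rw [h.lintegral_glue s (F := fun z => nc M (s + k) x z * (nc M s y z * pu M s k y z))
    ((measurable_nc _ _ _).mul ((measurable_nc _ _ _).mul (measurable_pu _ _ _ _)))]
  refine lintegral_congr fun a => ?_
  have h1 : ∀ b, nc M s y (glue s a b) = nc M s y a := by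
    intro b
    have := nc_glue M s 0 y a b
    rw [add_zero] at this
    rw [this]
    simp [nh, So_zero, Bar_zero]
  have h2 : ∀ b, pu M s k y (glue s a b) = pu M s k y a := by
    intro b
    unfold pu
    rw [hgt_glue_le (by omega)]
  have e : ∀ b, nc M (s + k) x (glue s a b) * (nc M s y (glue s a b) * pu M s k y (glue s a b)) =
      (nc M s x a * (nc M s y a * pu M s k y a)) * nh s k (hgt √2 0 M s x a) x b := by
    intro b
    rw [nc_glue, h1, h2]; ring
  simp_rw [e]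
  rw [lintegral_const_mul _ (measurable_nh _ _ _ _), h.lintegral_nh]
  unfold pu
  ring

end Cone

end Pool.Agent.helper95.GMC
end

/-! ### merged from `Pool.Agent.helper9.GMC.Mass2` -/

section
/-!
Critical mass: two-point bound.
-/

open MeasureTheory ProbabilityTheory Filter Topology Set
open scoped ENNReal NNReal

namespace Pool.Agent.helper95.GMC

lemma two_range_eq (s : ℕ) (x y : ℝ) (z : Path) :
    Cone.two (Finset.range (s + 1)) √2 √2 x y z =
      √2 * (z (0, x) + So 0 s x z) + √2 * (z (0, y) + So 0 s y z) := by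
  unfold Cone.two So
  rw [Finset.sum_range_succ', Finset.sum_add_distrib, ← Finset.mul_sum, ← Finset.mul_sum]
  simp only [zero_add]
  ring

lemma twoV_range_eq (s : ℕ) (x y : ℝ) :
    Cone.twoV (Finset.range (s + 1)) √2 √2 x y = 4 * (1 + s * Real.log 2) + 4 * K s (x - y) := by
  unfold Cone.twoV
  have h2 : √2 ^ 2 = (2 : ℝ) := Real.sq_sqrt (by norm_num)
  have h3 : √2 * √2 = (2 : ℝ) := Real.mul_self_sqrt (by norm_num)
  rw [Finset.sum_add_distrib, ← Finset.mul_sum, ← Finset.mul_sum, sum_kap, sum_kap, K_zero, h2,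
    mul_assoc 2 √2 √2, h3]
  ring

lemma So_twoC_range {s i : ℕ} (hi : i ≤ s) (x y : ℝ) :
    So 0 i x (Cone.twoC (Finset.range (s + 1)) √2 √2 x y) =
      √2 * (i * Real.log 2) + √2 * (K i (x - y) - K 0 (x - y)) := by
  unfold So Cone.twoC
  have e : ∀ j ∈ Finset.range i, (if ((0 + j + 1, x) : ℕ × ℝ).1 ∈ Finset.range (s + 1) then
      √2 * kap ((0 + j + 1, x) : ℕ × ℝ).1 (((0 + j + 1, x) : ℕ × ℝ).2 - x) +
      √2 * kap ((0 + j + 1, x) : ℕ × ℝ).1 (((0 + j + 1, x) : ℕ × ℝ).2 - y) else 0) =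
      √2 * kap (0 + j + 1) 0 + √2 * kap (0 + j + 1) (x - y) := by
    intro j hj
    rw [Finset.mem_range] at hj
    rw [if_pos, sub_self]
    rw [Finset.mem_range]
    simp only
    omega
  rw [Finset.sum_congr rfl e, Finset.sum_add_distrib, ← Finset.mul_sum, ← Finset.mul_sum,
    sum_kap_shift, sum_kap_shift, K_zero, K_zero]
  simp

lemma hgt_shift_le {M : ℝ} {s i : ℕ} (hi : i ≤ s) {x y : ℝ} (hxy : |x - y| ≤ 2 * (2 ^ s)⁻¹)
    (z : Path) :
    hgt √2 0 M i x (z + Cone.twoC (Finset.range (s + 1)) √2 √2 x y) ≤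
      hgt (-√2) 0 (M + 2 * √2) i x z := by
  unfold hgt
  rw [So_add, So_twoC_range hi]
  have h1 : |x - y| ≤ 2 * (2 ^ i)⁻¹ := by
    refine hxy.trans ?_
    have : ((2 : ℝ) ^ s)⁻¹ ≤ (2 ^ i)⁻¹ :=
      inv_anti₀ (by positivity) (pow_le_pow_right₀ (by norm_num) hi)
    linarith
  have h2 := K_lower h1
  have h3 := K_le_K_zero 0 (x - y)
  have h4 : (0 : ℝ) < √2 := by positivity
  have h5 : i * Real.log 2 - 2 ≤ K i (x - y) - K 0 (x - y) := by
    push_cast at h3
    linarith
  have h6 := mul_le_mul_of_nonneg_left h5 h4.le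
  linarith

namespace Cone

variable {μ : Measure Path}

lemma near_tilt (h : Cone μ) (M : ℝ) (s k : ℕ) {x y : ℝ}
    (hxy : |x - y| ≤ 2 * (2 ^ s)⁻¹) :
    ∫⁻ z, nc M s x z * pu M s k x z ^ 2 * wt s y z ∂μ ≤
      ENNReal.ofReal (Real.exp (2 * K s (x - y) + √2 * (M + 2 * √2) - s * Real.log 2)) *
      (Tk^[s] (fun w => ENNReal.ofReal (Real.exp (-√2 * w)) * pk k w ^ 2)) (M + 2 * √2) := by
  have h2 : √2 ^ 2 = (2 : ℝ) := Real.sq_sqrt (by norm_num)
  have h3 : √2 * √2 = (2 : ℝ) := Real.mul_self_sqrt (by norm_num)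
  set F : Path → ℝ≥0∞ := (Bar √2 0 M s x).indicator (fun z => pu M s k x z ^ 2) with hF
  have hFm : Measurable F :=
    ((measurable_pu M s k x).pow_const 2).indicator (measurableSet_Bar _ _ _ _ _)
  have hK := K_nonneg s (x - y)
  have hs : (0 : ℝ) ≤ s * Real.log 2 := mul_nonneg (Nat.cast_nonneg s) lam_pos.le
  have hv : 0 < twoV (Finset.range (s + 1)) √2 √2 x y := by
    rw [twoV_range_eq]; linarith
  have e1 : ∀ z, nc M s x z * pu M s k x z ^ 2 * wt s y z =
      ENNReal.ofReal (Real.exp (2 * K s (x - y))) *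
      (ENNReal.ofReal (Real.exp (two (Finset.range (s + 1)) √2 √2 x y z -
        twoV (Finset.range (s + 1)) √2 √2 x y / 2)) * F z) := by
    intro z
    rw [hF]
    unfold nc
    by_cases hz : z ∈ Bar √2 0 M s x
    · rw [Set.indicator_of_mem hz, Set.indicator_of_mem hz, ← mul_assoc,
        ← ENNReal.ofReal_mul (Real.exp_pos _).le, ← Real.exp_add, two_range_eq, twoV_range_eq,
        mul_right_comm]
      congr 1
      unfold wt
      rw [← ENNReal.ofReal_mul (Real.exp_pos _).le, ← Real.exp_add]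
      congr 2
      ring
    · rw [Set.indicator_of_notMem hz, Set.indicator_of_notMem hz]
      simp
  simp_rw [e1]
  have hm1 : Measurable (fun z => ENNReal.ofReal (Real.exp (two (Finset.range (s + 1)) √2 √2 x y z -
        twoV (Finset.range (s + 1)) √2 √2 x y / 2)) * F z) := by
    have := measurable_lin (two_mem (Finset.range (s + 1)) √2 √2 x y)
    exact Measurable.mul (by fun_prop) hFm
  rw [lintegral_const_mul _ hm1, h.tilt_two _ _ _ _ _ hv hFm]
  set f : ℝ → ℝ≥0∞ := fun w => ENNReal.ofReal (Real.exp (-√2 * w)) * pk k w ^ 2 with hf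
  have hfm : Measurable f := by
    have := pk_meas k
    rw [hf]
    fun_prop
  have h1 := h.one_point (-√2) 0 s x (M + 2 * √2) hfm
  rw [← h1]
  have e2 : ENNReal.ofReal (Real.exp (2 * K s (x - y) + √2 * (M + 2 * √2) - s * Real.log 2)) =
      ENNReal.ofReal (Real.exp (2 * K s (x - y))) *
        ENNReal.ofReal (Real.exp (√2 * (M + 2 * √2) - s * Real.log 2)) := by
    rw [← ENNReal.ofReal_mul (Real.exp_pos _).le, ← Real.exp_add]
    congr 2
    ring
  rw [e2, mul_assoc]
  refine mul_le_mul_right ?_ _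
  have hm2 : Measurable (fun z => ENNReal.ofReal (Real.exp (-√2 * So 0 s x z -
      (-√2) ^ 2 / 2 * (s * Real.log 2))) *
      (Bar (-√2) 0 (M + 2 * √2) s x).indicator (fun z => f (hgt (-√2) 0 (M + 2 * √2) s x z)) z) := by
    have hS := measurable_So 0 s x
    refine Measurable.mul (by fun_prop) ?_
    exact (hfm.comp (measurable_hgt _ _ _ _ _)).indicator (measurableSet_Bar _ _ _ _ _)
  rw [← lintegral_const_mul _ hm2]
  refine lintegral_mono fun z => ?_
  by_cases hz : z + twoC (Finset.range (s + 1)) √2 √2 x y ∈ Bar √2 0 M s x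
  · have hz2 : z ∈ Bar (-√2) 0 (M + 2 * √2) s x := by
      intro i hi1 hi2
      exact (hz i hi1 hi2).trans (hgt_shift_le hi2 hxy z)
    rw [hF, Set.indicator_of_mem hz, Set.indicator_of_mem hz2, hf]
    beta_reduce
    rw [← mul_assoc, ← mul_assoc, ← ENNReal.ofReal_mul (Real.exp_pos _).le, ← Real.exp_add,
      ← ENNReal.ofReal_mul (Real.exp_pos _).le, ← Real.exp_add]
    have e3 : √2 * (M + 2 * √2) - s * Real.log 2 +
        (-√2 * So 0 s x z - (-√2) ^ 2 / 2 * (s * Real.log 2)) +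
        -√2 * hgt (-√2) 0 (M + 2 * √2) s x z = 0 := by
      unfold hgt
      have h5 : (-√2) ^ 2 = (2 : ℝ) := by rw [neg_sq, h2]
      rw [h5]
      linear_combination (s * Real.log 2) * h3
    rw [e3, Real.exp_zero, ENNReal.ofReal_one, one_mul]
    unfold pu
    exact pow_le_pow_left' (pk_monotone k (hgt_shift_le le_rfl hxy z)) 2
  · rw [hF, Set.indicator_of_notMem hz]
    exact zero_le

end Cone

lemma int3_ne_top :
    ∫⁻ w in Set.Ici (0 : ℝ), ENNReal.ofReal (Real.exp (-√2 * w) * (1 + w) ^ 3) ≠ ∞ := by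
  have hs : (1.4 : ℝ) < √2 := by
    rw [show (1.4 : ℝ) = √(1.4 ^ 2) by rw [Real.sqrt_sq (by norm_num)]]
    exact Real.sqrt_lt_sqrt (by norm_num) (by norm_num)
  have h1 : ∀ w ∈ Set.Ici (0 : ℝ), ENNReal.ofReal (Real.exp (-√2 * w) * (1 + w) ^ 3) ≤
      ENNReal.ofReal (27 * Real.exp (-(0.4) * w)) := by
    intro w hw
    have hw' : (0 : ℝ) ≤ w := hw
    refine ENNReal.ofReal_le_ofReal ?_
    have h2 : 1 + w ≤ 3 * Real.exp (w / 3) := by
      have := Real.add_one_le_exp (w / 3)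
      linarith
    have h3 : (1 + w) ^ 3 ≤ 27 * Real.exp w := by
      calc (1 + w) ^ 3 ≤ (3 * Real.exp (w / 3)) ^ 3 := by gcongr
        _ = 27 * Real.exp w := by
          rw [mul_pow, ← Real.exp_nat_mul]
          norm_num
          ring
    calc Real.exp (-√2 * w) * (1 + w) ^ 3 ≤ Real.exp (-√2 * w) * (27 * Real.exp w) := by gcongr
      _ = 27 * Real.exp ((1 - √2) * w) := by
        rw [mul_left_comm, ← Real.exp_add]; congr 2; ring
      _ ≤ 27 * Real.exp (-(0.4) * w) := by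
        gcongr
        linarith
  refine ne_top_of_le_ne_top ?_ (setLIntegral_mono' measurableSet_Ici h1)
  have h4 : IntegrableOn (fun w : ℝ => 27 * Real.exp (-(0.4) * w)) (Set.Ici 0) := by
    rw [integrableOn_Ici_iff_integrableOn_Ioi]
    exact (integrableOn_exp_mul_Ioi (by norm_num) 0).const_mul 27
  rw [← ofReal_integral_eq_lintegral_ofReal h4 (ae_of_all _ fun w => by positivity)]
  exact ENNReal.ofReal_ne_top

lemma walk_sq_bound : ∃ C : ℝ, 0 ≤ C ∧ ∀ (s k : ℕ) (M : ℝ), 1 ≤ s → 0 ≤ M →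
    (Tk^[s] (fun w => ENNReal.ofReal (Real.exp (-√2 * w)) * pk k w ^ 2)) M ≤
      ENNReal.ofReal (C * ((1 + M) / (s * √s)) / (k + 1)) := by
  obtain ⟨C, hC⟩ := Tk_iter_le
  obtain ⟨D, hD⟩ := pk_le
  set I0 := ∫⁻ w in Set.Ici (0 : ℝ), ENNReal.ofReal (Real.exp (-√2 * w) * (1 + w) ^ 3) with hI0
  have hI : I0 ≠ ∞ := int3_ne_top
  refine ⟨C * (D ^ 2 * I0.toReal), by positivity, fun s k M hs hM => ?_⟩
  have hfm : Measurable (fun w => ENNReal.ofReal (Real.exp (-√2 * w)) * pk k w ^ 2) := by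
    have := pk_meas k
    fun_prop
  refine (hC s hs _ hfm M hM).trans ?_
  have h1 : ∫⁻ w in Set.Ici (0 : ℝ), ENNReal.ofReal (Real.exp (-√2 * w)) * pk k w ^ 2 *
      ENNReal.ofReal (1 + w) ≤ ENNReal.ofReal (D ^ 2 / (k + 1)) * I0 := by
    rw [hI0, ← lintegral_const_mul' _ _ ENNReal.ofReal_ne_top]
    refine setLIntegral_mono' measurableSet_Ici fun w hw => ?_
    have hw' : (0 : ℝ) ≤ w := hw
    have h2 := hD k w hw'
    have h3 : pk k w ^ 2 ≤ ENNReal.ofReal (D ^ 2 / (k + 1) * (1 + w) ^ 2) := by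
      calc pk k w ^ 2 ≤ ((D : ℝ≥0∞) * ENNReal.ofReal ((1 + w) / √(k + 1))) ^ 2 :=
            pow_le_pow_left' h2 2
        _ = ENNReal.ofReal ((D * ((1 + w) / √(k + 1))) ^ 2) := by
          rw [ENNReal.ofReal_pow (by positivity), ENNReal.ofReal_mul (by positivity),
            ENNReal.ofReal_coe_nnreal]
        _ = _ := by
          congr 1
          rw [mul_pow, div_pow, Real.sq_sqrt (by positivity)]
          ring
    calc ENNReal.ofReal (Real.exp (-√2 * w)) * pk k w ^ 2 * ENNReal.ofReal (1 + w)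
        ≤ ENNReal.ofReal (Real.exp (-√2 * w)) * ENNReal.ofReal (D ^ 2 / (k + 1) * (1 + w) ^ 2) *
          ENNReal.ofReal (1 + w) := by gcongr
      _ = _ := by
        rw [← ENNReal.ofReal_mul (by positivity), ← ENNReal.ofReal_mul (by positivity),
          ← ENNReal.ofReal_mul (by positivity)]
        congr 1
        ring
  calc (C : ℝ≥0∞) * ENNReal.ofReal ((1 + M) / (s * √s)) *
        ∫⁻ w in Set.Ici (0 : ℝ), ENNReal.ofReal (Real.exp (-√2 * w)) * pk k w ^ 2 *
          ENNReal.ofReal (1 + w)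
      ≤ (C : ℝ≥0∞) * ENNReal.ofReal ((1 + M) / (s * √s)) *
        (ENNReal.ofReal (D ^ 2 / (k + 1)) * I0) := by gcongr
    _ = ENNReal.ofReal (C * (D ^ 2 * I0.toReal) * ((1 + M) / (s * √s)) / (k + 1)) := by
      rw [← ENNReal.ofReal_toReal hI, ← ENNReal.ofReal_coe_nnreal, ← ENNReal.ofReal_mul (by positivity),
        ← ENNReal.ofReal_mul (by positivity), ← ENNReal.ofReal_mul (by positivity),
        ENNReal.toReal_ofReal ENNReal.toReal_nonneg]
      congr 1
      ring

lemma ennreal_mul_le_sq_add_sq (a b : ℝ≥0∞) : a * b ≤ a ^ 2 + b ^ 2 := by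
  rcases le_total a b with h | h
  · calc a * b ≤ b * b := by gcongr
      _ = b ^ 2 := (sq b).symm
      _ ≤ a ^ 2 + b ^ 2 := le_add_self
  · calc a * b ≤ a * a := by gcongr
      _ = a ^ 2 := (sq a).symm
      _ ≤ a ^ 2 + b ^ 2 := le_self_add

namespace Cone

variable {μ : Measure Path}

/-- two-point bound -/
lemma near_bound (h : Cone μ) {M : ℝ} (hM : 0 ≤ M) : ∃ C : ℝ, 0 ≤ C ∧ ∀ (s k : ℕ) (x y : ℝ),
    1 ≤ s → |x - y| ≤ 2 * (2 ^ s)⁻¹ →
    ∫⁻ a, (nc M s x a * pu M s k x a) * (nc M s y a * pu M s k y a) ∂μ ≤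
      ENNReal.ofReal (C * 2 ^ s / (s * √s * (k + 1))) := by
  obtain ⟨C, hC, hCb⟩ := walk_sq_bound
  set C' := C * (1 + (M + 2 * √2)) * Real.exp (2 + √2 * (M + 2 * √2)) with hC'
  have hM' : 0 ≤ M + 2 * √2 := by positivity
  refine ⟨2 * C', by positivity, fun s k x y hs hxy => ?_⟩
  have key : ∀ x y : ℝ, |x - y| ≤ 2 * (2 ^ s)⁻¹ →
      ∫⁻ z, nc M s x z * pu M s k x z ^ 2 * wt s y z ∂μ ≤
        ENNReal.ofReal (C' * 2 ^ s / (s * √s * (k + 1))) := by
    intro x y hxy
    refine (h.near_tilt M s k hxy).trans ?_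
    have h1 := hCb s k (M + 2 * √2) hs hM'
    have h2 : Real.exp (2 * K s (x - y) + √2 * (M + 2 * √2) - s * Real.log 2) ≤
        Real.exp (2 + √2 * (M + 2 * √2)) * 2 ^ s := by
      have h3 : (2 : ℝ) ^ s = Real.exp (s * Real.log 2) := by
        rw [mul_comm, Real.exp_mul, Real.exp_log (by norm_num), Real.rpow_natCast]
      rw [h3, ← Real.exp_add]
      apply Real.exp_le_exp.2
      have := K_le_K_zero s (x - y)
      linarith
    have hs' : (0 : ℝ) < s := by exact_mod_cast hs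
    calc _ ≤ ENNReal.ofReal (Real.exp (2 + √2 * (M + 2 * √2)) * 2 ^ s) *
          ENNReal.ofReal (C * ((1 + (M + 2 * √2)) / (s * √s)) / (k + 1)) := by
          gcongr
      _ = _ := by
        rw [← ENNReal.ofReal_mul (by positivity)]
        congr 1
        rw [hC']
        field_simp
  calc ∫⁻ a, (nc M s x a * pu M s k x a) * (nc M s y a * pu M s k y a) ∂μ
      ≤ ∫⁻ a, (nc M s x a * pu M s k x a ^ 2 * wt s y a +
          nc M s y a * pu M s k y a ^ 2 * wt s x a) ∂μ := by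
        refine lintegral_mono fun a => ?_
        have h1 := ennreal_mul_le_sq_add_sq (pu M s k x a) (pu M s k y a)
        have h2 := nc_le_wt M s x a
        have h3 := nc_le_wt M s y a
        calc (nc M s x a * pu M s k x a) * (nc M s y a * pu M s k y a)
            = nc M s x a * nc M s y a * (pu M s k x a * pu M s k y a) := by ring
          _ ≤ nc M s x a * nc M s y a * (pu M s k x a ^ 2 + pu M s k y a ^ 2) := by gcongr
          _ = nc M s x a * pu M s k x a ^ 2 * nc M s y a +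
              nc M s y a * pu M s k y a ^ 2 * nc M s x a := by ring
          _ ≤ _ := by gcongr
    _ = (∫⁻ a, nc M s x a * pu M s k x a ^ 2 * wt s y a ∂μ) +
          ∫⁻ a, nc M s y a * pu M s k y a ^ 2 * wt s x a ∂μ := by
        rw [lintegral_add_left]
        exact ((measurable_nc _ _ _).mul ((measurable_pu _ _ _ _).pow_const 2)).mul
          (measurable_wt _ _)
    _ ≤ ENNReal.ofReal (C' * 2 ^ s / (s * √s * (k + 1))) +
        ENNReal.ofReal (C' * 2 ^ s / (s * √s * (k + 1))) :=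
        add_le_add (key x y hxy) (key y x (by rwa [abs_sub_comm]))
    _ = _ := by
        rw [← ENNReal.ofReal_add (by positivity) (by positivity)]
        congr 1
        ring

end Cone

end Pool.Agent.helper95.GMC
end

/-! ### merged from `Pool.Agent.helper9.GMC.Mass3` -/

section
/-!
Critical mass: the integrated quantities.
-/

open MeasureTheory ProbabilityTheory Filter Topology Set
open scoped ENNReal NNReal

namespace Pool.Agent.helper95.GMC

/-- Lebesgue measure on `[0,1]` -/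
noncomputable abbrev nuI : Measure ℝ := volume.restrict (Icc (0 : ℝ) 1)

instance : IsProbabilityMeasure nuI := by
  constructor
  simp

lemma measurable_SY' (s k : ℕ) : Measurable (fun q : ℝ × Path => SY s k q.1 q.2) := by
  unfold SY
  exact Finset.measurable_sum _ fun j _ => measurable_Y _

lemma measurableSet_BY' (M : ℝ) (k : ℕ) : MeasurableSet (BY M k) := by
  have : BY M k = ⋂ i : ℕ, ⋂ _ : 1 ≤ i, ⋂ _ : i ≤ k,
      {q : ℝ × Path | 0 ≤ M + √2 * (i * Real.log 2) - SY 0 i q.1 q.2} := by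
    ext q
    simp [BY]
  rw [this]
  exact MeasurableSet.iInter fun i => MeasurableSet.iInter fun _ => MeasurableSet.iInter fun _ =>
    measurableSet_le measurable_const (measurable_const.sub (measurable_SY' 0 i))

lemma measurable_nn' (M : ℝ) (k : ℕ) : Measurable (fun q : ℝ × Path => nn M k q.1 q.2) := by
  have h1 : (fun q : ℝ × Path => nn M k q.1 q.2) =
      (BY M k).indicator (fun q => Real.exp (√2 * (Y 0 q.1 q.2 + SY 0 k q.1 q.2) -
        (1 + k * Real.log 2))) := by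
    funext q
    rfl
  rw [h1]
  refine Measurable.indicator ?_ (measurableSet_BY' M k)
  have h2 := measurable_SY' 0 k
  have h3 := measurable_Y 0
  fun_prop

lemma nn_nonneg' (M : ℝ) (k : ℕ) (x : ℝ) (z : Path) : 0 ≤ nn M k x z := by
  unfold nn
  exact Set.indicator_nonneg (fun _ _ => (Real.exp_pos _).le) _

/-- height, jointly measurable version -/
noncomputable def uY (M : ℝ) (k : ℕ) (x : ℝ) (z : Path) : ℝ :=
  M + √2 * (k * Real.log 2) - SY 0 k x z

lemma measurable_uY (M : ℝ) (k : ℕ) : Measurable (fun q : ℝ × Path => uY M k q.1 q.2) :=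
  measurable_const.sub (measurable_SY' 0 k)

/-- mass in `ℝ≥0∞` -/
noncomputable def Am (M : ℝ) (l : ℕ) (z : Path) : ℝ≥0∞ := ∫⁻ x, ENNReal.ofReal (nn M l x z) ∂nuI

/-- conditional mass in `ℝ≥0∞` -/
noncomputable def Bm (M : ℝ) (s k : ℕ) (z : Path) : ℝ≥0∞ :=
  ∫⁻ x, ENNReal.ofReal (nn M s x z) * pk k (uY M s x z) ∂nuI

lemma measurable_ofReal_nn (M : ℝ) (k : ℕ) :
    Measurable (fun q : ℝ × Path => ENNReal.ofReal (nn M k q.1 q.2)) :=
  ENNReal.measurable_ofReal.comp (measurable_nn' M k)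

lemma measurable_bd (M : ℝ) (s k : ℕ) :
    Measurable (fun q : ℝ × Path => ENNReal.ofReal (nn M s q.1 q.2) * pk k (uY M s q.1 q.2)) :=
  (measurable_ofReal_nn M s).mul ((pk_meas k).comp (measurable_uY M s))

lemma measurable_Am (M : ℝ) (l : ℕ) : Measurable (Am M l) := by
  unfold Am
  exact Measurable.lintegral_prod_left' (f := fun q : ℝ × Path => ENNReal.ofReal (nn M l q.1 q.2))
    (measurable_ofReal_nn M l)

lemma measurable_Bm (M : ℝ) (s k : ℕ) : Measurable (Bm M s k) := by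
  unfold Bm
  exact Measurable.lintegral_prod_left' (f := fun q : ℝ × Path =>
    ENNReal.ofReal (nn M s q.1 q.2) * pk k (uY M s q.1 q.2)) (measurable_bd M s k)

lemma NN_eq (M : ℝ) (l : ℕ) (z : Path) : NN M l z = (Am M l z).toReal := by
  unfold NN Am
  rw [intervalIntegral.integral_of_le zero_le_one, ← integral_Icc_eq_integral_Ioc,
    integral_eq_lintegral_of_nonneg_ae (ae_of_all _ fun x => nn_nonneg' M l x z)]
  exact ((measurable_nn' M l).comp (by fun_prop : Measurable fun x : ℝ => (x, z))).aestronglyMeasurable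

/-- Fubini for products -/
lemma lintegral_prod_swap {μ : Measure Path} [SFinite μ] {F G : ℝ × Path → ℝ≥0∞}
    (hF : Measurable F) (hG : Measurable G) :
    ∫⁻ z, (∫⁻ x, F (x, z) ∂nuI) * (∫⁻ y, G (y, z) ∂nuI) ∂μ =
      ∫⁻ x, ∫⁻ y, (∫⁻ z, F (x, z) * G (y, z) ∂μ) ∂nuI ∂nuI := by
  have hG' : Measurable (fun z => ∫⁻ y, G (y, z) ∂nuI) := Measurable.lintegral_prod_left' hG
  have e1 : ∀ z, (∫⁻ x, F (x, z) ∂nuI) * (∫⁻ y, G (y, z) ∂nuI) =
      ∫⁻ x, F (x, z) * (∫⁻ y, G (y, z) ∂nuI) ∂nuI := by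
    intro z
    rw [lintegral_mul_const]
    exact hF.comp (by fun_prop)
  simp_rw [e1]
  rw [lintegral_lintegral_swap]
  · refine lintegral_congr fun x => ?_
    have e2 : ∀ z, F (x, z) * (∫⁻ y, G (y, z) ∂nuI) = ∫⁻ y, F (x, z) * G (y, z) ∂nuI := by
      intro z
      rw [lintegral_const_mul]
      exact hG.comp (by fun_prop)
    simp_rw [e2]
    rw [lintegral_lintegral_swap]
    have h1 : Measurable (fun q : Path × ℝ => F (x, q.1) * G (q.2, q.1)) :=
      (hF.comp (by fun_prop : Measurable fun q : Path × ℝ => (x, q.1))).mul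
        (hG.comp (by fun_prop : Measurable fun q : Path × ℝ => (q.2, q.1)))
    exact h1.aemeasurable
  · have h1 : Measurable (fun q : Path × ℝ => F (q.2, q.1) * (∫⁻ y, G (y, q.1) ∂nuI)) :=
      (hF.comp (by fun_prop : Measurable fun q : Path × ℝ => (q.2, q.1))).mul
        (hG'.comp measurable_fst)
    exact h1.aemeasurable

namespace Cone

variable {μ : Measure Path}

lemma SY_ae_eq (h : Cone μ) (s k : ℕ) (x : ℝ) : ∀ᵐ z ∂μ, SY s k x z = So s k x z := by
  have h1 : ∀ᵐ z ∂μ, ∀ j : ℕ, Y j x z = z (j, x) := by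
    rw [ae_all_iff]
    intro j
    exact h.Y_ae_eq j x
  filter_upwards [h1] with z hz
  unfold SY So
  exact Finset.sum_congr rfl fun j _ => hz _

lemma nn_ae_eq (h : Cone μ) (M : ℝ) (l : ℕ) (x : ℝ) :
    ∀ᵐ z ∂μ, ENNReal.ofReal (nn M l x z) = nc M l x z := by
  have h1 : ∀ᵐ z ∂μ, ∀ k : ℕ, SY 0 k x z = So 0 k x z := by
    rw [ae_all_iff]
    intro k
    exact h.SY_ae_eq 0 k x
  filter_upwards [h1, h.Y_ae_eq 0 x] with z hz h0
  unfold nn nc
  have h2 : (x, z) ∈ BY M l ↔ z ∈ Bar √2 0 M l x := by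
    unfold BY Bar hgt
    simp only [Set.mem_ofPred_eq, hz]
  by_cases hm : z ∈ Bar √2 0 M l x
  · rw [Set.indicator_of_mem hm, Set.indicator_of_mem (h2.2 hm)]
    unfold wt
    simp only [h0, hz]
  · rw [Set.indicator_of_notMem hm, Set.indicator_of_notMem (fun h' => hm (h2.1 h')),
      ENNReal.ofReal_zero]

lemma pu_ae_eq (h : Cone μ) (M : ℝ) (s k : ℕ) (x : ℝ) :
    ∀ᵐ z ∂μ, pk k (uY M s x z) = pu M s k x z := by
  filter_upwards [h.SY_ae_eq 0 s x] with z hz
  unfold uY pu hgt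
  rw [hz]

/-- two-point function of the mass -/
noncomputable def Gf (μ : Measure Path) (M : ℝ) (l : ℕ) (x y : ℝ) : ℝ≥0∞ :=
  ∫⁻ z, nc M l x z * nc M l y z ∂μ

/-- two-point function of the conditional mass -/
noncomputable def Hf (μ : Measure Path) (M : ℝ) (s k : ℕ) (x y : ℝ) : ℝ≥0∞ :=
  ∫⁻ a, (nc M s x a * pu M s k x a) * (nc M s y a * pu M s k y a) ∂μ

lemma sq_Am (h : Cone μ) (M : ℝ) (l : ℕ) :
    ∫⁻ z, Am M l z * Am M l z ∂μ = ∫⁻ x, ∫⁻ y, Gf μ M l x y ∂nuI ∂nuI := by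
  have := h.isProb
  unfold Am
  rw [lintegral_prod_swap (F := fun q : ℝ × Path => ENNReal.ofReal (nn M l q.1 q.2))
    (G := fun q : ℝ × Path => ENNReal.ofReal (nn M l q.1 q.2)) (measurable_ofReal_nn M l)
    (measurable_ofReal_nn M l)]
  refine lintegral_congr fun x => lintegral_congr fun y => ?_
  unfold Gf
  refine lintegral_congr_ae ?_
  filter_upwards [h.nn_ae_eq M l x, h.nn_ae_eq M l y] with z h1 h2
  rw [h1, h2]

lemma sq_Bm (h : Cone μ) (M : ℝ) (s k : ℕ) :
    ∫⁻ z, Bm M s k z * Bm M s k z ∂μ = ∫⁻ x, ∫⁻ y, Hf μ M s k x y ∂nuI ∂nuI := by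
  have := h.isProb
  unfold Bm
  rw [lintegral_prod_swap
    (F := fun q : ℝ × Path => ENNReal.ofReal (nn M s q.1 q.2) * pk k (uY M s q.1 q.2))
    (G := fun q : ℝ × Path => ENNReal.ofReal (nn M s q.1 q.2) * pk k (uY M s q.1 q.2))
    (measurable_bd M s k) (measurable_bd M s k)]
  refine lintegral_congr fun x => lintegral_congr fun y => ?_
  unfold Hf
  refine lintegral_congr_ae ?_
  filter_upwards [h.nn_ae_eq M s x, h.nn_ae_eq M s y, h.pu_ae_eq M s k x, h.pu_ae_eq M s k y]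
    with z h1 h2 h3 h4
  rw [h1, h2, h3, h4]

lemma mul_Am_Bm (h : Cone μ) (M : ℝ) (s k : ℕ) :
    ∫⁻ z, Am M (s + k) z * Bm M s k z ∂μ = ∫⁻ z, Bm M s k z * Bm M s k z ∂μ := by
  have := h.isProb
  rw [h.sq_Bm]
  unfold Am Bm
  rw [lintegral_prod_swap
    (F := fun q : ℝ × Path => ENNReal.ofReal (nn M (s + k) q.1 q.2))
    (G := fun q : ℝ × Path => ENNReal.ofReal (nn M s q.1 q.2) * pk k (uY M s q.1 q.2))
    (measurable_ofReal_nn M (s + k)) (measurable_bd M s k)]
  refine lintegral_congr fun x => lintegral_congr fun y => ?_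
  unfold Hf
  rw [← h.cross M s k x y]
  refine lintegral_congr_ae ?_
  filter_upwards [h.nn_ae_eq M (s + k) x, h.nn_ae_eq M s y, h.pu_ae_eq M s k y]
    with z h1 h2 h4
  rw [h1, h2, h4]

lemma Gf_eq_Hf_self (M : ℝ) (s : ℕ) (x y : ℝ) : Gf μ M s x y = Hf μ M s 0 x y := by
  unfold Gf Hf pu
  simp [pk_zero]

lemma Gf_eq_Hf (h : Cone μ) (M : ℝ) (s k : ℕ) (x y : ℝ) (hxy : (2 ^ s)⁻¹ ≤ |x - y|) :
    Gf μ M (s + k) x y = Hf μ M s k x y := h.far M s k x y hxy

end Cone

lemma exists_scale {k l : ℕ} (hkl : k < l) {r : ℝ} (hr : r ≤ 2 * (2 ^ (k + 1))⁻¹) :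
    ∃ s ∈ Finset.Ioc k l, r ≤ 2 * (2 ^ s)⁻¹ ∧ (s = l ∨ (2 ^ s)⁻¹ ≤ r) := by
  obtain ⟨m, rfl⟩ := Nat.exists_eq_add_of_lt hkl
  induction m generalizing k with
  | zero =>
    refine ⟨k + 1, ?_, hr, Or.inl (by omega)⟩
    rw [Finset.mem_Ioc]; omega
  | succ m ih =>
    rcases le_or_gt ((2 ^ (k + 1) : ℝ)⁻¹) r with h1 | h1
    · refine ⟨k + 1, ?_, hr, Or.inr h1⟩
      rw [Finset.mem_Ioc]; omega
    · have h2 : r ≤ 2 * (2 ^ (k + 1 + 1) : ℝ)⁻¹ := by
        have : 2 * (2 ^ (k + 1 + 1) : ℝ)⁻¹ = (2 ^ (k + 1))⁻¹ := by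
          rw [pow_succ _ (k + 1), mul_inv]
          ring
        rw [this]; exact h1.le
      obtain ⟨s, hs, h3, h4⟩ := ih (k := k + 1) h2 (by omega)
      refine ⟨s, ?_, h3, ?_⟩
      · rw [Finset.mem_Ioc] at hs ⊢; omega
      · rcases h4 with h4 | h4
        · left; omega
        · right; exact h4

/-- indicator of a neighbourhood of the diagonal, times a constant -/
noncomputable def nearI (r : ℝ) (c : ℝ≥0∞) (x y : ℝ) : ℝ≥0∞ :=
  {q : ℝ × ℝ | |q.1 - q.2| ≤ r}.indicator (fun _ => c) (x, y)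

lemma nearI_of_le {r : ℝ} (c : ℝ≥0∞) {x y : ℝ} (h : |x - y| ≤ r) : nearI r c x y = c := by
  unfold nearI
  rw [Set.indicator_of_mem]
  exact h

lemma nearI_of_not {r : ℝ} (c : ℝ≥0∞) {x y : ℝ} (h : ¬ |x - y| ≤ r) : nearI r c x y = 0 := by
  unfold nearI
  rw [Set.indicator_of_notMem]
  exact h

lemma measurable_nearI (r : ℝ) (c : ℝ≥0∞) : Measurable (fun q : ℝ × ℝ => nearI r c q.1 q.2) := by
  unfold nearI
  have h1 : MeasurableSet {q : ℝ × ℝ | |q.1 - q.2| ≤ r} :=
    measurableSet_le (by fun_prop) measurable_const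
  exact measurable_const.indicator h1

lemma near_area (r : ℝ) (c : ℝ≥0∞) :
    ∫⁻ x, ∫⁻ y, nearI r c x y ∂nuI ∂nuI ≤ c * ENNReal.ofReal (2 * r) := by
  have h1 : ∀ x : ℝ, ∫⁻ y, nearI r c x y ∂nuI ≤ c * ENNReal.ofReal (2 * r) := by
    intro x
    have hset : {y : ℝ | |x - y| ≤ r} = Metric.closedBall x r := by
      ext y
      rw [Metric.mem_closedBall, Real.dist_eq, abs_sub_comm]
      rfl
    have hms : MeasurableSet {y : ℝ | |x - y| ≤ r} := by rw [hset]; exact measurableSet_closedBall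
    have e : ∀ y, nearI r c x y = {y : ℝ | |x - y| ≤ r}.indicator (fun _ => c) y := by
      intro y
      by_cases hy : |x - y| ≤ r
      · rw [nearI_of_le c hy, Set.indicator_of_mem (show y ∈ {y : ℝ | |x - y| ≤ r} from hy)]
      · rw [nearI_of_not c hy, Set.indicator_of_notMem (show y ∉ {y : ℝ | |x - y| ≤ r} from hy)]
    rw [lintegral_congr e, lintegral_indicator_const hms]
    gcongr
    calc nuI {y : ℝ | |x - y| ≤ r} ≤ volume {y : ℝ | |x - y| ≤ r} := Measure.restrict_apply_le _ _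
      _ = ENNReal.ofReal (2 * r) := by rw [hset, Real.volume_closedBall]
  calc ∫⁻ x, ∫⁻ y, nearI r c x y ∂nuI ∂nuI ≤
      ∫⁻ _x, c * ENNReal.ofReal (2 * r) ∂nuI := lintegral_mono h1
    _ = _ := by simp

end Pool.Agent.helper95.GMC
end

/-! ### merged from `Pool.Agent.helper9.GMC.Mass4` -/

section
/-!
Critical mass: second moments.
-/

open MeasureTheory ProbabilityTheory Filter Topology Set
open scoped ENNReal NNReal

namespace Pool.Agent.helper95.GMC

/-- the pointwise majorant near the diagonal -/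
noncomputable def maj (C : ℝ) (k l : ℕ) (x y : ℝ) : ℝ≥0∞ :=
  ∑ s ∈ Finset.Ioc k l, nearI (2 * (2 ^ s)⁻¹)
    (ENNReal.ofReal (C * 2 ^ s / (s * √s * ((l : ℝ) - s + 1)))) x y

lemma measurable_maj (C : ℝ) (k l : ℕ) : Measurable (fun q : ℝ × ℝ => maj C k l q.1 q.2) := by
  unfold maj
  exact Finset.measurable_sum _ fun s _ => measurable_nearI _ _

lemma lintegral_maj_le {C : ℝ} (hC : 0 ≤ C) (k l : ℕ) :
    ∫⁻ x, ∫⁻ y, maj C k l x y ∂nuI ∂nuI ≤ ENNReal.ofReal (4 * C *
      ∑ s ∈ Finset.Ioc k l, 1 / ((s : ℝ) * √s * ((l : ℝ) - s + 1))) := by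
  have hm : ∀ (r : ℝ) (c : ℝ≥0∞) (x : ℝ), Measurable (fun y : ℝ => nearI r c x y) := fun r c x =>
    (measurable_nearI r c).comp (by fun_prop : Measurable fun y : ℝ => (x, y))
  have hm2 : ∀ (r : ℝ) (c : ℝ≥0∞), Measurable (fun x : ℝ => ∫⁻ y, nearI r c x y ∂nuI) := fun r c =>
    (measurable_nearI r c).lintegral_prod_right'
  unfold maj
  have e1 : ∀ x, ∫⁻ y, ∑ s ∈ Finset.Ioc k l, nearI (2 * (2 ^ s)⁻¹)
      (ENNReal.ofReal (C * 2 ^ s / (s * √s * ((l : ℝ) - s + 1)))) x y ∂nuI =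
      ∑ s ∈ Finset.Ioc k l, ∫⁻ y, nearI (2 * (2 ^ s)⁻¹)
      (ENNReal.ofReal (C * 2 ^ s / (s * √s * ((l : ℝ) - s + 1)))) x y ∂nuI := fun x =>
    lintegral_finsetSum _ fun s _ => hm _ _ x
  simp_rw [e1]
  rw [lintegral_finsetSum _ fun s _ => hm2 _ _]
  have hterm : ∀ s ∈ Finset.Ioc k l, ∫⁻ x, ∫⁻ y, nearI (2 * (2 ^ s)⁻¹)
      (ENNReal.ofReal (C * 2 ^ s / (s * √s * ((l : ℝ) - s + 1)))) x y ∂nuI ∂nuI ≤
      ENNReal.ofReal (4 * C * (1 / ((s : ℝ) * √s * ((l : ℝ) - s + 1)))) := by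
    intro s hs
    rw [Finset.mem_Ioc] at hs
    have h1 : (1 : ℝ) ≤ s := by exact_mod_cast (by omega : 1 ≤ s)
    have h2 : (s : ℝ) ≤ l := by exact_mod_cast hs.2
    have h3 : (0 : ℝ) < (l : ℝ) - s + 1 := by linarith
    refine (near_area _ _).trans (le_of_eq ?_)
    rw [← ENNReal.ofReal_mul (by positivity)]
    congr 1
    field_simp
    ring
  refine (Finset.sum_le_sum hterm).trans (le_of_eq ?_)
  rw [← ENNReal.ofReal_sum_of_nonneg, ← Finset.mul_sum]
  intro s hs
  rw [Finset.mem_Ioc] at hs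
  have h2 : (s : ℝ) ≤ l := by exact_mod_cast hs.2
  have h3 : (0 : ℝ) < (l : ℝ) - s + 1 := by linarith
  positivity

namespace Cone

variable {μ : Measure Path}

/-- the constant of `near_bound` -/
def NB (μ : Measure Path) (M C : ℝ) : Prop := ∀ (s k : ℕ) (x y : ℝ),
    1 ≤ s → |x - y| ≤ 2 * (2 ^ s)⁻¹ →
    Hf μ M s k x y ≤ ENNReal.ofReal (C * 2 ^ s / (s * √s * (k + 1)))

lemma exists_NB (h : Cone μ) {M : ℝ} (hM : 0 ≤ M) : ∃ C : ℝ, 0 ≤ C ∧ NB μ M C := by
  obtain ⟨C, hC, hCb⟩ := h.near_bound hM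
  exact ⟨C, hC, hCb⟩

lemma Gf_le_maj (h : Cone μ) {M C : ℝ} (hC : NB μ M C) {k l : ℕ} (hkl : k < l) {x y : ℝ}
    (hxy : |x - y| ≤ 2 * (2 ^ (k + 1))⁻¹) : Gf μ M l x y ≤ maj C k l x y := by
  obtain ⟨s, hs, h1, h2⟩ := exists_scale hkl hxy
  have hs' := Finset.mem_Ioc.1 hs
  have h3 : Gf μ M l x y = Hf μ M s (l - s) x y := by
    rcases h2 with h2 | h2
    · subst h2
      rw [Nat.sub_self]
      exact Gf_eq_Hf_self M s x y
    · have := h.Gf_eq_Hf M s (l - s) x y h2
      rwa [Nat.add_sub_cancel' hs'.2] at this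
  rw [h3]
  have h4 := hC s (l - s) x y (by omega) h1
  rw [Nat.cast_sub hs'.2] at h4
  refine h4.trans ?_
  unfold maj
  refine le_trans ?_ (Finset.single_le_sum (f := fun s : ℕ => nearI (2 * (2 ^ s)⁻¹)
    (ENNReal.ofReal (C * 2 ^ s / ((s : ℝ) * √(s : ℝ) * ((l : ℝ) - s + 1)))) x y)
    (fun _ _ => zero_le) hs)
  rw [nearI_of_le _ h1]

lemma Gf_le (h : Cone μ) {M C : ℝ} (hC : NB μ M C) (k j : ℕ) (x y : ℝ) :
    Gf μ M (k + j) x y ≤ maj C k (k + j) x y + Hf μ M k j x y := by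
  rcases le_or_gt ((2 ^ k : ℝ)⁻¹) |x - y| with h1 | h1
  · rw [h.Gf_eq_Hf M k j x y h1]
    exact le_add_self
  · rcases Nat.eq_zero_or_pos j with hj | hj
    · subst hj
      rw [add_zero, Gf_eq_Hf_self]
      exact le_add_self
    · refine le_trans (h.Gf_le_maj hC (by omega) ?_) le_self_add
      have : 2 * (2 ^ (k + 1) : ℝ)⁻¹ = (2 ^ k)⁻¹ := by
        rw [pow_succ, mul_inv]
        ring
      rw [this]; exact h1.le

lemma measurable_Hf (h : Cone μ) (M : ℝ) (s k : ℕ) :
    AEMeasurable (fun q : ℝ × ℝ => Hf μ M s k q.1 q.2) (nuI.prod nuI) := by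
  have := h.isProb
  have h1 : Measurable (fun q : ℝ × ℝ => ∫⁻ z, (ENNReal.ofReal (nn M s q.1 z) * pk k (uY M s q.1 z)) *
      (ENNReal.ofReal (nn M s q.2 z) * pk k (uY M s q.2 z)) ∂μ) := by
    have hb := measurable_bd M s k
    have m1 : Measurable (fun p : (ℝ × ℝ) × Path => ((p.1.1, p.2) : ℝ × Path)) := by fun_prop
    have m2 : Measurable (fun p : (ℝ × ℝ) × Path => ((p.1.2, p.2) : ℝ × Path)) := by fun_prop
    have n1 := hb.comp m1
    have n2 := hb.comp m2
    simp only [Function.comp_def] at n1 n2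
    exact (n1.mul n2).lintegral_prod_right'
  have h2 : (fun q : ℝ × ℝ => Hf μ M s k q.1 q.2) = (fun q : ℝ × ℝ =>
      ∫⁻ z, (ENNReal.ofReal (nn M s q.1 z) * pk k (uY M s q.1 z)) *
      (ENNReal.ofReal (nn M s q.2 z) * pk k (uY M s q.2 z)) ∂μ) := by
    funext q
    unfold Hf
    refine lintegral_congr_ae ?_
    filter_upwards [h.nn_ae_eq M s q.1, h.nn_ae_eq M s q.2, h.pu_ae_eq M s k q.1,
      h.pu_ae_eq M s k q.2] with z h1 h2 h3 h4
    rw [h1, h2, h3, h4]
  rw [h2]
  exact h1.aemeasurable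

/-- second moment of the mass versus that of the conditional mass -/
lemma sq_Am_le (h : Cone μ) {M C : ℝ} (hC0 : 0 ≤ C) (hC : NB μ M C) (k j : ℕ) :
    ∫⁻ z, Am M (k + j) z * Am M (k + j) z ∂μ ≤
      ENNReal.ofReal (4 * C * ∑ s ∈ Finset.Ioc k (k + j),
        1 / ((s : ℝ) * √s * (((k + j : ℕ) : ℝ) - s + 1))) +
      ∫⁻ z, Bm M k j z * Bm M k j z ∂μ := by
  rw [h.sq_Am, h.sq_Bm]
  have hmaj := measurable_maj C k (k + j)
  calc ∫⁻ x, ∫⁻ y, Gf μ M (k + j) x y ∂nuI ∂nuI
      ≤ ∫⁻ x, ∫⁻ y, (maj C k (k + j) x y + Hf μ M k j x y) ∂nuI ∂nuI :=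
        lintegral_mono fun x => lintegral_mono fun y => h.Gf_le hC k j x y
    _ = ∫⁻ x, ((∫⁻ y, maj C k (k + j) x y ∂nuI) + ∫⁻ y, Hf μ M k j x y ∂nuI) ∂nuI := by
        refine lintegral_congr fun x => ?_
        rw [lintegral_add_left]
        exact hmaj.comp (by fun_prop : Measurable fun y : ℝ => (x, y))
    _ = (∫⁻ x, ∫⁻ y, maj C k (k + j) x y ∂nuI ∂nuI) + ∫⁻ x, ∫⁻ y, Hf μ M k j x y ∂nuI ∂nuI := by
        rw [lintegral_add_left]
        exact hmaj.lintegral_prod_right'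
    _ ≤ _ := by
        gcongr
        exact lintegral_maj_le hC0 k (k + j)

lemma sq_Am_le' (h : Cone μ) {M C : ℝ} (hC0 : 0 ≤ C) (hC : NB μ M C) {l : ℕ} (hl : 1 ≤ l) :
    ∫⁻ z, Am M l z * Am M l z ∂μ ≤
      ENNReal.ofReal (4 * C * ∑ s ∈ Finset.Ioc 0 l, 1 / ((s : ℝ) * √s * ((l : ℝ) - s + 1))) := by
  rw [h.sq_Am]
  refine le_trans ?_ (lintegral_maj_le hC0 0 l)
  refine setLIntegral_mono' measurableSet_Icc fun x hx => setLIntegral_mono' measurableSet_Icc
    fun y hy => ?_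
  refine h.Gf_le_maj hC (by omega) ?_
  rw [zero_add, pow_one, mul_inv_cancel₀ (by norm_num)]
  rw [abs_le]
  constructor <;> linarith [hx.1, hx.2, hy.1, hy.2]

end Cone

end Pool.Agent.helper95.GMC
end

/-! ### merged from `Pool.Agent.helper9.GMC.Mass5` -/

section
/-!
Critical mass: mean, integrability, monotonicity, second moment bound.
-/

open MeasureTheory ProbabilityTheory Filter Topology Set
open scoped ENNReal NNReal

namespace Pool.Agent.helper95.GMC

namespace Cone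

variable {μ : Measure Path}

lemma lintegral_wt_zero (h : Cone μ) (x : ℝ) : ∫⁻ z, wt 0 x z ∂μ = 1 := by
  have := h.isProb
  have h2 : √2 ^ 2 = (2 : ℝ) := Real.sq_sqrt (by norm_num)
  have hV : twoV {0} √2 0 x x = 2 := by
    unfold twoV
    simp [kap_zero, K_zero, h2]
  have h1 := h.tilt_two {0} √2 0 x x (by rw [hV]; norm_num) (F := fun _ => 1) measurable_const
  simp only [mul_one, lintegral_const, measure_univ] at h1
  rw [← h1]
  refine lintegral_congr fun z => ?_
  unfold wt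
  rw [hV]
  congr 2
  simp [two, So_zero]

lemma lintegral_nc (h : Cone μ) (M : ℝ) (l : ℕ) (x : ℝ) : ∫⁻ z, nc M l x z ∂μ = pk l M := by
  rw [h.lintegral_glue 0 (measurable_nc M l x)]
  have e : ∀ a b, nc M l x (glue 0 a b) = nc M 0 x a * nh 0 l M x b := by
    intro a b
    have := nc_glue M 0 l x a b
    rw [zero_add, hgt_zero] at this
    exact this
  simp_rw [e]
  have e2 : ∀ a, ∫⁻ b, nc M 0 x a * nh 0 l M x b ∂μ = nc M 0 x a * pk l M := by
    intro a
    rw [lintegral_const_mul _ (measurable_nh _ _ _ _), h.lintegral_nh]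
  simp_rw [e2]
  rw [lintegral_mul_const _ (measurable_nc _ _ _)]
  have e3 : ∀ a, nc M 0 x a = wt 0 x a := by
    intro a
    unfold nc
    rw [Bar_zero, Set.indicator_univ]
  simp_rw [e3]
  rw [h.lintegral_wt_zero, one_mul]

lemma lintegral_Am (h : Cone μ) (M : ℝ) (l : ℕ) : ∫⁻ z, Am M l z ∂μ = pk l M := by
  have := h.isProb
  unfold Am
  rw [lintegral_lintegral_swap]
  · have e : ∀ x, ∫⁻ z, ENNReal.ofReal (nn M l x z) ∂μ = pk l M := by
      intro x
      rw [← h.lintegral_nc M l x]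
      exact lintegral_congr_ae (h.nn_ae_eq M l x)
    simp_rw [e]
    simp
  · have h0 := measurable_ofReal_nn M l
    have h2 : Measurable (fun q : Path × ℝ => ((q.2, q.1) : ℝ × Path)) :=
      measurable_snd.prodMk measurable_fst
    have h1 := h0.comp h2
    simp only [Function.comp_def] at h1
    exact h1.aemeasurable

lemma lintegral_Am_ne_top (h : Cone μ) (M : ℝ) (l : ℕ) : ∫⁻ z, Am M l z ∂μ ≠ ∞ := by
  rw [h.lintegral_Am]
  exact ne_top_of_le_ne_top ENNReal.one_ne_top (pk_le_one l M)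

lemma Am_ae_lt_top (h : Cone μ) (M : ℝ) (l : ℕ) : ∀ᵐ z ∂μ, Am M l z < ∞ :=
  ae_lt_top (measurable_Am M l) (h.lintegral_Am_ne_top M l)

theorem mass_integrable (h : Cone μ) {M : ℝ} (_hM : 0 ≤ M) (l : ℕ) :
    Integrable (NN M l) μ := by
  have h1 : NN M l = fun z => (Am M l z).toReal := funext fun z => NN_eq M l z
  rw [h1]
  exact integrable_toReal_of_lintegral_ne_top (measurable_Am M l).aemeasurable
    (h.lintegral_Am_ne_top M l)

theorem mass_mean (h : Cone μ) {M : ℝ} (_hM : 0 ≤ M) (l : ℕ) :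
    ∫ z, NN M l z ∂μ = (pk l M).toReal := by
  have h1 : NN M l = fun z => (Am M l z).toReal := funext fun z => NN_eq M l z
  rw [h1, integral_toReal (measurable_Am M l).aemeasurable (h.Am_ae_lt_top M l), h.lintegral_Am]

theorem mass_mono (h : Cone μ) {M M' : ℝ} (hM : M ≤ M') (l : ℕ) :
    ∀ᵐ z ∂μ, NN M l z ≤ NN M' l z := by
  filter_upwards [h.Am_ae_lt_top M' l] with z hz
  rw [NN_eq, NN_eq]
  refine ENNReal.toReal_mono hz.ne ?_
  unfold Am
  refine lintegral_mono fun x => ENNReal.ofReal_le_ofReal ?_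
  unfold nn
  refine Set.indicator_le_indicator_of_subset ?_ (fun _ => (Real.exp_pos _).le) _
  intro q hq i h1 h2
  have := hq i h1 h2
  linarith

lemma ofReal_toReal_sq_le (a : ℝ≥0∞) : ENNReal.ofReal (a.toReal ^ 2) ≤ a * a := by
  rw [ENNReal.ofReal_pow ENNReal.toReal_nonneg, sq]
  exact mul_le_mul' ENNReal.ofReal_toReal_le ENNReal.ofReal_toReal_le

theorem mass_sq_bdd (h : Cone μ) {M : ℝ} (hM : 0 ≤ M) :
    ∃ C : ℝ, ∀ l : ℕ, ∫⁻ z, ENNReal.ofReal ((√l * NN M l z) ^ 2) ∂μ ≤ ENNReal.ofReal C := by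
  obtain ⟨C, hC0, hC⟩ := h.exists_NB hM
  obtain ⟨D, hD0, hD⟩ := main_sum_bdd
  refine ⟨4 * C * D, fun l => ?_⟩
  rcases Nat.eq_zero_or_pos l with hl | hl
  · subst hl
    simp
  · have h1 : ∀ z, ENNReal.ofReal ((√l * NN M l z) ^ 2) ≤ ENNReal.ofReal l * (Am M l z * Am M l z) := by
      intro z
      rw [mul_pow, Real.sq_sqrt (Nat.cast_nonneg l), ENNReal.ofReal_mul (Nat.cast_nonneg l), NN_eq]
      gcongr
      exact ofReal_toReal_sq_le _
    calc ∫⁻ z, ENNReal.ofReal ((√l * NN M l z) ^ 2) ∂μ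
        ≤ ∫⁻ z, ENNReal.ofReal l * (Am M l z * Am M l z) ∂μ := lintegral_mono h1
      _ = ENNReal.ofReal l * ∫⁻ z, Am M l z * Am M l z ∂μ :=
          lintegral_const_mul' _ _ ENNReal.ofReal_ne_top
      _ ≤ ENNReal.ofReal l * ENNReal.ofReal (4 * C *
          ∑ s ∈ Finset.Ioc 0 l, 1 / ((s : ℝ) * √s * ((l : ℝ) - s + 1))) := by
          gcongr
          exact h.sq_Am_le' hC0 hC hl
      _ ≤ ENNReal.ofReal (4 * C * D) := by
          rw [← ENNReal.ofReal_mul (Nat.cast_nonneg l)]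
          refine ENNReal.ofReal_le_ofReal ?_
          have := hD 0 l (Nat.zero_le l)
          calc (l : ℝ) * (4 * C * ∑ s ∈ Finset.Ioc 0 l, 1 / ((s : ℝ) * √s * ((l : ℝ) - s + 1)))
              = 4 * C * (l * ∑ s ∈ Finset.Ioc 0 l, 1 / ((s : ℝ) * √s * ((l : ℝ) - s + 1))) := by
                ring
            _ ≤ 4 * C * D := by gcongr

lemma sq_Am_ne_top (h : Cone μ) {M : ℝ} (hM : 0 ≤ M) {l : ℕ} (hl : 1 ≤ l) :
    ∫⁻ z, Am M l z * Am M l z ∂μ ≠ ∞ := by
  obtain ⟨C, hC0, hC⟩ := h.exists_NB hM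
  exact ne_top_of_le_ne_top ENNReal.ofReal_ne_top (h.sq_Am_le' hC0 hC hl)

lemma Bm_le_Am (M : ℝ) (s k : ℕ) (z : Path) : Bm M s k z ≤ Am M s z := by
  unfold Bm Am
  refine lintegral_mono fun x => ?_
  calc ENNReal.ofReal (nn M s x z) * pk k (uY M s x z) ≤ ENNReal.ofReal (nn M s x z) * 1 := by
        gcongr
        exact pk_le_one _ _
    _ = _ := mul_one _

/-- distance between the mass and the conditional mass -/
lemma dist_le (h : Cone μ) {M C : ℝ} (hM : 0 ≤ M) (hC0 : 0 ≤ C) (hC : NB μ M C) {k : ℕ}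
    (hk : 1 ≤ k) (j : ℕ) :
    ∫⁻ z, ENNReal.ofReal (((Am M (k + j) z).toReal - (Bm M k j z).toReal) ^ 2) ∂μ ≤
      ENNReal.ofReal (4 * C * ∑ s ∈ Finset.Ioc k (k + j),
        1 / ((s : ℝ) * √s * (((k + j : ℕ) : ℝ) - s + 1))) := by
  have := h.isProb
  have hA := measurable_Am M (k + j)
  have hB := measurable_Bm M k j
  have hBf : ∫⁻ z, Bm M k j z * Bm M k j z ∂μ ≠ ∞ := by
    refine ne_top_of_le_ne_top (h.sq_Am_ne_top hM hk) (lintegral_mono fun z => ?_)
    exact mul_le_mul' (Bm_le_Am M k j z) (Bm_le_Am M k j z)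
  have hBt : ∀ᵐ z ∂μ, Bm M k j z < ∞ := by
    filter_upwards [h.Am_ae_lt_top M k] with z hz
    exact (Bm_le_Am M k j z).trans_lt hz
  have hcross := h.mul_Am_Bm M k j
  have hsum : ∫⁻ z, ENNReal.ofReal (((Am M (k + j) z).toReal - (Bm M k j z).toReal) ^ 2) ∂μ +
      2 * ∫⁻ z, Am M (k + j) z * Bm M k j z ∂μ =
      ∫⁻ z, Am M (k + j) z * Am M (k + j) z ∂μ + ∫⁻ z, Bm M k j z * Bm M k j z ∂μ := by
    have m1 : Measurable (fun z => ENNReal.ofReal
        (((Am M (k + j) z).toReal - (Bm M k j z).toReal) ^ 2)) := by fun_prop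
    have m2 : Measurable (fun z => Am M (k + j) z * Bm M k j z) := hA.mul hB
    have m3 : Measurable (fun z => Am M (k + j) z * Am M (k + j) z) := hA.mul hA
    rw [← lintegral_const_mul _ m2, ← lintegral_add_left m1, ← lintegral_add_left m3]
    refine lintegral_congr_ae ?_
    filter_upwards [h.Am_ae_lt_top M (k + j), hBt] with z h1 h2
    obtain ⟨a, ha⟩ : ∃ a : ℝ≥0, (a : ℝ≥0∞) = Am M (k + j) z := ⟨_, ENNReal.coe_toNNReal h1.ne⟩
    obtain ⟨b, hb⟩ : ∃ b : ℝ≥0, (b : ℝ≥0∞) = Bm M k j z := ⟨_, ENNReal.coe_toNNReal h2.ne⟩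
    rw [← ha, ← hb]
    simp only [ENNReal.coe_toReal]
    have e1 : (a : ℝ≥0∞) = ENNReal.ofReal a := (ENNReal.ofReal_coe_nnreal).symm
    have e2 : (b : ℝ≥0∞) = ENNReal.ofReal b := (ENNReal.ofReal_coe_nnreal).symm
    rw [e1, e2, ← ENNReal.ofReal_mul (NNReal.coe_nonneg a), ← ENNReal.ofReal_mul (NNReal.coe_nonneg a),
      ← ENNReal.ofReal_mul (NNReal.coe_nonneg b),
      show (2 : ℝ≥0∞) = ENNReal.ofReal 2 by simp, ← ENNReal.ofReal_mul (by norm_num),
      ← ENNReal.ofReal_add (sq_nonneg _) (by positivity),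
      ← ENNReal.ofReal_add (by positivity) (by positivity)]
    congr 1
    ring
  have hle := h.sq_Am_le hC0 hC k j
  rw [hcross, two_mul, ← add_assoc] at hsum
  have h1 : ∫⁻ z, ENNReal.ofReal (((Am M (k + j) z).toReal - (Bm M k j z).toReal) ^ 2) ∂μ +
      ∫⁻ z, Bm M k j z * Bm M k j z ∂μ = ∫⁻ z, Am M (k + j) z * Am M (k + j) z ∂μ :=
    (ENNReal.add_left_inj hBf).1 hsum
  rw [← h1] at hle
  exact (ENNReal.add_le_add_iff_right hBf).1 hle

end Cone

end Pool.Agent.helper95.GMC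
end

/-! ### merged from `Pool.Agent.helper9.GMC.Mass6` -/

section
/-!
Critical mass: the limit of the conditional mass for a fixed number of layers.
-/

open MeasureTheory ProbabilityTheory Filter Topology Set
open scoped ENNReal NNReal

namespace Pool.Agent.helper95.GMC

/-- normalised survival probability -/
noncomputable def qj (k j : ℕ) (u : ℝ) : ℝ :=
  (Ici (0 : ℝ)).indicator (fun u => √((k + j : ℕ) : ℝ) * (pk j u).toReal) u

/-- its limit -/
noncomputable def rI (u : ℝ) : ℝ := (Ici (0 : ℝ)).indicator rho u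

lemma measurable_qj (k j : ℕ) : Measurable (qj k j) := by
  unfold qj
  refine Measurable.indicator ?_ measurableSet_Ici
  have := pk_meas j
  fun_prop

lemma sqrt_ratio_tendsto (k : ℕ) :
    Tendsto (fun j : ℕ => √((k + j : ℕ) : ℝ) / √(j : ℝ)) atTop (𝓝 1) := by
  have h1 : Tendsto (fun j : ℕ => 1 + (k : ℝ) / j) atTop (𝓝 (1 + 0)) :=
    tendsto_const_nhds.add (tendsto_const_nhds.div_atTop tendsto_natCast_atTop_atTop)
  rw [add_zero] at h1
  have h2 := (Real.continuous_sqrt.tendsto 1).comp h1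
  rw [Real.sqrt_one] at h2
  refine h2.congr' ?_
  filter_upwards [eventually_gt_atTop 0] with j hj
  have hj' : (0 : ℝ) < j := by exact_mod_cast hj
  simp only [Function.comp_apply]
  rw [← Real.sqrt_div (by positivity)]
  congr 1
  push_cast
  field_simp
  ring

lemma qj_tendsto (k : ℕ) (u : ℝ) : Tendsto (fun j => qj k j u) atTop (𝓝 (rI u)) := by
  unfold qj rI
  by_cases hu : u ∈ Ici (0 : ℝ)
  · simp only [Set.indicator_of_mem hu]
    have h1 := (sqrt_ratio_tendsto k).mul (pk_tendsto_rho u hu)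
    rw [one_mul] at h1
    refine h1.congr' ?_
    filter_upwards [eventually_gt_atTop 0] with j hj
    have hj' : 0 < √(j : ℝ) := Real.sqrt_pos.2 (by exact_mod_cast hj)
    field_simp
  · simp only [Set.indicator_of_notMem hu]
    exact tendsto_const_nhds

lemma measurable_rI : Measurable rI := by
  refine measurable_of_tendsto_metrizable (f := fun j => qj 0 j) (fun j => measurable_qj 0 j) ?_
  exact tendsto_pi_nhds.2 fun u => qj_tendsto 0 u

lemma qj_bound (k : ℕ) : ∃ D : ℝ, 0 ≤ D ∧ (∀ j u, 0 ≤ qj k j u ∧ qj k j u ≤ D * (1 + |u|)) ∧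
    ∀ u, 0 ≤ rI u ∧ rI u ≤ D * (1 + |u|) := by
  obtain ⟨C, hC⟩ := pk_le
  have key : ∀ j u, 0 ≤ qj k j u ∧ qj k j u ≤ C * √((k : ℝ) + 1) * (1 + |u|) := by
    intro j u
    unfold qj
    by_cases hu : u ∈ Ici (0 : ℝ)
    · rw [Set.indicator_of_mem hu]
      have hu' : (0 : ℝ) ≤ u := hu
      refine ⟨by positivity, ?_⟩
      have h1 := hC j u hu'
      have h2 : (C : ℝ≥0∞) * ENNReal.ofReal ((1 + u) / √((j : ℝ) + 1)) ≠ ∞ :=
        ENNReal.mul_ne_top ENNReal.coe_ne_top ENNReal.ofReal_ne_top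
      have h3 := ENNReal.toReal_mono h2 h1
      rw [ENNReal.toReal_mul, ENNReal.toReal_ofReal (by positivity), ENNReal.coe_toReal] at h3
      have h4 : √((k + j : ℕ) : ℝ) ≤ √((k : ℝ) + 1) * √((j : ℝ) + 1) := by
        rw [← Real.sqrt_mul (by positivity)]
        refine Real.sqrt_le_sqrt ?_
        push_cast
        nlinarith [show (0 : ℝ) ≤ (k : ℝ) * j by positivity]
      rw [abs_of_nonneg hu']
      calc √((k + j : ℕ) : ℝ) * (pk j u).toReal
          ≤ (√((k : ℝ) + 1) * √((j : ℝ) + 1)) * (C * ((1 + u) / √((j : ℝ) + 1))) := by gcongr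
        _ = C * √((k : ℝ) + 1) * (1 + u) := by
          have : √((j : ℝ) + 1) ≠ 0 := (Real.sqrt_pos.2 (by positivity)).ne'
          field_simp
    · rw [Set.indicator_of_notMem hu]
      exact ⟨le_rfl, by positivity⟩
  refine ⟨C * √((k : ℝ) + 1), by positivity, key, fun u => ?_⟩
  exact ⟨ge_of_tendsto' (qj_tendsto k u) fun j => (key j u).1,
    le_of_tendsto' (qj_tendsto k u) fun j => (key j u).2⟩

/-- dominating function -/
noncomputable def Wd (M : ℝ) (k : ℕ) (x : ℝ) (z : Path) : ℝ := nn M k x z * (1 + |uY M k x z|)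

lemma measurable_Wd (M : ℝ) (k : ℕ) : Measurable (fun q : ℝ × Path => Wd M k q.1 q.2) := by
  unfold Wd
  have h1 := measurable_nn' M k
  have h2 := measurable_uY M k
  fun_prop

lemma Wd_nonneg (M : ℝ) (k : ℕ) (x : ℝ) (z : Path) : 0 ≤ Wd M k x z :=
  mul_nonneg (nn_nonneg' M k x z) (by positivity)

lemma uY_nonneg {M : ℝ} {k : ℕ} (hk : 1 ≤ k) {x : ℝ} {z : Path} (h : nn M k x z ≠ 0) :
    0 ≤ uY M k x z := by
  unfold nn at h
  have h1 := Set.mem_of_indicator_ne_zero h
  exact h1 k hk le_rfl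

lemma Wd_sq_le (M : ℝ) (k : ℕ) (x : ℝ) (z : Path) :
    Wd M k x z ^ 2 ≤ 4 * (Real.exp (M + √2 * (k * Real.log 2)) *
        (Real.exp (4 * √2 * Y 0 x z) + Real.exp ((4 * √2 - 2) * SY 0 k x z)) +
      Real.exp (-(M + √2 * (k * Real.log 2))) *
        (Real.exp (4 * √2 * Y 0 x z) + Real.exp ((4 * √2 + 2) * SY 0 k x z))) := by
  set y := Y 0 x z with hy
  set t := SY 0 k x z with ht
  set c := M + √2 * (k * Real.log 2) with hc
  have hnn : nn M k x z ≤ Real.exp (√2 * (y + t)) := by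
    unfold nn
    refine (Set.indicator_le_self' (fun _ _ => (Real.exp_pos _).le) _).trans ?_
    apply Real.exp_le_exp.2
    have : (0 : ℝ) ≤ k * Real.log 2 := mul_nonneg (Nat.cast_nonneg k) lam_pos.le
    simp only
    linarith
  have hu : uY M k x z = c - t := rfl
  have h1 : (1 + |c - t|) ^ 2 ≤ 4 * (Real.exp (c - t) + Real.exp (-(c - t))) := by
    have h2 : 1 + |c - t| ≤ 2 * Real.exp (|c - t| / 2) := by
      have := Real.add_one_le_exp (|c - t| / 2)
      have := abs_nonneg (c - t)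
      linarith
    calc (1 + |c - t|) ^ 2 ≤ (2 * Real.exp (|c - t| / 2)) ^ 2 := by gcongr
      _ = 4 * Real.exp |c - t| := by
        rw [mul_pow, ← Real.exp_nat_mul]
        norm_num
        ring
      _ ≤ 4 * (Real.exp (c - t) + Real.exp (-(c - t))) := by
        have : Real.exp |c - t| ≤ Real.exp (c - t) + Real.exp (-(c - t)) := by
          rcases abs_cases (c - t) with h | h
          · rw [h.1]; linarith [Real.exp_pos (-(c - t))]
          · rw [h.1]; linarith [Real.exp_pos (c - t)]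
        linarith
  have hAM : ∀ a b : ℝ, Real.exp (a + b) ≤ Real.exp (2 * a) + Real.exp (2 * b) := by
    intro a b
    rcases le_total a b with h | h
    · calc Real.exp (a + b) ≤ Real.exp (2 * b) := Real.exp_le_exp.2 (by linarith)
        _ ≤ _ := by linarith [Real.exp_pos (2 * a)]
    · calc Real.exp (a + b) ≤ Real.exp (2 * a) := Real.exp_le_exp.2 (by linarith)
        _ ≤ _ := by linarith [Real.exp_pos (2 * b)]
  unfold Wd
  rw [hu, mul_pow]
  calc nn M k x z ^ 2 * (1 + |c - t|) ^ 2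
      ≤ Real.exp (√2 * (y + t)) ^ 2 * (4 * (Real.exp (c - t) + Real.exp (-(c - t)))) := by
        have := nn_nonneg' M k x z
        gcongr
    _ = 4 * (Real.exp c * Real.exp (2 * √2 * y + (2 * √2 - 1) * t) +
        Real.exp (-c) * Real.exp (2 * √2 * y + (2 * √2 + 1) * t)) := by
        have g1 : Real.exp (√2 * (y + t)) ^ 2 * Real.exp (c - t) =
            Real.exp c * Real.exp (2 * √2 * y + (2 * √2 - 1) * t) := by
          rw [← Real.exp_nat_mul, ← Real.exp_add, ← Real.exp_add]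
          congr 1
          push_cast
          ring
        have g2 : Real.exp (√2 * (y + t)) ^ 2 * Real.exp (-(c - t)) =
            Real.exp (-c) * Real.exp (2 * √2 * y + (2 * √2 + 1) * t) := by
          rw [← Real.exp_nat_mul, ← Real.exp_add, ← Real.exp_add]
          congr 1
          push_cast
          ring
        rw [← g1, ← g2]
        ring
    _ ≤ _ := by
        have e1 := hAM (2 * √2 * y) ((2 * √2 - 1) * t)
        have e2 := hAM (2 * √2 * y) ((2 * √2 + 1) * t)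
        have e3 : 2 * (2 * √2 * y) = 4 * √2 * y := by ring
        have e4 : 2 * ((2 * √2 - 1) * t) = (4 * √2 - 2) * t := by ring
        have e5 : 2 * ((2 * √2 + 1) * t) = (4 * √2 + 2) * t := by ring
        rw [e3, e4] at e1
        rw [e3, e5] at e2
        gcongr

namespace Cone

variable {μ : Measure Path}

lemma exp_Y0 (h : Cone μ) {α : ℝ} (hα : α ≠ 0) (x : ℝ) :
    ∫⁻ z, ENNReal.ofReal (Real.exp (α * Y 0 x z)) ∂μ = ENNReal.ofReal (Real.exp (α ^ 2 / 2)) := by
  have := h.isProb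
  have hV : twoV {0} α 0 x x = α ^ 2 := by
    unfold twoV
    simp [kap_zero, K_zero]
  have h1 := h.tilt_two {0} α 0 x x (by rw [hV]; positivity) (F := fun _ => 1) measurable_const
  simp only [mul_one, lintegral_const, measure_univ, hV] at h1
  have h2 : ∫⁻ z, ENNReal.ofReal (Real.exp (α * Y 0 x z)) ∂μ =
      ∫⁻ z, ENNReal.ofReal (Real.exp (α ^ 2 / 2)) *
        ENNReal.ofReal (Real.exp (two {0} α 0 x x z - α ^ 2 / 2)) ∂μ := by
    refine lintegral_congr_ae ?_
    filter_upwards [h.Y_ae_eq 0 x] with z hz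
    rw [hz, ← ENNReal.ofReal_mul (Real.exp_pos _).le, ← Real.exp_add]
    congr 2
    simp [two]
  rw [h2, lintegral_const_mul' _ _ ENNReal.ofReal_ne_top, h1, mul_one]

lemma exp_SY (h : Cone μ) {k : ℕ} (hk : 1 ≤ k) {β : ℝ} (hβ : β ≠ 0) (x : ℝ) :
    ∫⁻ z, ENNReal.ofReal (Real.exp (β * SY 0 k x z)) ∂μ =
      ENNReal.ofReal (Real.exp (β ^ 2 * (k * Real.log 2) / 2)) := by
  have := h.isProb
  have hk' : (0 : ℝ) < k * Real.log 2 := mul_pos (by exact_mod_cast hk) lam_pos
  have hV : (β ^ 2 + 0 ^ 2) * (k * Real.log 2) + 2 * β * 0 * dK 0 k (x - x) =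
      β ^ 2 * (k * Real.log 2) := by ring
  have h1 := h.tilt_So 0 k β 0 x x (by rw [hV]; positivity) (F := fun _ => 1) measurable_const
  rw [hV] at h1
  simp only [mul_one, lintegral_const, measure_univ] at h1
  have h2 : ∫⁻ z, ENNReal.ofReal (Real.exp (β * SY 0 k x z)) ∂μ =
      ∫⁻ z, ENNReal.ofReal (Real.exp (β ^ 2 * (k * Real.log 2) / 2)) *
        ENNReal.ofReal (Real.exp (β * So 0 k x z + 0 * So 0 k x z -
          β ^ 2 * (k * Real.log 2) / 2)) ∂μ := by
    refine lintegral_congr_ae ?_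
    filter_upwards [h.SY_ae_eq 0 k x] with z hz
    rw [hz, ← ENNReal.ofReal_mul (Real.exp_pos _).le, ← Real.exp_add]
    congr 2
    ring
  rw [h2, lintegral_const_mul' _ _ ENNReal.ofReal_ne_top, h1, mul_one]

lemma Wd_fin (h : Cone μ) (M : ℝ) {k : ℕ} (hk : 1 ≤ k) :
    ∫⁻ z, ∫⁻ x, ENNReal.ofReal (Wd M k x z ^ 2) ∂nuI ∂μ ≠ ∞ := by
  have := h.isProb
  have hs : (1.4 : ℝ) < √2 := by
    rw [show (1.4 : ℝ) = √(1.4 ^ 2) by rw [Real.sqrt_sq (by norm_num)]]
    exact Real.sqrt_lt_sqrt (by norm_num) (by norm_num)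
  set c := M + √2 * (k * Real.log 2) with hc
  set E1 := Real.exp ((4 * √2) ^ 2 / 2) with hE1
  set E2 := Real.exp ((4 * √2 - 2) ^ 2 * (k * Real.log 2) / 2) with hE2
  set E3 := Real.exp ((4 * √2 + 2) ^ 2 * (k * Real.log 2) / 2) with hE3
  have hsw : ∫⁻ z, ∫⁻ x, ENNReal.ofReal (Wd M k x z ^ 2) ∂nuI ∂μ =
      ∫⁻ x, ∫⁻ z, ENNReal.ofReal (Wd M k x z ^ 2) ∂μ ∂nuI := by
    rw [lintegral_lintegral_swap]
    have h0 := measurable_Wd M k
    have h2 : Measurable (fun q : Path × ℝ => ((q.2, q.1) : ℝ × Path)) :=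
      measurable_snd.prodMk measurable_fst
    have h1 := h0.comp h2
    simp only [Function.comp_def] at h1
    exact (ENNReal.measurable_ofReal.comp (h1.pow_const 2)).aemeasurable
  rw [hsw]
  have hx : ∀ x, ∫⁻ z, ENNReal.ofReal (Wd M k x z ^ 2) ∂μ ≤
      ENNReal.ofReal (4 * (Real.exp c * (E1 + E2) + Real.exp (-c) * (E1 + E3))) := by
    intro x
    have hY : Measurable (Y 0 x) := measurable_Y_path 0 x
    have hS : Measurable (SY 0 k x) := by
      have h0 := measurable_SY' 0 k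
      have h1 := h0.comp (measurable_const.prodMk measurable_id : Measurable fun z : Path => (x, z))
      simp only [Function.comp_def] at h1
      exact h1
    have f1 := h.exp_Y0 (α := 4 * √2) (by positivity) x
    have f2 := h.exp_SY hk (β := 4 * √2 - 2) (by nlinarith) x
    have f3 := h.exp_SY hk (β := 4 * √2 + 2) (by positivity) x
    calc ∫⁻ z, ENNReal.ofReal (Wd M k x z ^ 2) ∂μ
        ≤ ∫⁻ z, (ENNReal.ofReal (4 * Real.exp c) * (ENNReal.ofReal (Real.exp (4 * √2 * Y 0 x z)) +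
            ENNReal.ofReal (Real.exp ((4 * √2 - 2) * SY 0 k x z))) +
          ENNReal.ofReal (4 * Real.exp (-c)) * (ENNReal.ofReal (Real.exp (4 * √2 * Y 0 x z)) +
            ENNReal.ofReal (Real.exp ((4 * √2 + 2) * SY 0 k x z)))) ∂μ := by
          refine lintegral_mono fun z => ?_
          refine (ENNReal.ofReal_le_ofReal (Wd_sq_le M k x z)).trans (le_of_eq ?_)
          rw [← ENNReal.ofReal_add (by positivity) (by positivity),
            ← ENNReal.ofReal_add (by positivity) (by positivity),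
            ← ENNReal.ofReal_mul (by positivity), ← ENNReal.ofReal_mul (by positivity),
            ← ENNReal.ofReal_add (by positivity) (by positivity)]
          congr 1
          ring
      _ = ENNReal.ofReal (4 * Real.exp c) * (ENNReal.ofReal E1 + ENNReal.ofReal E2) +
          ENNReal.ofReal (4 * Real.exp (-c)) * (ENNReal.ofReal E1 + ENNReal.ofReal E3) := by
          rw [lintegral_add_left (by fun_prop), lintegral_const_mul _ (by fun_prop),
            lintegral_const_mul _ (by fun_prop), lintegral_add_left (by fun_prop),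
            lintegral_add_left (by fun_prop), f1, f2, f3]
      _ = _ := by
          rw [← ENNReal.ofReal_add (by positivity) (by positivity),
            ← ENNReal.ofReal_add (by positivity) (by positivity),
            ← ENNReal.ofReal_mul (by positivity), ← ENNReal.ofReal_mul (by positivity),
            ← ENNReal.ofReal_add (by positivity) (by positivity)]
          congr 1
          ring
  refine ne_top_of_le_ne_top ?_ (lintegral_mono hx)
  rw [lintegral_const, measure_univ, mul_one]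
  exact ENNReal.ofReal_ne_top

end Cone

end Pool.Agent.helper95.GMC
end

/-! ### merged from `Pool.Agent.helper9.GMCMass` -/

section
/-!
Critical mass: `√l N_l` is a Cauchy sequence in `L²`.
-/

open MeasureTheory ProbabilityTheory Filter Topology Set
open scoped ENNReal NNReal

namespace Pool.Agent.helper95.GMC

/-- limit of the normalised conditional mass -/
noncomputable def bet (M : ℝ) (k : ℕ) (z : Path) : ℝ :=
  ∫ x, nn M k x z * rI (uY M k x z) ∂nuI

lemma meas_x {f : ℝ × Path → ℝ} (hf : Measurable f) (z : Path) : Measurable fun x : ℝ => f (x, z) := by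
  have h1 := hf.comp (measurable_id.prodMk measurable_const : Measurable fun x : ℝ => (x, z))
  simp only [Function.comp_def] at h1
  exact h1

lemma measurable_nq (M : ℝ) (k j : ℕ) :
    Measurable (fun q : ℝ × Path => nn M k q.1 q.2 * qj k j (uY M k q.1 q.2)) :=
  (measurable_nn' M k).mul ((measurable_qj k j).comp (measurable_uY M k))

lemma measurable_nr (M : ℝ) (k : ℕ) :
    Measurable (fun q : ℝ × Path => nn M k q.1 q.2 * rI (uY M k q.1 q.2)) :=
  (measurable_nn' M k).mul (measurable_rI.comp (measurable_uY M k))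

lemma measurable_bet (M : ℝ) (k : ℕ) : Measurable (bet M k) := by
  unfold bet
  have h0 := measurable_nr M k
  have h2 : Measurable (fun q : Path × ℝ => ((q.2, q.1) : ℝ × Path)) :=
    measurable_snd.prodMk measurable_fst
  have h1 := h0.comp h2
  simp only [Function.comp_def] at h1
  exact h1.stronglyMeasurable.integral_prod_right.measurable

lemma sqrt_mul_Bm {M : ℝ} {k : ℕ} (hk : 1 ≤ k) (j : ℕ) (z : Path) :
    √((k + j : ℕ) : ℝ) * (Bm M k j z).toReal = ∫ x, nn M k x z * qj k j (uY M k x z) ∂nuI := by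
  have h1 : (Bm M k j z).toReal = ∫ x, nn M k x z * (pk j (uY M k x z)).toReal ∂nuI := by
    unfold Bm
    rw [integral_eq_lintegral_of_nonneg_ae (ae_of_all _ fun x =>
      mul_nonneg (nn_nonneg' M k x z) ENNReal.toReal_nonneg)]
    · congr 1
      refine lintegral_congr fun x => ?_
      rw [ENNReal.ofReal_mul (nn_nonneg' M k x z), ENNReal.ofReal_toReal]
      exact ne_top_of_le_ne_top ENNReal.one_ne_top (pk_le_one _ _)
    · have m1 := meas_x (measurable_nn' M k) z
      have m2 := meas_x (measurable_uY M k) z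
      have m3 := (pk_meas j).comp m2
      exact (m1.mul m3.ennreal_toReal).aestronglyMeasurable
  rw [h1, ← integral_const_mul]
  refine integral_congr_ae (ae_of_all _ fun x => ?_)
  beta_reduce
  by_cases h0 : nn M k x z = 0
  · rw [h0]; ring
  · unfold qj
    rw [Set.indicator_of_mem (show uY M k x z ∈ Ici (0 : ℝ) from uY_nonneg hk h0)]
    ring

/-- square of an integral against a probability measure -/
lemma sq_integral_le {f : ℝ → ℝ} (hf : MemLp f 2 nuI) :
    (∫ x, f x ∂nuI) ^ 2 ≤ ∫ x, f x ^ 2 ∂nuI := by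
  have h1 := variance_nonneg f nuI
  rw [variance_eq_sub hf] at h1
  simp only [Pi.pow_apply] at h1
  linarith

namespace Cone

variable {μ : Measure Path}

lemma bet_tendsto (h : Cone μ) (M : ℝ) {k : ℕ} (hk : 1 ≤ k) :
    Tendsto (fun j : ℕ => ∫⁻ z, ENNReal.ofReal ((√((k + j : ℕ) : ℝ) * (Bm M k j z).toReal -
      bet M k z) ^ 2) ∂μ) atTop (𝓝 0) := by
  have := h.isProb
  obtain ⟨D, hD0, hq, hr⟩ := qj_bound k
  have hWm := measurable_Wd M k
  have hWz : Measurable (fun z => ∫⁻ x, ENNReal.ofReal (Wd M k x z ^ 2) ∂nuI) := by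
    exact Measurable.lintegral_prod_left' (f := fun q : ℝ × Path =>
      ENNReal.ofReal (Wd M k q.1 q.2 ^ 2)) (ENNReal.measurable_ofReal.comp (hWm.pow_const 2))
  have hae := ae_lt_top hWz (h.Wd_fin M hk)
  -- pointwise inequality
  have hpt : ∀ j : ℕ, ∀ᵐ z ∂μ, ENNReal.ofReal ((√((k + j : ℕ) : ℝ) * (Bm M k j z).toReal -
      bet M k z) ^ 2) ≤ ∫⁻ x, ENNReal.ofReal ((nn M k x z * qj k j (uY M k x z) -
        nn M k x z * rI (uY M k x z)) ^ 2) ∂nuI := by
    intro j
    filter_upwards [hae] with z hz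
    have mW := meas_x hWm z
    have mq := meas_x (measurable_nq M k j) z
    have mr := meas_x (measurable_nr M k) z
    have hint : Integrable (fun x => Wd M k x z ^ 2) nuI := by
      refine ⟨(mW.pow_const 2).aestronglyMeasurable, ?_⟩
      rw [hasFiniteIntegral_iff_ofReal (ae_of_all _ fun x => sq_nonneg _)]
      exact hz
    have hW2 : MemLp (fun x => Wd M k x z) 2 nuI :=
      (memLp_two_iff_integrable_sq mW.aestronglyMeasurable).2 hint
    have hq2 : MemLp (fun x => nn M k x z * qj k j (uY M k x z)) 2 nuI := by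
      refine (hW2.const_mul D).of_le mq.aestronglyMeasurable (ae_of_all _ fun x => ?_)
      have h1 := hq j (uY M k x z)
      have h2 := nn_nonneg' M k x z
      rw [Real.norm_of_nonneg (mul_nonneg h2 h1.1), Real.norm_of_nonneg (mul_nonneg hD0
        (Wd_nonneg M k x z))]
      unfold Wd
      calc nn M k x z * qj k j (uY M k x z) ≤ nn M k x z * (D * (1 + |uY M k x z|)) := by
            gcongr
            exact h1.2
        _ = _ := by ring
    have hr2 : MemLp (fun x => nn M k x z * rI (uY M k x z)) 2 nuI := by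
      refine (hW2.const_mul D).of_le mr.aestronglyMeasurable (ae_of_all _ fun x => ?_)
      have h1 := hr (uY M k x z)
      have h2 := nn_nonneg' M k x z
      rw [Real.norm_of_nonneg (mul_nonneg h2 h1.1), Real.norm_of_nonneg (mul_nonneg hD0
        (Wd_nonneg M k x z))]
      unfold Wd
      calc nn M k x z * rI (uY M k x z) ≤ nn M k x z * (D * (1 + |uY M k x z|)) := by
            gcongr
            exact h1.2
        _ = _ := by ring
    have hd2 : MemLp (fun x => nn M k x z * qj k j (uY M k x z) -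
        nn M k x z * rI (uY M k x z)) 2 nuI := hq2.sub hr2
    rw [sqrt_mul_Bm hk]
    unfold bet
    rw [← integral_sub (hq2.integrable (by norm_num)) (hr2.integrable (by norm_num))]
    refine (ENNReal.ofReal_le_ofReal (sq_integral_le hd2)).trans (le_of_eq ?_)
    exact ofReal_integral_eq_lintegral_ofReal hd2.integrable_sq (ae_of_all _ fun x => sq_nonneg _)
  -- the product space
  have hswap : Measurable (fun q : Path × ℝ => ((q.2, q.1) : ℝ × Path)) :=
    measurable_snd.prodMk measurable_fst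
  have hFm : ∀ j : ℕ, Measurable (fun q : Path × ℝ => ENNReal.ofReal
      ((nn M k q.2 q.1 * qj k j (uY M k q.2 q.1) - nn M k q.2 q.1 * rI (uY M k q.2 q.1)) ^ 2)) := by
    intro j
    have m1 := (measurable_nq M k j).comp hswap
    have m2 := (measurable_nr M k).comp hswap
    simp only [Function.comp_def] at m1 m2
    exact ENNReal.measurable_ofReal.comp ((m1.sub m2).pow_const 2)
  have hWm2 : Measurable (fun q : Path × ℝ => ENNReal.ofReal (Wd M k q.2 q.1 ^ 2)) := by
    have m1 := hWm.comp hswap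
    simp only [Function.comp_def] at m1
    exact ENNReal.measurable_ofReal.comp (m1.pow_const 2)
  have hlim : Tendsto (fun j : ℕ => ∫⁻ q : Path × ℝ, ENNReal.ofReal
      ((nn M k q.2 q.1 * qj k j (uY M k q.2 q.1) - nn M k q.2 q.1 * rI (uY M k q.2 q.1)) ^ 2)
      ∂(μ.prod nuI)) atTop (𝓝 0) := by
    have key := tendsto_lintegral_of_dominated_convergence (μ := μ.prod nuI)
      (F := fun (j : ℕ) (q : Path × ℝ) => ENNReal.ofReal
        ((nn M k q.2 q.1 * qj k j (uY M k q.2 q.1) - nn M k q.2 q.1 * rI (uY M k q.2 q.1)) ^ 2))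
      (f := fun _ => 0)
      (fun q => ENNReal.ofReal (D ^ 2) * ENNReal.ofReal (Wd M k q.2 q.1 ^ 2)) hFm ?_ ?_ ?_
    · simpa using key
    · intro j
      refine ae_of_all _ fun q => ?_
      beta_reduce
      rw [← ENNReal.ofReal_mul (sq_nonneg D)]
      refine ENNReal.ofReal_le_ofReal ?_
      have h1 := hq j (uY M k q.2 q.1)
      have h2 := hr (uY M k q.2 q.1)
      have h3 := nn_nonneg' M k q.2 q.1
      have h4 : |qj k j (uY M k q.2 q.1) - rI (uY M k q.2 q.1)| ≤ D * (1 + |uY M k q.2 q.1|) := by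
        rw [abs_le]; constructor <;> linarith
      have h5 : (qj k j (uY M k q.2 q.1) - rI (uY M k q.2 q.1)) ^ 2 ≤
          (D * (1 + |uY M k q.2 q.1|)) ^ 2 := by
        rw [← sq_abs]
        exact pow_le_pow_left₀ (abs_nonneg _) h4 2
      unfold Wd
      calc (nn M k q.2 q.1 * qj k j (uY M k q.2 q.1) - nn M k q.2 q.1 * rI (uY M k q.2 q.1)) ^ 2
          = nn M k q.2 q.1 ^ 2 * (qj k j (uY M k q.2 q.1) - rI (uY M k q.2 q.1)) ^ 2 := by ring
        _ ≤ nn M k q.2 q.1 ^ 2 * (D * (1 + |uY M k q.2 q.1|)) ^ 2 := by gcongr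
        _ = _ := by ring
    · rw [lintegral_const_mul' _ _ ENNReal.ofReal_ne_top, lintegral_prod _ hWm2.aemeasurable]
      exact ENNReal.mul_ne_top ENNReal.ofReal_ne_top (h.Wd_fin M hk)
    · refine ae_of_all _ fun q => ?_
      have h1 := (qj_tendsto k (uY M k q.2 q.1)).const_mul (nn M k q.2 q.1)
      have h2 := (h1.sub_const (nn M k q.2 q.1 * rI (uY M k q.2 q.1))).pow 2
      rw [sub_self] at h2
      have h3 := ENNReal.tendsto_ofReal h2
      simpa using h3
  refine tendsto_of_tendsto_of_tendsto_of_le_of_le tendsto_const_nhds hlim (fun _ => zero_le)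
    fun j => ?_
  beta_reduce
  rw [lintegral_prod _ (hFm j).aemeasurable]
  exact lintegral_mono_ae (hpt j)

lemma sq_four (a b c d : ℝ) : (a + b - c - d) ^ 2 ≤ 4 * (a ^ 2 + b ^ 2 + c ^ 2 + d ^ 2) := by
  nlinarith [sq_nonneg (a - b), sq_nonneg (a + c), sq_nonneg (a + d), sq_nonneg (b + c),
    sq_nonneg (b + d), sq_nonneg (c - d)]

theorem mass_cauchy (h : Cone μ) {M : ℝ} (hM : 0 ≤ M) {ε : ℝ}
    (hε : 0 < ε) : ∃ l0 : ℕ, ∀ l ≥ l0, ∀ l' ≥ l0,
    ∫⁻ z, ENNReal.ofReal ((√l * NN M l z - √l' * NN M l' z) ^ 2) ∂μ ≤ ENNReal.ofReal ε := by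
  have := h.isProb
  obtain ⟨C, hC0, hC⟩ := h.exists_NB hM
  -- choose k
  have hk1 : ∀ᶠ k in atTop, 4 * C * tailS k < ε / 32 := by
    have h1 := tailS_tendsto.const_mul (4 * C)
    rw [mul_zero] at h1
    exact h1.eventually (gt_mem_nhds (by positivity))
  obtain ⟨k, hk2, hk⟩ := (hk1.and (eventually_ge_atTop 1)).exists
  have hE : ∀ᶠ l in atTop, 4 * C * errE l < ε / 32 := by
    have h1 := errE_tendsto.const_mul (4 * C)
    rw [mul_zero] at h1
    exact h1.eventually (gt_mem_nhds (by positivity))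
  have hB : ∀ᶠ j in atTop, ∫⁻ z, ENNReal.ofReal ((√((k + j : ℕ) : ℝ) * (Bm M k j z).toReal -
      bet M k z) ^ 2) ∂μ < ENNReal.ofReal (ε / 16) :=
    (h.bet_tendsto M hk).eventually (gt_mem_nhds (ENNReal.ofReal_pos.2 (by positivity)))
  obtain ⟨l1, hl1⟩ := eventually_atTop.1 hE
  obtain ⟨j1, hj1⟩ := eventually_atTop.1 hB
  -- first difference
  have hdiff : ∀ l, l1 ≤ l → k ≤ l → ∫⁻ z, ENNReal.ofReal ((√l * (NN M l z -
      (Bm M k (l - k) z).toReal)) ^ 2) ∂μ ≤ ENNReal.ofReal (ε / 16) := by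
    intro l h1 h2
    obtain ⟨j, rfl⟩ := Nat.exists_eq_add_of_le h2
    rw [Nat.add_sub_cancel_left]
    have h3 := h.dist_le hM hC0 hC hk j
    have h4 := main_sum_le h2
    have h5 := hl1 _ h1
    calc ∫⁻ z, ENNReal.ofReal ((√((k + j : ℕ) : ℝ) * (NN M (k + j) z - (Bm M k j z).toReal)) ^ 2) ∂μ
        = ∫⁻ z, ENNReal.ofReal ((k + j : ℕ) : ℝ) * ENNReal.ofReal (((Am M (k + j) z).toReal -
            (Bm M k j z).toReal) ^ 2) ∂μ := by
          refine lintegral_congr fun z => ?_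
          rw [mul_pow, Real.sq_sqrt (Nat.cast_nonneg _), ENNReal.ofReal_mul (Nat.cast_nonneg _),
            NN_eq]
      _ = ENNReal.ofReal ((k + j : ℕ) : ℝ) * ∫⁻ z, ENNReal.ofReal (((Am M (k + j) z).toReal -
            (Bm M k j z).toReal) ^ 2) ∂μ := lintegral_const_mul' _ _ ENNReal.ofReal_ne_top
      _ ≤ ENNReal.ofReal ((k + j : ℕ) : ℝ) * ENNReal.ofReal (4 * C * ∑ s ∈ Finset.Ioc k (k + j),
        1 / ((s : ℝ) * √s * (((k + j : ℕ) : ℝ) - s + 1))) := by gcongr
      _ ≤ ENNReal.ofReal (ε / 16) := by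
          rw [← ENNReal.ofReal_mul (Nat.cast_nonneg _)]
          refine ENNReal.ofReal_le_ofReal ?_
          calc ((k + j : ℕ) : ℝ) * (4 * C * ∑ s ∈ Finset.Ioc k (k + j),
                1 / ((s : ℝ) * √s * (((k + j : ℕ) : ℝ) - s + 1)))
              = 4 * C * (((k + j : ℕ) : ℝ) * ∑ s ∈ Finset.Ioc k (k + j),
                1 / ((s : ℝ) * √s * (((k + j : ℕ) : ℝ) - s + 1))) := by ring
            _ ≤ 4 * C * (tailS k + errE (k + j)) := by gcongr
            _ ≤ ε / 16 := by linarith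
  have hsec : ∀ l, k + j1 ≤ l → ∫⁻ z, ENNReal.ofReal ((√l * (Bm M k (l - k) z).toReal -
      bet M k z) ^ 2) ∂μ ≤ ENNReal.ofReal (ε / 16) := by
    intro l h1
    have h2 := hj1 (l - k) (by omega)
    rw [Nat.add_sub_cancel' (by omega : k ≤ l)] at h2
    exact h2.le
  refine ⟨max l1 (k + j1), fun l hl l' hl' => ?_⟩
  have a1 : l1 ≤ l := (le_max_left _ _).trans hl
  have a2 : k + j1 ≤ l := (le_max_right _ _).trans hl
  have b1 : l1 ≤ l' := (le_max_left _ _).trans hl'
  have b2 : k + j1 ≤ l' := (le_max_right _ _).trans hl'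
  have c1 := hdiff l a1 (by omega)
  have c2 := hsec l a2
  have c3 := hdiff l' b1 (by omega)
  have c4 := hsec l' b2
  have hNm : ∀ l, Measurable (NN M l) := by
    intro l
    have h1 : NN M l = fun z => (Am M l z).toReal := funext fun z => NN_eq M l z
    rw [h1]
    exact (measurable_Am M l).ennreal_toReal
  have hbm := measurable_bet M k
  have hBm1 := measurable_Bm M k (l - k)
  have hBm2 := measurable_Bm M k (l' - k)
  have hN1 := hNm l
  have hN2 := hNm l'
  set F1 : Path → ℝ≥0∞ := fun z => ENNReal.ofReal ((√l * (NN M l z -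
      (Bm M k (l - k) z).toReal)) ^ 2) with hF1
  set F2 : Path → ℝ≥0∞ := fun z => ENNReal.ofReal ((√l * (Bm M k (l - k) z).toReal -
      bet M k z) ^ 2) with hF2
  set F3 : Path → ℝ≥0∞ := fun z => ENNReal.ofReal ((√l' * (NN M l' z -
      (Bm M k (l' - k) z).toReal)) ^ 2) with hF3
  set F4 : Path → ℝ≥0∞ := fun z => ENNReal.ofReal ((√l' * (Bm M k (l' - k) z).toReal -
      bet M k z) ^ 2) with hF4
  have m1 : Measurable F1 := by rw [hF1]; fun_prop
  have m2 : Measurable F2 := by rw [hF2]; fun_prop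
  have m3 : Measurable F3 := by rw [hF3]; fun_prop
  have m4 : Measurable F4 := by rw [hF4]; fun_prop
  calc ∫⁻ z, ENNReal.ofReal ((√l * NN M l z - √l' * NN M l' z) ^ 2) ∂μ
      ≤ ∫⁻ z, ENNReal.ofReal 4 * (F1 z + F2 z + F3 z + F4 z) ∂μ := by
        refine lintegral_mono fun z => ?_
        rw [hF1, hF2, hF3, hF4]
        beta_reduce
        rw [← ENNReal.ofReal_add (sq_nonneg _) (sq_nonneg _),
          ← ENNReal.ofReal_add (by positivity) (sq_nonneg _),
          ← ENNReal.ofReal_add (by positivity) (sq_nonneg _), ← ENNReal.ofReal_mul (by norm_num)]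
        refine ENNReal.ofReal_le_ofReal ?_
        have e : √l * NN M l z - √l' * NN M l' z =
            √l * (NN M l z - (Bm M k (l - k) z).toReal) +
            (√l * (Bm M k (l - k) z).toReal - bet M k z) -
            √l' * (NN M l' z - (Bm M k (l' - k) z).toReal) -
            (√l' * (Bm M k (l' - k) z).toReal - bet M k z) := by ring
        rw [e]
        exact sq_four _ _ _ _
    _ = ENNReal.ofReal 4 * (((∫⁻ z, F1 z ∂μ) + ∫⁻ z, F2 z ∂μ) + (∫⁻ z, F3 z ∂μ) + ∫⁻ z, F4 z ∂μ) := by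
        rw [lintegral_const_mul' _ _ ENNReal.ofReal_ne_top, lintegral_add_right _ m4,
          lintegral_add_right _ m3, lintegral_add_right _ m2]
    _ ≤ ENNReal.ofReal 4 * ((ENNReal.ofReal (ε / 16) + ENNReal.ofReal (ε / 16)) +
        ENNReal.ofReal (ε / 16) + ENNReal.ofReal (ε / 16)) := by gcongr
    _ = ENNReal.ofReal ε := by
        rw [← ENNReal.ofReal_add (by positivity) (by positivity),
          ← ENNReal.ofReal_add (by positivity) (by positivity),
          ← ENNReal.ofReal_add (by positivity) (by positivity), ← ENNReal.ofReal_mul (by norm_num)]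
        congr 1
        ring

end Cone

end Pool.Agent.helper95.GMC
end
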