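import Pool.Agent.helper9.GaussInterp

/-!
Gaussian interpolation: the main estimate.
-/

open MeasureTheory ProbabilityTheory Filter Topology Set
open scoped ENNReal NNReal

namespace Pool.Agent.helper9.GMC

variable {Ω : Type*} [MeasurableSpace Ω] {Q : Measure Ω} {ι : Type*} [Fintype ι]
  {A B : ι → Ω → ℝ} {C C' : ι → ι → ℝ}

theorem law_yx (hZ : HasGaussianLaw (fun ω => ((fun i => A i ω), (fun i => B i ω))) Q) (t : ℝ)
    (i : ι) : HasGaussianLaw (fun ω => (yt A B t ω i, fun j => xt A B t ω j)) Q := by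
  let L : (ι → ℝ) × (ι → ℝ) →L[ℝ] ℝ × (ι → ℝ) :=
    (-(Real.sin t) • ((ContinuousLinearMap.proj (R := ℝ) (φ := fun _ : ι => ℝ) i).comp
        (ContinuousLinearMap.fst ℝ (ι → ℝ) (ι → ℝ))) +
      (Real.cos t) • ((ContinuousLinearMap.proj (R := ℝ) (φ := fun _ : ι => ℝ) i).comp
        (ContinuousLinearMap.snd ℝ (ι → ℝ) (ι → ℝ)))).prod
      ((Real.cos t) • (ContinuousLinearMap.fst ℝ (ι → ℝ) (ι → ℝ)) +
        (Real.sin t) • (ContinuousLinearMap.snd ℝ (ι → ℝ) (ι → ℝ)))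
  have := hZ.map_fun L
  refine this.congr (ae_of_all _ fun ω => ?_)
  refine Prod.ext ?_ ?_
  · simp [L, yt]
  · ext j
    simp [L, xt]

theorem law_x (hZ : HasGaussianLaw (fun ω => ((fun i => A i ω), (fun i => B i ω))) Q) (t : ℝ) :
    HasGaussianLaw (fun ω => fun j => xt A B t ω j) Q := by
  let L : (ι → ℝ) × (ι → ℝ) →L[ℝ] (ι → ℝ) :=
      ((Real.cos t) • (ContinuousLinearMap.fst ℝ (ι → ℝ) (ι → ℝ)) +
        (Real.sin t) • (ContinuousLinearMap.snd ℝ (ι → ℝ) (ι → ℝ)))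
  have := hZ.map_fun L
  refine this.congr (ae_of_all _ fun ω => ?_)
  ext j
  simp [L, xt]

theorem exp_moment (hZ : HasGaussianLaw (fun ω => ((fun i => A i ω), (fun i => B i ω))) Q)
    (hA0 : ∀ i, ∫ ω, A i ω ∂Q = 0) (hB0 : ∀ i, ∫ ω, B i ω ∂Q = 0)
    (hC : ∀ i j, cov[A i, A j; Q] = C i j) (hC' : ∀ i j, cov[B i, B j; Q] = C' i j)
    (hAB : ∀ i j, cov[A i, B j; Q] = 0) (γ : ℝ) (t : ℝ) (i j : ι) :
    ∫ ω, ee γ (Vt C C' t) i (xt A B t ω) * ee γ (Vt C C' t) j (xt A B t ω) ∂Q =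
      Real.exp (γ ^ 2 * (Real.cos t ^ 2 * C i j + Real.sin t ^ 2 * C' i j)) := by
  have hQ := hZ.isProbabilityMeasure
  have hA : ∀ i, HasGaussianLaw (A i) Q := fun i => hZ.fst.eval i
  have hB : ∀ i, HasGaussianLaw (B i) Q := fun i => hZ.snd.eval i
  have hX := law_x hZ t
  have hXi : ∀ i, HasGaussianLaw (fun ω => xt A B t ω i) Q := fun i => hX.eval i
  have hU : HasGaussianLaw (fun ω => xt A B t ω i + xt A B t ω j) Q :=
    (hX.prodMk i j).fun_add
  have hx0 : ∀ i, ∫ ω, xt A B t ω i ∂Q = 0 := by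
    intro i
    unfold xt
    rw [integral_add ((hA i).integrable.const_mul _) ((hB i).integrable.const_mul _),
      integral_const_mul, integral_const_mul, hA0, hB0]
    simp
  have hU0 : ∫ ω, (xt A B t ω i + xt A B t ω j) ∂Q = 0 := by
    rw [integral_add (hXi i).integrable (hXi j).integrable, hx0, hx0]; simp
  have hBA : ∀ i j, cov[B i, A j; Q] = 0 := fun i j => by rw [covariance_comm, hAB]
  have hcov : ∀ i j, cov[fun ω => xt A B t ω i, fun ω => xt A B t ω j; Q] =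
      Real.cos t ^ 2 * C i j + Real.sin t ^ 2 * C' i j := by
    intro i j
    have := cov_lin (hA i).memLp_two (hB i).memLp_two (hA j).memLp_two (hB j).memLp_two
      (Real.cos t) (Real.sin t) (Real.cos t) (Real.sin t) (hAB i j) (hBA i j)
    rw [hC, hC'] at this
    unfold xt
    rw [this]; ring
  have hsym : C i j = C j i := by rw [← hC, covariance_comm, hC]
  have hsym' : C' i j = C' j i := by rw [← hC', covariance_comm, hC']
  have hvar : Var[fun ω => xt A B t ω i + xt A B t ω j; Q] =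
      Vt C C' t i + Vt C C' t j + 2 * (Real.cos t ^ 2 * C i j + Real.sin t ^ 2 * C' i j) := by
    rw [variance_fun_add (hXi i).memLp_two (hXi j).memLp_two,
      ← covariance_self (hXi i).aemeasurable, ← covariance_self (hXi j).aemeasurable,
      hcov, hcov, hcov]
    unfold Vt
    ring
  have hmgf := mgf_gaussianReal (hU.map_eq_gaussianReal) γ
  unfold mgf at hmgf
  rw [hU0, Real.coe_toNNReal _ (variance_nonneg _ _), hvar] at hmgf
  have e : ∀ ω, ee γ (Vt C C' t) i (xt A B t ω) * ee γ (Vt C C' t) j (xt A B t ω) =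
      Real.exp (-(γ ^ 2 / 2 * (Vt C C' t i + Vt C C' t j))) *
        Real.exp (γ * (xt A B t ω i + xt A B t ω j)) := by
    intro ω
    unfold ee
    rw [← Real.exp_add, ← Real.exp_add]
    congr 1
    ring
  simp_rw [e]
  rw [integral_const_mul, hmgf, ← Real.exp_add]
  congr 1
  ring

theorem Vt_nonneg (hZ : HasGaussianLaw (fun ω => ((fun i => A i ω), (fun i => B i ω))) Q)
    (hC : ∀ i j, cov[A i, A j; Q] = C i j) (hC' : ∀ i j, cov[B i, B j; Q] = C' i j)
    (t : ℝ) (i : ι) : 0 ≤ Vt C C' t i := by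
  have hA : ∀ i, HasGaussianLaw (A i) Q := fun i => hZ.fst.eval i
  have hB : ∀ i, HasGaussianLaw (B i) Q := fun i => hZ.snd.eval i
  have h1 : 0 ≤ C i i := by
    rw [← hC, covariance_self (hA i).aemeasurable]; exact variance_nonneg _ _
  have h2 : 0 ≤ C' i i := by
    rw [← hC', covariance_self (hB i).aemeasurable]; exact variance_nonneg _ _
  unfold Vt
  positivity

theorem int_gg (hZ : HasGaussianLaw (fun ω => ((fun i => A i ω), (fun i => B i ω))) Q)
    (hV : ∀ t i, 0 ≤ Vt C C' t i) (a : ι → ℝ) (γ : ℝ) (t : ℝ) (i : ι) :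
    Integrable (fun ω => gg a γ (Vt C C' t) i (xt A B t ω)) Q := by
  have hX := law_x hZ t
  refine (integrable_exp_norm hZ (|γ| * 2)).mono' ?_ (ae_of_all _ fun ω => ?_)
  · exact ((continuous_gg a γ (Vt C C' t) i).measurable.comp_aemeasurable
      hX.aemeasurable).aestronglyMeasurable
  · rw [norm_gg]
    have := ee_le γ (hV t) i (xt A B t ω) (norm_xt_le A B t ω i)
    rw [← mul_assoc] at this
    exact this

theorem int_ygg (hZ : HasGaussianLaw (fun ω => ((fun i => A i ω), (fun i => B i ω))) Q)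
    (hV : ∀ t i, 0 ≤ Vt C C' t i) (a : ι → ℝ) (γ : ℝ) (t : ℝ) (i : ι) :
    Integrable (fun ω => (yt A B t ω i : ℂ) * gg a γ (Vt C C' t) i (xt A B t ω)) Q := by
  have hX := law_x hZ t
  have hY := (law_yx hZ t i).fst
  refine (integrable_exp_norm hZ (2 + |γ| * 2)).mono' ?_ (ae_of_all _ fun ω => ?_)
  · exact ((Complex.measurable_ofReal.comp_aemeasurable hY.aemeasurable).mul
      ((continuous_gg a γ (Vt C C' t) i).measurable.comp_aemeasurable
      hX.aemeasurable)).aestronglyMeasurable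
  · rw [norm_mul, norm_gg, Complex.norm_real, add_mul, Real.exp_add]
    have h1 := ee_le γ (hV t) i (xt A B t ω) (norm_xt_le A B t ω i)
    rw [← mul_assoc] at h1
    have h2 : ‖yt A B t ω i‖ ≤ Real.exp (2 * ‖((fun i => A i ω), (fun i => B i ω))‖) := by
      refine (norm_yt_le A B t ω i).trans ?_
      have := Real.add_one_le_exp (2 * ‖((fun i => A i ω), (fun i => B i ω))‖)
      linarith
    exact mul_le_mul h2 h1 (ee_pos _ _ _ _).le (Real.exp_pos _).le

theorem int_eegg (hZ : HasGaussianLaw (fun ω => ((fun i => A i ω), (fun i => B i ω))) Q)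
    (hV : ∀ t i, 0 ≤ Vt C C' t i) (a : ι → ℝ) (γ : ℝ) (t : ℝ) (i j : ι) :
    Integrable (fun ω => (ee γ (Vt C C' t) j (xt A B t ω) : ℂ) *
      gg a γ (Vt C C' t) i (xt A B t ω)) Q := by
  have hX := law_x hZ t
  refine (integrable_exp_norm hZ (|γ| * 2 + |γ| * 2)).mono' ?_ (ae_of_all _ fun ω => ?_)
  · exact ((Complex.measurable_ofReal.comp_aemeasurable
      ((continuous_ee γ (Vt C C' t) j).measurable.comp_aemeasurable hX.aemeasurable)).mul
      ((continuous_gg a γ (Vt C C' t) i).measurable.comp_aemeasurable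
      hX.aemeasurable)).aestronglyMeasurable
  · rw [norm_mul, norm_gg, Complex.norm_real, add_mul, Real.exp_add,
      Real.norm_of_nonneg (ee_pos _ _ _ _).le]
    have h1 := ee_le γ (hV t) i (xt A B t ω) (norm_xt_le A B t ω i)
    rw [← mul_assoc] at h1
    have h2 := ee_le γ (hV t) j (xt A B t ω) (norm_xt_le A B t ω j)
    rw [← mul_assoc] at h2
    exact mul_le_mul h2 h1 (ee_pos _ _ _ _).le (Real.exp_pos _).le

theorem integral_ygg (hZ : HasGaussianLaw (fun ω => ((fun i => A i ω), (fun i => B i ω))) Q)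
    (hA0 : ∀ i, ∫ ω, A i ω ∂Q = 0) (hB0 : ∀ i, ∫ ω, B i ω ∂Q = 0)
    (hC : ∀ i j, cov[A i, A j; Q] = C i j) (hC' : ∀ i j, cov[B i, B j; Q] = C' i j)
    (hAB : ∀ i j, cov[A i, B j; Q] = 0) (a : ι → ℝ) (γ : ℝ) (t : ℝ) (i : ι) :
    ∫ ω, (yt A B t ω i : ℂ) * gg a γ (Vt C C' t) i (xt A B t ω) ∂Q =
      ((γ * (Real.sin t * Real.cos t * (C' i i - C i i)) : ℝ) : ℂ) *
        ∫ ω, gg a γ (Vt C C' t) i (xt A B t ω) ∂Q +
      Complex.I * ∑ j, ((a j * γ * (Real.sin t * Real.cos t * (C' i j - C i j)) : ℝ) : ℂ) *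
        ∫ ω, (ee γ (Vt C C' t) j (xt A B t ω) : ℂ) * gg a γ (Vt C C' t) i (xt A B t ω) ∂Q := by
  have hQ := hZ.isProbabilityMeasure
  have hV := Vt_nonneg hZ hC hC'
  have hA : ∀ i, HasGaussianLaw (A i) Q := fun i => hZ.fst.eval i
  have hB : ∀ i, HasGaussianLaw (B i) Q := fun i => hZ.snd.eval i
  have hBA : ∀ i j, cov[B i, A j; Q] = 0 := fun i j => by rw [covariance_comm, hAB]
  have hy0 : ∫ ω, yt A B t ω i ∂Q = 0 := by
    unfold yt
    rw [integral_add ((hA i).integrable.const_mul _) ((hB i).integrable.const_mul _),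
      integral_const_mul, integral_const_mul, hA0, hB0]
    simp
  have hcov : ∀ j, cov[fun ω => yt A B t ω i, fun ω => xt A B t ω j; Q] =
      Real.sin t * Real.cos t * (C' i j - C i j) := by
    intro j
    have := cov_lin (hA i).memLp_two (hB i).memLp_two (hA j).memLp_two (hB j).memLp_two
      (-Real.sin t) (Real.cos t) (Real.cos t) (Real.sin t) (hAB i j) (hBA i j)
    rw [hC, hC'] at this
    unfold xt yt
    rw [this]; ring
  have hint : Integrable (fun ω => DD a γ (Vt C C' t)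
      (fun j => Real.sin t * Real.cos t * (C' i j - C i j)) i (fun j => xt A B t ω j)) Q := by
    unfold DD
    refine ((int_gg hZ hV a γ t i).const_mul _).add ((integrable_finsetSum _ fun j _ => ?_).const_mul _)
    exact (int_eegg hZ hV a γ t i j).const_mul _
  have key := gauss_ibp (fun ω => yt A B t ω i) (fun j ω => xt A B t ω j) (law_yx hZ t i) hy0
    (fun j => Real.sin t * Real.cos t * (C' i j - C i j)) hcov
    (gg a γ (Vt C C' t) i) (DD a γ (Vt C C' t)
      (fun j => Real.sin t * Real.cos t * (C' i j - C i j)) i)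
    (continuous_gg _ _ _ _).measurable (continuous_DD _ _ _ _ _).measurable
    (fun x s => hasDerivAt_gg a γ _ _ i x s) (int_gg hZ hV a γ t i) hint (int_ygg hZ hV a γ t i)
  have e : ∫ ω, DD a γ (Vt C C' t) (fun j => Real.sin t * Real.cos t * (C' i j - C i j)) i
      (fun j => xt A B t ω j) ∂Q = ((γ * (Real.sin t * Real.cos t * (C' i i - C i i)) : ℝ) : ℂ) *
        ∫ ω, gg a γ (Vt C C' t) i (xt A B t ω) ∂Q +
      Complex.I * ∑ j, ((a j * γ * (Real.sin t * Real.cos t * (C' i j - C i j)) : ℝ) : ℂ) *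
        ∫ ω, (ee γ (Vt C C' t) j (xt A B t ω) : ℂ) * gg a γ (Vt C C' t) i (xt A B t ω) ∂Q := by
    unfold DD
    rw [integral_add ((int_gg hZ hV a γ t i).const_mul _)
      ((integrable_finsetSum _ fun j _ => (int_eegg hZ hV a γ t i j).const_mul _).const_mul _),
      integral_const_mul, integral_const_mul, integral_finsetSum _ fun j _ =>
        (int_eegg hZ hV a γ t i j).const_mul _]
    simp_rw [integral_const_mul]
  rw [← e]
  exact key

theorem integral_fd (hZ : HasGaussianLaw (fun ω => ((fun i => A i ω), (fun i => B i ω))) Q)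
    (hA0 : ∀ i, ∫ ω, A i ω ∂Q = 0) (hB0 : ∀ i, ∫ ω, B i ω ∂Q = 0)
    (hC : ∀ i j, cov[A i, A j; Q] = C i j) (hC' : ∀ i j, cov[B i, B j; Q] = C' i j)
    (hAB : ∀ i j, cov[A i, B j; Q] = 0) (a : ι → ℝ) (γ : ℝ) (t : ℝ) :
    ∫ ω, fd a γ A B C C' t ω ∂Q =
      - ∑ i, ∑ j, ((a i * a j * γ ^ 2 * (Real.sin t * Real.cos t * (C' i j - C i j)) : ℝ) : ℂ) *
        ∫ ω, (ee γ (Vt C C' t) j (xt A B t ω) : ℂ) * gg a γ (Vt C C' t) i (xt A B t ω) ∂Q := by
  have hQ := hZ.isProbabilityMeasure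
  have hV := Vt_nonneg hZ hC hC'
  unfold fd
  rw [integral_const_mul, integral_finsetSum _ fun i _ => ?_]
  · rw [Finset.mul_sum, ← Finset.sum_neg_distrib]
    refine Finset.sum_congr rfl fun i _ => ?_
    rw [integral_const_mul, integral_sub ((int_ygg hZ hV a γ t i).const_mul _)
      ((int_gg hZ hV a γ t i).const_mul _), integral_const_mul, integral_const_mul,
      integral_ygg hZ hA0 hB0 hC hC' hAB]
    set G := ∫ ω, gg a γ (Vt C C' t) i (xt A B t ω) ∂Q
    have e : ∑ j, ((a i * a j * γ ^ 2 * (Real.sin t * Real.cos t * (C' i j - C i j)) : ℝ) : ℂ) *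
        ∫ ω, (ee γ (Vt C C' t) j (xt A B t ω) : ℂ) * gg a γ (Vt C C' t) i (xt A B t ω) ∂Q =
        ((a i * γ : ℝ) : ℂ) * ∑ j, ((a j * γ * (Real.sin t * Real.cos t * (C' i j - C i j)) : ℝ) : ℂ) *
        ∫ ω, (ee γ (Vt C C' t) j (xt A B t ω) : ℂ) * gg a γ (Vt C C' t) i (xt A B t ω) ∂Q := by
      rw [Finset.mul_sum]
      refine Finset.sum_congr rfl fun j _ => ?_
      push_cast
      ring
    rw [e]
    set T := ∑ j, ((a j * γ * (Real.sin t * Real.cos t * (C' i j - C i j)) : ℝ) : ℂ) *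
        ∫ ω, (ee γ (Vt C C' t) j (xt A B t ω) : ℂ) * gg a γ (Vt C C' t) i (xt A B t ω) ∂Q
    push_cast
    linear_combination (a i : ℂ) * (γ : ℂ) * T * Complex.I_mul_I
  · exact (((int_ygg hZ hV a γ t i).const_mul _).sub ((int_gg hZ hV a γ t i).const_mul _)).const_mul _

theorem norm_integral_fd (hZ : HasGaussianLaw (fun ω => ((fun i => A i ω), (fun i => B i ω))) Q)
    (hA0 : ∀ i, ∫ ω, A i ω ∂Q = 0) (hB0 : ∀ i, ∫ ω, B i ω ∂Q = 0)
    (hC : ∀ i j, cov[A i, A j; Q] = C i j) (hC' : ∀ i j, cov[B i, B j; Q] = C' i j)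
    (hAB : ∀ i j, cov[A i, B j; Q] = 0) (a : ι → ℝ) (γ : ℝ) (t : ℝ) :
    ‖∫ ω, fd a γ A B C C' t ω ∂Q‖ ≤ 1 / 2 * (γ ^ 2 * ∑ i, ∑ j, |a i| * |a j| * |C i j - C' i j| *
      Real.exp (γ ^ 2 * max (C i j) (C' i j))) := by
  rw [integral_fd hZ hA0 hB0 hC hC' hAB, norm_neg, Finset.mul_sum, Finset.mul_sum]
  refine (norm_sum_le _ _).trans (Finset.sum_le_sum fun i _ => ?_)
  rw [Finset.mul_sum, Finset.mul_sum]
  refine (norm_sum_le _ _).trans (Finset.sum_le_sum fun j _ => ?_)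
  rw [norm_mul, Complex.norm_real]
  have h1 : ‖∫ ω, (ee γ (Vt C C' t) j (xt A B t ω) : ℂ) * gg a γ (Vt C C' t) i (xt A B t ω) ∂Q‖ ≤
      Real.exp (γ ^ 2 * max (C i j) (C' i j)) := by
    refine (norm_integral_le_integral_norm _).trans ?_
    have e : ∀ ω, ‖(ee γ (Vt C C' t) j (xt A B t ω) : ℂ) * gg a γ (Vt C C' t) i (xt A B t ω)‖ =
        ee γ (Vt C C' t) i (xt A B t ω) * ee γ (Vt C C' t) j (xt A B t ω) := by
      intro ω
      rw [norm_mul, norm_gg, Complex.norm_real, Real.norm_of_nonneg (ee_pos _ _ _ _).le, mul_comm]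
    simp_rw [e]
    rw [exp_moment hZ hA0 hB0 hC hC' hAB]
    apply Real.exp_le_exp.2
    have h2 : Real.cos t ^ 2 * C i j + Real.sin t ^ 2 * C' i j ≤ max (C i j) (C' i j) := by
      have h3 := Real.cos_sq_add_sin_sq t
      calc Real.cos t ^ 2 * C i j + Real.sin t ^ 2 * C' i j
          ≤ Real.cos t ^ 2 * max (C i j) (C' i j) + Real.sin t ^ 2 * max (C i j) (C' i j) := by
            gcongr
            · exact le_max_left _ _
            · exact le_max_right _ _
        _ = (Real.cos t ^ 2 + Real.sin t ^ 2) * max (C i j) (C' i j) := by ring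
        _ = _ := by rw [h3, one_mul]
    exact mul_le_mul_of_nonneg_left h2 (sq_nonneg γ)
  have h2 : |Real.sin t * Real.cos t| ≤ 1 / 2 := by
    rw [abs_le]
    have h3 := Real.cos_sq_add_sin_sq t
    constructor <;> nlinarith [sq_nonneg (Real.sin t + Real.cos t), sq_nonneg (Real.sin t - Real.cos t)]
  have h3 : ‖a i * a j * γ ^ 2 * (Real.sin t * Real.cos t * (C' i j - C i j))‖ =
      |a i| * |a j| * γ ^ 2 * (|Real.sin t * Real.cos t| * |C i j - C' i j|) := by
    rw [Real.norm_eq_abs, abs_mul, abs_mul, abs_mul, abs_mul, abs_of_nonneg (sq_nonneg γ),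
      abs_sub_comm (C' i j)]
  rw [h3]
  calc |a i| * |a j| * γ ^ 2 * (|Real.sin t * Real.cos t| * |C i j - C' i j|) *
      ‖∫ ω, (ee γ (Vt C C' t) j (xt A B t ω) : ℂ) * gg a γ (Vt C C' t) i (xt A B t ω) ∂Q‖ ≤
      |a i| * |a j| * γ ^ 2 * (1 / 2 * |C i j - C' i j|) *
      Real.exp (γ ^ 2 * max (C i j) (C' i j)) := by gcongr
    _ = _ := by ring

theorem norm_fd_le (hV : ∀ t i, 0 ≤ Vt C C' t i) (a : ι → ℝ) (γ : ℝ) (t : ℝ) (ω : Ω) :
    ‖fd a γ A B C C' t ω‖ ≤ ∑ i, |a i| * (|γ| * (Real.exp (2 * ‖((fun i => A i ω), (fun i => B i ω))‖)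
      * Real.exp (|γ| * 2 * ‖((fun i => A i ω), (fun i => B i ω))‖)) +
      γ ^ 2 * |C' i i - C i i| * Real.exp (|γ| * 2 * ‖((fun i => A i ω), (fun i => B i ω))‖)) := by
  unfold fd
  rw [norm_mul, Complex.norm_I, one_mul]
  refine (norm_sum_le _ _).trans (Finset.sum_le_sum fun i _ => ?_)
  rw [norm_mul, Complex.norm_real, Real.norm_eq_abs]
  refine mul_le_mul_of_nonneg_left ?_ (abs_nonneg _)
  refine (norm_sub_le _ _).trans ?_
  have h1 := ee_le γ (hV t) i (xt A B t ω) (norm_xt_le A B t ω i)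
  rw [← mul_assoc] at h1
  have h2 : |yt A B t ω i| ≤ Real.exp (2 * ‖((fun i => A i ω), (fun i => B i ω))‖) := by
    refine (norm_yt_le A B t ω i).trans ?_
    have := Real.add_one_le_exp (2 * ‖((fun i => A i ω), (fun i => B i ω))‖)
    linarith
  refine add_le_add ?_ ?_
  · rw [norm_mul, norm_mul, norm_gg, Complex.norm_real, Complex.norm_real, Real.norm_eq_abs,
      Real.norm_eq_abs]
    exact mul_le_mul_of_nonneg_left (mul_le_mul h2 h1 (ee_pos _ _ _ _).le (Real.exp_pos _).le)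
      (abs_nonneg _)
  · rw [norm_mul, norm_gg, Complex.norm_real, Real.norm_eq_abs, abs_mul, abs_mul,
      abs_of_nonneg (sq_nonneg γ)]
    have h3 : |Real.sin t * Real.cos t| ≤ 1 := by
      rw [abs_mul]
      calc |Real.sin t| * |Real.cos t| ≤ 1 * 1 := by
            gcongr
            · exact Real.abs_sin_le_one t
            · exact Real.abs_cos_le_one t
        _ = 1 := by norm_num
    have h4 := (ee_pos γ (Vt C C' t) i (xt A B t ω)).le
    calc γ ^ 2 * |Real.sin t * Real.cos t| * |C' i i - C i i| * ee γ (Vt C C' t) i (xt A B t ω)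
        ≤ γ ^ 2 * 1 * |C' i i - C i i| *
          Real.exp (|γ| * 2 * ‖((fun i => A i ω), (fun i => B i ω))‖) := by gcongr
      _ = _ := by ring

theorem measurable_xt_comp (hZ : HasGaussianLaw (fun ω => ((fun i => A i ω), (fun i => B i ω))) Q)
    (a : ι → ℝ) (γ : ℝ) (t : ℝ) : AEStronglyMeasurable
      (fun ω => Complex.exp (Complex.I * (SS a γ (Vt C C' t) (xt A B t ω) : ℂ))) Q := by
  have hX := law_x hZ t
  have h1 := (continuous_SS a γ (Vt C C' t)).measurable.comp_aemeasurable hX.aemeasurable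
  have h2 : AEMeasurable (fun ω => SS a γ (Vt C C' t) (xt A B t ω)) Q := h1
  exact (by fun_prop : AEMeasurable (fun ω => Complex.exp (Complex.I *
    (SS a γ (Vt C C' t) (xt A B t ω) : ℂ))) Q).aestronglyMeasurable

theorem integrable_xt_comp (hZ : HasGaussianLaw (fun ω => ((fun i => A i ω), (fun i => B i ω))) Q)
    (a : ι → ℝ) (γ : ℝ) (t : ℝ) : Integrable
      (fun ω => Complex.exp (Complex.I * (SS a γ (Vt C C' t) (xt A B t ω) : ℂ))) Q := by
  have hQ := hZ.isProbabilityMeasure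
  refine (integrable_const (1 : ℝ)).mono' (measurable_xt_comp hZ a γ t) (ae_of_all _ fun ω => ?_)
  rw [mul_comm, Complex.norm_exp_ofReal_mul_I]

theorem hasDerivAt_F (hZ : HasGaussianLaw (fun ω => ((fun i => A i ω), (fun i => B i ω))) Q)
    (hC : ∀ i j, cov[A i, A j; Q] = C i j) (hC' : ∀ i j, cov[B i, B j; Q] = C' i j)
    (a : ι → ℝ) (γ : ℝ) (t : ℝ) :
    HasDerivAt (fun t => ∫ ω, Complex.exp (Complex.I * (SS a γ (Vt C C' t) (xt A B t ω) : ℂ)) ∂Q)
      (∫ ω, fd a γ A B C C' t ω ∂Q) t := by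
  have hQ := hZ.isProbabilityMeasure
  have hV := Vt_nonneg hZ hC hC'
  refine (hasDerivAt_integral_of_dominated_loc_of_deriv_le (μ := Q) (s := univ)
    (F := fun t ω => Complex.exp (Complex.I * (SS a γ (Vt C C' t) (xt A B t ω) : ℂ)))
    (F' := fun t ω => fd a γ A B C C' t ω)
    (bound := fun ω => ∑ i, |a i| * (|γ| *
      (Real.exp (2 * ‖((fun i => A i ω), (fun i => B i ω))‖)
      * Real.exp (|γ| * 2 * ‖((fun i => A i ω), (fun i => B i ω))‖)) +
      γ ^ 2 * |C' i i - C i i| * Real.exp (|γ| * 2 * ‖((fun i => A i ω), (fun i => B i ω))‖)))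
    (x₀ := t) univ_mem ?_ ?_ ?_ ?_ ?_ ?_).2
  · exact Eventually.of_forall fun t => measurable_xt_comp hZ a γ t
  · exact integrable_xt_comp hZ a γ t
  · have : Integrable (fun ω => fd a γ A B C C' t ω) Q := by
      unfold fd
      refine (integrable_finsetSum _ fun i _ => ?_).const_mul _
      exact (((int_ygg hZ hV a γ t i).const_mul _).sub ((int_gg hZ hV a γ t i).const_mul _)).const_mul _
    exact this.aestronglyMeasurable
  · exact ae_of_all _ fun ω t _ => norm_fd_le hV a γ t ω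
  · refine integrable_finsetSum _ fun i _ => ?_
    refine (Integrable.add ?_ ?_).const_mul _
    · refine Integrable.const_mul ?_ _
      simp_rw [← Real.exp_add, ← add_mul]
      exact integrable_exp_norm hZ _
    · exact (integrable_exp_norm hZ _).const_mul _
  · exact ae_of_all _ fun ω t _ => hasDerivAt_integrand a γ A B C C' t ω

theorem compare_core (hZ : HasGaussianLaw (fun ω => ((fun i => A i ω), (fun i => B i ω))) Q)
    (hA0 : ∀ i, ∫ ω, A i ω ∂Q = 0) (hB0 : ∀ i, ∫ ω, B i ω ∂Q = 0)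
    (hC : ∀ i j, cov[A i, A j; Q] = C i j) (hC' : ∀ i j, cov[B i, B j; Q] = C' i j)
    (hAB : ∀ i j, cov[A i, B j; Q] = 0) (a : ι → ℝ) (γ : ℝ) :
    ‖(∫ ω, Complex.exp (Complex.I * ((∑ i, a i * Real.exp (γ * A i ω - γ ^ 2 / 2 * C i i) : ℝ) : ℂ))
        ∂Q) -
      ∫ ω, Complex.exp (Complex.I * ((∑ i, a i * Real.exp (γ * B i ω - γ ^ 2 / 2 * C' i i) : ℝ) : ℂ))
        ∂Q‖ ≤
      γ ^ 2 * ∑ i, ∑ j, |a i| * |a j| * |C i j - C' i j| *
      Real.exp (γ ^ 2 * max (C i j) (C' i j)) := by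
  set M := γ ^ 2 * ∑ i, ∑ j, |a i| * |a j| * |C i j - C' i j| *
      Real.exp (γ ^ 2 * max (C i j) (C' i j)) with hM
  have hM0 : 0 ≤ M := by
    rw [hM]
    positivity
  have h1 := Convex.norm_image_sub_le_of_norm_hasDerivWithin_le (𝕜 := ℝ)
    (f := fun t => ∫ ω, Complex.exp (Complex.I * (SS a γ (Vt C C' t) (xt A B t ω) : ℂ)) ∂Q)
    (f' := fun t => ∫ ω, fd a γ A B C C' t ω ∂Q) (s := univ) (C := 1 / 2 * M)
    (x := Real.pi / 2) (y := 0)
    (fun t _ => (hasDerivAt_F hZ hC hC' a γ t).hasDerivWithinAt)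
    (fun t _ => norm_integral_fd hZ hA0 hB0 hC hC' hAB a γ t) convex_univ (mem_univ _) (mem_univ _)
  have e0 : ∀ ω, SS a γ (Vt C C' 0) (xt A B 0 ω) =
      ∑ i, a i * Real.exp (γ * A i ω - γ ^ 2 / 2 * C i i) := by
    intro ω
    unfold SS ee Vt xt
    simp
  have e1 : ∀ ω, SS a γ (Vt C C' (Real.pi / 2)) (xt A B (Real.pi / 2) ω) =
      ∑ i, a i * Real.exp (γ * B i ω - γ ^ 2 / 2 * C' i i) := by
    intro ω
    unfold SS ee Vt xt
    simp
  simp only [e0, e1] at h1
  refine h1.trans ?_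
  have h2 : ‖0 - Real.pi / 2‖ = Real.pi / 2 := by
    rw [zero_sub, norm_neg, Real.norm_of_nonneg (by positivity)]
  rw [h2]
  nlinarith [Real.pi_le_four, Real.pi_pos]

end Pool.Agent.helper9.GMC
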