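import Mathlib

/-!
One-dimensional Stein lemma and Gaussian integration by parts.
-/

open MeasureTheory ProbabilityTheory Filter Topology Set
open scoped ENNReal NNReal

namespace Pool.Agent.helper9.GMC

theorem hasDerivAt_gaussianPDFReal {v : ℝ≥0} (hv : v ≠ 0) (x : ℝ) :
    HasDerivAt (gaussianPDFReal 0 v) (-(x / v) * gaussianPDFReal 0 v x) x := by
  have hv' : (v : ℝ) ≠ 0 := by exact_mod_cast hv
  unfold gaussianPDFReal
  have h1 : HasDerivAt (fun x : ℝ => -(x - 0) ^ 2 / (2 * (v : ℝ))) (-(x / v)) x := by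
    have h2 : HasDerivAt (fun x : ℝ => (x - 0) ^ 2) (2 * (x - 0)) x := by
      have h0 : HasDerivAt (fun x : ℝ => x - 0) 1 x := (hasDerivAt_id x).sub_const 0
      have := h0.fun_pow 2
      simpa using this
    have h3 := (h2.fun_neg).div_const (2 * (v : ℝ))
    have e : -(2 * (x - 0)) / (2 * (v : ℝ)) = -(x / v) := by
      rw [sub_zero]
      field_simp
    rw [e] at h3
    exact h3
  have h4 := (h1.exp).const_mul ((√(2 * Real.pi * (v : ℝ)))⁻¹)
  have e : (√(2 * Real.pi * (v : ℝ)))⁻¹ *
      (Real.exp (-(x - 0) ^ 2 / (2 * (v : ℝ))) * -(x / (v : ℝ))) =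
      -(x / v) * ((√(2 * Real.pi * (v : ℝ)))⁻¹ * Real.exp (-(x - 0) ^ 2 / (2 * (v : ℝ)))) := by
    ring
  rw [e] at h4
  exact h4

theorem stein1d {v : ℝ≥0} (hv : v ≠ 0) {h h' : ℝ → ℂ} (hd : ∀ x, HasDerivAt h (h' x) x)
    (hi : Integrable h (gaussianReal 0 v)) (hi' : Integrable h' (gaussianReal 0 v))
    (hxi : Integrable (fun x : ℝ => (x : ℂ) * h x) (gaussianReal 0 v)) :
    ∫ x : ℝ, (x : ℂ) * h x ∂(gaussianReal 0 v) = (v : ℂ) * ∫ x, h' x ∂(gaussianReal 0 v) := by
  have hv' : (v : ℝ) ≠ 0 := by exact_mod_cast hv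
  have hvc : ((v : ℝ) : ℂ) ≠ 0 := by exact_mod_cast hv'
  have key : ∀ f : ℝ → ℂ, Integrable f (gaussianReal 0 v) →
      Integrable (fun x => (gaussianPDFReal 0 v x : ℂ) * f x) := by
    intro f hf
    rw [gaussianReal_of_var_ne_zero _ hv] at hf
    rw [integrable_withDensity_iff_integrable_smul' (measurable_gaussianPDF _ _)
      (ae_of_all _ fun _ ↦ gaussianPDF_lt_top)] at hf
    refine hf.congr (ae_of_all _ fun x => ?_)
    simp [toReal_gaussianPDF]
  rw [integral_gaussianReal_eq_integral_smul hv, integral_gaussianReal_eq_integral_smul hv]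
  have hG : ∀ x : ℝ, HasDerivAt (fun x => (gaussianPDFReal 0 v x : ℂ))
      (((-(x / v) * gaussianPDFReal 0 v x : ℝ)) : ℂ) x := fun x =>
    (hasDerivAt_gaussianPDFReal hv x).ofReal_comp
  have := integral_mul_deriv_eq_deriv_mul_of_integrable (A := ℂ) (u := h)
    (v := fun x => (gaussianPDFReal 0 v x : ℂ)) (u' := h')
    (v' := fun x => (((-(x / v) * gaussianPDFReal 0 v x : ℝ)) : ℂ))
    (fun x _ => hd x) (fun x _ => hG x) ?_ ?_ ?_
  · have e1 : ∫ x : ℝ, h x * (((-(x / v) * gaussianPDFReal 0 v x : ℝ)) : ℂ)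
        = -(((v : ℝ) : ℂ))⁻¹ * ∫ x : ℝ, gaussianPDFReal 0 v x • ((x : ℂ) * h x) := by
      rw [← integral_const_mul]
      refine integral_congr_ae (ae_of_all _ fun x => ?_)
      simp only [Complex.real_smul]
      push_cast
      field_simp
    have e2 : ∫ x, h' x * (gaussianPDFReal 0 v x : ℂ) = ∫ x, gaussianPDFReal 0 v x • h' x := by
      refine integral_congr_ae (ae_of_all _ fun x => ?_)
      simp only [Complex.real_smul]
      ring
    rw [e1, e2] at this
    have h3 : ∫ x : ℝ, gaussianPDFReal 0 v x • ((x : ℂ) * h x) =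
        ((v : ℝ) : ℂ) * ∫ x, gaussianPDFReal 0 v x • h' x := by
      have h4 := congrArg (fun t => -((v : ℝ) : ℂ) * t) this
      beta_reduce at h4
      rw [← mul_assoc] at h4
      have h5 : -((v : ℝ) : ℂ) * -(((v : ℝ) : ℂ))⁻¹ = 1 := by
        field_simp
      rw [h5, one_mul] at h4
      rw [h4]; ring
    exact h3
  · have := (key _ hxi).const_mul (-(((v : ℝ) : ℂ))⁻¹)
    refine this.congr (ae_of_all _ fun x => ?_)
    simp only [Pi.mul_apply]
    push_cast
    field_simp
  · refine (key _ hi').congr (ae_of_all _ fun x => ?_)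
    simp only [Pi.mul_apply]
    ring
  · refine (key _ hi).congr (ae_of_all _ fun x => ?_)
    simp only [Pi.mul_apply]
    ring

/-- Gaussian integration by parts in the direction of the covariances -/
theorem gauss_ibp {Ω : Type*} [MeasurableSpace Ω] {P : Measure Ω} {ι : Type*} [Fintype ι]
    (U : Ω → ℝ) (W : ι → Ω → ℝ)
    (hUW : HasGaussianLaw (fun ω => (U ω, fun j => W j ω)) P)
    (hU0 : ∫ ω, U ω ∂P = 0)
    (c : ι → ℝ) (hc : ∀ j, cov[U, W j; P] = c j) (g D : (ι → ℝ) → ℂ)
    (hgm : Measurable g) (hDm : Measurable D)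
    (hder : ∀ (x : ι → ℝ) (s : ℝ), HasDerivAt (fun s : ℝ => g (x + s • c)) (D (x + s • c)) s)
    (hig : Integrable (fun ω => g (fun j => W j ω)) P)
    (hiD : Integrable (fun ω => D (fun j => W j ω)) P)
    (hiU : Integrable (fun ω => (U ω : ℂ) * g (fun j => W j ω)) P) :
    ∫ ω, (U ω : ℂ) * g (fun j => W j ω) ∂P = ∫ ω, D (fun j => W j ω) ∂P := by
  have hP := hUW.isProbabilityMeasure
  have hU : HasGaussianLaw U P := hUW.fst
  have hW : HasGaussianLaw (fun ω j => W j ω) P := hUW.snd
  have hWj : ∀ j, HasGaussianLaw (W j) P := fun j => hW.eval j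
  have hUL : P.map U = gaussianReal 0 (Var[U; P]).toNNReal := by
    rw [hU.map_eq_gaussianReal, hU0]
  by_cases hv : (Var[U; P]).toNNReal = 0
  · have hvar : Var[U; P] = 0 := by
      have := variance_nonneg U P
      have h2 := Real.toNNReal_eq_zero.1 hv
      linarith
    have hae := ae_eq_integral_of_variance_eq_zero hU.memLp_two hvar
    rw [hU0] at hae
    have hc0 : c = 0 := by
      ext j
      rw [← hc j]
      have : cov[U, W j; P] = cov[(fun _ => (0:ℝ)), W j; P] := by
        unfold covariance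
        refine integral_congr_ae ?_
        filter_upwards [hae] with ω hω
        rw [hω, hU0]; simp
      rw [this]
      simp
    have hD0 : ∀ x, D x = 0 := by
      intro x
      have h1 := hder x 0
      rw [hc0] at h1
      simp only [smul_zero, add_zero] at h1
      exact h1.unique (hasDerivAt_const (0:ℝ) (g x))
    rw [integral_congr_ae (g := fun _ => (0:ℂ))]
    · simp [hD0]
    · filter_upwards [hae] with ω hω
      rw [hω]; simp
  · set v := (Var[U; P]).toNNReal with hvdef
    have hvpos : (v : ℝ) ≠ 0 := by exact_mod_cast hv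
    have hvv : (v : ℝ) = Var[U; P] := by
      rw [hvdef]; exact Real.coe_toNNReal _ (variance_nonneg _ _)
    set R : ι → Ω → ℝ := fun j ω => W j ω - (c j / v) * U ω with hR
    have hUR : HasGaussianLaw (fun ω => (U ω, fun j => R j ω)) P := by
      let L : ℝ × (ι → ℝ) →L[ℝ] ℝ × (ι → ℝ) :=
        (ContinuousLinearMap.fst ℝ ℝ (ι → ℝ)).prod
          (ContinuousLinearMap.snd ℝ ℝ (ι → ℝ) -
            ContinuousLinearMap.pi fun j => (c j / v) • ContinuousLinearMap.fst ℝ ℝ (ι → ℝ))
      have := hUW.map_fun L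
      refine this.congr (ae_of_all _ fun ω => ?_)
      simp only [L, ContinuousLinearMap.prod_apply, ContinuousLinearMap.coe_fst']
      refine Prod.ext rfl ?_
      ext j
      simp [hR]
    have hind : IndepFun U (fun ω j => R j ω) P := by
      have h1 : HasGaussianLaw (fun ω => ((fun (_ : Unit) => U ω), fun j => R j ω)) P := by
        let L : ℝ × (ι → ℝ) →L[ℝ] (Unit → ℝ) × (ι → ℝ) :=
          (ContinuousLinearMap.pi fun _ => ContinuousLinearMap.fst ℝ ℝ (ι → ℝ)).prod
            (ContinuousLinearMap.snd ℝ ℝ (ι → ℝ))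
        exact hUR.map_fun L
      have h2 := h1.indepFun_of_covariance_eval (X := fun (_ : Unit) => U) (Y := R) ?_
      · exact h2.comp (φ := fun f : Unit → ℝ => f ()) (ψ := id) (by fun_prop) (by fun_prop)
      · intro _ j
        have : R j = W j - (c j / v) • U := by
          ext ω; simp [hR]
        rw [this, covariance_sub_right hU.memLp_two (hWj j).memLp_two
          (hU.memLp_two.const_smul _), covariance_smul_right, hc,
          covariance_self hU.aemeasurable, ← hvv]
        field_simp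
        ring
    have hRm : AEMeasurable (fun ω j => R j ω) P := hUR.snd.aemeasurable
    have hmap := (indepFun_iff_map_prod_eq_prod_map_map hU.aemeasurable hRm).1 hind
    set ρ := P.map (fun ω j => R j ω) with hρ
    have : IsProbabilityMeasure ρ := Measure.isProbabilityMeasure_map hRm
    rw [hUL] at hmap
    have hWR : ∀ ω, (fun j => W j ω) = (fun j => R j ω) + (U ω / v) • c := by
      intro ω; ext j; simp [hR]; ring
    -- transfer
    have hcont : Measurable (fun p : ℝ × (ι → ℝ) => p.2 + (p.1 / v) • c) := by fun_prop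
    have tr : ∀ f : ℝ × (ι → ℝ) → ℂ, Measurable f →
        ∫ ω, f (U ω, fun j => R j ω) ∂P = ∫ p, f p ∂((gaussianReal 0 v).prod ρ) := by
      intro f hf
      rw [← hmap, integral_map (hU.aemeasurable.prodMk hRm) hf.aestronglyMeasurable]
    have tri : ∀ f : ℝ × (ι → ℝ) → ℂ, Measurable f →
        Integrable (fun ω => f (U ω, fun j => R j ω)) P → Integrable f ((gaussianReal 0 v).prod ρ) := by
      intro f hf hfi
      rw [← hmap, integrable_map_measure hf.aestronglyMeasurable (hU.aemeasurable.prodMk hRm)]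
      exact hfi
    have hgi := tri (fun p => g (p.2 + (p.1 / v) • c)) (hgm.comp hcont) (by
      refine hig.congr (ae_of_all _ fun ω => ?_); exact congrArg g (hWR ω))
    have hDi := tri (fun p => D (p.2 + (p.1 / v) • c)) (hDm.comp hcont) (by
      refine hiD.congr (ae_of_all _ fun ω => ?_); exact congrArg D (hWR ω))
    have hUm : Measurable (fun p : ℝ × (ι → ℝ) => (p.1 : ℂ) * g (p.2 + (p.1 / v) • c)) :=
      (Complex.measurable_ofReal.comp measurable_fst).mul (hgm.comp hcont)
    have hUi := tri (fun p => (p.1 : ℂ) * g (p.2 + (p.1 / v) • c)) hUm (by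
      refine hiU.congr (ae_of_all _ fun ω => ?_)
      exact congrArg (fun t => (U ω : ℂ) * g t) (hWR ω))
    have e1 : ∫ ω, (U ω : ℂ) * g (fun j => W j ω) ∂P =
        ∫ r, ∫ u : ℝ, (u : ℂ) * g (r + (u / v) • c) ∂(gaussianReal 0 v) ∂ρ := by
      rw [← integral_prod_symm (fun p : ℝ × (ι → ℝ) => (p.1 : ℂ) * g (p.2 + (p.1 / v) • c)) hUi,
        ← tr _ hUm]
      refine integral_congr_ae (ae_of_all _ fun ω => ?_)
      beta_reduce; rw [hWR ω]
    have e2 : ∫ ω, D (fun j => W j ω) ∂P =
        ∫ r, ∫ u : ℝ, D (r + (u / v) • c) ∂(gaussianReal 0 v) ∂ρ := by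
      rw [← integral_prod_symm (fun p : ℝ × (ι → ℝ) => D (p.2 + (p.1 / v) • c)) hDi,
        ← tr (fun p : ℝ × (ι → ℝ) => D (p.2 + (p.1 / v) • c)) (hDm.comp hcont)]
      refine integral_congr_ae (ae_of_all _ fun ω => ?_)
      beta_reduce; rw [hWR ω]
    rw [e1, e2]
    refine integral_congr_ae ?_
    filter_upwards [hgi.prod_left_ae, hDi.prod_left_ae, hUi.prod_left_ae] with r h1 h2 h3
    have hd : ∀ u : ℝ, HasDerivAt (fun u : ℝ => g (r + (u / v) • c))
        ((v : ℂ)⁻¹ * D (r + (u / v) • c)) u := by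
      intro u
      have h4 := hder r (u / v)
      have h5 : HasDerivAt (fun u : ℝ => u / (v : ℝ)) ((v : ℝ)⁻¹) u := by
        simpa using (hasDerivAt_id u).div_const (v : ℝ)
      have h6 := HasDerivAt.scomp u h4 h5
      rw [Complex.real_smul] at h6
      push_cast at h6
      exact h6
    have := stein1d hv hd h1 (h2.const_mul _) h3
    rw [this, integral_const_mul, ← mul_assoc]
    have hvc : (v : ℂ) ≠ 0 := by exact_mod_cast hv
    rw [mul_inv_cancel₀ hvc, one_mul]

end Pool.Agent.helper9.GMC
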