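import Pool.Agent.helper9.GaussIBP

/-!
Gaussian interpolation: comparison of characteristic functions of sums of exponentials.
-/

open MeasureTheory ProbabilityTheory Filter Topology Set
open scoped ENNReal NNReal
set_option linter.unusedSectionVars false

namespace Pool.Agent.helper9.GMC

theorem integrable_exp_norm {Ω : Type*} [MeasurableSpace Ω] {P : Measure Ω}
    {E : Type*} [NormedAddCommGroup E] [NormedSpace ℝ E] [MeasurableSpace E] [BorelSpace E]
    [SecondCountableTopology E] [CompleteSpace E]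
    {Z : Ω → E} (hZ : HasGaussianLaw Z P) (κ : ℝ) :
    Integrable (fun ω => Real.exp (κ * ‖Z ω‖)) P := by
  have := hZ.isGaussian_map
  obtain ⟨C, hC, hi⟩ := IsGaussian.exists_integrable_exp_sq (P.map Z)
  have hi2 : Integrable (fun ω => Real.exp (C * ‖Z ω‖ ^ 2)) P := by
    have := (integrable_map_measure hi.aestronglyMeasurable hZ.aemeasurable).1 hi
    exact this
  refine (hi2.const_mul (Real.exp (κ ^ 2 / (4 * C)))).mono' ?_ (ae_of_all _ fun ω => ?_)
  · have h1 : AEMeasurable (fun ω => Real.exp (κ * ‖Z ω‖)) P := by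
      have := hZ.aemeasurable
      fun_prop
    exact h1.aestronglyMeasurable
  · rw [Real.norm_of_nonneg (Real.exp_pos _).le, ← Real.exp_add]
    apply Real.exp_le_exp.2
    have h2 : κ ^ 2 / (4 * C) + C * ‖Z ω‖ ^ 2 - κ * ‖Z ω‖ =
        (κ - 2 * C * ‖Z ω‖) ^ 2 / (4 * C) := by
      field_simp
      ring
    have h3 : 0 ≤ (κ - 2 * C * ‖Z ω‖) ^ 2 / (4 * C) := by positivity
    linarith

/-- the exponentials -/
noncomputable def ee {ι : Type*} (γ : ℝ) (V : ι → ℝ) (i : ι) (w : ι → ℝ) : ℝ :=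
  Real.exp (γ * w i - γ ^ 2 / 2 * V i)

/-- the phase -/
noncomputable def SS {ι : Type*} [Fintype ι] (a : ι → ℝ) (γ : ℝ) (V : ι → ℝ) (w : ι → ℝ) : ℝ :=
  ∑ i, a i * ee γ V i w

/-- the test function used in the integration by parts -/
noncomputable def gg {ι : Type*} [Fintype ι] (a : ι → ℝ) (γ : ℝ) (V : ι → ℝ) (i : ι)
    (w : ι → ℝ) : ℂ :=
  (ee γ V i w : ℂ) * Complex.exp (Complex.I * (SS a γ V w : ℂ))

/-- its derivative in direction `c` -/
noncomputable def DD {ι : Type*} [Fintype ι] (a : ι → ℝ) (γ : ℝ) (V : ι → ℝ) (c : ι → ℝ) (i : ι)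
    (w : ι → ℝ) : ℂ :=
  ((γ * c i : ℝ) : ℂ) * gg a γ V i w +
    Complex.I * ∑ j, ((a j * γ * c j : ℝ) : ℂ) * ((ee γ V j w : ℂ) * gg a γ V i w)

theorem continuous_ee {ι : Type*} (γ : ℝ) (V : ι → ℝ) (i : ι) : Continuous (ee γ V i) := by
  unfold ee; fun_prop

theorem continuous_SS {ι : Type*} [Fintype ι] (a : ι → ℝ) (γ : ℝ) (V : ι → ℝ) :
    Continuous (SS a γ V) := by
  unfold SS
  exact continuous_finsetSum _ fun i _ => continuous_const.mul (continuous_ee γ V i)

theorem continuous_gg {ι : Type*} [Fintype ι] (a : ι → ℝ) (γ : ℝ) (V : ι → ℝ) (i : ι) :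
    Continuous (gg a γ V i) := by
  unfold gg
  exact (Complex.continuous_ofReal.comp (continuous_ee γ V i)).mul
    (Complex.continuous_exp.comp (continuous_const.mul
      (Complex.continuous_ofReal.comp (continuous_SS a γ V))))

theorem continuous_DD {ι : Type*} [Fintype ι] (a : ι → ℝ) (γ : ℝ) (V : ι → ℝ) (c : ι → ℝ)
    (i : ι) : Continuous (DD a γ V c i) := by
  unfold DD
  exact (continuous_const.mul (continuous_gg a γ V i)).add (continuous_const.mul
    (continuous_finsetSum _ fun j _ => continuous_const.mul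
      ((Complex.continuous_ofReal.comp (continuous_ee γ V j)).mul (continuous_gg a γ V i))))

theorem norm_gg {ι : Type*} [Fintype ι] (a : ι → ℝ) (γ : ℝ) (V : ι → ℝ) (i : ι)
    (w : ι → ℝ) : ‖gg a γ V i w‖ = ee γ V i w := by
  unfold gg
  rw [norm_mul, Complex.norm_real, mul_comm Complex.I, Complex.norm_exp_ofReal_mul_I, mul_one,
    Real.norm_of_nonneg]
  unfold ee; positivity

theorem ee_pos {ι : Type*} (γ : ℝ) (V : ι → ℝ) (i : ι) (w : ι → ℝ) : 0 < ee γ V i w := by
  unfold ee; positivity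

theorem hasDerivAt_gg {ι : Type*} [Fintype ι] (a : ι → ℝ) (γ : ℝ) (V : ι → ℝ) (c : ι → ℝ)
    (i : ι) (x : ι → ℝ) (s : ℝ) :
    HasDerivAt (fun s : ℝ => gg a γ V i (x + s • c)) (DD a γ V c i (x + s • c)) s := by
  have h1 : ∀ j, HasDerivAt (fun s : ℝ => ee γ V j (x + s • c))
      (γ * c j * ee γ V j (x + s • c)) s := by
    intro j
    unfold ee
    have h2 : HasDerivAt (fun s : ℝ => γ * (x + s • c) j - γ ^ 2 / 2 * V j) (γ * c j) s := by
      have h3 : HasDerivAt (fun s : ℝ => x j + s * c j) (c j) s := by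
        simpa using ((hasDerivAt_id s).mul_const (c j)).const_add (x j)
      have h4 := (h3.const_mul γ).sub_const (γ ^ 2 / 2 * V j)
      exact h4
    have h5 := h2.exp
    rw [mul_comm (Real.exp _)] at h5
    exact h5
  have h2 : HasDerivAt (fun s : ℝ => SS a γ V (x + s • c))
      (∑ j, a j * (γ * c j * ee γ V j (x + s • c))) s := by
    unfold SS
    exact HasDerivAt.fun_sum fun j _ => (h1 j).const_mul (a j)
  have h3 : HasDerivAt (fun s : ℝ => Complex.exp (Complex.I * (SS a γ V (x + s • c) : ℂ)))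
      (Complex.exp (Complex.I * (SS a γ V (x + s • c) : ℂ)) *
        (Complex.I * ((∑ j, a j * (γ * c j * ee γ V j (x + s • c)) : ℝ) : ℂ))) s :=
    (h2.ofReal_comp.const_mul Complex.I).cexp
  have h4 := (h1 i).ofReal_comp.mul h3
  have e : (((γ * c i * ee γ V i (x + s • c) : ℝ)) : ℂ) *
        Complex.exp (Complex.I * (SS a γ V (x + s • c) : ℂ)) +
      (ee γ V i (x + s • c) : ℂ) * (Complex.exp (Complex.I * (SS a γ V (x + s • c) : ℂ)) *
        (Complex.I * ((∑ j, a j * (γ * c j * ee γ V j (x + s • c)) : ℝ) : ℂ))) =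
      DD a γ V c i (x + s • c) := by
    unfold DD gg
    rw [Complex.ofReal_sum, Finset.mul_sum, Finset.mul_sum, Finset.mul_sum, Finset.mul_sum]
    congr 1
    · push_cast; ring
    · refine Finset.sum_congr rfl fun j _ => ?_
      push_cast; ring
  rw [e] at h4
  exact h4

section Core

variable {Ω : Type*} [MeasurableSpace Ω] {Q : Measure Ω} {ι : Type*} [Fintype ι]

/-- interpolated field -/
noncomputable def xt (A B : ι → Ω → ℝ) (t : ℝ) (ω : Ω) (i : ι) : ℝ :=
  Real.cos t * A i ω + Real.sin t * B i ω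

/-- its derivative -/
noncomputable def yt (A B : ι → Ω → ℝ) (t : ℝ) (ω : Ω) (i : ι) : ℝ :=
  -Real.sin t * A i ω + Real.cos t * B i ω

/-- interpolated variance -/
noncomputable def Vt (C C' : ι → ι → ℝ) (t : ℝ) (i : ι) : ℝ :=
  Real.cos t ^ 2 * C i i + Real.sin t ^ 2 * C' i i

theorem cov_lin [IsFiniteMeasure Q] {A B A' B' : Ω → ℝ} (hA : MemLp A 2 Q) (hB : MemLp B 2 Q)
    (hA' : MemLp A' 2 Q) (hB' : MemLp B' 2 Q) (α β α' β' : ℝ)
    (h1 : cov[A, B'; Q] = 0) (h2 : cov[B, A'; Q] = 0) :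
    cov[fun ω => α * A ω + β * B ω, fun ω => α' * A' ω + β' * B' ω; Q] =
      α * α' * cov[A, A'; Q] + β * β' * cov[B, B'; Q] := by
  have e1 : (fun ω => α * A ω + β * B ω) = α • A + β • B := by ext; simp
  have e2 : (fun ω => α' * A' ω + β' * B' ω) = α' • A' + β' • B' := by ext; simp
  rw [e1, e2, covariance_add_left (hA.const_smul _) (hB.const_smul _)
    ((hA'.const_smul _).add (hB'.const_smul _)),
    covariance_add_right (hA.const_smul _) (hA'.const_smul _) (hB'.const_smul _),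
    covariance_add_right (hB.const_smul _) (hA'.const_smul _) (hB'.const_smul _)]
  simp only [covariance_smul_left, covariance_smul_right, h1, h2]
  ring

theorem hasDerivAt_xt (A B : ι → Ω → ℝ) (t : ℝ) (ω : Ω) (i : ι) :
    HasDerivAt (fun t => xt A B t ω i) (yt A B t ω i) t := by
  unfold xt yt
  exact ((Real.hasDerivAt_cos t).mul_const _).add ((Real.hasDerivAt_sin t).mul_const _)

theorem hasDerivAt_Vt (C C' : ι → ι → ℝ) (t : ℝ) (i : ι) :
    HasDerivAt (fun t => Vt C C' t i)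
      (2 * (Real.sin t * Real.cos t) * (C' i i - C i i)) t := by
  unfold Vt
  have h1 := ((Real.hasDerivAt_cos t).fun_pow 2).mul_const (C i i)
  have h2 := ((Real.hasDerivAt_sin t).fun_pow 2).mul_const (C' i i)
  have h3 := h1.add h2
  refine h3.congr_deriv ?_
  simp
  ring

/-- derivative of the integrand -/
noncomputable def fd (a : ι → ℝ) (γ : ℝ) (A B : ι → Ω → ℝ) (C C' : ι → ι → ℝ) (t : ℝ) (ω : Ω) : ℂ :=
  Complex.I * ∑ i, (a i : ℂ) * ((γ : ℂ) * ((yt A B t ω i : ℂ) * gg a γ (Vt C C' t) i (xt A B t ω)) -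
    ((γ ^ 2 * (Real.sin t * Real.cos t) * (C' i i - C i i) : ℝ) : ℂ) *
      gg a γ (Vt C C' t) i (xt A B t ω))

theorem hasDerivAt_integrand (a : ι → ℝ) (γ : ℝ) (A B : ι → Ω → ℝ) (C C' : ι → ι → ℝ)
    (t : ℝ) (ω : Ω) :
    HasDerivAt (fun t => Complex.exp (Complex.I * (SS a γ (Vt C C' t) (xt A B t ω) : ℂ)))
      (fd a γ A B C C' t ω) t := by
  have h1 : ∀ i, HasDerivAt (fun t => ee γ (Vt C C' t) i (xt A B t ω))
      (ee γ (Vt C C' t) i (xt A B t ω) * (γ * yt A B t ω i -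
        γ ^ 2 * (Real.sin t * Real.cos t) * (C' i i - C i i))) t := by
    intro i
    unfold ee
    have h2 := ((hasDerivAt_xt A B t ω i).const_mul γ).fun_sub
      ((hasDerivAt_Vt C C' t i).const_mul (γ ^ 2 / 2))
    have h3 := h2.exp
    refine h3.congr_deriv ?_
    ring
  have h2 : HasDerivAt (fun t => SS a γ (Vt C C' t) (xt A B t ω))
      (∑ i, a i * (ee γ (Vt C C' t) i (xt A B t ω) * (γ * yt A B t ω i -
        γ ^ 2 * (Real.sin t * Real.cos t) * (C' i i - C i i)))) t := by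
    unfold SS
    exact HasDerivAt.fun_sum fun j _ => (h1 j).const_mul (a j)
  have h3 := (h2.ofReal_comp.const_mul Complex.I).cexp
  refine h3.congr_deriv ?_
  unfold fd gg
  rw [Complex.ofReal_sum, Finset.mul_sum, Finset.mul_sum, Finset.mul_sum]
  refine Finset.sum_congr rfl fun i _ => ?_
  push_cast
  ring

variable (A B : ι → Ω → ℝ) (C C' : ι → ι → ℝ) (a : ι → ℝ) (γ : ℝ)

theorem norm_xt_le (t : ℝ) (ω : Ω) (i : ι) :
    |xt A B t ω i| ≤ 2 * ‖((fun i => A i ω), (fun i => B i ω))‖ := by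
  unfold xt
  have h1 : |A i ω| ≤ ‖((fun i => A i ω), (fun i => B i ω))‖ :=
    (norm_le_pi_norm (fun i => A i ω) i).trans (norm_fst_le ((fun i => A i ω), (fun i => B i ω)))
  have h2 : |B i ω| ≤ ‖((fun i => A i ω), (fun i => B i ω))‖ :=
    (norm_le_pi_norm (fun i => B i ω) i).trans (norm_snd_le ((fun i => A i ω), (fun i => B i ω)))
  have h3 := Real.abs_cos_le_one t
  have h4 := Real.abs_sin_le_one t
  calc |Real.cos t * A i ω + Real.sin t * B i ω| ≤ |Real.cos t| * |A i ω| + |Real.sin t| * |B i ω| := by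
        rw [← abs_mul, ← abs_mul]; exact abs_add_le _ _
    _ ≤ 1 * |A i ω| + 1 * |B i ω| := by gcongr
    _ ≤ _ := by linarith

theorem norm_yt_le (t : ℝ) (ω : Ω) (i : ι) :
    |yt A B t ω i| ≤ 2 * ‖((fun i => A i ω), (fun i => B i ω))‖ := by
  unfold yt
  have h1 : |A i ω| ≤ ‖((fun i => A i ω), (fun i => B i ω))‖ :=
    (norm_le_pi_norm (fun i => A i ω) i).trans (norm_fst_le ((fun i => A i ω), (fun i => B i ω)))
  have h2 : |B i ω| ≤ ‖((fun i => A i ω), (fun i => B i ω))‖ :=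
    (norm_le_pi_norm (fun i => B i ω) i).trans (norm_snd_le ((fun i => A i ω), (fun i => B i ω)))
  have h3 := Real.abs_cos_le_one t
  have h4 := Real.abs_sin_le_one t
  calc |-Real.sin t * A i ω + Real.cos t * B i ω| ≤ |-Real.sin t| * |A i ω| + |Real.cos t| * |B i ω| := by
        rw [← abs_mul, ← abs_mul]; exact abs_add_le _ _
    _ ≤ 1 * |A i ω| + 1 * |B i ω| := by rw [abs_neg]; gcongr
    _ ≤ _ := by linarith

theorem ee_le {V : ι → ℝ} (hV : ∀ i, 0 ≤ V i) (i : ι) (w : ι → ℝ) {r : ℝ} (hw : |w i| ≤ r) :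
    ee γ V i w ≤ Real.exp (|γ| * r) := by
  unfold ee
  apply Real.exp_le_exp.2
  have h1 : γ * w i ≤ |γ| * r := by
    calc γ * w i ≤ |γ * w i| := le_abs_self _
      _ = |γ| * |w i| := abs_mul _ _
      _ ≤ _ := by gcongr
  have h2 := hV i
  nlinarith [sq_nonneg γ, mul_nonneg (sq_nonneg γ) h2]

end Core

end Pool.Agent.helper9.GMC
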