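import Mathlib
import Pool.Agent.helper9.MonteCarlo

/-!
Isonormal Gaussian process over a real Hilbert space.
-/

open MeasureTheory ProbabilityTheory Filter Topology Set
open scoped ENNReal NNReal

namespace Pool.Agent.helper9.GMC

section Closed

variable {Ω : Type*} [MeasurableSpace Ω] (P : Measure Ω) [IsProbabilityMeasure P]

/-- characteristic function of an element of `L²` -/
noncomputable def Ch (t : ℝ) (Y : Lp ℝ 2 P) : ℂ :=
  ∫ ω, Complex.exp (Complex.I * ((t * Y ω : ℝ) : ℂ)) ∂P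

theorem integral_abs_le_norm (Y : Lp ℝ 2 P) : ∫ ω, |Y ω| ∂P ≤ ‖Y‖ := by
  have h1 : MemLp (Y : Ω → ℝ) 2 P := Lp.memLp Y
  have h2 : ∫ ω, |Y ω| ∂P = (eLpNorm (Y : Ω → ℝ) 1 P).toReal := by
    rw [eLpNorm_one_eq_lintegral_enorm, integral_eq_lintegral_of_nonneg_ae
      (ae_of_all _ fun _ => abs_nonneg _) (h1.aestronglyMeasurable.norm)]
    congr 1
    refine lintegral_congr fun ω => ?_
    rw [← ofReal_norm, Real.norm_eq_abs]
  rw [h2, Lp.norm_def]
  refine ENNReal.toReal_mono (Lp.eLpNorm_ne_top Y) ?_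
  exact eLpNorm_le_eLpNorm_of_exponent_le (by norm_num) h1.aestronglyMeasurable

theorem integrable_cexp (t : ℝ) (Y : Lp ℝ 2 P) :
    Integrable (fun ω => Complex.exp (Complex.I * ((t * Y ω : ℝ) : ℂ))) P := by
  have h1 : AEMeasurable (fun ω => Y ω) P := (Lp.aestronglyMeasurable Y).aemeasurable
  have h2 : AEMeasurable (fun ω => Complex.exp (Complex.I * ((t * Y ω : ℝ) : ℂ))) P := by
    fun_prop
  refine (integrable_const (1 : ℝ)).mono' h2.aestronglyMeasurable (ae_of_all _ fun ω => ?_)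
  rw [mul_comm, Complex.norm_exp_ofReal_mul_I]

theorem norm_Ch_sub_le (t : ℝ) (Y Y' : Lp ℝ 2 P) : ‖Ch P t Y - Ch P t Y'‖ ≤ |t| * ‖Y - Y'‖ := by
  unfold Ch
  rw [← integral_sub (integrable_cexp P t Y) (integrable_cexp P t Y')]
  refine (norm_integral_le_integral_norm _).trans ?_
  have h1 : Integrable (fun ω => |(Y - Y' : Lp ℝ 2 P) ω|) P :=
    ((Lp.memLp (Y - Y')).integrable (by norm_num)).abs
  calc ∫ ω, ‖Complex.exp (Complex.I * ((t * Y ω : ℝ) : ℂ)) -
        Complex.exp (Complex.I * ((t * Y' ω : ℝ) : ℂ))‖ ∂P ≤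
      ∫ ω, |t| * |(Y - Y' : Lp ℝ 2 P) ω| ∂P := by
        refine integral_mono_ae ((integrable_cexp P t Y).sub (integrable_cexp P t Y')).norm
          (h1.const_mul _) ?_
        filter_upwards [Lp.coeFn_sub Y Y'] with ω hω
        rw [hω, Pi.sub_apply, ← abs_mul, mul_sub]
        exact norm_cexp_sub_le _ _
    _ = |t| * ∫ ω, |(Y - Y' : Lp ℝ 2 P) ω| ∂P := integral_const_mul _ _
    _ ≤ _ := mul_le_mul_of_nonneg_left (integral_abs_le_norm P _) (abs_nonneg t)

theorem continuous_Ch (t : ℝ) : Continuous (Ch P t) := by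
  refine LipschitzWith.continuous (K := ⟨|t|, abs_nonneg t⟩) ?_
  refine LipschitzWith.of_dist_le_mul fun Y Y' => ?_
  rw [dist_eq_norm, dist_eq_norm]
  exact norm_Ch_sub_le P t Y Y'

/-- `Y` is centred Gaussian with variance `‖Y‖²` -/
def CG (Y : Lp ℝ 2 P) : Prop := ∀ t : ℝ, Ch P t Y = Complex.exp (-(((t ^ 2 * ‖Y‖ ^ 2 / 2 : ℝ) : ℂ)))

theorem isClosed_CG : IsClosed {Y | CG P Y} := by
  have : {Y | CG P Y} = ⋂ t : ℝ, {Y | Ch P t Y = Complex.exp (-(((t ^ 2 * ‖Y‖ ^ 2 / 2 : ℝ) : ℂ)))} := by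
    ext Y
    simp [CG]
  rw [this]
  refine isClosed_iInter fun t => isClosed_eq (continuous_Ch P t) ?_
  fun_prop

variable {P}

theorem CG.map_eq {Y : Lp ℝ 2 P} (h : CG P Y) :
    P.map (Y : Ω → ℝ) = gaussianReal 0 (‖Y‖ ^ 2).toNNReal := by
  have hm : AEMeasurable (fun ω => Y ω) P := (Lp.aestronglyMeasurable Y).aemeasurable
  have := Measure.isProbabilityMeasure_map hm
  refine Measure.ext_of_charFun ?_
  ext t
  rw [charFun_gaussianReal, charFun_apply_real, integral_map hm (by fun_prop)]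
  have h1 := h t
  unfold Ch at h1
  have h2 : ∫ ω, Complex.exp (t * Y ω * Complex.I) ∂P =
      ∫ ω, Complex.exp (Complex.I * ((t * Y ω : ℝ) : ℂ)) ∂P := by
    refine integral_congr_ae (ae_of_all _ fun ω => ?_)
    beta_reduce
    congr 1
    push_cast
    ring
  rw [h2, h1]
  rw [Real.coe_toNNReal _ (sq_nonneg _)]
  congr 1
  push_cast
  ring

end Closed

section Basis

variable (w : Type*)

/-- the underlying probability measure -/
noncomputable def PP : Measure (w → ℝ) := Measure.infinitePi fun _ => gaussianReal 0 1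

instance : IsProbabilityMeasure (PP w) := by unfold PP; infer_instance

theorem mp_eval (i : w) : MeasurePreserving (fun ω : w → ℝ => ω i) (PP w) (gaussianReal 0 1) :=
  measurePreserving_eval_infinitePi _ i

theorem memLp_eval (i : w) : MemLp (fun ω : w → ℝ => ω i) 2 (PP w) :=
  (memLp_id_gaussianReal' (μ := 0) (v := 1) 2 (by norm_num)).comp_measurePreserving (mp_eval w i)

theorem indep_eval : iIndepFun (fun (i : w) (ω : w → ℝ) => ω i) (PP w) := by
  unfold PP
  exact iIndepFun_infinitePi (X := fun (_ : w) (x : ℝ) => x) (fun _ => measurable_id)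

theorem integral_eval (i : w) : ∫ ω : w → ℝ, ω i ∂(PP w) = 0 := by
  have h1 : ∫ x, x ∂(gaussianReal 0 1) = ∫ ω : w → ℝ, ω i ∂(PP w) := by
    rw [← (mp_eval w i).map_eq, integral_map (mp_eval w i).aemeasurable (by fun_prop)]
  rw [← h1, integral_id_gaussianReal]

theorem variance_eval (i : w) : Var[fun ω : w → ℝ => ω i; PP w] = 1 := by
  have h1 := (mp_eval w i).variance_fun_comp (f := fun x => x) (by fun_prop)
  rw [h1, variance_fun_id_gaussianReal]
  simp

theorem integral_mul_eval (i j : w) [Decidable (i = j)] :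
    ∫ ω : w → ℝ, ω i * ω j ∂(PP w) = if i = j then 1 else 0 := by
  split_ifs with h
  · subst h
    have h1 := variance_eval w i
    rw [variance_eq_sub (memLp_eval w i), integral_eval] at h1
    simp only [ne_eq, OfNat.ofNat_ne_zero, not_false_eq_true, zero_pow, sub_zero] at h1
    rw [← h1]
    refine integral_congr_ae (ae_of_all _ fun ω => ?_)
    simp [pow_two]
  · have h1 := ((indep_eval w).indepFun h).integral_fun_mul_eq_mul_integral
      (memLp_eval w i).aestronglyMeasurable (memLp_eval w j).aestronglyMeasurable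
    rw [integral_eval, zero_mul] at h1
    exact h1

/-- the coordinate as an element of `L²` -/
noncomputable def xi (i : w) : Lp ℝ 2 (PP w) := (memLp_eval w i).toLp

theorem inner_xi (i j : w) [Decidable (i = j)] : inner ℝ (xi w i) (xi w j) = if i = j then 1 else 0 := by
  rw [L2.inner_def, ← integral_mul_eval w i j]
  refine integral_congr_ae ?_
  filter_upwards [(memLp_eval w i).coeFn_toLp, (memLp_eval w j).coeFn_toLp] with ω h1 h2
  unfold xi
  rw [h1, h2]
  simp [mul_comm]

theorem orthonormal_xi : Orthonormal ℝ (xi w) := by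
  classical
  rw [orthonormal_iff_ite]
  intro i j
  rw [inner_xi]

/-- the isometry from `ℓ²` -/
noncomputable def Phi : lp (fun _ : w => ℝ) 2 →ₗᵢ[ℝ] Lp ℝ 2 (PP w) :=
  (orthonormal_xi w).orthogonalFamily.linearIsometry

theorem coeFn_fsum (s : Finset w) (f : w → Lp ℝ 2 (PP w)) :
    ((∑ i ∈ s, f i : Lp ℝ 2 (PP w)) : (w → ℝ) → ℝ) =ᵐ[PP w]
      ∑ i ∈ s, ((f i : Lp ℝ 2 (PP w)) : (w → ℝ) → ℝ) := by
  classical
  induction s using Finset.induction_on with
  | empty => simpa using Lp.coeFn_zero ℝ 2 (PP w)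
  | insert a s ha ih =>
    rw [Finset.sum_insert ha, Finset.sum_insert ha]
    exact (Lp.coeFn_add _ _).trans (EventuallyEq.rfl.add ih)

theorem CG_finset (s : Finset w) (c : w → ℝ) : CG (PP w) (∑ i ∈ s, c i • xi w i) := by
  intro t
  have hlaw : HasGaussianLaw (fun (ω : w → ℝ) (i : s) => ω i) (PP w) := by
    refine iIndepFun.hasGaussianLaw (X := fun (i : s) (ω : w → ℝ) => ω i) (fun i => ?_)
      ((indep_eval w).precomp Subtype.val_injective)
    constructor
    rw [(mp_eval w i).map_eq]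
    infer_instance
  have hsum : HasGaussianLaw (fun ω : w → ℝ => ∑ i : s, c i * ω i) (PP w) := by
    let L : (s → ℝ) →L[ℝ] ℝ := ∑ i : s, c i • ContinuousLinearMap.proj (R := ℝ) (φ := fun _ => ℝ) i
    have := hlaw.map_fun L
    refine this.congr (ae_of_all _ fun ω => ?_)
    simp [L]
  have hmean : ∫ ω : w → ℝ, ∑ i : s, c i * ω i ∂(PP w) = 0 := by
    rw [integral_finsetSum (Finset.univ : Finset s) (f := fun i (ω : w → ℝ) => c i * ω i)
      (fun i _ => ((memLp_eval w i).integrable (by norm_num)).const_mul _)]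
    simp [integral_const_mul, integral_eval]
  have hvar : Var[fun ω : w → ℝ => ∑ i : s, c i * ω i; PP w] = ∑ i : s, c i ^ 2 := by
    have e : (fun ω : w → ℝ => ∑ i : s, c i * ω i) = ∑ i : s, fun ω : w → ℝ => c i * ω i := by
      ext ω; simp
    rw [e, IndepFun.variance_sum (s := (Finset.univ : Finset s))
      (X := fun (i : s) (ω : w → ℝ) => c i * ω i) (fun i _ => (memLp_eval w i).const_mul _)]
    · refine Finset.sum_congr rfl fun i _ => ?_
      rw [variance_const_mul, variance_eval, mul_one]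
    · intro i _ j _ hij
      have := (indep_eval w).indepFun (i := (i : w)) (j := (j : w)) (fun h => hij (Subtype.ext h))
      exact this.comp (φ := fun x => c i * x) (ψ := fun x => c j * x) (by fun_prop) (by fun_prop)
  have hnorm : ‖∑ i ∈ s, c i • xi w i‖ ^ 2 = ∑ i : s, c i ^ 2 := by
    rw [← real_inner_self_eq_norm_sq, (orthonormal_xi w).inner_sum]
    rw [Finset.sum_coe_sort s (fun i => c i ^ 2)]
    refine Finset.sum_congr rfl fun i _ => ?_
    simp [pow_two]
  have hae : ((∑ i ∈ s, c i • xi w i : Lp ℝ 2 (PP w)) : (w → ℝ) → ℝ) =ᵐ[PP w]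
      fun ω => ∑ i : s, c i * ω i := by
    have h1 := coeFn_fsum w s (fun i => c i • xi w i)
    have h2 : ∀ᵐ ω ∂(PP w), ∀ i : s, (c i • xi w i : Lp ℝ 2 (PP w)) ω = c i * ω i := by
      rw [ae_all_iff]
      intro i
      filter_upwards [Lp.coeFn_smul (c i) (xi w i), (memLp_eval w i).coeFn_toLp] with ω h3 h4
      rw [h3, Pi.smul_apply, smul_eq_mul]
      unfold xi
      rw [h4]
    filter_upwards [h1, h2] with ω h3 h4
    rw [h3, Finset.sum_apply, ← Finset.sum_coe_sort s (fun i => (c i • xi w i : Lp ℝ 2 (PP w)) ω)]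
    exact Finset.sum_congr rfl fun i _ => h4 i
  have hch : Ch (PP w) t (∑ i ∈ s, c i • xi w i) =
      charFun ((PP w).map fun ω => ∑ i : s, c i * ω i) t := by
    rw [charFun_apply_real, integral_map hsum.aemeasurable (by fun_prop)]
    unfold Ch
    refine integral_congr_ae ?_
    filter_upwards [hae] with ω hω
    rw [hω]
    congr 1
    push_cast
    ring
  rw [hch, hsum.map_eq_gaussianReal, charFun_gaussianReal, hmean, hvar, hnorm,
    Real.coe_toNNReal _ (Finset.sum_nonneg fun i _ => sq_nonneg _)]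
  congr 1
  push_cast
  ring

theorem CG_Phi (f : lp (fun _ : w => ℝ) 2) : CG (PP w) (Phi w f) := by
  have h1 : HasSum (fun i => f i • xi w i) (Phi w f) :=
    (orthonormal_xi w).orthogonalFamily.hasSum_linearIsometry f
  have h2 : Phi w f ∈ {Y | CG (PP w) Y} :=
    (isClosed_CG (PP w)).mem_of_tendsto h1 (Eventually.of_forall fun s => CG_finset w s _)
  exact h2

end Basis

theorem exists_isonormal (H : Type*) [NormedAddCommGroup H] [InnerProductSpace ℝ H]
    [CompleteSpace H] : ∃ (w : Set H) (W : H →ₗᵢ[ℝ] Lp ℝ 2 (PP w)), ∀ h, CG (PP w) (W h) := by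
  obtain ⟨w, b, hb⟩ := exists_hilbertBasis ℝ H
  exact ⟨w, (Phi w).comp b.repr.toLinearIsometry, fun h => CG_Phi w _⟩

end Pool.Agent.helper9.GMC
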