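import Pool.Agent.helper9.ForestSum

set_option autoImplicit false
set_option linter.unusedSectionVars false

/-!
# Parking functions on finite sets, cuts and prime parking functions
-/

namespace Pool.Agent.helper9.Parking

open Finset Polynomial SetRec ForestOrd

variable {α : Type*} [LinearOrder α] [Fintype α]

/-- `a` is a parking function (with values starting at `0`) on the finite set `V`, extended by
`0` outside `V`. -/
structure IsPF (V : Finset α) (a : α → ℕ) : Prop where
  zero : ∀ x, x ∉ V → a x = 0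
  park : ∀ i, i ≤ V.card → i ≤ (V.filter (fun x => a x < i)).card

theorem IsPF.lt {V : Finset α} {a : α → ℕ} (h : IsPF V a) {x : α} (hx : x ∈ V) :
    a x < V.card := by
  have h1 := h.park V.card (le_refl _)
  have h2 : V.filter (fun x => a x < V.card) = V :=
    Finset.eq_of_subset_of_card_le (Finset.filter_subset _ _) h1
  rw [← h2, Finset.mem_filter] at hx
  exact hx.2

open Classical in
/-- all parking functions on `V` -/
noncomputable def PF (V : Finset α) : Finset (α → ℕ) :=
  (Fintype.piFinset (fun _ => Finset.range (V.card + 1))).filter (IsPF V)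

theorem mem_PF {V : Finset α} {a : α → ℕ} : a ∈ PF V ↔ IsPF V a := by
  classical
  unfold PF
  rw [Finset.mem_filter, Fintype.mem_piFinset]
  refine ⟨fun h => h.2, fun h => ⟨fun x => ?_, h⟩⟩
  rw [Finset.mem_range]
  by_cases hx : x ∈ V
  · have := h.lt hx
    omega
  · rw [h.zero x hx]
    omega

/-- `∑ a ≤ n choose 2` -/
theorem IsPF.sum_le {V : Finset α} {a : α → ℕ} (h : IsPF V a) :
    ∑ x ∈ V, a x ≤ V.card.choose 2 := by
  have h1 : ∑ x ∈ V, a x = ∑ i ∈ Finset.range V.card, (V.filter (fun x => i < a x)).card := by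
    simp only [Finset.card_filter]
    rw [Finset.sum_comm]
    refine Finset.sum_congr rfl fun x hx => ?_
    have h2 := h.lt hx
    rw [← Finset.card_filter]
    have : (Finset.range V.card).filter (fun i => i < a x) = Finset.range (a x) := by
      ext i
      rw [Finset.mem_filter, Finset.mem_range, Finset.mem_range]
      omega
    rw [this, Finset.card_range]
  rw [h1, Nat.choose_two_right, ← Finset.sum_range_id,
    ← Finset.sum_range_reflect (fun i => i)]
  refine Finset.sum_le_sum fun i hi => ?_
  rw [Finset.mem_range] at hi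
  have h2 := h.park (i + 1) hi
  have h3 := Finset.card_filter_add_card_filter_not (s := V) (fun x => a x < i + 1)
  have h4 : V.filter (fun x => ¬ a x < i + 1) = V.filter (fun x => i < a x) := by
    refine Finset.filter_congr fun x _ => ?_
    omega
  rw [h4] at h3
  omega

/-- `C` consists of the cars with preference less than `C.card` -/
def IsCut (V : Finset α) (a : α → ℕ) (C : Finset α) : Prop :=
  C ⊆ V ∧ ∀ x ∈ V, x ∈ C ↔ a x < C.card

/-- concatenation -/
def cat (V C : Finset α) (a₁ a₂ : α → ℕ) (x : α) : ℕ :=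
  if x ∈ C then a₁ x else if x ∈ V then C.card + a₂ x else 0

/-- restriction -/
def res (C : Finset α) (a : α → ℕ) (x : α) : ℕ := if x ∈ C then a x else 0

/-- shifted restriction to the complement -/
def shf (V C : Finset α) (a : α → ℕ) (x : α) : ℕ := if x ∈ V \ C then a x - C.card else 0

theorem isPF_cat {V C : Finset α} {a₁ a₂ : α → ℕ} (hC : C ⊆ V) (h₁ : IsPF C a₁)
    (h₂ : IsPF (V \ C) a₂) : IsPF V (cat V C a₁ a₂) := by
  constructor
  · intro x hx
    unfold cat
    rw [if_neg (fun h => hx (hC h)), if_neg hx]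
  · intro i hi
    by_cases hiC : i ≤ C.card
    · refine (h₁.park i hiC).trans (Finset.card_le_card ?_)
      intro x hx
      rw [Finset.mem_filter] at hx ⊢
      refine ⟨hC hx.1, ?_⟩
      unfold cat
      rw [if_pos hx.1]
      exact hx.2
    · have hVC : (V \ C).card = V.card - C.card := Finset.card_sdiff_of_subset hC
      have h3 := h₂.park (i - C.card) (by omega)
      have h4 : Disjoint C ((V \ C).filter (fun x => a₂ x < i - C.card)) := by
        rw [Finset.disjoint_left]
        intro x hx hx'
        rw [Finset.mem_filter, Finset.mem_sdiff] at hx'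
        exact hx'.1.2 hx
      have h5 : C ∪ ((V \ C).filter (fun x => a₂ x < i - C.card))
          ⊆ V.filter (fun x => cat V C a₁ a₂ x < i) := by
        intro x hx
        rw [Finset.mem_union, Finset.mem_filter, Finset.mem_sdiff] at hx
        rw [Finset.mem_filter]
        unfold cat
        rcases hx with hx | ⟨⟨hxV, hxC⟩, hx⟩
        · refine ⟨hC hx, ?_⟩
          rw [if_pos hx]
          have := h₁.lt hx
          omega
        · refine ⟨hxV, ?_⟩
          rw [if_neg hxC, if_pos hxV]
          omega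
      have h6 := Finset.card_le_card h5
      rw [Finset.card_union_of_disjoint h4] at h6
      omega

theorem isCut_cat {V C : Finset α} {a₁ a₂ : α → ℕ} (hC : C ⊆ V) (h₁ : IsPF C a₁) :
    IsCut V (cat V C a₁ a₂) C := by
  refine ⟨hC, fun x hx => ?_⟩
  unfold cat
  by_cases hxC : x ∈ C
  · rw [if_pos hxC]
    exact ⟨fun _ => h₁.lt hxC, fun _ => hxC⟩
  · rw [if_neg hxC, if_pos hx]
    constructor
    · intro h
      exact absurd h hxC
    · intro h
      omega

theorem isPF_res {V C : Finset α} {a : α → ℕ} (h : IsPF V a) (hC : IsCut V a C) :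
    IsPF C (res C a) := by
  constructor
  · intro x hx
    unfold res
    rw [if_neg hx]
  · intro i hi
    refine (h.park i (hi.trans (Finset.card_le_card hC.1))).trans (Finset.card_le_card ?_)
    intro x hx
    rw [Finset.mem_filter] at hx ⊢
    have hxC : x ∈ C := (hC.2 x hx.1).2 (by omega)
    refine ⟨hxC, ?_⟩
    unfold res
    rw [if_pos hxC]
    exact hx.2

theorem isPF_shf {V C : Finset α} {a : α → ℕ} (h : IsPF V a) (hC : IsCut V a C) :
    IsPF (V \ C) (shf V C a) := by
  constructor
  · intro x hx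
    unfold shf
    rw [if_neg hx]
  · intro i hi
    rcases Nat.eq_zero_or_pos i with rfl | hi0
    · exact Nat.zero_le _
    have hVC : (V \ C).card = V.card - C.card := Finset.card_sdiff_of_subset hC.1
    have hle := Finset.card_le_card hC.1
    have h1 := h.park (i + C.card) (by omega)
    have h2 : V.filter (fun x => a x < i + C.card)
        ⊆ C ∪ (V \ C).filter (fun x => shf V C a x < i) := by
      intro x hx
      rw [Finset.mem_filter] at hx
      rw [Finset.mem_union, Finset.mem_filter]
      by_cases hxC : x ∈ C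
      · exact Or.inl hxC
      · right
        refine ⟨Finset.mem_sdiff.2 ⟨hx.1, hxC⟩, ?_⟩
        unfold shf
        rw [if_pos (Finset.mem_sdiff.2 ⟨hx.1, hxC⟩)]
        omega
    have h3 := (Finset.card_le_card h2).trans (Finset.card_union_le _ _)
    omega

theorem cat_res_shf {V C : Finset α} {a : α → ℕ} (h : IsPF V a) (hC : IsCut V a C) :
    cat V C (res C a) (shf V C a) = a := by
  funext x
  unfold cat res shf
  by_cases hxC : x ∈ C
  · rw [if_pos hxC, if_pos hxC]
  · rw [if_neg hxC]
    by_cases hxV : x ∈ V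
    · rw [if_pos hxV, if_pos (Finset.mem_sdiff.2 ⟨hxV, hxC⟩)]
      have := mt (hC.2 x hxV).2 hxC
      omega
    · rw [if_neg hxV, h.zero x hxV]

theorem res_cat {V C : Finset α} {a₁ a₂ : α → ℕ} (h₁ : IsPF C a₁) :
    res C (cat V C a₁ a₂) = a₁ := by
  funext x
  simp only [cat, res]
  by_cases hxC : x ∈ C
  · rw [if_pos hxC, if_pos hxC]
  · rw [if_neg hxC, h₁.zero x hxC]

theorem shf_cat {V C : Finset α} {a₁ a₂ : α → ℕ} (h₂ : IsPF (V \ C) a₂) :
    shf V C (cat V C a₁ a₂) = a₂ := by
  funext x
  simp only [cat, shf]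
  by_cases hx : x ∈ V \ C
  · rw [if_pos hx]
    rw [Finset.mem_sdiff] at hx
    rw [if_neg hx.2, if_pos hx.1]
    omega
  · rw [if_neg hx, h₂.zero x hx]

/-- the area statistic -/
def area (V : Finset α) (a : α → ℕ) : ℕ := V.card.choose 2 - ∑ x ∈ V, a x

theorem choose_two_add (m n : ℕ) : (m + n).choose 2 = m.choose 2 + n.choose 2 + m * n := by
  induction n with
  | zero => simp
  | succ n ih =>
    rw [← Nat.add_assoc, Nat.choose_succ_succ' (m + n) 1, Nat.choose_succ_succ' n 1, ih,
      Nat.choose_one_right, Nat.choose_one_right]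
    ring

theorem area_cat {V C : Finset α} {a₁ a₂ : α → ℕ} (hC : C ⊆ V) (h₁ : IsPF C a₁)
    (h₂ : IsPF (V \ C) a₂) : area V (cat V C a₁ a₂) = area C a₁ + area (V \ C) a₂ := by
  unfold area
  have e1 : ∑ x ∈ V, cat V C a₁ a₂ x = ∑ x ∈ C, a₁ x + (C.card * (V \ C).card
      + ∑ x ∈ V \ C, a₂ x) := by
    rw [← Finset.sum_sdiff hC, add_comm]
    congr 1
    · refine Finset.sum_congr rfl fun x hx => ?_
      unfold cat
      rw [if_pos hx]
    · have : ∀ x ∈ V \ C, cat V C a₁ a₂ x = C.card + a₂ x := by
        intro x hx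
        rw [Finset.mem_sdiff] at hx
        unfold cat
        rw [if_neg hx.2, if_pos hx.1]
      rw [Finset.sum_congr rfl this, Finset.sum_add_distrib, Finset.sum_const, smul_eq_mul,
        mul_comm]
  have e2 : V.card = C.card + (V \ C).card := by
    rw [Finset.card_sdiff_of_subset hC]
    have := Finset.card_le_card hC
    omega
  have e3 := h₁.sum_le
  have e4 := h₂.sum_le
  rw [e1, e2, choose_two_add]
  omega

theorem isCut_res {V C C' : Finset α} {a : α → ℕ} (hC : IsCut V a C) (hC' : C' ⊆ C) :
    IsCut C (res C a) C' ↔ IsCut V a C' := by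
  have hc := Finset.card_le_card hC'
  constructor
  · rintro ⟨_, h⟩
    refine ⟨hC'.trans hC.1, fun x hx => ?_⟩
    by_cases hxC : x ∈ C
    · rw [h x hxC]
      unfold res
      rw [if_pos hxC]
    · have := mt (hC.2 x hx).2 hxC
      constructor
      · intro h'
        exact absurd (hC' h') hxC
      · intro h'
        omega
  · rintro ⟨_, h⟩
    refine ⟨hC', fun x hx => ?_⟩
    rw [h x (hC.1 hx)]
    unfold res
    rw [if_pos hx]

theorem isCut_self {V : Finset α} {a : α → ℕ} (h : IsPF V a) : IsCut V a V :=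
  ⟨Finset.Subset.refl _, fun _ hx => ⟨fun _ => h.lt hx, fun _ => hx⟩⟩

theorem IsCut.subset_of_card_le {V C C' : Finset α} {a : α → ℕ} (hC : IsCut V a C)
    (hC' : IsCut V a C') (h : C.card ≤ C'.card) : C ⊆ C' := by
  intro x hx
  rw [hC'.2 x (hC.1 hx)]
  exact lt_of_lt_of_le ((hC.2 x (hC.1 hx)).1 hx) h

/-- `C` is the only cut of `a` (on `C`) with property `Θ` -/
def Min (Θ : Finset α → Prop) (C : Finset α) (a : α → ℕ) : Prop :=
  Θ C ∧ ∀ C', C' ⊆ C → Θ C' → IsCut C a C' → C' = C

theorem existsUnique_cut {Θ : Finset α → Prop} {V : Finset α} {a : α → ℕ} (h : IsPF V a)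
    (hV : Θ V) : ∃! C, IsCut V a C ∧ Min Θ C (res C a) := by
  classical
  have hne : (V.powerset.filter (fun C => IsCut V a C ∧ Θ C)).Nonempty :=
    ⟨V, Finset.mem_filter.2 ⟨Finset.mem_powerset_self _, isCut_self h, hV⟩⟩
  obtain ⟨C, hC, hmin⟩ := Finset.exists_min_image _ (fun C => C.card) hne
  rw [Finset.mem_filter, Finset.mem_powerset] at hC
  refine ⟨C, ⟨hC.2.1, hC.2.2, fun C' hC' hΘ hcut => ?_⟩, ?_⟩
  · rw [isCut_res hC.2.1 hC'] at hcut
    have := hmin C' (Finset.mem_filter.2 ⟨Finset.mem_powerset.2 (hC'.trans hC.1), hcut, hΘ⟩)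
    exact Finset.eq_of_subset_of_card_le hC' this
  · rintro C' ⟨hcut, hΘ, hmin'⟩
    have h1 := hmin C' (Finset.mem_filter.2 ⟨Finset.mem_powerset.2 hcut.1, hcut, hΘ⟩)
    have h2 := hC.2.1.subset_of_card_le hcut h1
    exact (hmin' C h2 hC.2.2 ((isCut_res hcut h2).2 hC.2.1)).symm

/-- area enumerator of parking functions -/
noncomputable def Pk (V : Finset α) : ℤ[X] := ∑ a ∈ PF V, X ^ area V a

open Classical in
/-- area enumerator of the parking functions on `C` with no smaller cut satisfying `Θ` -/
noncomputable def M (Θ : Finset α → Prop) (C : Finset α) : ℤ[X] :=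
  ∑ a ∈ (PF C).filter (Min Θ C), X ^ area C a

theorem Pk_eq_sum {Θ : Finset α → Prop} {V : Finset α} (hV : Θ V) :
    Pk V = ∑ C ∈ V.powerset, M Θ C * Pk (V \ C) := by
  classical
  have h1 : ∀ a ∈ PF V, (X : ℤ[X]) ^ area V a
      = ∑ C ∈ V.powerset, if IsCut V a C ∧ Min Θ C (res C a) then X ^ area V a else 0 := by
    intro a ha
    rw [mem_PF] at ha
    obtain ⟨C, hC, hu⟩ := existsUnique_cut ha hV
    rw [Finset.sum_eq_single_of_mem C (Finset.mem_powerset.2 hC.1.1), if_pos hC]
    intro C' _ hne
    rw [if_neg]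
    intro h
    exact hne (hu C' h)
  unfold Pk
  rw [Finset.sum_congr rfl h1, Finset.sum_comm]
  refine Finset.sum_congr rfl fun C hC => ?_
  rw [Finset.mem_powerset] at hC
  rw [← Finset.sum_filter]
  unfold M
  rw [Finset.sum_mul_sum, ← Finset.sum_product']
  refine Finset.sum_bij' (fun a _ => (res C a, shf V C a)) (fun p _ => cat V C p.1 p.2)
    ?_ ?_ ?_ ?_ ?_
  · intro a ha
    rw [Finset.mem_filter, mem_PF] at ha
    rw [Finset.mem_product, Finset.mem_filter, mem_PF, mem_PF]
    exact ⟨⟨isPF_res ha.1 ha.2.1, ha.2.2⟩, isPF_shf ha.1 ha.2.1⟩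
  · rintro ⟨a₁, a₂⟩ h
    rw [Finset.mem_product, Finset.mem_filter, mem_PF, mem_PF] at h
    simp only at h ⊢
    rw [Finset.mem_filter, mem_PF, res_cat h.1.1]
    exact ⟨isPF_cat hC h.1.1 h.2, isCut_cat hC h.1.1, h.1.2⟩
  · intro a ha
    rw [Finset.mem_filter, mem_PF] at ha
    exact cat_res_shf ha.1 ha.2.1
  · rintro ⟨a₁, a₂⟩ h
    rw [Finset.mem_product, Finset.mem_filter, mem_PF, mem_PF] at h
    simp only at h ⊢
    rw [res_cat h.1.1, shf_cat h.2]
  · intro a ha
    rw [Finset.mem_filter, mem_PF] at ha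
    simp only
    rw [← pow_add, ← area_cat hC (isPF_res ha.1 ha.2.1) (isPF_shf ha.1 ha.2.1),
      cat_res_shf ha.1 ha.2.1]

theorem isPF_erase {C : Finset α} {x₀ : α} (hx₀ : x₀ ∈ C) {a : α → ℕ} (ha : IsPF C a)
    (hmin : Min (fun C' => x₀ ∈ C') C a) : IsPF (C.erase x₀) (Function.update a x₀ 0) := by
  have hcard : (C.erase x₀).card = C.card - 1 := Finset.card_erase_of_mem hx₀
  have hpos : 0 < C.card := Finset.card_pos.2 ⟨x₀, hx₀⟩
  constructor
  · intro x hx
    rw [Finset.mem_erase, not_and_or, not_not] at hx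
    simp only [Function.update_apply]
    split_ifs with h
    · rfl
    · exact ha.zero x (hx.resolve_left h)
  · intro i hi
    rw [hcard] at hi
    have h1 := ha.park i (by omega)
    have h2 : ((C.erase x₀).filter (fun x => Function.update a x₀ 0 x < i))
        = (C.filter (fun x => a x < i)).erase x₀ := by
      ext x
      simp only [Finset.mem_filter, Finset.mem_erase, Function.update_apply]
      constructor
      · rintro ⟨⟨h3, h4⟩, h5⟩
        rw [if_neg h3] at h5
        exact ⟨h3, h4, h5⟩
      · rintro ⟨h3, h4, h5⟩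
        rw [if_neg h3]
        exact ⟨⟨h3, h4⟩, h5⟩
    rw [h2]
    by_cases hx : a x₀ < i
    · rw [Finset.card_erase_of_mem (Finset.mem_filter.2 ⟨hx₀, hx⟩)]
      rcases h1.lt_or_eq with h3 | h3
      · omega
      · exfalso
        have h4 := hmin.2 (C.filter (fun x => a x < i)) (Finset.filter_subset _ _)
          (Finset.mem_filter.2 ⟨hx₀, hx⟩) ⟨Finset.filter_subset _ _, fun x hx' => by
            rw [Finset.mem_filter, ← h3]
            exact ⟨fun h => h.2, fun h => ⟨hx', h⟩⟩⟩
        rw [h4] at h3
        omega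
    · have hnot : x₀ ∉ C.filter (fun x => a x < i) := fun h => hx (Finset.mem_filter.1 h).2
      rw [Finset.erase_eq_of_notMem hnot]
      exact h1

/-- The parking functions on `C` for which no proper cut contains `x₀`. -/
theorem M_mem {C : Finset α} {x₀ : α} (hx₀ : x₀ ∈ C) :
    M (fun C' => x₀ ∈ C') C = qi C.card * Pk (C.erase x₀) := by
  classical
  have hcard : (C.erase x₀).card = C.card - 1 := Finset.card_erase_of_mem hx₀
  have hpos : 0 < C.card := Finset.card_pos.2 ⟨x₀, hx₀⟩
  have hq : qi C.card = ∑ t ∈ Finset.range C.card, (X : ℤ[X]) ^ (C.card - 1 - t) := by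
    unfold qi
    rw [Finset.sum_range_reflect (fun j => (X : ℤ[X]) ^ j)]
  unfold M Pk
  rw [hq, Finset.sum_mul_sum, ← Finset.sum_product']
  refine Finset.sum_bij' (fun a _ => (a x₀, Function.update a x₀ 0))
    (fun p _ => Function.update p.2 x₀ p.1) ?_ ?_ ?_ ?_ ?_
  · intro a ha
    rw [Finset.mem_filter, mem_PF] at ha
    rw [Finset.mem_product, mem_PF, Finset.mem_range]
    exact ⟨ha.1.lt hx₀, isPF_erase hx₀ ha.1 ha.2⟩
  · rintro ⟨t, b⟩ h
    rw [Finset.mem_product, mem_PF, Finset.mem_range] at h
    simp only at h ⊢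
    obtain ⟨ht, hb⟩ := h
    have h2 : ∀ i, (C.erase x₀).filter (fun x => b x < i)
        ⊆ C.filter (fun x => Function.update b x₀ t x < i) := by
      intro i x
      simp only [Finset.mem_filter, Finset.mem_erase, Function.update_apply]
      rintro ⟨⟨h3, h4⟩, h5⟩
      rw [if_neg h3]
      exact ⟨h4, h5⟩
    rw [Finset.mem_filter, mem_PF]
    refine ⟨⟨?_, ?_⟩, hx₀, ?_⟩
    · intro x hx
      rw [Function.update_apply]
      have hne : x ≠ x₀ := by
        rintro rfl
        exact hx hx₀
      rw [if_neg hne]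
      exact hb.zero x (fun h => hx (Finset.mem_of_mem_erase h))
    · intro i hi
      by_cases hi' : i ≤ C.card - 1
      · exact (hb.park i (by omega)).trans (Finset.card_le_card (h2 i))
      · have hi'' : i = C.card := by omega
        rw [Finset.filter_true_of_mem, hi'']
        intro x hx
        rw [Function.update_apply]
        split_ifs with h
        · omega
        · have := hb.lt (Finset.mem_erase.2 ⟨h, hx⟩)
          omega
    · intro C' hC' hmem hcut
      by_contra hne
      have h3 : C'.card < C.card := Finset.card_lt_card (hC'.ssubset_of_ne hne)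
      have h4 := hb.park C'.card (by omega)
      have h5 : C.filter (fun x => Function.update b x₀ t x < C'.card) = C' := by
        ext x
        rw [Finset.mem_filter]
        constructor
        · rintro ⟨h6, h7⟩
          exact (hcut.2 x h6).2 h7
        · intro h6
          exact ⟨hC' h6, (hcut.2 x (hC' h6)).1 h6⟩
      have h6 : (C.erase x₀).filter (fun x => b x < C'.card) ⊆ C'.erase x₀ := by
        intro x hx
        rw [Finset.mem_erase]
        refine ⟨(Finset.mem_erase.1 (Finset.mem_filter.1 hx).1).1, ?_⟩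
        rw [← h5]
        exact h2 _ hx
      have h7 := Finset.card_le_card h6
      rw [Finset.card_erase_of_mem hmem] at h7
      have h8 : 0 < C'.card := Finset.card_pos.2 ⟨x₀, hmem⟩
      omega
  · intro a ha
    simp
  · rintro ⟨t, b⟩ h
    rw [Finset.mem_product, mem_PF, Finset.mem_range] at h
    simp only at h ⊢
    have hb0 : b x₀ = 0 := h.2.zero x₀ (Finset.notMem_erase _ _)
    rw [Function.update_self, Function.update_idem, Function.update_eq_self_iff.2 hb0.symm]
  · intro a ha
    rw [Finset.mem_filter, mem_PF] at ha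
    simp only
    rw [← pow_add]
    congr 1
    unfold area
    have e1 : ∑ x ∈ C.erase x₀, Function.update a x₀ 0 x = ∑ x ∈ C.erase x₀, a x := by
      refine Finset.sum_congr rfl fun x hx => ?_
      rw [Function.update_apply, if_neg (Finset.ne_of_mem_erase hx)]
    have e2 := Finset.add_sum_erase C a hx₀
    have e3 := ha.1.sum_le
    have e4 := ha.1.lt hx₀
    have e5 : C.card.choose 2 = (C.card - 1).choose 2 + (C.card - 1) := by
      obtain ⟨m, hm⟩ : ∃ m, C.card = m + 1 := ⟨C.card - 1, by omega⟩
      rw [hm, Nat.add_sub_cancel, Nat.choose_succ_succ' m 1, Nat.choose_one_right]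
      ring
    have e6 := (isPF_erase hx₀ ha.1 ha.2).sum_le
    rw [e1, hcard] at e6
    rw [e1, hcard]
    omega

end Pool.Agent.helper9.Parking
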