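import Pool.Agent.helper9.Parking

set_option autoImplicit false
set_option linter.unusedSectionVars false

/-!
# Prime parking functions by area and uprooted trees by surface inversions
-/

namespace Pool.Agent.helper9.Parking

open Finset Polynomial SetRec ForestOrd

variable {α : Type*} [LinearOrder α] [Fintype α]

theorem PF_empty : PF (∅ : Finset α) = {fun _ => 0} := by
  ext a
  rw [mem_PF, Finset.mem_singleton]
  constructor
  · intro h
    funext x
    exact h.zero x (Finset.notMem_empty _)
  · rintro rfl
    constructor
    · intro x _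
      rfl
    · intro i hi
      rw [Finset.card_empty] at hi
      omega

theorem Pk_eq_φ (V : Finset α) : Pk V = φ V.card := by
  classical
  refine eq_φ_of_rec Pk ?_ (fun V hV ih => ?_) V
  · unfold Pk
    rw [PF_empty]
    simp [area]
  · obtain ⟨y, hy⟩ := hV
    refine ⟨y, hy, ?_⟩
    rw [Pk_eq_sum (Θ := fun C => y ∈ C) hy, Finset.sum_filter]
    refine Finset.sum_congr rfl fun C hC => ?_
    rw [Finset.mem_powerset] at hC
    split_ifs with hyC
    · have h1 : (C.erase y).card = C.card - 1 := Finset.card_erase_of_mem hyC
      rw [M_mem hyC, ih (C.erase y) ?_, h1]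
      have h2 := Finset.card_le_card hC
      have h3 := Finset.card_pos.2 ⟨y, hyC⟩
      omega
    · have : M (fun C' => y ∈ C') C = 0 := by
        unfold M
        rw [Finset.filter_false_of_mem, Finset.sum_empty]
        rintro a _ ⟨h, _⟩
        exact hyC h
      rw [this, zero_mul]

theorem F_eq_Pk (V : Finset α) : F V = Pk V := by
  rw [F_eq_φ, Pk_eq_φ]

/-- area enumerator of prime parking functions -/
noncomputable def Pr (V : Finset α) : ℤ[X] := M (fun C => C.Nonempty) V

theorem Pr_eq_U (V : Finset α) (hV : V.Nonempty) : Pr V = X ^ (V.card - 1) * U V := by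
  classical
  induction hn : V.card using Nat.strong_induction_on generalizing V with
  | _ n ih =>
  subst hn
  have h1 := Pk_eq_sum (Θ := fun C : Finset α => C.Nonempty) hV
  have h2 := U_rec hV
  rw [F_eq_Pk, h1] at h2
  have h3 : V ∈ V.powerset := Finset.mem_powerset_self V
  rw [← Finset.add_sum_erase _ _ h3, ← Finset.add_sum_erase _ _ h3] at h2
  have h4 : ∑ C ∈ V.powerset.erase V, M (fun C => C.Nonempty) C * Pk (V \ C)
      = ∑ C ∈ V.powerset.erase V, X ^ (C.card - 1) * U C * F (V \ C) := by
    refine Finset.sum_congr rfl fun C hC => ?_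
    rw [Finset.mem_erase, Finset.mem_powerset] at hC
    rcases C.eq_empty_or_nonempty with rfl | hne
    · have e1 : M (fun C : Finset α => C.Nonempty) ∅ = 0 := by
        unfold M
        rw [Finset.filter_false_of_mem, Finset.sum_empty]
        rintro a _ ⟨h, _⟩
        exact Finset.not_nonempty_empty h
      have e2 : U (∅ : Finset α) = 0 := by
        unfold U
        rw [Finset.sum_empty]
      rw [e1, e2]
      ring
    · rw [F_eq_Pk]
      congr 1
      exact ih C.card (Finset.card_lt_card (hC.2.ssubset_of_ne hC.1)) C hne rfl
  rw [h4] at h2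
  have h5 := add_right_cancel h2
  rw [Finset.sdiff_self, F_eq_Pk] at h5
  have h6 : Pk (∅ : Finset α) = 1 := by
    rw [Pk_eq_φ, Finset.card_empty, φ_zero]
  rw [h6, mul_one, mul_one] at h5
  exact h5

/-- coefficients of an enumerator -/
theorem coeff_enum {β : Type*} (s : Finset β) (f : β → ℕ) (m : ℕ) :
    (∑ b ∈ s, (X : ℤ[X]) ^ f b).coeff m = ((s.filter (fun b => f b = m)).card : ℤ) := by
  rw [Polynomial.finsetSum_coeff, Finset.card_filter]
  push_cast
  refine Finset.sum_congr rfl fun b _ => ?_
  rw [Polynomial.coeff_X_pow]
  simp only [eq_comm]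

open Classical in
/-- The number of prime parking functions of area `m + (V.card - 1)` equals the number of pairs
(root, forest order on the other vertices with all roots smaller than the root) with `m`
inversions. -/
theorem card_prime_eq (V : Finset α) (hV : V.Nonempty) (m : ℕ) :
    (((PF V).filter (Min (fun C => C.Nonempty) V)).filter
      (fun a => area V a = m + (V.card - 1))).card
      = ∑ r ∈ V, (((FO (V.erase r)).filter (fun R => ∀ s, IsRoot (V.erase r) R s → s < r)).filter
        (fun R => inv R = m)).card := by
  have h := congrArg (fun p => Polynomial.coeff p (m + (V.card - 1))) (Pr_eq_U V hV)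
  beta_reduce at h
  rw [Polynomial.coeff_X_pow_mul] at h
  unfold Pr M U at h
  rw [coeff_enum, Polynomial.finsetSum_coeff] at h
  unfold W at h
  simp only [coeff_enum] at h
  exact_mod_cast h

end Pool.Agent.helper9.Parking
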