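import Mathlib

set_option autoImplicit false

/-!
# Exponential recursions for functions on finite sets

`HasRec w f` says that `f` is the set function that is obtained from the block weight `w` by
summing over set partitions, in its recursive form: the block containing a given element is
split off.
-/

namespace Pool.Agent.helper9.SetRec

open Finset Polynomial

section Rec

variable {α : Type*} [DecidableEq α]

/-- `f` satisfies the exponential recursion with block weights `w`. -/
def HasRec (w f : Finset α → ℤ[X]) : Prop :=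
  f ∅ = 1 ∧ ∀ X : Finset α, ∀ y ∈ X,
    f X = ∑ C ∈ X.powerset.filter (fun C => y ∈ C), w C * f (X \ C)

theorem HasRec.unique {w w' f f' : Finset α → ℤ[X]} (h : HasRec w f) (h' : HasRec w' f')
    (hw : ∀ C, C.Nonempty → w C = w' C) (X : Finset α) : f X = f' X := by
  induction hn : X.card using Nat.strong_induction_on generalizing X with
  | _ n ih =>
  rcases X.eq_empty_or_nonempty with rfl | ⟨y, hy⟩
  · rw [h.1, h'.1]
  · rw [h.2 X y hy, h'.2 X y hy]
    refine Finset.sum_congr rfl fun C hC => ?_
    rw [Finset.mem_filter, Finset.mem_powerset] at hC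
    rw [hw C ⟨y, hC.2⟩, ih (X \ C).card ?_ _ rfl]
    subst hn
    apply Finset.card_lt_card
    refine ⟨Finset.sdiff_subset, fun hsub => ?_⟩
    have := hsub hy
    rw [Finset.mem_sdiff] at this
    exact this.2 hC.2

/-- subset convolution -/
noncomputable def conv (f g : Finset α → ℤ[X]) (X : Finset α) : ℤ[X] :=
  ∑ A ∈ X.powerset, f A * g (X \ A)

theorem HasRec.conv {w w' f g : Finset α → ℤ[X]} (hf : HasRec w f) (hg : HasRec w' g) :
    HasRec (fun C => w C + w' C) (conv f g) := by
  constructor
  · simp [SetRec.conv, hf.1, hg.1]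
  · intro X y hy
    have h1 : SetRec.conv f g X
        = ∑ A ∈ X.powerset.filter (fun A => y ∈ A), f A * g (X \ A)
          + ∑ A ∈ X.powerset.filter (fun A => ¬ y ∈ A), f A * g (X \ A) := by
      rw [Finset.sum_filter_add_sum_filter_not]
      rfl
    rw [h1]
    have h2 : ∑ A ∈ X.powerset.filter (fun A => y ∈ A), f A * g (X \ A)
        = ∑ C ∈ X.powerset.filter (fun C => y ∈ C), w C * SetRec.conv f g (X \ C) := by
      have : ∀ A ∈ X.powerset.filter (fun A => y ∈ A), f A * g (X \ A)
          = ∑ C ∈ A.powerset.filter (fun C => y ∈ C), w C * (f (A \ C) * g (X \ A)) := by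
        intro A hA
        rw [Finset.mem_filter] at hA
        rw [hf.2 A y hA.2, Finset.sum_mul]
        refine Finset.sum_congr rfl fun C _ => ?_
        ring
      rw [Finset.sum_congr rfl this]
      simp only [SetRec.conv, Finset.mul_sum]
      rw [Finset.sum_sigma', Finset.sum_sigma']
      refine Finset.sum_bij' (fun p _ => ⟨p.2, p.1 \ p.2⟩) (fun p _ => ⟨p.1 ∪ p.2, p.1⟩)
        ?_ ?_ ?_ ?_ ?_
      · rintro ⟨A, C⟩ h
        simp only [Finset.mem_sigma, Finset.mem_filter, Finset.mem_powerset] at h ⊢
        refine ⟨⟨h.2.1.trans h.1.1, h.2.2⟩, ?_⟩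
        exact Finset.sdiff_subset_sdiff h.1.1 (le_refl _)
      · rintro ⟨C, A⟩ h
        simp only [Finset.mem_sigma, Finset.mem_filter, Finset.mem_powerset] at h ⊢
        refine ⟨⟨Finset.union_subset h.1.1 (h.2.trans Finset.sdiff_subset), ?_⟩, ?_, h.1.2⟩
        · exact Finset.mem_union_left _ h.1.2
        · exact Finset.subset_union_left
      · rintro ⟨A, C⟩ h
        simp only [Finset.mem_sigma, Finset.mem_filter, Finset.mem_powerset] at h
        simp only [Finset.union_sdiff_of_subset h.2.1]
      · rintro ⟨C, A⟩ h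
        simp only [Finset.mem_sigma, Finset.mem_filter, Finset.mem_powerset] at h
        have hd : Disjoint C A := by
          rw [Finset.disjoint_left]
          intro x hx hxA
          exact (Finset.mem_sdiff.1 (h.2 hxA)).2 hx
        simp only [Finset.union_sdiff_cancel_left hd]
      · rintro ⟨A, C⟩ h
        simp only [Finset.mem_sigma, Finset.mem_filter, Finset.mem_powerset] at h
        have : (X \ C) \ (A \ C) = X \ A := by
          ext x
          have := @h.2.1 x
          simp only [Finset.mem_sdiff]
          tauto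
        simp only [this]
    have h3 : ∑ A ∈ X.powerset.filter (fun A => ¬ y ∈ A), f A * g (X \ A)
        = ∑ C ∈ X.powerset.filter (fun C => y ∈ C), w' C * SetRec.conv f g (X \ C) := by
      have : ∀ A ∈ X.powerset.filter (fun A => ¬ y ∈ A), f A * g (X \ A)
          = ∑ C ∈ (X \ A).powerset.filter (fun C => y ∈ C),
              w' C * (f A * g ((X \ A) \ C)) := by
        intro A hA
        rw [Finset.mem_filter] at hA
        rw [hg.2 (X \ A) y (Finset.mem_sdiff.2 ⟨hy, hA.2⟩), Finset.mul_sum]
        refine Finset.sum_congr rfl fun C _ => ?_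
        ring
      rw [Finset.sum_congr rfl this]
      simp only [SetRec.conv, Finset.mul_sum]
      rw [Finset.sum_sigma', Finset.sum_sigma']
      refine Finset.sum_bij' (fun p _ => ⟨p.2, p.1⟩) (fun p _ => ⟨p.2, p.1⟩)
        ?_ ?_ ?_ ?_ ?_
      · rintro ⟨A, C⟩ h
        simp only [Finset.mem_sigma, Finset.mem_filter, Finset.mem_powerset] at h ⊢
        refine ⟨⟨h.2.1.trans Finset.sdiff_subset, h.2.2⟩, ?_⟩
        intro x hx
        rw [Finset.mem_sdiff]
        exact ⟨h.1.1 hx, fun hxC => (Finset.mem_sdiff.1 (h.2.1 hxC)).2 hx⟩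
      · rintro ⟨C, A⟩ h
        simp only [Finset.mem_sigma, Finset.mem_filter, Finset.mem_powerset] at h ⊢
        refine ⟨⟨h.2.trans Finset.sdiff_subset, ?_⟩, ?_, h.1.2⟩
        · intro hyA
          exact (Finset.mem_sdiff.1 (h.2 hyA)).2 h.1.2
        · intro x hx
          rw [Finset.mem_sdiff]
          exact ⟨h.1.1 hx, fun hxA => (Finset.mem_sdiff.1 (h.2 hxA)).2 hx⟩
      · rintro ⟨A, C⟩ h
        rfl
      · rintro ⟨C, A⟩ h
        rfl
      · rintro ⟨A, C⟩ h
        simp only [sdiff_right_comm]
    rw [h2, h3, ← Finset.sum_add_distrib]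
    refine Finset.sum_congr rfl fun C _ => ?_
    ring

theorem HasRec.twist {w f : Finset α → ℤ[X]} (hf : HasRec w f) (c : α → ℤ[X]) :
    HasRec (fun C => (∏ x ∈ C, c x) * w C) (fun X => (∏ x ∈ X, c x) * f X) := by
  constructor
  · simp [hf.1]
  · intro X y hy
    simp only
    rw [hf.2 X y hy, Finset.mul_sum]
    refine Finset.sum_congr rfl fun C hC => ?_
    rw [Finset.mem_filter, Finset.mem_powerset] at hC
    rw [← Finset.prod_sdiff hC.1]
    ring

end Rec

/-- the `q`-integer `1 + q + ⋯ + q^(m-1)` -/
noncomputable def qi (m : ℕ) : ℤ[X] := ∑ i ∈ Finset.range m, X ^ i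

theorem qi_add (m n : ℕ) : qi (m + n) = qi m + X ^ m * qi n := by
  unfold qi
  rw [Finset.sum_range_add, Finset.mul_sum]
  congr 1
  refine Finset.sum_congr rfl fun i _ => ?_
  rw [pow_add]

theorem sum_rank {α : Type*} [LinearOrder α] (C : Finset α) :
    ∑ s ∈ C, (X : ℤ[X]) ^ (C.filter (fun y => y < s)).card = qi C.card := by
  induction C using Finset.induction_on_max with
  | empty => simp [qi]
  | insert a C ha ih =>
    have haC : a ∉ C := fun h => lt_irrefl _ (ha a h)
    rw [Finset.sum_insert haC, Finset.card_insert_of_notMem haC]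
    have h1 : (insert a C).filter (fun y => y < a) = C := by
      ext x
      simp only [Finset.mem_filter, Finset.mem_insert]
      constructor
      · rintro ⟨rfl | h, h2⟩
        · exact absurd h2 (lt_irrefl _)
        · exact h
      · intro h
        exact ⟨Or.inr h, ha x h⟩
    have h2 : ∀ s ∈ C, (X : ℤ[X]) ^ ((insert a C).filter (fun y => y < s)).card
        = X ^ (C.filter (fun y => y < s)).card := by
      intro s hs
      congr 2
      rw [Finset.filter_insert, if_neg]
      exact not_lt.2 (ha s hs).le
    rw [h1, Finset.sum_congr rfl h2, ih]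
    unfold qi
    rw [Finset.sum_range_succ]
    ring

theorem sum_rank_lt {α : Type*} [LinearOrder α] (C : Finset α) (r : α) :
    ∑ s ∈ C.filter (fun s => s < r), (X : ℤ[X]) ^ (C.filter (fun y => y < s)).card
      = qi (C.filter (fun s => s < r)).card := by
  rw [← sum_rank]
  refine Finset.sum_congr rfl fun s hs => ?_
  congr 2
  rw [Finset.mem_filter] at hs
  ext y
  simp only [Finset.mem_filter]
  constructor
  · rintro ⟨h1, h2⟩
    exact ⟨⟨h1, h2.trans hs.2⟩, h2⟩
  · rintro ⟨⟨h1, _⟩, h2⟩
    exact ⟨h1, h2⟩

end Pool.Agent.helper9.SetRec
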